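import Pool.Agent.Lib.MP_ca0971_gt.OT.Sm.Def

set_option autoImplicit false

namespace Pool.Agent.Lib.MP_ca0971_gt.OT.Sm

open Set Metric Filter Topology

/-- The derivative is continuous on the closed disc. -/
theorem adme_cont (g : ℂ → E) (hg : Gd g) :
    ContinuousOn (fderiv ℝ g) (closedBall (0 : ℂ) 1) := by
  obtain ⟨U, hU, hsub, hc⟩ := hg.smooth
  refine (hc.continuousOn_fderiv_of_isOpen hU ?_).mono hsub
  exact_mod_cast le_top

/-- The function is continuous on the closed disc. -/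
theorem adme_gcont (g : ℂ → E) (hg : Gd g) : ContinuousOn g (closedBall (0 : ℂ) 1) := by
  obtain ⟨U, hU, hsub, hc⟩ := hg.smooth
  exact hc.continuousOn.mono hsub

/-- The function has a derivative in the closed disc. -/
theorem adme_has (g : ℂ → E) (hg : Gd g) (p : ℂ) (hp : p ∈ closedBall (0 : ℂ) 1) :
    HasFDerivAt g (fderiv ℝ g p) p := by
  obtain ⟨U, hU, hsub, hc⟩ := hg.smooth
  have h1 : DifferentiableOn ℝ g U := hc.differentiableOn (by simp)
  exact (h1.differentiableAt (hU.mem_nhds (hsub hp))).hasFDerivAt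

/-- The derivative is uniformly injective on the compact disc. -/
theorem deriv_lo (g : ℂ → E) (hg : Gd g) :
    ∃ c : ℝ, 0 < c ∧ ∀ p ∈ closedBall (0 : ℂ) 1, ∀ u : ℂ, c * ‖u‖ ≤ ‖fderiv ℝ g p u‖ := by
  have hK : IsCompact (closedBall (0 : ℂ) 1 ×ˢ sphere (0 : ℂ) 1) :=
    (isCompact_closedBall _ _).prod (isCompact_sphere _ _)
  have hcont : ContinuousOn (fun x : ℂ × ℂ => ‖fderiv ℝ g x.1 x.2‖)
      (closedBall (0 : ℂ) 1 ×ˢ sphere (0 : ℂ) 1) := by
    refine ContinuousOn.norm (ContinuousOn.clm_apply ?_ continuousOn_snd)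
    exact (adme_cont g hg).comp continuousOn_fst fun x hx => hx.1
  have hpos : ∀ x ∈ closedBall (0 : ℂ) 1 ×ˢ sphere (0 : ℂ) 1,
      0 < ‖fderiv ℝ g x.1 x.2‖ := by
    rintro ⟨p, u⟩ ⟨hp, hu⟩
    rw [norm_pos_iff]
    intro h0
    have h1 : u = 0 := hg.imm p hp (by
      rw [map_zero]
      exact h0)
    rw [mem_sphere_zero_iff_norm] at hu
    simp only at hu
    rw [h1, norm_zero] at hu
    exact zero_ne_one hu
  obtain ⟨c, hc, hle⟩ := hK.exists_forall_le' hcont hpos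
  refine ⟨c, hc, fun p hp u => ?_⟩
  by_cases hu : u = 0
  · simp [hu]
  have hn : 0 < ‖u‖ := norm_pos_iff.mpr hu
  have h1 := hle (p, (‖u‖⁻¹ : ℝ) • u) ⟨hp, by
    rw [mem_sphere_zero_iff_norm, norm_smul, norm_inv, norm_norm, inv_mul_cancel₀ hn.ne']⟩
  simp only [map_smul, norm_smul, norm_inv, norm_norm] at h1
  rw [inv_mul_eq_div, le_div_iff₀ hn] at h1
  exact h1

/-- Second order Taylor bound (the derivative is Lipschitz on the compact convex disc: its derivative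
is continuous on the disc) and a bound of the derivative. -/
theorem taylor (g : ℂ → E) (hg : Gd g) :
    ∃ M : ℝ, 0 < M ∧ (∀ z ∈ closedBall (0 : ℂ) 1, ∀ w ∈ closedBall (0 : ℂ) 1,
      ‖g z - g w - fderiv ℝ g w (z - w)‖ ≤ M * ‖z - w‖ ^ 2) ∧
      ∀ w ∈ closedBall (0 : ℂ) 1, ‖fderiv ℝ g w‖ ≤ M := by
  obtain ⟨U, hU, hsub, hc⟩ := hg.smooth
  have h1 : ContDiffOn ℝ 1 (fderiv ℝ g) U :=
    hc.fderiv_of_isOpen hU (by
      have h0 : ((2 : ℕ∞) : WithTop ℕ∞) ≤ ((⊤ : ℕ∞) : WithTop ℕ∞) := WithTop.coe_le_coe.mpr le_top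
      rw [one_add_one_eq_two]
      exact h0)
  have h2 : ContinuousOn (fderiv ℝ (fderiv ℝ g)) (closedBall (0 : ℂ) 1) :=
    (h1.continuousOn_fderiv_of_isOpen hU le_rfl).mono hsub
  obtain ⟨A, hA⟩ : ∃ A : ℝ, ∀ x ∈ closedBall (0 : ℂ) 1, ‖fderiv ℝ (fderiv ℝ g) x‖ ≤ A := by
    obtain ⟨A, hA⟩ := (isCompact_closedBall (0 : ℂ) 1).bddAbove_image
      (ContinuousOn.norm (E := ℂ →L[ℝ] ℂ →L[ℝ] E) h2)
    exact ⟨A, fun x hx => hA (mem_image_of_mem _ hx)⟩
  obtain ⟨A', hA'⟩ := (isCompact_closedBall (0 : ℂ) 1).exists_bound_of_continuousOn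
    (adme_cont g hg)
  have hconv : Convex ℝ (closedBall (0 : ℂ) 1) := convex_closedBall _ _
  have hlip : ∀ z ∈ closedBall (0 : ℂ) 1, ∀ w ∈ closedBall (0 : ℂ) 1,
      ‖fderiv ℝ g z - fderiv ℝ g w‖ ≤ A * ‖z - w‖ := by
    intro z hz w hw
    refine hconv.norm_image_sub_le_of_norm_hasFDerivWithin_le (f' := fderiv ℝ (fderiv ℝ g))
      (fun x hx => ?_) (fun x hx => hA x hx) hw hz
    have h3 : DifferentiableAt ℝ (fderiv ℝ g) x :=
      (h1.differentiableOn one_ne_zero).differentiableAt (hU.mem_nhds (hsub hx))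
    exact h3.hasFDerivAt.hasFDerivWithinAt
  have hA0 : 0 ≤ A := (norm_nonneg (E := ℂ →L[ℝ] ℂ →L[ℝ] E) _).trans (hA 0 (by simp))
  refine ⟨max (max A A') 1, lt_max_of_lt_right one_pos, fun z hz w hw => ?_, fun w hw =>
    (hA' w hw).trans ((le_max_right _ _).trans (le_max_left _ _))⟩
  have hseg : segment ℝ w z ⊆ closedBall (0 : ℂ) 1 := hconv.segment_subset hw hz
  have h4 := (convex_segment w z).norm_image_sub_le_of_norm_hasFDerivWithin_le'
    (f := g) (f' := fderiv ℝ g) (φ := fderiv ℝ g w) (C := A * ‖z - w‖)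
    (fun x hx => (adme_has g hg x (hseg hx)).hasFDerivWithinAt)
    (fun x hx => by
      refine (hlip x (hseg hx) w hw).trans (mul_le_mul_of_nonneg_left ?_ hA0)
      have h5 := norm_sub_le_of_mem_segment hx
      exact h5)
    (left_mem_segment ℝ w z) (right_mem_segment ℝ w z)
  refine h4.trans ?_
  rw [mul_assoc, ← sq]
  exact mul_le_mul_of_nonneg_right ((le_max_left _ _).trans (le_max_left _ _)) (sq_nonneg _)

/-- Bi-Lipschitz: near the diagonal by `deriv_lo` and `taylor`, away from it by compactness and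
injectivity. -/
theorem bilip (g : ℂ → E) (hg : Gd g) :
    ∃ c : ℝ, 0 < c ∧ ∀ z ∈ closedBall (0 : ℂ) 1, ∀ w ∈ closedBall (0 : ℂ) 1,
      c * ‖z - w‖ ≤ ‖g z - g w‖ := by
  obtain ⟨M, hM, hty, -⟩ := taylor g hg
  obtain ⟨c, hc, hlo⟩ := deriv_lo g hg
  have hδ : 0 < c / (2 * M) := by positivity
  set K : Set (ℂ × ℂ) := (closedBall (0 : ℂ) 1 ×ˢ closedBall (0 : ℂ) 1) ∩
    {x | c / (2 * M) ≤ ‖x.1 - x.2‖} with hKdef
  have hK : IsCompact K := by
    refine ((isCompact_closedBall _ _).prod (isCompact_closedBall _ _)).inter_right ?_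
    exact isClosed_le continuous_const (continuous_fst.sub continuous_snd).norm
  have hcont : ContinuousOn (fun x : ℂ × ℂ => ‖g x.1 - g x.2‖) K := by
    refine ContinuousOn.norm (ContinuousOn.sub ?_ ?_)
    · exact (adme_gcont g hg).comp continuousOn_fst fun x hx => hx.1.1
    · exact (adme_gcont g hg).comp continuousOn_snd fun x hx => hx.1.2
  have hpos : ∀ x ∈ K, 0 < ‖g x.1 - g x.2‖ := by
    rintro ⟨z, w⟩ ⟨⟨hz, hw⟩, hd⟩
    rw [norm_pos_iff, sub_ne_zero]
    intro h0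
    have h1 : z = w := hg.inj hz hw h0
    simp only [mem_ofPred_eq, h1, sub_self, norm_zero] at hd
    linarith
  obtain ⟨c', hc', hle⟩ := hK.exists_forall_le' hcont hpos
  refine ⟨min (c / 2) (c' / 2), lt_min (by positivity) (by positivity), fun z hz w hw => ?_⟩
  by_cases hd : c / (2 * M) ≤ ‖z - w‖
  · have h1 := hle (z, w) ⟨⟨hz, hw⟩, hd⟩
    have h2 : ‖z - w‖ ≤ 2 := by
      have h3 : ‖z‖ ≤ 1 := by simpa using hz
      have h4 : ‖w‖ ≤ 1 := by simpa using hw
      exact (norm_sub_le _ _).trans (by linarith)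
    calc min (c / 2) (c' / 2) * ‖z - w‖ ≤ (c' / 2) * 2 :=
          mul_le_mul (min_le_right _ _) h2 (norm_nonneg _) (by positivity)
      _ = c' := by ring
      _ ≤ _ := h1
  · push Not at hd
    have h1 := hlo w hw (z - w)
    have h2 := hty z hz w hw
    have h3 : ‖fderiv ℝ g w (z - w)‖ ≤ ‖g z - g w‖ + M * ‖z - w‖ ^ 2 := by
      have h4 : fderiv ℝ g w (z - w) = (g z - g w) - (g z - g w - fderiv ℝ g w (z - w)) := by
        abel
      calc ‖fderiv ℝ g w (z - w)‖ = ‖(g z - g w) - (g z - g w - fderiv ℝ g w (z - w))‖ := by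
            rw [← h4]
        _ ≤ ‖g z - g w‖ + ‖g z - g w - fderiv ℝ g w (z - w)‖ := norm_sub_le _ _
        _ ≤ _ := by linarith
    have h5 : M * ‖z - w‖ ^ 2 ≤ (c / 2) * ‖z - w‖ := by
      rw [sq, ← mul_assoc]
      refine mul_le_mul_of_nonneg_right ?_ (norm_nonneg _)
      have h6 : M * ‖z - w‖ ≤ M * (c / (2 * M)) := mul_le_mul_of_nonneg_left hd.le hM.le
      have h7 : M * (c / (2 * M)) = c / 2 := by
        field_simp
      linarith
    have h8 : min (c / 2) (c' / 2) * ‖z - w‖ ≤ (c / 2) * ‖z - w‖ :=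
      mul_le_mul_of_nonneg_right (min_le_left _ _) (norm_nonneg _)
    linarith

/-- `AdmS`: the map `(p, u, t) ↦ ‖g' p u - t eZ‖` is continuous and positive on the compact set
`|p| = 1, Re (conj p u) ≤ 0, t ≥ 0, ‖u‖ + t = 1`: apply `cE (g p)` (linear in the second argument,
`cE p eZ = 1`): `0 ≥ cE (g p) (g' p u) = t`, so `t = 0` and `g' p u = 0`, `u = 0`. -/
theorem shift_lo (g : ℂ → E) (hg : Gd g) :
    ∃ c : ℝ, 0 < c ∧ AdmS c (fderiv ℝ g) := by
  set K : Set (ℂ × ℂ × ℝ) := (sphere (0 : ℂ) 1 ×ˢ (closedBall (0 : ℂ) 1 ×ˢ Icc (0 : ℝ) 1)) ∩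
    {x | (starRingEnd ℂ x.1 * x.2.1).re ≤ 0 ∧ ‖x.2.1‖ + x.2.2 = 1} with hKdef
  have hK : IsCompact K := by
    refine ((isCompact_sphere _ _).prod ((isCompact_closedBall _ _).prod
      isCompact_Icc)).inter_right ?_
    refine IsClosed.inter ?_ ?_
    · refine isClosed_le (Complex.continuous_re.comp ?_) continuous_const
      exact (Complex.continuous_conj.comp continuous_fst).mul (continuous_fst.comp continuous_snd)
    · refine isClosed_eq ?_ continuous_const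
      exact (continuous_fst.comp continuous_snd).norm.add (continuous_snd.comp continuous_snd)
  have hcont : ContinuousOn (fun x : ℂ × ℂ × ℝ => ‖fderiv ℝ g x.1 x.2.1 - x.2.2 • eZ‖) K := by
    refine ContinuousOn.norm (ContinuousOn.sub (ContinuousOn.clm_apply ?_ ?_) ?_)
    · exact (adme_cont g hg).comp continuousOn_fst fun x hx => sphere_subset_closedBall hx.1.1
    · exact (continuous_fst.comp continuous_snd).continuousOn
    · exact ((continuous_snd.comp continuous_snd).smul continuous_const).continuousOn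
  have hpos : ∀ x ∈ K, 0 < ‖fderiv ℝ g x.1 x.2.1 - x.2.2 • eZ‖ := by
    rintro ⟨p, u, t⟩ ⟨⟨hp, hu, ht⟩, hre, hsum⟩
    rw [norm_pos_iff, sub_ne_zero]
    intro h0
    simp only at h0 hre hsum hp ht
    have h1 := hg.inw p hp u hre
    rw [h0] at h1
    have h2 : cE (g p) (t • eZ) = t := by
      simp [cE, eZ]
    rw [h2] at h1
    have h3 : t = 0 := le_antisymm h1 ht.1
    rw [h3, zero_smul] at h0
    have h4 : u = 0 := hg.imm p (sphere_subset_closedBall hp) (by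
      rw [map_zero]
      exact h0)
    rw [h3, h4] at hsum
    simp at hsum
  obtain ⟨c, hc, hle⟩ := hK.exists_forall_le' hcont hpos
  refine ⟨c, hc, fun p hp u hu t ht => ?_⟩
  have hs0 : 0 ≤ ‖u‖ + t := add_nonneg (norm_nonneg _) ht
  rcases hs0.eq_or_lt with hs | hs
  · rw [← hs, mul_zero]
    exact norm_nonneg _
  set s := ‖u‖ + t with hsdef
  have h1 := hle (p, (s⁻¹ : ℝ) • u, s⁻¹ * t) (by
    have hsum : ‖(s⁻¹ : ℝ) • u‖ + s⁻¹ * t = 1 := by
      rw [norm_smul, norm_inv, Real.norm_of_nonneg hs0, ← mul_add, ← hsdef,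
        inv_mul_cancel₀ hs.ne']
    have ht' : 0 ≤ s⁻¹ * t := by positivity
    have hu' : 0 ≤ ‖(s⁻¹ : ℝ) • u‖ := norm_nonneg _
    refine ⟨⟨hp, ?_, ht', ?_⟩, ?_, hsum⟩
    · rw [mem_closedBall_zero_iff]
      simp only
      linarith
    · simp only
      linarith
    · simp only
      have h2 : starRingEnd ℂ p * ((s⁻¹ : ℝ) • u) = (s⁻¹ : ℝ) • (starRingEnd ℂ p * u) := by
        rw [mul_smul_comm]
      rw [h2, Complex.smul_re, smul_eq_mul]
      exact mul_nonpos_of_nonneg_of_nonpos (inv_nonneg.mpr hs0) hu)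
  simp only at h1
  have h2 : fderiv ℝ g p ((s⁻¹ : ℝ) • u) - (s⁻¹ * t) • eZ =
      (s⁻¹ : ℝ) • (fderiv ℝ g p u - t • eZ) := by
    rw [map_smul, smul_sub, smul_smul]
  rw [h2, norm_smul, norm_inv, Real.norm_of_nonneg hs0, inv_mul_eq_div, le_div_iff₀ hs] at h1
  exact h1

theorem exists_adm (g : ℂ → E) (hg : Gd g) :
    ∃ c M : ℝ, 0 < c ∧ 0 < M ∧ Adm c M g (fderiv ℝ g) ∧ AdmS c (fderiv ℝ g) := by
  obtain ⟨M, hM, hty, hup⟩ := taylor g hg
  obtain ⟨c, hc, hlo⟩ := bilip g hg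
  obtain ⟨c', hc', hs⟩ := shift_lo g hg
  refine ⟨min c c', M, lt_min hc hc', hM, ⟨fun z hz w hw => ?_, hty, hup⟩, fun p hp u hu t ht => ?_⟩
  · refine le_trans ?_ (hlo z hz w hw)
    gcongr
    exact min_le_left _ _
  · refine le_trans ?_ (hs p hp u hu t ht)
    gcongr
    exact min_le_right _ _

end Pool.Agent.Lib.MP_ca0971_gt.OT.Sm
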