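import Pool.Agent.Lib.MP_ca0971_gt.OT.Sm.ChB

set_option autoImplicit false

namespace Pool.Agent.Lib.MP_ca0971_gt.OT.Sm

open Set Metric Filter Topology

/-- Periodicity in the column. -/
theorem chC_ix (T m : ℕ) (r : ℕ) {k k' : ℤ} (h : (k : ZMod m) = (k' : ZMod m)) :
    ix T m r k = ix T m r k' := by
  unfold ix
  rw [h]

/-- `polyL` of the row `0` = union of the edges. -/
theorem polyL_row0 (T m : ℕ) (hm : 5 ≤ m) (F : Fin (T + 1) × ZMod m → E) (x : E)
    (hx : x ∈ polyL ((row0 T m).map F)) :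
    ∃ i : ℕ, i < m ∧ x ∈ segment ℝ (F (ix T m 0 i)) (F (ix T m 0 (i + 1))) := by
  obtain ⟨e, he, hx⟩ := hx
  obtain ⟨i, hi, rfl⟩ := List.mem_iff_getElem.1 he
  have hlen : ((row0 T m).map F).length = m := by
    unfold row0
    rw [List.length_map, List.length_map, List.length_range]
  have hi' : i < m := by
    rw [List.length_zip, List.length_rotate, hlen, min_self] at hi
    exact hi
  refine ⟨i, hi', ?_⟩
  have hg : ∀ (k : ℕ) (hk : k < ((row0 T m).map F).length),
      ((row0 T m).map F)[k] = F (ix T m 0 k) := by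
    intro k hk
    simp only [List.getElem_map, row0, List.getElem_range]
  rw [List.getElem_zip] at hx
  simp only [List.getElem_rotate, hg, hlen] at hx
  have h2 : ix T m 0 (((i + 1) % m : ℕ) : ℤ) = ix T m 0 ((i : ℤ) + 1) := by
    refine chC_ix T m 0 ?_
    rw [Int.cast_natCast, ZMod.natCast_mod]
    push_cast
    rfl
  rwa [h2] at hx

/-- The conditions at `F` give the chain for all small shifts. (Finitely many conditions `SD` by
periodicity in `k` and `i`.) -/
theorem chain_of_loc (T m : ℕ) (hm : 5 ≤ m) (F : Fin (T + 1) × ZMod m → E)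
    (hL : Loc T m fun j k => F (ix T m j k)) (hS : Shf T m fun j k => F (ix T m j k)) :
    ∃ τ0 : ℝ, 0 < τ0 ∧ ∀ τ, 0 < τ → τ < τ0 →
      Chain F (shf τ (polyL ((row0 T m).map F))) (row0 T m) := by
  have e1 : ∀ᶠ t in 𝓝[>] (0 : ℝ), ∀ j ∈ Finset.range T, ∀ s ∈ Finset.range (T + 1),
      ∀ k ∈ Finset.range m, ∀ i ∈ Finset.range m, Ly j s →
      Disjoint (convexHull ℝ {F (ix T m s (k : ℤ)), F (ix T m j ((k : ℤ) + 1)),
        F (ix T m (j + 1) ((k : ℤ) + 1))})
        (shf t (segment ℝ (F (ix T m 0 (i : ℤ))) (F (ix T m 0 ((i : ℤ) + 1))))) := by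
    rw [Filter.eventually_all_finset]
    intro j hj
    rw [Filter.eventually_all_finset]
    intro s _
    rw [Filter.eventually_all_finset]
    intro k _
    rw [Filter.eventually_all_finset]
    intro i _
    by_cases h : Ly j s
    · filter_upwards [hS.sr j (Finset.mem_range.1 hj) s h k i] with t ht _
      exact ht
    · exact Eventually.of_forall fun t h' => absurd h' h
  have e2 : ∀ᶠ t in 𝓝[>] (0 : ℝ), ∀ j ∈ Finset.range T, ∀ s ∈ Finset.range (T + 1),
      ∀ k ∈ Finset.range m, ∀ i ∈ Finset.range m, Ly j s →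
      Disjoint (convexHull ℝ {F (ix T m s ((k : ℤ) + 1)), F (ix T m j (k : ℤ)),
        F (ix T m (j + 1) (k : ℤ))})
        (shf t (segment ℝ (F (ix T m 0 (i : ℤ))) (F (ix T m 0 ((i : ℤ) + 1))))) := by
    rw [Filter.eventually_all_finset]
    intro j hj
    rw [Filter.eventually_all_finset]
    intro s _
    rw [Filter.eventually_all_finset]
    intro k _
    rw [Filter.eventually_all_finset]
    intro i _
    by_cases h : Ly j s
    · filter_upwards [hS.sl j (Finset.mem_range.1 hj) s h k i] with t ht _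
      exact ht
    · exact Eventually.of_forall fun t h' => absurd h' h
  have e3 : ∀ᶠ t in 𝓝[>] (0 : ℝ), ∀ k ∈ Finset.Icc (2 : ℤ) ((m : ℤ) - 1),
      ∀ i ∈ Finset.range m,
      Disjoint (convexHull ℝ {F (ix T m T (k - 1)), F (ix T m T k), F (ix T m T 0)})
        (shf t (segment ℝ (F (ix T m 0 (i : ℤ))) (F (ix T m 0 ((i : ℤ) + 1))))) := by
    rw [Filter.eventually_all_finset]
    intro k hk
    rw [Finset.mem_Icc] at hk
    rw [Filter.eventually_all_finset]
    intro i _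
    exact hS.sf k hk.1 (by linarith [hk.2]) i
  obtain ⟨τ0, hτ0, hsub⟩ := mem_nhdsGT_iff_exists_Ioo_subset.1 ((e1.and e2).and e3)
  refine ⟨τ0, hτ0, fun τ h0 h1 => ?_⟩
  obtain ⟨⟨g1, g2⟩, g3⟩ := hsub ⟨h0, h1⟩
  have hm0 : (0 : ℤ) < m := by
    have : (5 : ℤ) ≤ m := by exact_mod_cast hm
    linarith
  have hk' : ∀ k : ℤ, ∃ k' : ℕ, k' ∈ Finset.range m ∧ (((k' : ℕ) : ℤ) : ZMod m) = (k : ZMod m) := by
    intro k
    refine ⟨(k % m).toNat, ?_, ?_⟩
    · rw [Finset.mem_range]
      have h2 := Int.emod_lt_of_pos k hm0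
      have h3 := Int.emod_nonneg k hm0.ne'
      omega
    · rw [Int.toNat_of_nonneg (Int.emod_nonneg k hm0.ne'), ZMod.intCast_mod]
  have hs1 : ∀ {k k' : ℤ}, (k : ZMod m) = (k' : ZMod m) →
      ((k + 1 : ℤ) : ZMod m) = ((k' + 1 : ℤ) : ZMod m) := by
    intro k k' h
    push_cast
    rw [h]
  have hdis : ∀ A : Set E, (∀ i ∈ Finset.range m, Disjoint A
      (shf τ (segment ℝ (F (ix T m 0 ((i : ℕ) : ℤ))) (F (ix T m 0 (((i : ℕ) : ℤ) + 1)))))) →
      Disjoint A (shf τ (polyL ((row0 T m).map F))) := by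
    intro A hA
    rw [Set.disjoint_left]
    rintro x hx ⟨y, hy, rfl⟩
    obtain ⟨i, hi, hy'⟩ := polyL_row0 T m hm F y hy
    exact Set.disjoint_left.1 (hA i (Finset.mem_range.2 hi)) hx ⟨y, hy', rfl⟩
  have hLy : ∀ {j s : ℕ}, j < T → Ly j s → s ∈ Finset.range (T + 1) := by
    intro j s hj h
    rw [Finset.mem_range]
    rcases h with h | h <;> omega
  refine chain_all T m hm F _ hL ?_ ?_ ?_
  · intro j hj s hs k
    obtain ⟨k', hk1, hk2⟩ := hk' k
    refine hdis _ fun i hi => ?_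
    have h := g1 j (Finset.mem_range.2 hj) s (hLy hj hs) k' hk1 i hi hs
    rwa [chC_ix T m s hk2, chC_ix T m j (hs1 hk2), chC_ix T m (j + 1) (hs1 hk2)] at h
  · intro j hj s hs k
    obtain ⟨k', hk1, hk2⟩ := hk' k
    refine hdis _ fun i hi => ?_
    have h := g2 j (Finset.mem_range.2 hj) s (hLy hj hs) k' hk1 i hi hs
    rwa [chC_ix T m s (hs1 hk2), chC_ix T m j hk2, chC_ix T m (j + 1) hk2] at h
  · intro k hk1 hk2
    exact hdis _ fun i hi => g3 k (Finset.mem_Icc.2 ⟨hk1, by linarith⟩) i hi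

end Pool.Agent.Lib.MP_ca0971_gt.OT.Sm
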