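import Pool.Agent.Lib.MP_ca0971_gt.OT.Sm.Def

set_option autoImplicit false

namespace Pool.Agent.Lib.MP_ca0971_gt.OT.Sm

open Set Metric Filter Topology

/-- `g` in the coordinate `ζ`. -/
noncomputable def fG (g : ℂ → E) (z : ℂ) : E := g (Complex.exp z)

noncomputable def fG' (g' : ℂ → (ℂ →L[ℝ] E)) (z : ℂ) : ℂ →L[ℝ] E :=
  (g' (Complex.exp z)).comp (ContinuousLinearMap.mul ℝ ℂ (Complex.exp z))

theorem fG'_apply (g' : ℂ → (ℂ →L[ℝ] E)) (z u : ℂ) :
    fG' g' z u = g' (Complex.exp z) (Complex.exp z * u) := rfl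

/-- `|exp x - 1| ≥ |x| / 3` for `-1 ≤ x`. -/
theorem abs_exp_sub_one_lo {x : ℝ} (hx : -1 ≤ x) : |x| / 3 ≤ |Real.exp x - 1| := by
  rcases le_total 0 x with h | h
  · have h1 := Real.add_one_le_exp x
    rw [abs_of_nonneg h, abs_of_nonneg (by linarith)]
    linarith
  · have h1 := Real.add_one_le_exp (-x)
    have h2 : Real.exp x * Real.exp (-x) = 1 := by rw [← Real.exp_add]; simp
    have h3 : Real.exp 1 < 3 := Real.exp_one_lt_three
    have h4 : Real.exp (-x) ≤ Real.exp 1 := Real.exp_le_exp.2 (by linarith)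
    have h5 : 1 / 3 ≤ Real.exp x := by
      have h6 := Real.exp_pos x
      nlinarith
    have h7 : Real.exp x ≤ 1 := by
      have := Real.exp_le_exp.2 h
      simpa using this
    rw [abs_of_nonpos h, abs_of_nonpos (by linarith)]
    nlinarith

/-- `|exp u - 1| ≥ |u| / 3` for `|Re u| ≤ 1`, `|Im u| ≤ π` -/
theorem norm_exp_sub_one_lo {u : ℂ} (h1 : |u.re| ≤ 1) (h2 : |u.im| ≤ Real.pi) :
    ‖u‖ / 3 ≤ ‖Complex.exp u - 1‖ := by
  have hx : (-1 : ℝ) ≤ u.re := (abs_le.1 h1).1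
  have e1 := abs_exp_sub_one_lo hx
  have e2 := Real.cos_le_one_sub_mul_cos_sq h2
  have e3 : 1 / 3 ≤ Real.exp u.re := by
    have h3 : Real.exp 1 < 3 := Real.exp_one_lt_three
    have h4 : Real.exp (-u.re) ≤ Real.exp 1 := Real.exp_le_exp.2 (by linarith)
    have h5 : Real.exp u.re * Real.exp (-u.re) = 1 := by rw [← Real.exp_add]; simp
    have h6 := Real.exp_pos u.re
    nlinarith
  have e4 : ‖Complex.exp u - 1‖ ^ 2 =
      (Real.exp u.re - 1) ^ 2 + 2 * Real.exp u.re * (1 - Real.cos u.im) := by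
    rw [Complex.sq_norm, Complex.normSq_apply]
    simp only [Complex.sub_re, Complex.sub_im, Complex.one_re, Complex.one_im,
      Complex.exp_re, Complex.exp_im]
    have := Real.sin_sq_add_cos_sq u.im
    have h7 : Real.sin u.im ^ 2 = 1 - Real.cos u.im ^ 2 := by linarith
    calc (Real.exp u.re * Real.cos u.im - 1) * (Real.exp u.re * Real.cos u.im - 1) +
          (Real.exp u.re * Real.sin u.im - 0) * (Real.exp u.re * Real.sin u.im - 0)
        = Real.exp u.re ^ 2 * (Real.cos u.im ^ 2 + Real.sin u.im ^ 2) -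
            2 * Real.exp u.re * Real.cos u.im + 1 := by ring
      _ = _ := by rw [h7]; ring
  have e5 : ‖u‖ ^ 2 = u.re ^ 2 + u.im ^ 2 := by
    rw [Complex.sq_norm, Complex.normSq_apply]; ring
  have e6 : u.re ^ 2 / 9 ≤ (Real.exp u.re - 1) ^ 2 := by
    have h8 : (|u.re| / 3) ^ 2 ≤ |Real.exp u.re - 1| ^ 2 :=
      pow_le_pow_left₀ (by positivity) e1 2
    rw [sq_abs, div_pow, sq_abs] at h8
    linarith
  have hpi : Real.pi ^ 2 ≤ 12 := by
    have h9 := Real.pi_lt_d2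
    have h10 := Real.pi_pos
    nlinarith
  have hpi0 : 0 < Real.pi ^ 2 := by positivity
  have e7 : 1 / 6 ≤ 2 / Real.pi ^ 2 := by
    rw [div_le_div_iff₀ (by norm_num) hpi0]
    linarith
  have e8 : u.im ^ 2 / 6 ≤ 1 - Real.cos u.im := by
    have h11 : 1 / 6 * u.im ^ 2 ≤ 2 / Real.pi ^ 2 * u.im ^ 2 :=
      mul_le_mul_of_nonneg_right e7 (sq_nonneg _)
    linarith
  have e9 : u.im ^ 2 / 9 ≤ 2 * Real.exp u.re * (1 - Real.cos u.im) := by
    have h12 : 0 ≤ u.im ^ 2 := sq_nonneg _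
    nlinarith
  refine abs_le_of_sq_le_sq' (?_ : (‖u‖ / 3) ^ 2 ≤ ‖Complex.exp u - 1‖ ^ 2) (norm_nonneg _) |>.2
  rw [div_pow, e5, e4]
  linarith

/-- `|exp z - exp w| ≥ c0 |z - w|` for `-1 ≤ Re ≤ 0`, `|Im z - Im w| ≤ π`:
`|exp z - exp w| = exp (Re w) |exp (x + i y) - 1|`,
`|exp (x + i y) - 1|² = (exp x - 1)² + 2 exp x (1 - cos y)`. -/
theorem exp_lo : ∃ c0 : ℝ, 0 < c0 ∧ ∀ z w : ℂ, z.re ∈ Icc (-1 : ℝ) 0 → w.re ∈ Icc (-1 : ℝ) 0 →
    |z.im - w.im| ≤ Real.pi → c0 * ‖z - w‖ ≤ ‖Complex.exp z - Complex.exp w‖ := by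
  refine ⟨1 / 9, by norm_num, fun z w hz hw him => ?_⟩
  have h1 : Complex.exp z - Complex.exp w = Complex.exp w * (Complex.exp (z - w) - 1) := by
    rw [mul_sub, ← Complex.exp_add, mul_one]
    congr 2
    ring
  have h2 : ‖z - w‖ / 3 ≤ ‖Complex.exp (z - w) - 1‖ := by
    refine norm_exp_sub_one_lo ?_ ?_
    · rw [Complex.sub_re, abs_le]
      constructor <;> linarith [hz.1, hz.2, hw.1, hw.2]
    · rwa [Complex.sub_im]
  have h3 : 1 / 3 ≤ Real.exp w.re := by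
    have h3 : Real.exp 1 < 3 := Real.exp_one_lt_three
    have h4 : Real.exp (-w.re) ≤ Real.exp 1 := Real.exp_le_exp.2 (by linarith [hw.1])
    have h5 : Real.exp w.re * Real.exp (-w.re) = 1 := by rw [← Real.exp_add]; simp
    have h6 := Real.exp_pos w.re
    nlinarith
  rw [h1, norm_mul, Complex.norm_exp]
  calc 1 / 9 * ‖z - w‖ = 1 / 3 * (‖z - w‖ / 3) := by ring
    _ ≤ Real.exp w.re * ‖Complex.exp (z - w) - 1‖ :=
      mul_le_mul h3 h2 (by positivity) (Real.exp_pos _).le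

/-- the inequality for vectors which point inside -/
theorem adm_dlo_aux (c M : ℝ) (g : ℂ → E) (g' : ℂ → (ℂ →L[ℝ] E)) (hg : Adm c M g g')
    (w : ℂ) (hw : w ∈ closedBall (0 : ℂ) 1) (u : ℂ)
    (hu : ∀ᶠ s : ℝ in 𝓝[>] 0, w + (s : ℂ) * u ∈ closedBall (0 : ℂ) 1) :
    c * ‖u‖ ≤ ‖g' w u‖ := by
  have h1 : ∀ᶠ s : ℝ in 𝓝[>] 0, c * ‖u‖ ≤ ‖g' w u‖ + M * s * ‖u‖ ^ 2 := by
    filter_upwards [hu, self_mem_nhdsWithin] with s hs hs0
    have hs0' : 0 < s := hs0
    have e1 := hg.lo _ hs w hw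
    have e2 := hg.ty _ hs w hw
    have e3 : w + (s : ℂ) * u - w = s • u := by
      rw [Complex.real_smul]; ring
    rw [e3, norm_smul, Real.norm_eq_abs, abs_of_pos hs0'] at e1 e2
    rw [map_smul] at e2
    have e4 : ‖g (w + (s : ℂ) * u) - g w‖ ≤ ‖g (w + (s : ℂ) * u) - g w - s • g' w u‖ +
        ‖s • g' w u‖ := by
      have := norm_add_le (g (w + (s : ℂ) * u) - g w - s • g' w u) (s • g' w u)
      rwa [sub_add_cancel] at this
    rw [norm_smul, Real.norm_eq_abs, abs_of_pos hs0'] at e4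
    have e5 : s * (c * ‖u‖) ≤ s * (‖g' w u‖ + M * s * ‖u‖ ^ 2) := by
      calc s * (c * ‖u‖) = c * (s * ‖u‖) := by ring
        _ ≤ M * (s * ‖u‖) ^ 2 + s * ‖g' w u‖ := e1.trans (e4.trans (by linarith))
        _ = s * (‖g' w u‖ + M * s * ‖u‖ ^ 2) := by ring
    exact le_of_mul_le_mul_left e5 hs0'
  have h2 : Tendsto (fun s : ℝ => ‖g' w u‖ + M * s * ‖u‖ ^ 2) (𝓝[>] 0)
      (𝓝 (‖g' w u‖ + M * 0 * ‖u‖ ^ 2)) := by
    refine Tendsto.mono_left ?_ nhdsWithin_le_nhds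
    exact (Continuous.tendsto (by fun_prop) 0)
  have h3 := ge_of_tendsto h2 h1
  simpa using h3

theorem norm_sq_add_smul (w u : ℂ) (s : ℝ) :
    ‖w + (s : ℂ) * u‖ ^ 2 = ‖w‖ ^ 2 + 2 * s * ((starRingEnd ℂ) w * u).re + s ^ 2 * ‖u‖ ^ 2 := by
  simp only [Complex.sq_norm, Complex.normSq_apply, Complex.add_re, Complex.add_im,
    Complex.mul_re, Complex.mul_im, Complex.ofReal_re, Complex.ofReal_im, Complex.conj_re,
    Complex.conj_im]
  ring

/-- vectors which point strictly inside -/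
theorem adm_dlo_neg (c M : ℝ) (g : ℂ → E) (g' : ℂ → (ℂ →L[ℝ] E)) (hg : Adm c M g g')
    (w : ℂ) (hw : w ∈ closedBall (0 : ℂ) 1) (u : ℂ) (hu : ((starRingEnd ℂ) w * u).re < 0) :
    c * ‖u‖ ≤ ‖g' w u‖ := by
  refine adm_dlo_aux c M g g' hg w hw u ?_
  have h1 : ∀ᶠ s : ℝ in 𝓝[>] 0, 2 * ((starRingEnd ℂ) w * u).re + s * ‖u‖ ^ 2 < 0 := by
    have h2 : Tendsto (fun s : ℝ => 2 * ((starRingEnd ℂ) w * u).re + s * ‖u‖ ^ 2) (𝓝[>] 0)
        (𝓝 (2 * ((starRingEnd ℂ) w * u).re + 0 * ‖u‖ ^ 2)) := by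
      refine Tendsto.mono_left ?_ nhdsWithin_le_nhds
      exact (Continuous.tendsto (by fun_prop) 0)
    exact h2.eventually (gt_mem_nhds (by linarith))
  filter_upwards [h1, self_mem_nhdsWithin] with s hs hs0
  have hs0' : 0 < s := hs0
  have hw1 : ‖w‖ ≤ 1 := by simpa using hw
  rw [mem_closedBall, dist_zero_right]
  have h3 := norm_sq_add_smul w u s
  have h4 : ‖w + (s : ℂ) * u‖ ^ 2 ≤ 1 := by
    rw [h3]
    have h5 : ‖w‖ ^ 2 ≤ 1 := by
      have := norm_nonneg w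
      nlinarith
    nlinarith
  have h6 := norm_nonneg (w + (s : ℂ) * u)
  nlinarith

/-- Lower bound of the derivative from `lo` and `ty`: for `u` with `Re (conj w u) < 0` take
`w + s u`, `s → 0+`; `- u` if `> 0`; limit if `= 0`. -/
theorem adm_dlo (c M : ℝ) (hc : 0 < c) (g : ℂ → E) (g' : ℂ → (ℂ →L[ℝ] E)) (hg : Adm c M g g')
    (w : ℂ) (hw : w ∈ closedBall (0 : ℂ) 1) (u : ℂ) : c * ‖u‖ ≤ ‖g' w u‖ := by
  rcases lt_trichotomy ((starRingEnd ℂ) w * u).re 0 with h | h | h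
  · exact adm_dlo_neg c M g g' hg w hw u h
  · rcases eq_or_ne w 0 with rfl | hw0
    · refine adm_dlo_aux c M g g' hg 0 hw u ?_
      have h2 : Tendsto (fun s : ℝ => ‖(0 : ℂ) + (s : ℂ) * u‖) (𝓝[>] 0)
          (𝓝 ‖(0 : ℂ) + ((0 : ℝ) : ℂ) * u‖) := by
        refine Tendsto.mono_left ?_ nhdsWithin_le_nhds
        exact (Continuous.tendsto (by fun_prop) 0)
      have h3 : ∀ᶠ s : ℝ in 𝓝[>] 0, ‖(0 : ℂ) + (s : ℂ) * u‖ < 1 :=
        h2.eventually (gt_mem_nhds (by simp))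
      filter_upwards [h3] with s hs
      rw [mem_closedBall, dist_zero_right]
      exact hs.le
    · have h1 : ∀ᶠ ε : ℝ in 𝓝[>] 0, c * ‖u - ε • w‖ ≤ ‖g' w (u - ε • w)‖ := by
        filter_upwards [self_mem_nhdsWithin] with ε hε
        have hε' : 0 < ε := hε
        refine adm_dlo_neg c M g g' hg w hw _ ?_
        have h2 : ((starRingEnd ℂ) w * (u - ε • w)).re =
            ((starRingEnd ℂ) w * u).re - ε * ‖w‖ ^ 2 := by
          rw [Complex.real_smul]
          simp only [Complex.sq_norm, Complex.normSq_apply, Complex.sub_re, Complex.sub_im,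
            Complex.mul_re, Complex.mul_im, Complex.ofReal_re, Complex.ofReal_im,
            Complex.conj_re, Complex.conj_im]
          ring
        rw [h2, h]
        have h3 : 0 < ‖w‖ := norm_pos_iff.2 hw0
        have h4 : 0 < ε * ‖w‖ ^ 2 := by positivity
        linarith
      have h5 : Tendsto (fun ε : ℝ => c * ‖u - ε • w‖) (𝓝[>] 0)
          (𝓝 (c * ‖u - (0 : ℝ) • w‖)) := by
        refine Tendsto.mono_left ?_ nhdsWithin_le_nhds
        exact (Continuous.tendsto (by fun_prop) 0)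
      have h6 : Tendsto (fun ε : ℝ => ‖g' w (u - ε • w)‖) (𝓝[>] 0)
          (𝓝 ‖g' w (u - (0 : ℝ) • w)‖) := by
        refine Tendsto.mono_left ?_ nhdsWithin_le_nhds
        exact (Continuous.tendsto (by fun_prop) 0)
      have h7 := le_of_tendsto_of_tendsto h5 h6 h1
      simpa using h7
  · have h1 := adm_dlo_neg c M g g' hg w hw (-u) (by rw [mul_neg, Complex.neg_re]; linarith)
    rwa [norm_neg, map_neg, norm_neg] at h1

theorem exp_mem_closedBall {z : ℂ} (hz : z.re ≤ 0) :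
    Complex.exp z ∈ closedBall (0 : ℂ) 1 := by
  rw [mem_closedBall, dist_zero_right, Complex.norm_exp]
  simpa using Real.exp_le_exp.2 hz

/-- The constants do not depend on `g`. -/
theorem flat_of_adm (c M : ℝ) (hc : 0 < c) (hM : 0 < M) :
    ∃ c1 M1 : ℝ, 0 < c1 ∧ 0 < M1 ∧ c1 ≤ c ∧ ∀ (g : ℂ → E) (g' : ℂ → (ℂ →L[ℝ] E)),
      Adm c M g g' → Flat c1 M1 (fG g) (fG' g') := by
  obtain ⟨c0, hc0, h0⟩ := exp_lo
  have hm0 : 0 < min c0 (1 / 3) := lt_min hc0 (by norm_num)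
  refine ⟨c * min c0 (1 / 3), 5 * M, mul_pos hc hm0, by positivity, ?_, fun g g' hg => ?_⟩
  · have h1 : min c0 (1 / 3) ≤ 1 := (min_le_right _ _).trans (by norm_num)
    nlinarith
  constructor
  · intro z w hz hw him
    have h1 := h0 z w hz hw him
    have h2 := hg.lo _ (exp_mem_closedBall hz.2) _ (exp_mem_closedBall hw.2)
    calc c * min c0 (1 / 3) * ‖z - w‖ ≤ c * c0 * ‖z - w‖ := by
          have h3 : min c0 (1 / 3) ≤ c0 := min_le_left _ _
          gcongr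
      _ = c * (c0 * ‖z - w‖) := by ring
      _ ≤ c * ‖Complex.exp z - Complex.exp w‖ := mul_le_mul_of_nonneg_left h1 hc.le
      _ ≤ _ := h2
  · intro z w hz hw hzw
    have h1 : Complex.exp z - Complex.exp w = Complex.exp w * (Complex.exp (z - w) - 1) := by
      rw [mul_sub, ← Complex.exp_add, mul_one]
      congr 2
      ring
    have hW : ‖Complex.exp w‖ ≤ 1 := by simpa using exp_mem_closedBall hw.2
    have h2 : ‖Complex.exp z - Complex.exp w‖ ≤ 2 * ‖z - w‖ := by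
      rw [h1, norm_mul]
      have := Complex.norm_exp_sub_one_le hzw
      calc ‖Complex.exp w‖ * ‖Complex.exp (z - w) - 1‖ ≤ 1 * (2 * ‖z - w‖) :=
            mul_le_mul hW this (norm_nonneg _) (by norm_num)
        _ = _ := one_mul _
    have h3 := hg.ty _ (exp_mem_closedBall hz.2) _ (exp_mem_closedBall hw.2)
    have h4 := hg.up _ (exp_mem_closedBall hw.2)
    have h5 : ‖Complex.exp z - Complex.exp w - Complex.exp w * (z - w)‖ ≤ ‖z - w‖ ^ 2 := by
      have e : Complex.exp z - Complex.exp w - Complex.exp w * (z - w) =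
          Complex.exp w * (Complex.exp (z - w) - 1 - (z - w)) := by
        rw [h1]; ring
      rw [e, norm_mul]
      have := Complex.norm_exp_sub_one_sub_id_le hzw
      calc ‖Complex.exp w‖ * ‖Complex.exp (z - w) - 1 - (z - w)‖ ≤ 1 * ‖z - w‖ ^ 2 :=
            mul_le_mul hW this (norm_nonneg _) (by norm_num)
        _ = _ := one_mul _
    have h6 : ‖g' (Complex.exp w)
        (Complex.exp z - Complex.exp w - Complex.exp w * (z - w))‖ ≤ M * ‖z - w‖ ^ 2 :=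
      (ContinuousLinearMap.le_opNorm _ _).trans
        (mul_le_mul h4 h5 (norm_nonneg _) hM.le)
    have e : fG g z - fG g w - fG' g' w (z - w) =
        (g (Complex.exp z) - g (Complex.exp w) -
          g' (Complex.exp w) (Complex.exp z - Complex.exp w)) +
        g' (Complex.exp w) (Complex.exp z - Complex.exp w - Complex.exp w * (z - w)) := by
      rw [fG'_apply, map_sub (g' (Complex.exp w)) (Complex.exp z - Complex.exp w)]
      unfold fG
      abel
    rw [e]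
    refine (norm_add_le _ _).trans ?_
    have h7 : M * ‖Complex.exp z - Complex.exp w‖ ^ 2 ≤ M * (2 * ‖z - w‖) ^ 2 :=
      mul_le_mul_of_nonneg_left (pow_le_pow_left₀ (norm_nonneg _) h2 2) hM.le
    nlinarith
  · intro w hw u
    rw [fG'_apply]
    have h1 := adm_dlo c M hc g g' hg _ (exp_mem_closedBall hw.2) (Complex.exp w * u)
    refine le_trans ?_ h1
    rw [norm_mul, Complex.norm_exp]
    have h3 : 1 / 3 ≤ Real.exp w.re := by
      have h3 : Real.exp 1 < 3 := Real.exp_one_lt_three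
      have h4 : Real.exp (-w.re) ≤ Real.exp 1 := Real.exp_le_exp.2 (by linarith [hw.1])
      have h5 : Real.exp w.re * Real.exp (-w.re) = 1 := by rw [← Real.exp_add]; simp
      have h6 := Real.exp_pos w.re
      nlinarith
    have h4 : min c0 (1 / 3) ≤ Real.exp w.re := (min_le_right _ _).trans h3
    have h5 : 0 ≤ ‖u‖ := norm_nonneg u
    calc c * min c0 (1 / 3) * ‖u‖ ≤ c * Real.exp w.re * ‖u‖ := by gcongr
      _ = c * (Real.exp w.re * ‖u‖) := by ring
  · intro z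
    unfold fG
    rw [Complex.exp_periodic z]

theorem flatS_of_admS (c c1 : ℝ) (h1 : c1 ≤ c) (g' : ℂ → (ℂ →L[ℝ] E)) (hg : AdmS c g') :
    FlatS c1 (fG' g') := by
  intro w hw u hu t ht
  have hn : ‖Complex.exp w‖ = 1 := by rw [Complex.norm_exp, hw, Real.exp_zero]
  have h2 := hg (Complex.exp w) (by rw [mem_sphere, dist_zero_right, hn]) (Complex.exp w * u)
    (by
      have e : (starRingEnd ℂ) (Complex.exp w) * (Complex.exp w * u) = u := by
        rw [← mul_assoc, Complex.conj_mul', hn]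
        simp
      rw [e]
      exact hu) t ht
  rw [norm_mul, hn, one_mul] at h2
  rw [fG'_apply]
  refine le_trans (mul_le_mul_of_nonneg_right h1 (by positivity)) h2

/-- Scaling keeps `Adm`. -/
theorem adm_scale (c M : ℝ) (g : ℂ → E) (g' : ℂ → (ℂ →L[ℝ] E)) (hg : Adm c M g g') (hM : 0 < M)
    (r : ℝ) (hr : 0 < r) (hr1 : r ≤ 1) :
    Adm c M (fun z => r⁻¹ • (g ((r : ℂ) * z) - g 0)) (fun z => g' ((r : ℂ) * z)) := by
  have hin : ∀ z ∈ closedBall (0 : ℂ) 1, (r : ℂ) * z ∈ closedBall (0 : ℂ) 1 := by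
    intro z hz
    rw [mem_closedBall, dist_zero_right] at hz ⊢
    rw [norm_mul, Complex.norm_real, Real.norm_eq_abs, abs_of_pos hr]
    have := norm_nonneg z
    nlinarith
  have hn : ∀ z w : ℂ, ‖(r : ℂ) * z - (r : ℂ) * w‖ = r * ‖z - w‖ := by
    intro z w
    rw [← mul_sub, norm_mul, Complex.norm_real, Real.norm_eq_abs, abs_of_pos hr]
  have hri : 0 < r⁻¹ := inv_pos.2 hr
  constructor
  · intro z hz w hw
    have h1 := hg.lo _ (hin z hz) _ (hin w hw)
    rw [hn] at h1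
    have e : r⁻¹ • (g ((r : ℂ) * z) - g 0) - r⁻¹ • (g ((r : ℂ) * w) - g 0) =
        r⁻¹ • (g ((r : ℂ) * z) - g ((r : ℂ) * w)) := by
      rw [← smul_sub]
      congr 1
      abel
    show c * ‖z - w‖ ≤ ‖r⁻¹ • (g ((r : ℂ) * z) - g 0) - r⁻¹ • (g ((r : ℂ) * w) - g 0)‖
    rw [e, norm_smul, Real.norm_eq_abs, abs_of_pos hri]
    calc c * ‖z - w‖ = r⁻¹ * (c * (r * ‖z - w‖)) := by field_simp
      _ ≤ _ := mul_le_mul_of_nonneg_left h1 hri.le
  · intro z hz w hw
    have h1 := hg.ty _ (hin z hz) _ (hin w hw)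
    rw [hn] at h1
    have e0 : (r : ℂ) * z - (r : ℂ) * w = r • (z - w) := by
      rw [Complex.real_smul]; ring
    have e : r⁻¹ • (g ((r : ℂ) * z) - g 0) - r⁻¹ • (g ((r : ℂ) * w) - g 0) -
        g' ((r : ℂ) * w) (z - w) =
        r⁻¹ • (g ((r : ℂ) * z) - g ((r : ℂ) * w) -
          g' ((r : ℂ) * w) ((r : ℂ) * z - (r : ℂ) * w)) := by
      rw [e0, map_smul, smul_sub r⁻¹ (g ((r : ℂ) * z) - g ((r : ℂ) * w)) _, smul_smul,
        inv_mul_cancel₀ hr.ne', one_smul, ← smul_sub]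
      congr 2
      abel
    show ‖r⁻¹ • (g ((r : ℂ) * z) - g 0) - r⁻¹ • (g ((r : ℂ) * w) - g 0) -
        g' ((r : ℂ) * w) (z - w)‖ ≤ M * ‖z - w‖ ^ 2
    rw [e, norm_smul, Real.norm_eq_abs, abs_of_pos hri]
    calc r⁻¹ * ‖g ((r : ℂ) * z) - g ((r : ℂ) * w) -
          g' ((r : ℂ) * w) ((r : ℂ) * z - (r : ℂ) * w)‖ ≤ r⁻¹ * (M * (r * ‖z - w‖) ^ 2) :=
          mul_le_mul_of_nonneg_left h1 hri.le
      _ = r * (M * ‖z - w‖ ^ 2) := by field_simp
      _ ≤ 1 * (M * ‖z - w‖ ^ 2) := mul_le_mul_of_nonneg_right hr1 (by positivity)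
      _ = _ := one_mul _
  · intro w hw
    exact hg.up _ (hin w hw)

end Pool.Agent.Lib.MP_ca0971_gt.OT.Sm
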