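import Pool.Agent.Lib.MP_ca0971_gt.OT.Sm.LayB
import Pool.Agent.Lib.MP_ca0971_gt.OT.Sm.FlatE

set_option autoImplicit false

namespace Pool.Agent.Lib.MP_ca0971_gt.OT.Sm

open Set Metric Filter Topology

/-- The vertices. -/
noncomputable def F0 (g : ℂ → E) (T m : ℕ) (θ : ℤ → ℝ) : Fin (T + 1) × ZMod m → E :=
  fun w => g (Complex.exp (zt m θ w.1.val (w.2.val : ℤ)))

theorem prt_pos {m : ℕ} {θ : ℤ → ℝ} (h : Prt m θ) : 0 < m := by
  rcases Nat.eq_zero_or_pos m with rfl | hm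
  · have h1 := h.per 0
    have h2 := Real.pi_pos
    rw [Nat.cast_zero, add_zero] at h1
    linarith
  · exact hm

theorem th_per {m : ℕ} {θ : ℤ → ℝ} (h : Prt m θ) (k n : ℤ) :
    θ (k + n * m) = θ k + n * (2 * Real.pi) := by
  induction n using Int.induction_on with
  | zero => simp
  | succ i ih =>
    have e : k + ((i : ℤ) + 1) * m = (k + (i : ℤ) * m) + m := by ring
    rw [e, h.per, ih]
    push_cast
    ring
  | pred i ih =>
    have e : k + (-(i : ℤ)) * m = (k + (-(i : ℤ) - 1) * m) + m := by ring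
    rw [e, h.per] at ih
    have e2 : θ (k + (-(i : ℤ) - 1) * m) = θ k + ((-(i : ℤ) : ℤ) : ℝ) * (2 * Real.pi) -
        2 * Real.pi := by linarith
    rw [e2]
    push_cast
    ring

theorem exp_zt_per {m : ℕ} {θ : ℤ → ℝ} (h : Prt m θ) (j : ℕ) (k n : ℤ) :
    Complex.exp (zt m θ j (k + n * m)) = Complex.exp (zt m θ j k) := by
  have e : zt m θ j (k + n * m) = zt m θ j k + n * (2 * Real.pi * Complex.I) := by
    apply Complex.ext
    · simp [zt]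
    · simp [zt, th_per h]
  rw [e, Complex.exp_add, Complex.exp_int_mul_two_pi_mul_I, mul_one]

theorem F0_ix (g : ℂ → E) (T m : ℕ) (hm : 0 < m) (θ : ℤ → ℝ) (h : Prt m θ) (j : ℕ) (hj : j ≤ T)
    (k : ℤ) : F0 g T m θ (ix T m j k) = g (Complex.exp (zt m θ j k)) := by
  haveI : NeZero m := ⟨hm.ne'⟩
  have h1 : (((k : ZMod m)).val : ℤ) = k % m := ZMod.val_intCast k
  have h2 : k % m = k + (-(k / m)) * m := by
    have := Int.emod_add_mul_ediv k m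
    linarith [mul_comm (m : ℤ) (k / m)]
  show g (Complex.exp (zt m θ (min j T) (((k : ZMod m)).val : ℤ))) = _
  rw [min_eq_left hj, h1, h2, exp_zt_per h]

theorem exp_zt_add (m : ℕ) (θ : ℤ → ℝ) (j s : ℕ) (k : ℤ) : Complex.exp (zt m θ (j + s) k) =
    ((Real.exp (-((j : ℝ) * (Real.pi / m))) : ℝ) : ℂ) * Complex.exp (zt m θ s k) := by
  rw [Complex.ofReal_exp, ← Complex.exp_add]
  congr 1
  apply Complex.ext
  · simp only [zt, Complex.add_re, Complex.ofReal_re]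
    push_cast
    ring
  · simp only [zt, Complex.add_im, Complex.ofReal_im, zero_add]

theorem ly_zero {j r : ℕ} (h : Ly j r) : ∃ s, s ≤ 1 ∧ r = j + s ∧ Ly 0 s := by
  rcases h with h | h
  · exact ⟨0, by omega, h, Or.inl rfl⟩
  · exact ⟨1, le_rfl, h, Or.inr rfl⟩

theorem lay_shift (m : ℕ) (V W : ℕ → ℤ → E) (j : ℕ) (ρ : ℝ) (hρ : ρ ≠ 0) (x0 : E)
    (hV : ∀ s ≤ 1, ∀ k, V (j + s) k = ρ • W s k + x0) (h : Lay m W 0) : Lay m V j := by
  have h0 : ∀ k, V j k = ρ • W 0 k + x0 := hV 0 (by omega)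
  have h1 : ∀ k, V (j + 1) k = ρ • W 1 k + x0 := hV 1 le_rfl
  constructor
  · intro r q s r' hr hq hne hs hr' k
    obtain ⟨r, r1, rfl, lr⟩ := ly_zero hr
    obtain ⟨q, q1, rfl, lq⟩ := ly_zero hq
    obtain ⟨s, s1, rfl, ls⟩ := ly_zero hs
    obtain ⟨r', r1', rfl, lr'⟩ := ly_zero hr'
    rw [hV r r1, hV q q1, hV s s1, hV r' r1']
    exact cn_aff _ _ _ _ _ _ hρ (h.r1 r q s r' lr lq (by omega) ls lr' k)
  · intro s r' hs hr' k
    obtain ⟨s, s1, rfl, ls⟩ := ly_zero hs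
    obtain ⟨r', r1', rfl, lr'⟩ := ly_zero hr'
    rw [hV s s1, hV r' r1', h0, h1]
    exact cn_aff _ _ _ _ _ _ hρ (h.r2 s r' ls lr' k)
  · intro s r r' hs hr hr' i k hik hki
    obtain ⟨s, s1, rfl, ls⟩ := ly_zero hs
    obtain ⟨r, r1, rfl, lr⟩ := ly_zero hr
    obtain ⟨r', r1', rfl, lr'⟩ := ly_zero hr'
    rw [hV s s1, hV r r1, hV r' r1', h0, h1]
    exact ds_aff _ _ _ _ _ _ _ hρ (h.rf s r r' ls lr lr' i k hik hki)
  · intro r q s r' hr hq hne hs hr' k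
    obtain ⟨r, r1, rfl, lr⟩ := ly_zero hr
    obtain ⟨q, q1, rfl, lq⟩ := ly_zero hq
    obtain ⟨s, s1, rfl, ls⟩ := ly_zero hs
    obtain ⟨r', r1', rfl, lr'⟩ := ly_zero hr'
    rw [hV r r1, hV q q1, hV s s1, hV r' r1']
    exact cn_aff _ _ _ _ _ _ hρ (h.l1 r q s r' lr lq (by omega) ls lr' k)
  · intro s r' hs hr' k
    obtain ⟨s, s1, rfl, ls⟩ := ly_zero hs
    obtain ⟨r', r1', rfl, lr'⟩ := ly_zero hr'
    rw [hV s s1, hV r' r1', h0, h1]
    exact cn_aff _ _ _ _ _ _ hρ (h.l2 s r' ls lr' k)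
  · intro s r r' hs hr hr' i k hik hki
    obtain ⟨s, s1, rfl, ls⟩ := ly_zero hs
    obtain ⟨r, r1, rfl, lr⟩ := ly_zero hr
    obtain ⟨r', r1', rfl, lr'⟩ := ly_zero hr'
    rw [hV s s1, hV r r1, hV r' r1', h0, h1]
    exact ds_aff _ _ _ _ _ _ _ hρ (h.lf s r r' ls lr lr' i k hik hki)

/-- All layers. For the layer `j` let `r = exp (- j π / m)`, `g_r z = r⁻¹ • (g (r z) - g 0)`
(`adm_scale`, `flat_of_adm`, `lay_of_flat`); then `F0 (ix j' k) = r • fG g_r (zt (j' - j) k) + g 0` for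
`j' = j, j + 1` (`cn_aff`, `ds_aff`). -/
theorem lay_F0 (c M : ℝ) (hc : 0 < c) (hM : 0 < M) (g : ℂ → E) (g' : ℂ → (ℂ →L[ℝ] E))
    (hg : Adm c M g g') : ∃ m0 : ℕ, ∀ m ≥ m0, ∀ θ : ℤ → ℝ, Prt m θ → ∀ T j : ℕ, j < T →
      Lay m (fun j k => F0 g T m θ (ix T m j k)) j := by
  obtain ⟨c1, M1, hc1, hM1, -, hfl⟩ := flat_of_adm c M hc hM
  obtain ⟨m0, hm0⟩ := lay_of_flat c1 M1 hc1 hM1
  refine ⟨m0, fun m hm θ hθ T j hj => ?_⟩
  have hm' := prt_pos hθ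
  set ρ : ℝ := Real.exp (-((j : ℝ) * (Real.pi / m))) with hρd
  have hρ : 0 < ρ := Real.exp_pos _
  have hρ1 : ρ ≤ 1 := by
    rw [hρd, Real.exp_le_one_iff]
    have := Real.pi_pos
    have : 0 ≤ (j : ℝ) * (Real.pi / m) := by positivity
    linarith
  have h1 := hfl _ _ (adm_scale c M g g' hg hM ρ hρ hρ1)
  refine lay_shift m _ _ j ρ hρ.ne' (g 0) ?_ (hm0 m hm θ hθ _ _ h1)
  intro s hs k
  show F0 g T m θ (ix T m (j + s) k) = ρ • (ρ⁻¹ • (g ((ρ : ℂ) * Complex.exp (zt m θ s k)) - g 0)) +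
    g 0
  rw [F0_ix g T m hm' θ hθ (j + s) (by omega), exp_zt_add, smul_smul, mul_inv_cancel₀ hρ.ne',
    one_smul, sub_add_cancel]

theorem layS_congr (V W : ℕ → ℤ → E) (hV : ∀ s ≤ 1, ∀ k, V s k = W s k) (h : LayS W) :
    LayS V := by
  have h0 : ∀ k, V 0 k = W 0 k := hV 0 (by omega)
  have h1 : ∀ k, V 1 k = W 1 k := hV 1 le_rfl
  have hs' : ∀ s, Ly 0 s → s ≤ 1 := fun s hs => by
    rcases hs with hs | hs <;> omega
  constructor
  · intro s hs k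
    rw [h0, h1, h0, hV s (hs' s hs)]
    exact h.ra s hs k
  · intro k
    rw [h0, h0, h0, h1]
    exact h.rb0 k
  · intro k
    rw [h1, h1, h0, h0, h0]
    exact h.rb1 k
  · intro k
    rw [h0, h0, h1]
    exact h.rc0 k
  · intro k
    rw [h0, h0, h1, h1]
    exact h.rc1 k
  · intro s hs k
    rw [h0, h1, h0, hV s (hs' s hs)]
    exact h.la s hs k
  · intro k
    rw [h0, h0, h0, h1]
    exact h.lb0 k
  · intro k
    rw [h1, h1, h0, h0, h0]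
    exact h.lb1 k
  · intro k
    rw [h0, h0, h1]
    exact h.lc0 k
  · intro k
    rw [h0, h0, h1, h1]
    exact h.lc1 k

/-- The shift conditions in the layer `0` (`F0 (ix j k) = fG g (zt j k)` for `j = 0, 1`). -/
theorem layS_F0 (c M : ℝ) (hc : 0 < c) (hM : 0 < M) (g : ℂ → E) (g' : ℂ → (ℂ →L[ℝ] E))
    (hg : Adm c M g g') (hS : AdmS c g') : ∃ m0 : ℕ, ∀ m ≥ m0, ∀ θ : ℤ → ℝ, Prt m θ → ∀ T : ℕ,
      1 ≤ T → LayS (fun j k => F0 g T m θ (ix T m j k)) := by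
  obtain ⟨c1, M1, hc1, hM1, hcc, hfl⟩ := flat_of_adm c M hc hM
  obtain ⟨m0, hm0⟩ := layS_of_flat c1 M1 hc1 hM1
  refine ⟨m0, fun m hm θ hθ T hT => ?_⟩
  have hm' := prt_pos hθ
  refine layS_congr _ _ ?_ (hm0 m hm θ hθ (fG g) (fG' g') (hfl g g' hg)
    (flatS_of_admS c c1 hcc g' hS))
  intro s hs k
  exact F0_ix g T m hm' θ hθ s (by omega) k

end Pool.Agent.Lib.MP_ca0971_gt.OT.Sm
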