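import Pool.Agent.Lib.MP_ca0971_gt.OT.Sm.DpA
import Pool.Agent.Lib.MP_ca0971_gt.OT.Sm.Fz

set_option autoImplicit false

namespace Pool.Agent.Lib.MP_ca0971_gt.OT.Sm

open Set Metric Filter Topology

private theorem dpB_norm (m : ℕ) (θ : ℤ → ℝ) (r : ℕ) (k : ℤ) :
    ‖Complex.exp (zt m θ r k)‖ = Real.exp (-((r : ℝ) * (Real.pi / m))) := by
  rw [Complex.norm_exp]
  rfl

private theorem dpB_deep (m : ℕ) (θ : ℤ → ℝ) (r : ℕ) (hr : 1 ≤ r) (k : ℤ) :
    ‖Complex.exp (zt m θ r k)‖ ≤ Real.exp (-(Real.pi / m)) := by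
  rw [dpB_norm]
  apply Real.exp_le_exp.2
  have h0 : 0 ≤ Real.pi / m := div_nonneg Real.pi_pos.le (Nat.cast_nonneg m)
  have h1 : (1 : ℝ) ≤ r := by exact_mod_cast hr
  nlinarith

private theorem dpB_re (m : ℕ) (θ : ℤ → ℝ) (r : ℕ) (k : ℤ) : (zt m θ r k).re ≤ 0 := by
  have h0 : 0 ≤ Real.pi / m := div_nonneg Real.pi_pos.le (Nat.cast_nonneg m)
  have h1 : (0 : ℝ) ≤ r := Nat.cast_nonneg r
  have h2 : (zt m θ r k).re = -((r : ℝ) * (Real.pi / m)) := rfl
  rw [h2]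
  nlinarith [mul_nonneg h1 h0]

/-- rows which differ by at most one, columns which differ by at most one -/
private theorem dpB_close (m : ℕ) (θ : ℤ → ℝ) (h : Prt m θ) (r s : ℕ) (k l : ℤ)
    (hrs : |(r : ℝ) - s| ≤ 1) (hkl : k = l ∨ l = k + 1 ∨ k = l + 1) :
    ‖Complex.exp (zt m θ r k) - Complex.exp (zt m θ s l)‖ ≤ 4 * (Real.pi / m) := by
  have h0 : 0 ≤ Real.pi / m := div_nonneg Real.pi_pos.le (Nat.cast_nonneg m)
  refine (exp_hi _ _ (dpB_re m θ r k) (dpB_re m θ s l)).trans ?_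
  refine (Complex.norm_le_abs_re_add_abs_im _).trans ?_
  have hre : (zt m θ r k - zt m θ s l).re = -(((r : ℝ) - s) * (Real.pi / m)) := by
    rw [Complex.sub_re]
    simp only [zt]
    ring
  have him : (zt m θ r k - zt m θ s l).im = θ k - θ l := by
    rw [Complex.sub_im]
    rfl
  have h1 : |(zt m θ r k - zt m θ s l).re| ≤ Real.pi / m := by
    rw [hre, abs_neg, abs_mul, abs_of_nonneg h0]
    nlinarith
  have h2 : |(zt m θ r k - zt m θ s l).im| ≤ 3 * (Real.pi / m) := by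
    rw [him]
    rcases hkl with rfl | rfl | rfl
    · rw [sub_self, abs_zero]
      positivity
    · have := h.lo k
      have := h.hi k
      rw [abs_le]
      constructor <;> linarith
    · have := h.lo l
      have := h.hi l
      rw [abs_le]
      constructor <;> linarith
  linarith

private theorem dpB_zero (m : ℕ) (θ : ℤ → ℝ) (i : ℤ) : ‖Complex.exp (zt m θ 0 i)‖ = 1 := by
  rw [dpB_norm]
  simp

private theorem dpB_edge (m : ℕ) (θ : ℤ → ℝ) (h : Prt m θ) (i : ℤ) :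
    ‖Complex.exp (zt m θ 0 i) - Complex.exp (zt m θ 0 (i + 1))‖ ≤ 3 * (Real.pi / m) := by
  have h0 : 0 ≤ Real.pi / m := div_nonneg Real.pi_pos.le (Nat.cast_nonneg m)
  refine (exp_hi _ _ (dpB_re m θ 0 i) (dpB_re m θ 0 (i + 1))).trans ?_
  refine (Complex.norm_le_abs_re_add_abs_im _).trans ?_
  have hre : (zt m θ 0 i - zt m θ 0 (i + 1)).re = 0 := by
    rw [Complex.sub_re]
    simp only [zt]
    ring
  have him : (zt m θ 0 i - zt m θ 0 (i + 1)).im = θ i - θ (i + 1) := by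
    rw [Complex.sub_im]
    rfl
  rw [hre, him, abs_zero, zero_add]
  have := h.lo i
  have := h.hi i
  rw [abs_le]
  constructor <;> linarith

private theorem dpB_ly (j s : ℕ) (h : Ly j s) :
    |(s : ℝ) - j| ≤ 1 ∧ |(s : ℝ) - (j + 1 : ℕ)| ≤ 1 := by
  rcases h with rfl | rfl
  · push_cast
    constructor <;> rw [abs_le] <;> constructor <;> linarith
  · push_cast
    constructor <;> rw [abs_le] <;> constructor <;> linarith

/-- `dr`, `dl`: the rows `j, j + 1 ≥ 1` have `|z| ≤ exp (- δ)`, one column has diameter `≤ 4 δ`;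
`df`: take `T ≥ 1` with `exp (- T δ) ≤ 2 δ`. -/
theorem dp_F0 (c M : ℝ) (hc : 0 < c) (hM : 0 < M) (g : ℂ → E) (g' : ℂ → (ℂ →L[ℝ] E))
    (hg : Adm c M g g') : ∃ m0 : ℕ, ∀ m ≥ m0, ∀ θ : ℤ → ℝ, Prt m θ → ∃ T0 : ℕ, ∀ T ≥ T0,
      Dp T m (fun j k => F0 g T m θ (ix T m j k)) := by
  obtain ⟨δ0, hδ0, hdeep⟩ := deep c M hc hM
  refine ⟨⌈Real.pi / δ0⌉₊ + 1, fun m hm θ h => ?_⟩
  have hm0 : 0 < m := by omega
  have hmR : (0 : ℝ) < m := by exact_mod_cast hm0
  have hδ : 0 < Real.pi / m := div_pos Real.pi_pos hmR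
  have hδ1 : Real.pi / m ≤ δ0 := by
    have h1 : Real.pi / δ0 ≤ m := by
      refine (Nat.le_ceil _).trans ?_
      exact_mod_cast (Nat.le_succ _).trans hm
    rw [div_le_iff₀ hδ0] at h1
    rw [div_le_iff₀ hmR]
    linarith
  refine ⟨⌈1 / (2 * (Real.pi / m) ^ 2)⌉₊ + 1, fun T hT => ?_⟩
  have hT1 : 1 ≤ T := by omega
  have hT2 : 1 / (2 * (Real.pi / m) ^ 2) ≤ (T : ℝ) := by
    refine (Nat.le_ceil _).trans ?_
    exact_mod_cast (Nat.le_succ _).trans hT
  have hsmall : Real.exp (-((T : ℝ) * (Real.pi / m))) ≤ 2 * (Real.pi / m) := by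
    have hTR : (0 : ℝ) < T := by exact_mod_cast hT1
    have h2 : 0 < (T : ℝ) * (Real.pi / m) := mul_pos hTR hδ
    have h3 := Real.add_one_le_exp ((T : ℝ) * (Real.pi / m))
    rw [Real.exp_neg]
    rw [div_le_iff₀ (by positivity)] at hT2
    have h4 : (1 : ℝ) ≤ 2 * (Real.pi / m) * Real.exp ((T : ℝ) * (Real.pi / m)) := by
      have h5 : 2 * (Real.pi / m) * ((T : ℝ) * (Real.pi / m)) ≤
          2 * (Real.pi / m) * Real.exp ((T : ℝ) * (Real.pi / m)) :=
        mul_le_mul_of_nonneg_left (by linarith) (by positivity)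
      nlinarith
    rw [inv_le_iff_one_le_mul₀ (Real.exp_pos _)]
    exact h4
  have hV : ∀ j, j ≤ T → ∀ k : ℤ, F0 g T m θ (ix T m j k) = g (Complex.exp (zt m θ j k)) :=
    fun j hj k => F0_ix g T m hm0 θ h j hj k
  refine ⟨?_, ?_, ?_⟩
  · intro j hj hjT s hs k i
    have hsT : s ≤ T := by rcases hs with rfl | rfl <;> omega
    have hs1 : 1 ≤ s := by rcases hs with rfl | rfl <;> omega
    rw [hV s hsT, hV j hjT.le, hV (j + 1) hjT, hV 0 (Nat.zero_le T), hV 0 (Nat.zero_le T)]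
    exact hdeep g g' hg (Real.pi / m) hδ hδ1 _ _ _ _ _ (dpB_deep m θ s hs1 k)
      (dpB_deep m θ j hj (k + 1)) (dpB_deep m θ (j + 1) (by omega) (k + 1))
      (dpB_close m θ h s j k (k + 1) (dpB_ly j s hs).1 (Or.inr (Or.inl rfl)))
      (dpB_close m θ h s (j + 1) k (k + 1) (dpB_ly j s hs).2 (Or.inr (Or.inl rfl)))
      (dpB_close m θ h j (j + 1) (k + 1) (k + 1) (by push_cast; rw [abs_le]; constructor <;> linarith)
        (Or.inl rfl))
      (dpB_zero m θ i) (dpB_zero m θ (i + 1)) (dpB_edge m θ h i)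
  · intro j hj hjT s hs k i
    have hsT : s ≤ T := by rcases hs with rfl | rfl <;> omega
    have hs1 : 1 ≤ s := by rcases hs with rfl | rfl <;> omega
    rw [hV s hsT, hV j hjT.le, hV (j + 1) hjT, hV 0 (Nat.zero_le T), hV 0 (Nat.zero_le T)]
    exact hdeep g g' hg (Real.pi / m) hδ hδ1 _ _ _ _ _ (dpB_deep m θ s hs1 (k + 1))
      (dpB_deep m θ j hj k) (dpB_deep m θ (j + 1) (by omega) k)
      (dpB_close m θ h s j (k + 1) k (dpB_ly j s hs).1 (Or.inr (Or.inr rfl)))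
      (dpB_close m θ h s (j + 1) (k + 1) k (dpB_ly j s hs).2 (Or.inr (Or.inr rfl)))
      (dpB_close m θ h j (j + 1) k k (by push_cast; rw [abs_le]; constructor <;> linarith)
        (Or.inl rfl))
      (dpB_zero m θ i) (dpB_zero m θ (i + 1)) (dpB_edge m θ h i)
  · intro k _ _ i
    rw [hV T le_rfl, hV T le_rfl, hV T le_rfl, hV 0 (Nat.zero_le T), hV 0 (Nat.zero_le T)]
    have hd : ∀ a b : ℤ, ‖Complex.exp (zt m θ T a) - Complex.exp (zt m θ T b)‖ ≤
        4 * (Real.pi / m) := by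
      intro a b
      refine (norm_sub_le _ _).trans ?_
      rw [dpB_norm, dpB_norm]
      linarith
    exact hdeep g g' hg (Real.pi / m) hδ hδ1 _ _ _ _ _ (dpB_deep m θ T hT1 _)
      (dpB_deep m θ T hT1 _) (dpB_deep m θ T hT1 _) (hd _ _) (hd _ _) (hd _ _)
      (dpB_zero m θ i) (dpB_zero m θ (i + 1)) (dpB_edge m θ h i)

end Pool.Agent.Lib.MP_ca0971_gt.OT.Sm
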