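import Pool.Agent.Lib.MP_ca0971_gt.OT.Sm.FanA

set_option autoImplicit false

namespace Pool.Agent.Lib.MP_ca0971_gt.OT.Sm

open Set Metric Filter Topology

private theorem fanB_ev (m : ℕ) (P : ℤ → E) (hP : Fan 0 m (fun _ => P)) :
    ∀ᶠ F in 𝓝 P, Fan 0 m (fun _ => F) := by
  have e1 : ∀ᶠ F in 𝓝 P, ∀ k ∈ Icc (3 : ℤ) ((m : ℤ) - 1), Cn (F 0) (F (k - 1)) (F k) (F 1) := by
    rw [Filter.eventually_all_finite (Set.finite_Icc _ _)]
    intro k hk
    exact cn_ev P _ _ _ _ (hP.fa k hk.1 (by linarith [hk.2]))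
  have e2 : ∀ᶠ F in 𝓝 P, ∀ k ∈ Icc (3 : ℤ) ((m : ℤ) - 1),
      Cn (F (k - 1)) (F k) (F 0) (F (k - 2)) := by
    rw [Filter.eventually_all_finite (Set.finite_Icc _ _)]
    intro k hk
    exact cn_ev P _ _ _ _ (hP.fb k hk.1 (by linarith [hk.2]))
  have e3 : ∀ᶠ F in 𝓝 P, ∀ k ∈ Icc (3 : ℤ) ((m : ℤ) - 1), ∀ i ∈ Icc (1 : ℤ) (k - 3),
      Ds (F (k - 1)) (F k) (F 0) (F i) (F (i + 1)) := by
    rw [Filter.eventually_all_finite (Set.finite_Icc _ _)]
    intro k hk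
    rw [Filter.eventually_all_finite (Set.finite_Icc _ _)]
    intro i hi
    exact ds_ev P _ _ _ _ _ (hP.fd k hk.1 (by linarith [hk.2]) i hi.1 (by linarith [hi.2]))
  filter_upwards [e1, e2, e3] with F h1 h2 h3
  exact ⟨fun k a b => h1 k ⟨a, by linarith⟩, fun k a b => h2 k ⟨a, by linarith⟩,
    fun k a b i c d => h3 k ⟨a, by linarith⟩ i ⟨c, by linarith⟩⟩

/-- The fan conditions for a far row. `r⁻¹ • (g (r e^{iθ_k}) - g 0) → g' 0 e^{iθ_k}` as `r → 0`
(`Adm.ty` at `0`), the conditions are open (`cn_ev`, `ds_ev`) and invariant (`cn_aff`, `ds_aff`);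
`r = exp (- T π / m) → 0` as `T → ∞`; `g' 0` is injective by `adm_dlo`. -/
theorem fan_F0 (c M : ℝ) (hc : 0 < c) (hM : 0 < M) (g : ℂ → E) (g' : ℂ → (ℂ →L[ℝ] E))
    (hg : Adm c M g g') (m : ℕ) (hm : 5 ≤ m) (θ : ℤ → ℝ) (h : Prt m θ) :
    ∃ T0 : ℕ, ∀ T ≥ T0, Fan T m (fun j k => F0 g T m θ (ix T m j k)) := by
  have hm' : 0 < m := by omega
  have h0 : (0 : ℂ) ∈ closedBall (0 : ℂ) 1 := by simp
  have hinj : Function.Injective (g' 0) := by
    intro a b hab
    have h1 := adm_dlo c M hc g g' hg 0 h0 (a - b)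
    rw [map_sub, hab, sub_self, norm_zero] at h1
    have h2 : ‖a - b‖ ≤ 0 := by
      by_contra h3
      push Not at h3
      have := mul_pos hc h3
      linarith
    exact sub_eq_zero.1 (norm_le_zero_iff.1 h2)
  have hP := fan_plane m hm θ h (g' 0) hinj 0
  have hev := fanB_ev m (fun k => g' 0 (Complex.exp ((θ k : ℂ) * Complex.I))) hP
  have hr0 : Tendsto (fun T : ℕ => Real.exp (-((T : ℝ) * (Real.pi / m)))) atTop (𝓝 0) := by
    have h1 : Tendsto (fun T : ℕ => (T : ℝ) * (Real.pi / m)) atTop atTop :=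
      Tendsto.atTop_mul_const (by have := Real.pi_pos; positivity) tendsto_natCast_atTop_atTop
    exact Real.tendsto_exp_neg_atTop_nhds_zero.comp h1
  have tend : Tendsto (fun T : ℕ => fun k : ℤ => (Real.exp (-((T : ℝ) * (Real.pi / m))))⁻¹ •
      (g (((Real.exp (-((T : ℝ) * (Real.pi / m))) : ℝ) : ℂ) *
        Complex.exp ((θ k : ℂ) * Complex.I)) - g 0)) atTop
      (𝓝 (fun k => g' 0 (Complex.exp ((θ k : ℂ) * Complex.I)))) := by
    rw [tendsto_pi_nhds]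
    intro k
    rw [tendsto_iff_norm_sub_tendsto_zero]
    refine squeeze_zero (fun _ => norm_nonneg _) ?_ (by simpa using hr0.const_mul M)
    intro T
    show _ ≤ M * Real.exp (-((T : ℝ) * (Real.pi / m)))
    set r : ℝ := Real.exp (-((T : ℝ) * (Real.pi / m))) with hr
    have hrp : 0 < r := Real.exp_pos _
    have hr1 : r ≤ 1 := by
      rw [hr, Real.exp_le_one_iff]
      have h1 := Real.pi_pos
      have : 0 ≤ (T : ℝ) * (Real.pi / m) := by positivity
      linarith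
    set z : ℂ := Complex.exp ((θ k : ℂ) * Complex.I) with hz
    have hzn : ‖z‖ = 1 := Complex.norm_exp_ofReal_mul_I _
    have hrz : ‖(r : ℂ) * z‖ = r := by
      rw [norm_mul, hzn, mul_one, Complex.norm_real, Real.norm_eq_abs, abs_of_pos hrp]
    have h1 := hg.ty ((r : ℂ) * z) (by rw [mem_closedBall, dist_zero_right, hrz]; exact hr1) 0 h0
    rw [sub_zero, hrz] at h1
    have h2 : g' 0 ((r : ℂ) * z) = r • g' 0 z := by
      rw [← Complex.real_smul, map_smul]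
    rw [h2] at h1
    have h3 : r⁻¹ • (g ((r : ℂ) * z) - g 0) - g' 0 z =
        r⁻¹ • (g ((r : ℂ) * z) - g 0 - r • g' 0 z) := by
      rw [smul_sub r⁻¹ (g ((r : ℂ) * z) - g 0), smul_smul, inv_mul_cancel₀ hrp.ne', one_smul]
    rw [h3, norm_smul, norm_inv, Real.norm_eq_abs, abs_of_pos hrp]
    calc r⁻¹ * ‖g ((r : ℂ) * z) - g 0 - r • g' 0 z‖ ≤ r⁻¹ * (M * r ^ 2) :=
          mul_le_mul_of_nonneg_left h1 (by positivity)
      _ = M * r := by field_simp
  obtain ⟨T0, hT0⟩ := eventually_atTop.1 (tend.eventually hev)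
  refine ⟨T0, fun T hT => ?_⟩
  have h1 := hT0 T hT
  have hrp : 0 < Real.exp (-((T : ℝ) * (Real.pi / m))) := Real.exp_pos _
  have hV : ∀ k : ℤ, F0 g T m θ (ix T m T k) = Real.exp (-((T : ℝ) * (Real.pi / m))) •
      ((Real.exp (-((T : ℝ) * (Real.pi / m))))⁻¹ •
      (g (((Real.exp (-((T : ℝ) * (Real.pi / m))) : ℝ) : ℂ) *
        Complex.exp ((θ k : ℂ) * Complex.I)) - g 0)) + g 0 := by
    intro k
    rw [F0_ix g T m hm' θ h T le_rfl k, smul_smul, mul_inv_cancel₀ hrp.ne', one_smul,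
      sub_add_cancel, Complex.ofReal_exp, ← Complex.exp_add]
    congr 2
    apply Complex.ext
    · simp [zt]
    · simp [zt]
  constructor
  · intro k h3 hk
    simp only [hV]
    exact cn_aff _ _ _ _ _ _ hrp.ne' (h1.fa k h3 hk)
  · intro k h3 hk
    simp only [hV]
    exact cn_aff _ _ _ _ _ _ hrp.ne' (h1.fb k h3 hk)
  · intro k h3 hk i hi hik
    simp only [hV]
    exact ds_aff _ _ _ _ _ _ _ hrp.ne' (h1.fd k h3 hk i hi hik)

end Pool.Agent.Lib.MP_ca0971_gt.OT.Sm
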