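import Pool.Agent.Lib.MP_ca0971_gt.OT.Sm.FrB2

set_option autoImplicit false

namespace Pool.Agent.Lib.MP_ca0971_gt.OT.Sm

open Set Metric Filter Topology

/-- All pairs of non adjacent chords. (`chords_near` for `(i, j)` or for `(j, i + m)`, else
`chords_far`.) -/
theorem chords (g : ℂ → E) (hg : Gd g) : ∃ m0 : ℕ, ∀ m ≥ m0, ∀ θ : ℤ → ℝ, Prt m θ → Cz g θ →
    ∀ i j : ℤ, i + 2 ≤ j → j + 2 ≤ i + m →
      Disjoint (ch g θ i) (ch g θ j) ∨ Hi g θ i j ∨ Hi g θ j i := by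
  obtain ⟨ρ, hρ, hn⟩ := chords_near g hg
  obtain ⟨m0, hm0⟩ := chords_far g hg ρ hρ
  refine ⟨max m0 1, fun m hm θ hθ hz i j hij hji => ?_⟩
  have h0 : 0 < m := lt_of_lt_of_le Nat.one_pos (le_trans (le_max_right _ _) hm)
  by_cases c1 : θ (j + 1) - θ i < ρ
  · exact Or.inl (hn m θ h0 hθ hz i j hij c1)
  by_cases c2 : θ (i + m + 1) - θ j < ρ
  · left
    have h1 := hn m θ h0 hθ hz j (i + m) hji c2
    have h2 : ch g θ (i + m) = ch g θ i := by
      unfold ch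
      have e : i + (m : ℤ) + 1 = i + 1 + m := by ring
      rw [e, hθ.per i, hθ.per (i + 1), bdc_per, bdc_per]
    rw [h2] at h1
    exact h1.symm
  · exact hm0 m (le_trans (le_max_left _ _) hm) θ hθ hz i j hij hji (not_lt.1 c1) (not_lt.1 c2)

end Pool.Agent.Lib.MP_ca0971_gt.OT.Sm
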