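import Pool.Agent.Lib.MP_ca0971_gt.OT.Sm.Def

set_option autoImplicit false

namespace Pool.Agent.Lib.MP_ca0971_gt.OT.Sm

open Set Metric Filter Topology

private theorem frc_seg {A A' B B' : ℂ} {δ : ℝ} (h : dist B A < δ) (h' : dist B' A' < δ) :
    segment ℝ B B' ⊆ thickening δ (segment ℝ A A') := by
  rintro x ⟨s, t, hs, ht, hst, rfl⟩
  rw [mem_thickening_iff]
  refine ⟨s • A + t • A', ⟨s, t, hs, ht, hst, rfl⟩, ?_⟩
  rw [dist_eq_norm] at h h' ⊢
  have e : s • B + t • B' - (s • A + t • A') = s • (B - A) + t • (B' - A') := by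
    simp only [smul_sub]; abel
  rw [e]
  have h1 : ‖s • (B - A) + t • (B' - A')‖ ≤ s * ‖B - A‖ + t * ‖B' - A'‖ := by
    refine (norm_add_le _ _).trans (le_of_eq ?_)
    rw [norm_smul, norm_smul, Real.norm_of_nonneg hs, Real.norm_of_nonneg ht]
  have h2 : s * ‖B - A‖ + t * ‖B' - A'‖ < δ := by
    rcases hs.eq_or_lt with h0 | h0
    · have : t = 1 := by linarith
      rw [← h0, this]; linarith
    · have a1 : s * ‖B - A‖ < s * δ := mul_lt_mul_of_pos_left h h0
      have a2 : t * ‖B' - A'‖ ≤ t * δ := mul_le_mul_of_nonneg_left h'.le ht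
      have a3 : s * δ + t * δ = δ := by rw [← add_mul, hst, one_mul]
      linarith
  exact lt_of_le_of_lt h1 h2

/-- The condition of a pair of non adjacent edges is open. `w`, `w'` = next vertices. -/
theorem pair_ev {V : Type} (F0 : V → E) (a a' b b' : V)
    (hp : Disjoint (segment ℝ (F0 a).1 (F0 a').1) (segment ℝ (F0 b).1 (F0 b').1)) :
    ∀ᶠ F in 𝓝 F0, Disjoint (segment ℝ (F a).1 (F a').1) (segment ℝ (F b).1 (F b').1) := by
  have hk : IsCompact (segment ℝ (F0 a).1 (F0 a').1) := by
    rw [← convexHull_pair]; exact (Set.toFinite _).isCompact_convexHull (𝕜 := ℝ)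
  have hl : IsCompact (segment ℝ (F0 b).1 (F0 b').1) := by
    rw [← convexHull_pair]; exact (Set.toFinite _).isCompact_convexHull (𝕜 := ℝ)
  obtain ⟨δ, hδ, hd⟩ := hp.exists_thickenings hk hl.isClosed
  have key : ∀ x : V, ∀ᶠ F in 𝓝 F0, dist (F x).1 (F0 x).1 < δ := by
    intro x
    have hc : Tendsto (fun F : V → E => (F x).1) (𝓝 F0) (𝓝 (F0 x).1) :=
      ((continuous_apply x).fst).tendsto F0
    exact hc (ball_mem_nhds _ hδ)
  filter_upwards [key a, key a', key b, key b'] with F h1 h2 h3 h4
  exact hd.mono (frc_seg h1 h2) (frc_seg h3 h4)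

/-- If two edges cross, the projected segments are not disjoint, and the heights at the crossing are
between the heights of the end points. -/
theorem crs_pt {I : Type} (σ : Equiv.Perm I) (v : I → E) (i j : I) (h : Crs σ v i j) :
    ¬ Disjoint (segment ℝ (v i).1 (v (σ i)).1) (segment ℝ (v j).1 (v (σ j)).1) ∧
      min (v i).2 (v (σ i)).2 ≤ ht σ v i j ∧ ht σ v i j ≤ max (v i).2 (v (σ i)).2 := by
  obtain ⟨-, hD, h1, h2, h3, h4⟩ := h
  have hD' : dt (dd σ v j) (dd σ v i) = - dt (dd σ v i) (dd σ v j) := by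
    simp only [dt]; ring
  have e : (v i).1 + (par σ v i j : ℂ) * dd σ v i = (v j).1 + (par σ v j i : ℂ) * dd σ v j := by
    have p1 : par σ v i j * dt (dd σ v i) (dd σ v j) = dt ((v j).1 - (v i).1) (dd σ v j) := by
      rw [par]; exact div_mul_cancel₀ _ hD
    have p2 : par σ v j i * dt (dd σ v i) (dd σ v j) = dt ((v j).1 - (v i).1) (dd σ v i) := by
      have hE : dt (dd σ v j) (dd σ v i) ≠ 0 := by rw [hD']; exact neg_ne_zero.mpr hD
      have q : par σ v j i * dt (dd σ v j) (dd σ v i) = dt ((v i).1 - (v j).1) (dd σ v i) := by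
        rw [par]; exact div_mul_cancel₀ _ hE
      rw [hD'] at q
      have r : dt ((v i).1 - (v j).1) (dd σ v i) = - dt ((v j).1 - (v i).1) (dd σ v i) := by
        simp only [dt, Complex.sub_re, Complex.sub_im]; ring
      linarith
    generalize hp : par σ v i j = p at *
    generalize hq : par σ v j i = q at *
    generalize hx : dd σ v i = x at *
    generalize hy : dd σ v j = y at *
    simp only [dt, Complex.sub_re, Complex.sub_im] at p1 p2 hD
    apply Complex.ext
    · simp only [Complex.add_re, Complex.mul_re, Complex.ofReal_re, Complex.ofReal_im, zero_mul,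
        sub_zero]
      apply mul_left_cancel₀ hD
      linear_combination x.re * p1 - y.re * p2
    · simp only [Complex.add_im, Complex.mul_im, Complex.ofReal_re, Complex.ofReal_im, zero_mul,
        add_zero]
      apply mul_left_cancel₀ hD
      linear_combination x.im * p1 - y.im * p2
  refine ⟨?_, ?_, ?_⟩
  · rw [Set.not_disjoint_iff]
    refine ⟨(v i).1 + (par σ v i j : ℂ) * dd σ v i, ?_, ?_⟩
    · refine ⟨1 - par σ v i j, par σ v i j, by linarith, h1.le, by ring, ?_⟩
      simp only [dd, Complex.real_smul]; push_cast; ring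
    · rw [e]
      refine ⟨1 - par σ v j i, par σ v j i, by linarith, h3.le, by ring, ?_⟩
      simp only [dd, Complex.real_smul]; push_cast; ring
  · rw [ht, dh]
    rcases le_total (v i).2 (v (σ i)).2 with hle | hle
    · rw [min_eq_left hle]
      have := mul_nonneg h1.le (sub_nonneg.mpr hle)
      linarith
    · rw [min_eq_right hle]
      have := mul_nonneg (sub_nonneg.mpr h2.le) (sub_nonneg.mpr hle)
      nlinarith [this]
  · rw [ht, dh]
    rcases le_total (v i).2 (v (σ i)).2 with hle | hle
    · rw [max_eq_right hle]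
      have := mul_nonneg (sub_nonneg.mpr h2.le) (sub_nonneg.mpr hle)
      nlinarith [this]
    · rw [max_eq_left hle]
      have := mul_nonneg h1.le (sub_nonneg.mpr hle)
      linarith

private theorem frc_trans (l : List E) (m : ℕ) (hl : l.length = m) (F : Fin m → E)
    (hF : ∀ i : Fin l.length, l.get i = F (Fin.cast hl i)) (h : Frt (finRotate m) F) :
    FrtL l := by
  subst hl
  have e : (fun i => l.get i) = F := by
    funext i
    rw [hF i]; rfl
  unfold FrtL
  rw [e]
  exact h

/-- Transport to lists. -/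
theorem frtL_ofFn (m : ℕ) (F : Fin m → E) (h : Frt (finRotate m) F) : FrtL (List.ofFn F) := by
  refine frc_trans (List.ofFn F) m List.length_ofFn F ?_ h
  intro i
  rw [List.get_eq_getElem, List.getElem_ofFn]
  rfl

end Pool.Agent.Lib.MP_ca0971_gt.OT.Sm
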