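import Pool.Agent.Lib.MP_ca0971_gt.OT.Sm.FrB3
import Pool.Agent.Lib.MP_ca0971_gt.OT.Sm.FrB4
import Pool.Agent.Lib.MP_ca0971_gt.OT.Sm.FrC

set_option autoImplicit false

namespace Pool.Agent.Lib.MP_ca0971_gt.OT.Sm

open Set Metric Filter Topology

private theorem frd_rot (m : ℕ) (hm : 0 < m) (i : Fin m) :
    ((finRotate m i).val = i.val + 1 ∧ i.val + 1 < m) ∨
      ((finRotate m i).val = 0 ∧ i.val + 1 = m) := by
  obtain ⟨k, rfl⟩ : ∃ k, m = k + 1 := ⟨m - 1, by omega⟩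
  have h1 := coe_finRotate i
  by_cases h : i = Fin.last k
  · right
    rw [if_pos h] at h1
    refine ⟨h1, ?_⟩
    rw [h]
    simp
  · left
    rw [if_neg h] at h1
    refine ⟨h1, ?_⟩
    have h2 := i.isLt
    have h3 : i.val ≠ k := fun h4 => h (Fin.ext (by simpa using h4))
    omega

private theorem frd_mono {m : ℕ} {θ : ℤ → ℝ} (hm : 0 < m) (hP : Prt m θ) : StrictMono θ := by
  refine strictMono_int_of_lt_succ fun k => ?_
  have h1 := hP.lo k
  have h2 : (0 : ℝ) < Real.pi / m := div_pos Real.pi_pos (by exact_mod_cast hm)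
  linarith

private theorem frd_ne {g : ℂ → E} (hg : Gd g) {m : ℕ} {θ : ℤ → ℝ} (hm : 0 < m) (hP : Prt m θ)
    (hC : Cz g θ) (k : ℤ) : bX g (θ (k + 1)) - bX g (θ k) ≠ 0 := by
  have hmo := frd_mono hm hP
  refine (chord g hg (θ k) (θ (k + 1)) (hmo (by omega)) fun t ht h0 => ?_).1
  obtain ⟨l, rfl⟩ := hC t h0
  have h1 : k < l := hmo.lt_iff_lt.1 ht.1
  have h2 : l < k + 1 := hmo.lt_iff_lt.1 ht.2
  omega

private theorem frd_dd {I : Type} (σ : Equiv.Perm I) (i : I) (F0 : I → E) :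
    ContinuousAt (fun F : I → E => dd σ F i) F0 := by
  unfold dd
  fun_prop

private theorem frd_dh {I : Type} (σ : Equiv.Perm I) (i : I) (F0 : I → E) :
    ContinuousAt (fun F : I → E => dh σ F i) F0 := by
  unfold dh
  fun_prop

private theorem frd_re {I : Type} (σ : Equiv.Perm I) (i : I) (F0 : I → E) :
    ContinuousAt (fun F : I → E => (dd σ F i).re) F0 :=
  Complex.continuous_re.continuousAt.comp (frd_dd σ i F0)

private theorem frd_slo {I : Type} (σ : Equiv.Perm I) (i : I) (F0 : I → E)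
    (h : (dd σ F0 i).re ≠ 0) : ContinuousAt (fun F : I → E => slo σ F i) F0 :=
  (Complex.continuous_im.continuousAt.comp (frd_dd σ i F0)).div (frd_re σ i F0) h

private theorem frd_hsl {I : Type} (σ : Equiv.Perm I) (i : I) (F0 : I → E)
    (h : (dd σ F0 i).re ≠ 0) : ContinuousAt (fun F : I → E => hsl σ F i) F0 :=
  (frd_dh σ i F0).div (frd_re σ i F0) h

private theorem frd_h {I : Type} (i : I) (F0 : I → E) :
    ContinuousAt (fun F : I → E => (F i).2) F0 :=
  (continuous_snd.comp (continuous_apply i)).continuousAt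

private theorem frd_crs {I : Type} {σ : Equiv.Perm I} {v : I → E} {i j : I} (h : Crs σ v i j) :
    Crs σ v j i := by
  obtain ⟨h1, h2, h3, h4, h5, h6⟩ := h
  refine ⟨?_, ?_, h5, h6, h3, h4⟩
  · rintro (h7 | h7 | h7)
    · exact h1 (Or.inl h7.symm)
    · exact h1 (Or.inr (Or.inr h7))
    · exact h1 (Or.inr (Or.inl h7))
  · intro h7
    apply h2
    have : dt (dd σ v i) (dd σ v j) = - dt (dd σ v j) (dd σ v i) := by
      unfold dt
      ring
    rw [this, h7, neg_zero]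

/-- If the edge `i` is lower than the edge `j` then the premise of `ord` is false. -/
private theorem frd_low {I : Type} {σ : Equiv.Perm I} {v : I → E} {i j : I}
    (h1 : (v i).2 < (v j).2) (h2 : (v i).2 < (v (σ j)).2) (h3 : (v (σ i)).2 < (v j).2)
    (h4 : (v (σ i)).2 < (v (σ j)).2) (hc : Crs σ v i j) : ht σ v i j < ht σ v j i := by
  have h5 := (crs_pt σ v i j hc).2.2
  have h6 := (crs_pt σ v j i (frd_crs hc)).2.1
  have h7 : max (v i).2 (v (σ i)).2 < min (v j).2 (v (σ j)).2 :=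
    max_lt (lt_min h1 h2) (lt_min h3 h4)
  exact h5.trans_lt (h7.trans_le h6)

/-- The inscribed polygon and all polygons near it are fronts. For each pair of non adjacent edges one
of the three cases of `chords` persists, `nv`, `cmin`, `cmax` are strict inequalities (or have a false
premise which stays false: the sign of `(dd σ F i).re` does not change). `finRotate m` is `i ↦ i + 1`;
use `θ (i + m) = θ i + 2 π` and `bdc_per`. -/
theorem front_ev (g : ℂ → E) (hg : Gd g) : ∃ m0 : ℕ, ∀ m ≥ m0, ∀ θ : ℤ → ℝ, Prt m θ → Cz g θ →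
    ∀ᶠ F in 𝓝 (fun i : Fin m => bdc g (θ (i.val : ℤ))), Frt (finRotate m) F := by
  obtain ⟨m1, hcu⟩ := cusps g hg
  obtain ⟨m2, hch⟩ := chords g hg
  refine ⟨max (max m1 m2) 5, fun m hm θ hP hC => ?_⟩
  have hm1 : m1 ≤ m := (le_max_left _ _).trans ((le_max_left _ _).trans hm)
  have hm2 : m2 ≤ m := (le_max_right _ _).trans ((le_max_left _ _).trans hm)
  have hm5 : 5 ≤ m := (le_max_right _ _).trans hm
  have hm0 : 0 < m := by omega
  have hcu' := hcu m hm1 θ hP hC
  have hch' := hch m hm2 θ hP hC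
  set F0 : Fin m → E := fun i => bdc g (θ (i.val : ℤ)) with hF0
  set σ := finRotate m with hσ
  have per : ∀ k : ℤ, bdc g (θ (k + m)) = bdc g (θ k) := fun k => by
    rw [hP.per, bdc_per]
  have s1 : ∀ i : Fin m, F0 (σ i) = bdc g (θ ((i.val : ℤ) + 1)) := by
    intro i
    show bdc g (θ ((σ i).val : ℤ)) = _
    rcases frd_rot m hm0 i with ⟨h1, -⟩ | ⟨h1, h2⟩
    · rw [hσ, h1]
      push_cast
      rfl
    · rw [hσ, h1]
      have h3 : (i.val : ℤ) + 1 = (0 : ℕ) + m := by omega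
      rw [h3, per]
  have s2 : ∀ i : Fin m, F0 (σ (σ i)) = bdc g (θ ((i.val : ℤ) + 2)) := by
    intro i
    rw [s1 (σ i)]
    rcases frd_rot m hm0 i with ⟨h1, -⟩ | ⟨h1, h2⟩
    · have h3 : (i.val : ℤ) + 2 = ((i.val + 1 : ℕ) : ℤ) + 1 := by
        push_cast
        ring
      rw [hσ, h1, h3]
    · rw [hσ, h1]
      have h3 : (i.val : ℤ) + 2 = ((0 : ℕ) : ℤ) + 1 + m := by omega
      rw [h3, per]
  have e1 : ∀ i : Fin m, (dd σ F0 i).re = bX g (θ ((i.val : ℤ) + 1)) - bX g (θ (i.val : ℤ)) := by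
    intro i
    unfold dd
    rw [s1 i]
    rfl
  have e2 : ∀ i : Fin m, (dd σ F0 (σ i)).re =
      bX g (θ ((i.val : ℤ) + 2)) - bX g (θ ((i.val : ℤ) + 1)) := by
    intro i
    unfold dd
    rw [s2 i, s1 i]
    rfl
  have e3 : ∀ i : Fin m, slo σ F0 i = sl g θ (i.val : ℤ) := by
    intro i
    unfold slo dd
    rw [s1 i]
    rfl
  have e4 : ∀ i : Fin m, slo σ F0 (σ i) = sl g θ ((i.val : ℤ) + 1) := by
    intro i
    unfold slo dd sl
    rw [s2 i, s1 i, show (i.val : ℤ) + 1 + 1 = (i.val : ℤ) + 2 by ring]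
    rfl
  have e5 : ∀ i : Fin m, hsl σ F0 i = (bH g (θ ((i.val : ℤ) + 1)) - bH g (θ (i.val : ℤ))) /
      (bX g (θ ((i.val : ℤ) + 1)) - bX g (θ (i.val : ℤ))) := by
    intro i
    unfold hsl dh dd
    rw [s1 i]
    rfl
  have e6 : ∀ i : Fin m, hsl σ F0 (σ i) =
      (bH g (θ ((i.val : ℤ) + 2)) - bH g (θ ((i.val : ℤ) + 1))) /
      (bX g (θ ((i.val : ℤ) + 2)) - bX g (θ ((i.val : ℤ) + 1))) := by
    intro i
    unfold hsl dh dd
    rw [s2 i, s1 i]
    rfl
  have n1 : ∀ i : Fin m, (dd σ F0 i).re ≠ 0 := fun i => by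
    rw [e1]
    exact frd_ne hg hm0 hP hC _
  have c0 : ContinuousAt (fun _ : Fin m → E => (0 : ℝ)) F0 := continuousAt_const
  -- `nv`
  have a1 : ∀ᶠ F in 𝓝 F0, ∀ i, (dd σ F i).re ≠ 0 := by
    rw [Filter.eventually_all]
    intro i
    exact (frd_re σ i F0).eventually_ne (n1 i)
  -- signs
  have sg1 : ∀ᶠ F in 𝓝 F0, ∀ i, ((dd σ F i).re < 0 → (dd σ F0 i).re < 0) ∧
      (0 < (dd σ F i).re → 0 < (dd σ F0 i).re) := by
    rw [Filter.eventually_all]
    intro i
    rcases lt_or_gt_of_ne (n1 i) with h | h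
    · filter_upwards [(frd_re σ i F0).eventually_lt c0 h] with F hF
      exact ⟨fun _ => h, fun h' => absurd h' (not_lt.2 hF.le)⟩
    · filter_upwards [c0.eventually_lt (frd_re σ i F0) h] with F hF
      exact ⟨fun h' => absurd h' (not_lt.2 hF.le), fun _ => h⟩
  have cpr : ∀ i : Fin m, ContinuousAt (fun F : Fin m → E =>
      (slo σ F i - slo σ F (σ i)) * (hsl σ F i - hsl σ F (σ i))) F0 := fun i =>
    ((frd_slo σ i F0 (n1 i)).sub (frd_slo σ (σ i) F0 (n1 (σ i)))).mul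
      ((frd_hsl σ i F0 (n1 i)).sub (frd_hsl σ (σ i) F0 (n1 (σ i))))
  have a2 : ∀ᶠ F in 𝓝 F0, ∀ i, (dd σ F i).re < 0 → 0 < (dd σ F (σ i)).re →
      (slo σ F i - slo σ F (σ i)) * (hsl σ F i - hsl σ F (σ i)) < 0 := by
    rw [Filter.eventually_all]
    intro i
    by_cases h : (dd σ F0 i).re < 0 ∧ 0 < (dd σ F0 (σ i)).re
    · have h1 : (slo σ F0 i - slo σ F0 (σ i)) * (hsl σ F0 i - hsl σ F0 (σ i)) < 0 := by
        rw [e3, e4, e5, e6]
        rw [e1, e2] at h
        exact (hcu' (i.val : ℤ)).1 h.1 h.2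
      filter_upwards [(cpr i).eventually_lt c0 h1] with F hF _ _
      exact hF
    · filter_upwards [sg1] with F hF h1 h2
      exact absurd ⟨(hF i).1 h1, (hF (σ i)).2 h2⟩ h
  have a3 : ∀ᶠ F in 𝓝 F0, ∀ i, 0 < (dd σ F i).re → (dd σ F (σ i)).re < 0 →
      0 < (slo σ F i - slo σ F (σ i)) * (hsl σ F i - hsl σ F (σ i)) := by
    rw [Filter.eventually_all]
    intro i
    by_cases h : 0 < (dd σ F0 i).re ∧ (dd σ F0 (σ i)).re < 0
    · have h1 : 0 < (slo σ F0 i - slo σ F0 (σ i)) * (hsl σ F0 i - hsl σ F0 (σ i)) := by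
        rw [e3, e4, e5, e6]
        rw [e1, e2] at h
        exact (hcu' (i.val : ℤ)).2 h.1 h.2
      filter_upwards [c0.eventually_lt (cpr i) h1] with F hF _ _
      exact hF
    · filter_upwards [sg1] with F hF h1 h2
      exact absurd ⟨(hF i).2 h1, (hF (σ i)).1 h2⟩ h
  -- `ord`
  have hi1 : ∀ i j : Fin m, Hi g θ (i.val : ℤ) (j.val : ℤ) → ∀ᶠ F in 𝓝 F0,
      slo σ F i < slo σ F j := by
    intro i j h
    refine (frd_slo σ i F0 (n1 i)).eventually_lt (frd_slo σ j F0 (n1 j)) ?_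
    show slo σ F0 i < slo σ F0 j
    rw [e3, e3]
    exact h.2.2.2.2
  have hi2 : ∀ i j : Fin m, Hi g θ (j.val : ℤ) (i.val : ℤ) → ∀ᶠ F in 𝓝 F0,
      Crs σ F i j → ht σ F i j < ht σ F j i := by
    intro i j h
    obtain ⟨h1, h2, h3, h4, -⟩ := h
    have k1 : (F0 i).2 < (F0 j).2 := h1
    have k2 : (F0 i).2 < (F0 (σ j)).2 := by
      rw [s1]
      exact h2
    have k3 : (F0 (σ i)).2 < (F0 j).2 := by
      rw [s1]
      exact h3
    have k4 : (F0 (σ i)).2 < (F0 (σ j)).2 := by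
      rw [s1, s1]
      exact h4
    filter_upwards [(frd_h i F0).eventually_lt (frd_h j F0) k1,
      (frd_h i F0).eventually_lt (frd_h (σ j) F0) k2,
      (frd_h (σ i) F0).eventually_lt (frd_h j F0) k3,
      (frd_h (σ i) F0).eventually_lt (frd_h (σ j) F0) k4] with F t1 t2 t3 t4 hc
    exact frd_low t1 t2 t3 t4 hc
  have hdj : ∀ i j : Fin m, Disjoint (ch g θ (i.val : ℤ)) (ch g θ (j.val : ℤ)) →
      ∀ᶠ F in 𝓝 F0, ¬ Crs σ F i j := by
    intro i j h
    have h1 : Disjoint (segment ℝ (F0 i).1 (F0 (σ i)).1) (segment ℝ (F0 j).1 (F0 (σ j)).1) := by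
      rw [s1, s1]
      exact h
    filter_upwards [pair_ev F0 i (σ i) j (σ j) h1] with F hF hc
    exact (crs_pt σ F i j hc).1 hF
  have tri : ∀ i j : Fin m, ¬ Adj σ i j →
      Disjoint (ch g θ (i.val : ℤ)) (ch g θ (j.val : ℤ)) ∨ Hi g θ (i.val : ℤ) (j.val : ℤ) ∨
        Hi g θ (j.val : ℤ) (i.val : ℤ) := by
    intro i j hA
    have b1 : i.val ≠ j.val := fun h => hA (Or.inl (Fin.ext h))
    have b2 : j.val ≠ (σ i).val := fun h => hA (Or.inr (Or.inl (Fin.ext h)))
    have b3 : i.val ≠ (σ j).val := fun h => hA (Or.inr (Or.inr (Fin.ext h)))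
    have l1 := i.isLt
    have l2 := j.isLt
    rcases lt_or_gt_of_ne b1 with h | h
    · refine hch' (i.val : ℤ) (j.val : ℤ) ?_ ?_
      · rcases frd_rot m hm0 i with ⟨r1, r2⟩ | ⟨r1, r2⟩
        · rw [hσ, r1] at b2
          omega
        · omega
      · rcases frd_rot m hm0 j with ⟨r1, r2⟩ | ⟨r1, r2⟩
        · omega
        · rw [hσ, r1] at b3
          omega
    · have := hch' (j.val : ℤ) (i.val : ℤ) (by
        rcases frd_rot m hm0 j with ⟨r1, r2⟩ | ⟨r1, r2⟩
        · rw [hσ, r1] at b3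
          omega
        · omega) (by
        rcases frd_rot m hm0 i with ⟨r1, r2⟩ | ⟨r1, r2⟩
        · omega
        · rw [hσ, r1] at b2
          omega)
      rcases this with h1 | h1 | h1
      · exact Or.inl h1.symm
      · exact Or.inr (Or.inr h1)
      · exact Or.inr (Or.inl h1)
  have a4 : ∀ᶠ F in 𝓝 F0, ∀ i j, Crs σ F i j → ht σ F j i < ht σ F i j →
      slo σ F i < slo σ F j := by
    rw [Filter.eventually_all]
    intro i
    rw [Filter.eventually_all]
    intro j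
    by_cases hA : Adj σ i j
    · exact Eventually.of_forall fun F hc => absurd hA hc.1
    · rcases tri i j hA with h | h | h
      · filter_upwards [hdj i j h] with F hF hc
        exact absurd hc hF
      · filter_upwards [hi1 i j h] with F hF _ _
        exact hF
      · filter_upwards [hi2 i j h] with F hF hc hlt
        exact absurd (hF hc) (not_lt.2 hlt.le)
  filter_upwards [a1, a2, a3, a4] with F f1 f2 f3 f4
  exact ⟨f1, f4, f2, f3⟩

end Pool.Agent.Lib.MP_ca0971_gt.OT.Sm
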