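import Pool.Agent.Lib.MP_ca0971_gt.OT.Sm.Def

set_option autoImplicit false

namespace Pool.Agent.Lib.MP_ca0971_gt.OT.Sm

open Set Metric Filter Topology

/-- A condition `∀ k ∈ K, φ F k ≠ 0` with `K` compact, `φ` continuous, is open. -/
theorem forall_ne_ev {X K : Type*} [TopologicalSpace X] [TopologicalSpace K] (S : Set K)
    (hS : IsCompact S) (φ : X × K → E) (hφ : Continuous φ) (x0 : X)
    (h : ∀ k ∈ S, φ (x0, k) ≠ 0) : ∀ᶠ x in 𝓝 x0, ∀ k ∈ S, φ (x, k) ≠ 0 :=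
  hS.eventually_forall_of_forall_eventually (P := fun x k => φ (x, k) ≠ 0)
    fun k hk => hφ.continuousAt.eventually_ne (h k hk)

/-- Cone version of `forall_ne_ev`. -/
theorem cone_ev {X V : Type*} [TopologicalSpace X] [NormedAddCommGroup V] [NormedSpace ℝ V]
    [ProperSpace V] (C : Set V) (hC : IsClosed C) (hcone : ∀ r : ℝ, 0 ≤ r → ∀ k ∈ C, r • k ∈ C)
    (φ : X × V → E) (hφ : Continuous φ) (hom : ∀ x : X, ∀ r : ℝ, ∀ k, φ (x, r • k) = r • φ (x, k))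
    (x0 : X) (h : ∀ k ∈ C, φ (x0, k) = 0 → k = 0) :
    ∀ᶠ x in 𝓝 x0, ∀ k ∈ C, φ (x, k) = 0 → k = 0 := by
  have hS : IsCompact (C ∩ sphere (0 : V) 1) := (isCompact_sphere 0 1).inter_left hC
  have h1 : ∀ k ∈ C ∩ sphere (0 : V) 1, φ (x0, k) ≠ 0 := by
    rintro k ⟨hk, hk1⟩ h0
    have := h k hk h0
    rw [this] at hk1
    simp at hk1
  filter_upwards [forall_ne_ev _ hS φ hφ x0 h1] with x hx k hk h0
  by_contra hne
  have hn : ‖k‖ ≠ 0 := norm_ne_zero_iff.2 hne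
  refine hx (‖k‖⁻¹ • k) ⟨hcone _ (by positivity) k hk, ?_⟩ ?_
  · simp [norm_smul, hn]
  · rw [hom, h0, smul_zero]

/-- `Cn` is open. Proof: by homogeneity it is enough to have
`a • (P - v) + b • (Q - v) - c • (D - v) ≠ 0` for `a, b, c ≥ 0`, `a + b + c = 1`; this set is compact;
`forall_ne_ev`. -/
theorem cn_ev {W : Type} (F0 : W → E) (v P Q D : W) (h : Cn (F0 v) (F0 P) (F0 Q) (F0 D)) :
    ∀ᶠ F in 𝓝 F0, Cn (F v) (F P) (F Q) (F D) := by
  have key := cone_ev (X := W → E) (V := ℝ × ℝ × ℝ) {k | 0 ≤ k.1 ∧ 0 ≤ k.2.1 ∧ 0 ≤ k.2.2}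
    ((isClosed_le continuous_const continuous_fst).inter
      ((isClosed_le continuous_const (continuous_fst.comp continuous_snd)).inter
        (isClosed_le continuous_const (continuous_snd.comp continuous_snd))))
    (fun r hr k hk => ⟨mul_nonneg hr hk.1, mul_nonneg hr hk.2.1, mul_nonneg hr hk.2.2⟩)
    (fun p => p.2.1 • (p.1 P - p.1 v) + p.2.2.1 • (p.1 Q - p.1 v) - p.2.2.2 • (p.1 D - p.1 v))
    (by fun_prop)
    (fun F r k => by simp only [Prod.smul_fst, Prod.smul_snd, smul_eq_mul, mul_smul, smul_add,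
      smul_sub])
    F0 (fun k hk h0 => by
      obtain ⟨h1, h2, h3⟩ := h k.1 k.2.1 k.2.2 hk.1 hk.2.1 hk.2.2 h0
      exact Prod.ext h1 (Prod.ext h2 h3))
  filter_upwards [key] with F hF a b c ha hb hc h0
  have := hF (a, b, c) ⟨ha, hb, hc⟩ h0
  simpa using this

/-- `SCn` is open. The same with `a + b + c + t = 1`. -/
theorem scn_ev {W : Type} (F0 : W → E) (v P Q D : W) (h : SCn (F0 v) (F0 P) (F0 Q) (F0 D)) :
    ∀ᶠ F in 𝓝 F0, SCn (F v) (F P) (F Q) (F D) := by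
  have key := cone_ev (X := W → E) (V := ℝ × ℝ × ℝ × ℝ)
    {k | 0 ≤ k.1 ∧ 0 ≤ k.2.1 ∧ 0 ≤ k.2.2.1 ∧ 0 ≤ k.2.2.2}
    ((isClosed_le continuous_const continuous_fst).inter
      ((isClosed_le continuous_const (continuous_fst.comp continuous_snd)).inter
        ((isClosed_le continuous_const
          (continuous_fst.comp (continuous_snd.comp continuous_snd))).inter
        (isClosed_le continuous_const
          (continuous_snd.comp (continuous_snd.comp continuous_snd))))))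
    (fun r hr k hk => ⟨mul_nonneg hr hk.1, mul_nonneg hr hk.2.1, mul_nonneg hr hk.2.2.1,
      mul_nonneg hr hk.2.2.2⟩)
    (fun p => p.2.1 • (p.1 P - p.1 v) + p.2.2.1 • (p.1 Q - p.1 v) - p.2.2.2.1 • (p.1 D - p.1 v)
      - p.2.2.2.2 • eZ)
    (by fun_prop)
    (fun F r k => by simp only [Prod.smul_fst, Prod.smul_snd, smul_eq_mul, mul_smul, smul_add,
      smul_sub])
    F0 (fun k hk h0 => by
      obtain ⟨h1, h2, h3, h4⟩ := h k.1 k.2.1 k.2.2.1 k.2.2.2 hk.1 hk.2.1 hk.2.2.1 hk.2.2.2 h0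
      exact Prod.ext h1 (Prod.ext h2 (Prod.ext h3 h4)))
  filter_upwards [key] with F hF a b c t ha hb hc ht h0
  have := hF (a, b, c, t) ⟨ha, hb, hc, ht⟩ h0
  simpa using this

/-- `SH` is open. The same with `|a| + b + t = 1`. -/
theorem sh_ev {W : Type} (F0 : W → E) (v P Q : W) (h : SH (F0 v) (F0 P) (F0 Q)) :
    ∀ᶠ F in 𝓝 F0, SH (F v) (F P) (F Q) := by
  have key := cone_ev (X := W → E) (V := ℝ × ℝ × ℝ) {k | 0 ≤ k.2.1 ∧ 0 ≤ k.2.2}
    ((isClosed_le continuous_const (continuous_fst.comp continuous_snd)).inter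
        (isClosed_le continuous_const (continuous_snd.comp continuous_snd)))
    (fun r hr k hk => ⟨mul_nonneg hr hk.1, mul_nonneg hr hk.2⟩)
    (fun p => p.2.1 • (p.1 P - p.1 v) + p.2.2.1 • (p.1 Q - p.1 v) - p.2.2.2 • eZ)
    (by fun_prop)
    (fun F r k => by simp only [Prod.smul_fst, Prod.smul_snd, smul_eq_mul, mul_smul, smul_add,
      smul_sub])
    F0 (fun k hk h0 => by
      obtain ⟨h1, h2, h3⟩ := h k.1 k.2.1 k.2.2 hk.1 hk.2 h0
      exact Prod.ext h1 (Prod.ext h2 h3))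
  filter_upwards [key] with F hF a b t hb ht h0
  have := hF (a, b, t) ⟨hb, ht⟩ h0
  simpa using this

/-- The triangle in coordinates. -/
theorem mem_tri_iff (P Q R x : E) : x ∈ convexHull ℝ ({P, Q, R} : Set E) ↔
    ∃ t ∈ Icc (0 : ℝ) 1, ∃ u ∈ Icc (0 : ℝ) 1, x = (1 - t) • P + t • ((1 - u) • Q + u • R) := by
  rw [convexHull_insert (by simp), convexHull_pair, mem_convexJoin]
  constructor
  · rintro ⟨p, rfl, y, hy, hx⟩
    rw [segment_eq_image] at hy hx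
    obtain ⟨u, hu, rfl⟩ := hy
    obtain ⟨t, ht, rfl⟩ := hx
    exact ⟨t, ht, u, hu, rfl⟩
  · rintro ⟨t, ht, u, hu, rfl⟩
    refine ⟨P, rfl, (1 - u) • Q + u • R, ?_, ?_⟩
    · rw [segment_eq_image]; exact ⟨u, hu, rfl⟩
    · rw [segment_eq_image]; exact ⟨t, ht, rfl⟩

/-- `Ds` in coordinates. -/
theorem ds_iff (P Q R D D' : E) : Ds P Q R D D' ↔ ∀ k ∈ Icc ((0, 0, 0) : ℝ × ℝ × ℝ) (1, 1, 1),
    ((1 - k.1) • D + k.1 • D') - ((1 - k.2.1) • P + k.2.1 • ((1 - k.2.2) • Q + k.2.2 • R)) ≠ 0 := by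
  rw [Ds, Set.disjoint_left]
  constructor
  · rintro h ⟨s, t, u⟩ ⟨⟨h1, h2, h3⟩, ⟨h4, h5, h6⟩⟩ h0
    refine h (a := (1 - s) • D + s • D') ?_ ?_
    · rw [segment_eq_image]; exact ⟨s, ⟨h1, h4⟩, rfl⟩
    · rw [mem_tri_iff]; exact ⟨t, ⟨h2, h5⟩, u, ⟨h3, h6⟩, sub_eq_zero.1 h0⟩
  · intro h x hx hx'
    rw [segment_eq_image] at hx
    obtain ⟨s, hs, rfl⟩ := hx
    rw [mem_tri_iff] at hx'
    obtain ⟨t, ht, u, hu, he⟩ := hx'
    exact h (s, t, u) ⟨⟨hs.1, ht.1, hu.1⟩, ⟨hs.2, ht.2, hu.2⟩⟩ (sub_eq_zero.2 he)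

/-- `Ds` is open. Parametrise the segment by `s ∈ [0, 1]` and the triangle by barycentric coordinates;
`forall_ne_ev` for the difference. -/
theorem ds_ev {W : Type} (F0 : W → E) (P Q R D D' : W)
    (h : Ds (F0 P) (F0 Q) (F0 R) (F0 D) (F0 D')) :
    ∀ᶠ F in 𝓝 F0, Ds (F P) (F Q) (F R) (F D) (F D') := by
  have key := forall_ne_ev (X := W → E) (K := ℝ × ℝ × ℝ) (Icc (0, 0, 0) (1, 1, 1)) isCompact_Icc
    (fun p => ((1 - p.2.1) • p.1 D + p.2.1 • p.1 D') -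
      ((1 - p.2.2.1) • p.1 P + p.2.2.1 • ((1 - p.2.2.2) • p.1 Q + p.2.2.2 • p.1 R)))
    (by fun_prop) F0 ((ds_iff _ _ _ _ _).1 h)
  filter_upwards [key] with F hF
  exact (ds_iff _ _ _ _ _).2 hF

end Pool.Agent.Lib.MP_ca0971_gt.OT.Sm
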