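import Pool.Agent.Lib.MP_ca0971_gt.OT.Sm.Def

set_option autoImplicit false

namespace Pool.Agent.Lib.MP_ca0971_gt.OT.Sm

open Set Metric Filter Topology

/-- A point of a triangle. -/
theorem openB_tri {v P Q x : E} (h : x ∈ convexHull ℝ {v, P, Q}) :
    ∃ a b : ℝ, 0 ≤ a ∧ 0 ≤ b ∧ x = v + a • (P - v) + b • (Q - v) := by
  rw [convexHull_insert (by simp), convexHull_pair, convexJoin_singleton_left] at h
  simp only [mem_iUnion, exists_prop] at h
  obtain ⟨y, hy, hx⟩ := h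
  rw [segment_eq_image] at hy hx
  obtain ⟨s, ⟨hs0, hs1⟩, rfl⟩ := hy
  obtain ⟨r, ⟨hr0, hr1⟩, rfl⟩ := hx
  refine ⟨r * (1 - s), r * s, mul_nonneg hr0 (sub_nonneg.2 hs1), mul_nonneg hr0 hs0, ?_⟩
  simp only []
  module

theorem openB_seg {v D x : E} (h : x ∈ segment ℝ v D) :
    ∃ c : ℝ, 0 ≤ c ∧ x = v + c • (D - v) := by
  rw [segment_eq_image] at h
  obtain ⟨s, ⟨hs0, hs1⟩, rfl⟩ := h
  refine ⟨s, hs0, ?_⟩
  simp only []
  module

theorem openB_shf (t : ℝ) (S : Set E) {x : E} (h : x ∈ shf t S) :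
    ∃ y ∈ S, x = y + t • eZ := by
  obtain ⟨y, hy, rfl⟩ := h
  refine ⟨y, hy, ?_⟩
  apply Prod.ext
  · simp [eZ]
  · simp [eZ]

/-- Points of the triangle are `v + a (P - v) + b (Q - v)`, points of the segment `v + c (D - v)`. -/
theorem cn_sub (v P Q D : E) (h : Cn v P Q D) :
    segment ℝ D v ∩ convexHull ℝ {v, P, Q} ⊆ {v} := by
  rintro x ⟨hx, hx'⟩
  rw [segment_symm] at hx
  obtain ⟨c, hc, e1⟩ := openB_seg hx
  obtain ⟨a, b, ha, hb, e2⟩ := openB_tri hx'
  have h0 : a • (P - v) + b • (Q - v) - c • (D - v) = 0 := by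
    have e3 : v + a • (P - v) + b • (Q - v) = v + c • (D - v) := by rw [← e1, ← e2]
    rw [add_assoc] at e3
    rw [add_left_cancel e3, sub_self]
  obtain ⟨-, -, h1⟩ := h a b c ha hb hc h0
  rw [e1, h1, zero_smul, add_zero]
  exact mem_singleton v

theorem scn_shf (v P Q D : E) (h : SCn v P Q D) (t : ℝ) (ht : 0 < t) :
    Disjoint (convexHull ℝ {v, P, Q}) (shf t (segment ℝ v D)) := by
  rw [Set.disjoint_left]
  intro x hx hx'
  obtain ⟨a, b, ha, hb, e2⟩ := openB_tri hx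
  obtain ⟨y, hy, e3⟩ := openB_shf t _ hx'
  obtain ⟨c, hc, e1⟩ := openB_seg hy
  have h0 : a • (P - v) + b • (Q - v) - c • (D - v) - t • eZ = 0 := by
    have e4 : v + (a • (P - v) + b • (Q - v)) = v + (c • (D - v) + t • eZ) := by
      rw [← add_assoc, ← e2, ← add_assoc, ← e1, e3]
    rw [add_left_cancel e4]
    abel
  exact ht.ne' (h a b c t ha hb hc ht.le h0).2.2.2

theorem sh_shf (v P Q : E) (h : SH v P Q) (t : ℝ) (ht : 0 < t) :
    Disjoint (convexHull ℝ {v, P, Q}) (shf t (segment ℝ v P)) := by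
  rw [Set.disjoint_left]
  intro x hx hx'
  obtain ⟨a, b, ha, hb, e2⟩ := openB_tri hx
  obtain ⟨y, hy, e3⟩ := openB_shf t _ hx'
  obtain ⟨c, hc, e1⟩ := openB_seg hy
  have h0 : (a - c) • (P - v) + b • (Q - v) - t • eZ = 0 := by
    have e4 : v + (a • (P - v) + b • (Q - v)) = v + (c • (P - v) + t • eZ) := by
      rw [← add_assoc, ← e2, ← add_assoc, ← e1, e3]
    have e5 := add_left_cancel e4
    rw [sub_smul, sub_add_eq_add_sub, e5]
    abel
  exact ht.ne' (h (a - c) b t hb ht.le h0).2.2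

/-- Two disjoint compact sets stay disjoint after a small shift. -/
theorem ds_shf (P Q R D D' : E) (h : Ds P Q R D D') :
    ∀ᶠ t in 𝓝[>] (0 : ℝ), Disjoint (convexHull ℝ {P, Q, R}) (shf t (segment ℝ D D')) := by
  have hK : IsCompact (convexHull ℝ ({P, Q, R} : Set E)) :=
    Set.Finite.isCompact_convexHull ℝ (Set.toFinite _)
  have hL : IsCompact (segment ℝ D D') := by
    rw [← convexHull_pair]
    exact Set.Finite.isCompact_convexHull ℝ (Set.toFinite _)
  obtain ⟨δ, hδ, hd⟩ := (Disjoint.symm h).exists_thickenings hK hL.isClosed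
  have h1 : ∀ᶠ t in 𝓝[>] (0 : ℝ), t * ‖eZ‖ < δ := by
    have h2 : Tendsto (fun t : ℝ => t * ‖eZ‖) (𝓝[>] (0 : ℝ)) (𝓝 (0 * ‖eZ‖)) :=
      ((continuous_id.mul continuous_const).tendsto 0).mono_left nhdsWithin_le_nhds
    rw [zero_mul] at h2
    exact h2.eventually_lt_const hδ
  filter_upwards [h1, self_mem_nhdsWithin] with t ht ht0
  refine hd.mono (self_subset_thickening hδ _) ?_
  intro x hx
  obtain ⟨y, hy, e3⟩ := openB_shf t _ hx
  rw [mem_thickening_iff]
  refine ⟨y, hy, ?_⟩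
  rw [e3, dist_eq_norm, add_sub_cancel_left, norm_smul, Real.norm_eq_abs,
    abs_of_pos (show (0 : ℝ) < t from ht0)]
  exact ht

/-- Symmetries of the arguments. -/
theorem cn_comm (v P Q D : E) (h : Cn v P Q D) : Cn v Q P D := by
  intro a b c ha hb hc h0
  obtain ⟨h1, h2, h3⟩ := h b a c hb ha hc (by rw [add_comm]; exact h0)
  exact ⟨h2, h1, h3⟩

theorem scn_comm (v P Q D : E) (h : SCn v P Q D) : SCn v Q P D := by
  intro a b c t ha hb hc ht h0
  obtain ⟨h1, h2, h3, h4⟩ := h b a c t hb ha hc ht (by rw [add_comm (b • (P - v))]; exact h0)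
  exact ⟨h2, h1, h3, h4⟩

/-- `t = 0`. -/
theorem scn_cn (v P Q D : E) (h : SCn v P Q D) : Cn v P Q D := by
  intro a b c ha hb hc h0
  obtain ⟨h1, h2, h3, -⟩ := h a b c 0 ha hb hc le_rfl (by rw [zero_smul, sub_zero]; exact h0)
  exact ⟨h1, h2, h3⟩

/-- Invariance under similarities. -/
theorem cn_aff (v P Q D x0 : E) (r : ℝ) (hr : r ≠ 0) (h : Cn v P Q D) :
    Cn (r • v + x0) (r • P + x0) (r • Q + x0) (r • D + x0) := by
  intro a b c ha hb hc h0
  refine h a b c ha hb hc ?_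
  have h1 : r • (a • (P - v) + b • (Q - v) - c • (D - v)) = 0 := by
    rw [← h0]
    module
  exact (smul_eq_zero.1 h1).resolve_left hr

theorem ds_aff (P Q R D D' x0 : E) (r : ℝ) (hr : r ≠ 0) (h : Ds P Q R D D') :
    Ds (r • P + x0) (r • Q + x0) (r • R + x0) (r • D + x0) (r • D' + x0) := by
  obtain ⟨f, hf⟩ : ∃ f : E →ᵃ[ℝ] E, ∀ x, f x = r • x + x0 :=
    ⟨r • AffineMap.id ℝ E + AffineMap.const ℝ E x0, fun x => rfl⟩
  have hinj : Function.Injective f := by
    intro x y hxy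
    rw [hf, hf] at hxy
    exact smul_right_injective E hr (add_right_cancel hxy)
  have h1 := (Set.disjoint_image_iff hinj).2 h
  rw [image_segment, AffineMap.image_convexHull, image_insert_eq, image_insert_eq,
    image_singleton, hf, hf, hf, hf, hf] at h1
  exact h1

/-- Invariance under injective linear maps. -/
theorem cn_lin (A : ℂ →L[ℝ] E) (hA : Function.Injective A) (v P Q D : ℂ)
    (h : ∀ a b c : ℝ, 0 ≤ a → 0 ≤ b → 0 ≤ c → a • (P - v) + b • (Q - v) - c • (D - v) = 0 →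
      a = 0 ∧ b = 0 ∧ c = 0) : Cn (A v) (A P) (A Q) (A D) := by
  intro a b c ha hb hc h0
  refine h a b c ha hb hc (hA ?_)
  rw [map_zero, ← h0]
  simp only [map_sub, map_add, map_smul]

theorem ds_lin (A : ℂ →L[ℝ] E) (hA : Function.Injective A) (P Q R D D' : ℂ)
    (h : Disjoint (segment ℝ D D') (convexHull ℝ {P, Q, R})) : Ds (A P) (A Q) (A R) (A D) (A D') := by
  obtain ⟨f, hf⟩ : ∃ f : ℂ →ᵃ[ℝ] E, ∀ x, f x = A x :=
    ⟨(A : ℂ →ₗ[ℝ] E).toAffineMap, fun x => rfl⟩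
  have hinj : Function.Injective f := by
    intro x y hxy
    rw [hf, hf] at hxy
    exact hA hxy
  have h1 := (Set.disjoint_image_iff hinj).2 h
  rw [image_segment, AffineMap.image_convexHull, image_insert_eq, image_insert_eq,
    image_singleton, hf, hf, hf, hf, hf] at h1
  exact h1

end Pool.Agent.Lib.MP_ca0971_gt.OT.Sm
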