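import Pool.Agent.Lib.MP_ca0971_gt.OT.Sm.LocD
import Pool.Agent.Lib.MP_ca0971_gt.OT.Sm.OpenA
import Pool.Agent.Lib.MP_ca0971_gt.OT.Sm.OpenB

set_option autoImplicit false

namespace Pool.Agent.Lib.MP_ca0971_gt.OT.Sm

open Set Metric Filter Topology

/-! ### Periodicity -/

private theorem locS_ix (T m j : ℕ) (k q : ℤ) : ix T m j (k + m * q) = ix T m j k := by
  unfold ix
  have : ((k + m * q : ℤ) : ZMod m) = ((k : ℤ) : ZMod m) := by
    push_cast
    rw [ZMod.natCast_self, zero_mul, add_zero]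
  rw [this]

private theorem locS_ev {X : Type*} {l : Filter X} {m : ℕ} (hm : 0 < m) {P : X → ℤ → Prop}
    (hp : ∀ x k q, P x k → P x (k + m * q)) (h : ∀ k, ∀ᶠ x in l, P x k) :
    ∀ᶠ x in l, ∀ k, P x k := by
  have h1 : ∀ᶠ x in l, ∀ k ∈ Set.Icc (0 : ℤ) m, P x k :=
    (eventually_all_finite (Set.finite_Icc (0 : ℤ) m)).2 fun k _ => h k
  filter_upwards [h1] with x hx k
  have hm' : (0 : ℤ) < m := by exact_mod_cast hm
  have e := Int.emod_add_mul_ediv k m
  have h2 := Int.emod_nonneg k hm'.ne'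
  have h3 := Int.emod_lt_of_pos k hm'
  rw [← e]
  exact hp x _ _ (hx _ ⟨h2, h3.le⟩)

/-- The position of `i` relative to `k`. -/
private theorem locS_pos {m : ℕ} (hm : 5 ≤ m) (k i : ℤ) : ∃ a q : ℤ, i = k + a + m * q ∧
    (a = 0 ∨ a = 1 ∨ a = -1 ∨ (2 ≤ a ∧ a + 2 ≤ m)) := by
  have hm' : (0 : ℤ) < m := by exact_mod_cast (by omega : 0 < m)
  have hm5 : (5 : ℤ) ≤ m := by exact_mod_cast hm
  have e := Int.emod_add_mul_ediv (i - k) m
  have h2 := Int.emod_nonneg (i - k) hm'.ne'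
  have h3 := Int.emod_lt_of_pos (i - k) hm'
  generalize (i - k) % (m : ℤ) = r at e h2 h3
  generalize (i - k) / (m : ℤ) = q at e
  by_cases h4 : r = m - 1
  · refine ⟨-1, q + 1, ?_, Or.inr (Or.inr (Or.inl rfl))⟩
    rw [mul_add, mul_one]
    linarith
  · refine ⟨r, q, by linarith, ?_⟩
    omega

/-! ### Symmetries of `SD` -/

private theorem locS_p1 {P Q R D D' : E} (h : SD P Q R D D') : SD Q P R D D' := by
  unfold SD at h ⊢
  rwa [Set.insert_comm Q P]

private theorem locS_p2 {P Q R D D' : E} (h : SD P Q R D D') : SD P R Q D D' := by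
  unfold SD at h ⊢
  rwa [Set.pair_comm R Q]

private theorem locS_sg {P Q R D D' : E} (h : SD P Q R D D') : SD P Q R D' D := by
  unfold SD at h ⊢
  rwa [segment_symm ℝ D' D]

private theorem locS_scn {v P Q D : E} (h : SCn v P Q D) : SD v P Q v D :=
  eventually_nhdsWithin_of_forall fun t ht => scn_shf v P Q D h t ht

private theorem locS_sh {v P Q : E} (h : SH v P Q) : SD v P Q v P :=
  eventually_nhdsWithin_of_forall fun t ht => sh_shf v P Q h t ht

private theorem locS_ds {P Q R D D' : E} (h : Ds P Q R D D') : SD P Q R D D' :=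
  ds_shf P Q R D D' h

/-! ### From the robust conditions to the shift condition -/

/-- The far edges of the row `0`, layer `0`. -/
private structure LocSF (m : ℕ) (V : ℕ → ℤ → E) : Prop where
  rf : ∀ s : ℕ, Ly 0 s → ∀ k d : ℤ, 2 ≤ d → d + 2 ≤ m →
    Ds (V s k) (V 0 (k + 1)) (V 1 (k + 1)) (V 0 (k + d)) (V 0 (k + d + 1))
  lf : ∀ s : ℕ, Ly 0 s → ∀ k d : ℤ, 2 ≤ d → d + 2 ≤ m →
    Ds (V s (k + 1)) (V 0 k) (V 1 k) (V 0 (k + d)) (V 0 (k + d + 1))

private theorem locS_shf {T m : ℕ} (hm : 5 ≤ m) {V : ℕ → ℤ → E}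
    (hV : ∀ j k q, V j (k + m * q) = V j k) (h1 : LayS V) (h2 : Dp T m V) (h3 : LocSF m V) :
    Shf T m V := by
  have key : ∀ (k a q : ℤ), V 0 (k + a + m * q) = V 0 (k + a) ∧
      V 0 (k + a + m * q + 1) = V 0 (k + a + 1) := by
    intro k a q
    refine ⟨hV _ _ _, ?_⟩
    rw [show k + a + m * q + 1 = k + a + 1 + m * q by ring, hV]
  refine ⟨?_, ?_, ?_⟩
  · intro j hj s hs k i
    rcases Nat.eq_zero_or_pos j with rfl | hj0
    · obtain ⟨a, q, rfl, ha⟩ := locS_pos hm k i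
      rw [(key k a q).1, (key k a q).2]
      rcases ha with rfl | rfl | rfl | ⟨ha, ha'⟩
      · rw [add_zero]
        rcases hs with rfl | rfl
        · exact locS_sh (h1.rc0 k)
        · exact locS_p1 (locS_p2 (locS_sg (locS_scn (h1.rc1 k))))
      · rw [show k + 1 + 1 = k + 2 by ring]
        exact locS_p1 (locS_p2 (locS_scn (h1.ra s hs k)))
      · rw [show k + -1 = k - 1 by ring, sub_add_cancel]
        rcases hs with rfl | rfl
        · exact locS_sg (locS_scn (h1.rb0 k))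
        · exact locS_ds (h1.rb1 k)
      · exact locS_ds (h3.rf s hs k a ha ha')
    · exact locS_ds (h2.dr j hj0 hj s hs k i)
  · intro j hj s hs k i
    rcases Nat.eq_zero_or_pos j with rfl | hj0
    · obtain ⟨a, q, rfl, ha⟩ := locS_pos hm k i
      rw [(key k a q).1, (key k a q).2]
      rcases ha with rfl | rfl | rfl | ⟨ha, ha'⟩
      · rw [add_zero]
        rcases hs with rfl | rfl
        · exact locS_p1 (locS_sh (h1.lc0 k))
        · exact locS_p1 (locS_p2 (locS_scn (h1.lc1 k)))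
      · rw [show k + 1 + 1 = k + 2 by ring]
        rcases hs with rfl | rfl
        · exact locS_scn (h1.lb0 k)
        · exact locS_ds (h1.lb1 k)
      · rw [show k + -1 = k - 1 by ring, sub_add_cancel]
        exact locS_p1 (locS_p2 (locS_sg (locS_scn (h1.la s hs k))))
      · exact locS_ds (h3.lf s hs k a ha ha')
    · exact locS_ds (h2.dl j hj0 hj s hs k i)
  · intro k hk hk' i
    exact locS_ds (h2.df k hk hk' i)

/-! ### The robust conditions are open -/

section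

variable {T m : ℕ} {F0 : Fin (T + 1) × ZMod m → E}

private theorem locS_per (T m : ℕ) (F : Fin (T + 1) × ZMod m → E) (j : ℕ) (k q a : ℤ) :
    F (ix T m j (k + m * q + a)) = F (ix T m j (k + a)) := by
  rw [show k + m * q + a = k + a + m * q by ring, locS_ix]

private theorem locS_all1 (hm : 0 < m)
    {P : (Fin (T + 1) × ZMod m → E) → ℤ → Prop} (hp : ∀ x k q, P x k → P x (k + m * q))
    (h : ∀ k, ∀ᶠ F in 𝓝 F0, P F k) : ∀ᶠ F in 𝓝 F0, ∀ k, P F k := locS_ev hm hp h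

private theorem locS_layS (hm : 0 < m) (h1 : LayS fun j k => F0 (ix T m j k)) :
    ∀ᶠ F in 𝓝 F0, LayS fun j k => F (ix T m j k) := by
  have ra : ∀ s : ℕ, Ly 0 s → ∀ᶠ F in 𝓝 F0, ∀ k : ℤ, SCn (F (ix T m 0 (k + 1)))
      (F (ix T m 1 (k + 1))) (F (ix T m s k)) (F (ix T m 0 (k + 2))) := fun s hs =>
    locS_all1 hm (fun F k q h => by simpa only [locS_per, locS_ix] using h)
      fun k => scn_ev F0 _ _ _ _ (h1.ra s hs k)
  have rb0 : ∀ᶠ F in 𝓝 F0, ∀ k : ℤ, SCn (F (ix T m 0 k)) (F (ix T m 0 (k + 1)))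
      (F (ix T m 1 (k + 1))) (F (ix T m 0 (k - 1))) :=
    locS_all1 hm (fun F k q h => by
      simpa only [sub_eq_add_neg, locS_per, locS_ix] using h)
      fun k => scn_ev F0 _ _ _ _ (h1.rb0 k)
  have rb1 : ∀ᶠ F in 𝓝 F0, ∀ k : ℤ, Ds (F (ix T m 1 k)) (F (ix T m 0 (k + 1)))
      (F (ix T m 1 (k + 1))) (F (ix T m 0 (k - 1))) (F (ix T m 0 k)) :=
    locS_all1 hm (fun F k q h => by
      simpa only [sub_eq_add_neg, locS_per, locS_ix] using h)
      fun k => ds_ev F0 _ _ _ _ _ (h1.rb1 k)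
  have rc0 : ∀ᶠ F in 𝓝 F0, ∀ k : ℤ, SH (F (ix T m 0 k)) (F (ix T m 0 (k + 1)))
      (F (ix T m 1 (k + 1))) :=
    locS_all1 hm (fun F k q h => by simpa only [locS_per, locS_ix] using h)
      fun k => sh_ev F0 _ _ _ (h1.rc0 k)
  have rc1 : ∀ᶠ F in 𝓝 F0, ∀ k : ℤ, SCn (F (ix T m 0 (k + 1))) (F (ix T m 1 (k + 1)))
      (F (ix T m 1 k)) (F (ix T m 0 k)) :=
    locS_all1 hm (fun F k q h => by simpa only [locS_per, locS_ix] using h)
      fun k => scn_ev F0 _ _ _ _ (h1.rc1 k)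
  have la : ∀ s : ℕ, Ly 0 s → ∀ᶠ F in 𝓝 F0, ∀ k : ℤ, SCn (F (ix T m 0 k))
      (F (ix T m 1 k)) (F (ix T m s (k + 1))) (F (ix T m 0 (k - 1))) := fun s hs =>
    locS_all1 hm (fun F k q h => by
      simpa only [sub_eq_add_neg, locS_per, locS_ix] using h)
      fun k => scn_ev F0 _ _ _ _ (h1.la s hs k)
  have lb0 : ∀ᶠ F in 𝓝 F0, ∀ k : ℤ, SCn (F (ix T m 0 (k + 1))) (F (ix T m 0 k))
      (F (ix T m 1 k)) (F (ix T m 0 (k + 2))) :=
    locS_all1 hm (fun F k q h => by simpa only [locS_per, locS_ix] using h)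
      fun k => scn_ev F0 _ _ _ _ (h1.lb0 k)
  have lb1 : ∀ᶠ F in 𝓝 F0, ∀ k : ℤ, Ds (F (ix T m 1 (k + 1))) (F (ix T m 0 k))
      (F (ix T m 1 k)) (F (ix T m 0 (k + 1))) (F (ix T m 0 (k + 2))) :=
    locS_all1 hm (fun F k q h => by simpa only [locS_per, locS_ix] using h)
      fun k => ds_ev F0 _ _ _ _ _ (h1.lb1 k)
  have lc0 : ∀ᶠ F in 𝓝 F0, ∀ k : ℤ, SH (F (ix T m 0 k)) (F (ix T m 0 (k + 1)))
      (F (ix T m 1 k)) :=
    locS_all1 hm (fun F k q h => by simpa only [locS_per, locS_ix] using h)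
      fun k => sh_ev F0 _ _ _ (h1.lc0 k)
  have lc1 : ∀ᶠ F in 𝓝 F0, ∀ k : ℤ, SCn (F (ix T m 0 k)) (F (ix T m 1 k))
      (F (ix T m 1 (k + 1))) (F (ix T m 0 (k + 1))) :=
    locS_all1 hm (fun F k q h => by simpa only [locS_per, locS_ix] using h)
      fun k => scn_ev F0 _ _ _ _ (h1.lc1 k)
  filter_upwards [ra 0 (Or.inl rfl), ra 1 (Or.inr rfl), rb0, rb1, rc0, rc1, la 0 (Or.inl rfl),
    la 1 (Or.inr rfl), lb0, lb1, lc0, lc1] with F a0 a1 a2 a3 a4 a5 b0 b1 b2 b3 b4 b5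
  refine ⟨?_, a2, a3, a4, a5, ?_, b2, b3, b4, b5⟩
  · rintro s (rfl | rfl)
    · exact a0
    · exact a1
  · rintro s (rfl | rfl)
    · exact b0
    · exact b1

private theorem locS_dp (hm : 0 < m) (h2 : Dp T m fun j k => F0 (ix T m j k)) :
    ∀ᶠ F in 𝓝 F0, Dp T m fun j k => F (ix T m j k) := by
  have dr : ∀ᶠ F in 𝓝 F0, ∀ j ∈ Set.Iio T, 0 < j → ∀ s ∈ Set.Icc j (j + 1), ∀ k i : ℤ,
      Ds (F (ix T m s k)) (F (ix T m j (k + 1))) (F (ix T m (j + 1) (k + 1)))
        (F (ix T m 0 i)) (F (ix T m 0 (i + 1))) := by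
    refine (eventually_all_finite (Set.finite_Iio T)).2 fun j hj => ?_
    rcases Nat.eq_zero_or_pos j with rfl | hj0
    · exact Eventually.of_forall fun _ h => absurd h (lt_irrefl 0)
    · have : ∀ᶠ F in 𝓝 F0, ∀ s ∈ Set.Icc j (j + 1), ∀ k i : ℤ,
          Ds (F (ix T m s k)) (F (ix T m j (k + 1))) (F (ix T m (j + 1) (k + 1)))
            (F (ix T m 0 i)) (F (ix T m 0 (i + 1))) := by
        refine (eventually_all_finite (Set.finite_Icc j (j + 1))).2 fun s hs => ?_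
        refine locS_all1 hm (fun F k q h i => by
          simpa only [locS_per, locS_ix] using h i) fun k => ?_
        refine locS_all1 hm (fun F i q h => by simpa only [locS_per, locS_ix] using h)
          fun i => ?_
        exact ds_ev F0 _ _ _ _ _ (h2.dr j hj0 hj s (by
          obtain ⟨s1, s2⟩ := hs
          unfold Ly
          omega) k i)
      filter_upwards [this] with F hF _
      exact hF
  have dl : ∀ᶠ F in 𝓝 F0, ∀ j ∈ Set.Iio T, 0 < j → ∀ s ∈ Set.Icc j (j + 1), ∀ k i : ℤ,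
      Ds (F (ix T m s (k + 1))) (F (ix T m j k)) (F (ix T m (j + 1) k))
        (F (ix T m 0 i)) (F (ix T m 0 (i + 1))) := by
    refine (eventually_all_finite (Set.finite_Iio T)).2 fun j hj => ?_
    rcases Nat.eq_zero_or_pos j with rfl | hj0
    · exact Eventually.of_forall fun _ h => absurd h (lt_irrefl 0)
    · have : ∀ᶠ F in 𝓝 F0, ∀ s ∈ Set.Icc j (j + 1), ∀ k i : ℤ,
          Ds (F (ix T m s (k + 1))) (F (ix T m j k)) (F (ix T m (j + 1) k))
            (F (ix T m 0 i)) (F (ix T m 0 (i + 1))) := by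
        refine (eventually_all_finite (Set.finite_Icc j (j + 1))).2 fun s hs => ?_
        refine locS_all1 hm (fun F k q h i => by
          simpa only [locS_per, locS_ix] using h i) fun k => ?_
        refine locS_all1 hm (fun F i q h => by simpa only [locS_per, locS_ix] using h)
          fun i => ?_
        exact ds_ev F0 _ _ _ _ _ (h2.dl j hj0 hj s (by
          obtain ⟨s1, s2⟩ := hs
          unfold Ly
          omega) k i)
      filter_upwards [this] with F hF _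
      exact hF
  have df : ∀ᶠ F in 𝓝 F0, ∀ k ∈ Set.Icc (2 : ℤ) m, k + 1 ≤ m → ∀ i : ℤ,
      Ds (F (ix T m T (k - 1))) (F (ix T m T k)) (F (ix T m T 0)) (F (ix T m 0 i))
        (F (ix T m 0 (i + 1))) := by
    refine (eventually_all_finite (Set.finite_Icc (2 : ℤ) m)).2 fun k hk => ?_
    by_cases hk' : k + 1 ≤ m
    · have : ∀ᶠ F in 𝓝 F0, ∀ i : ℤ,
          Ds (F (ix T m T (k - 1))) (F (ix T m T k)) (F (ix T m T 0)) (F (ix T m 0 i))
            (F (ix T m 0 (i + 1))) :=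
        locS_all1 hm (fun F i q h => by simpa only [locS_per, locS_ix] using h)
          fun i => ds_ev F0 _ _ _ _ _ (h2.df k hk.1 hk' i)
      filter_upwards [this] with F hF _
      exact hF
    · exact Eventually.of_forall fun _ h => absurd h hk'
  filter_upwards [dr, dl, df] with F a b c
  refine ⟨?_, ?_, ?_⟩
  · intro j hj0 hj s hs k i
    refine a j hj hj0 s ?_ k i
    rcases hs with rfl | rfl
    · exact ⟨le_rfl, Nat.le_succ _⟩
    · exact ⟨Nat.le_succ _, le_rfl⟩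
  · intro j hj0 hj s hs k i
    refine b j hj hj0 s ?_ k i
    rcases hs with rfl | rfl
    · exact ⟨le_rfl, Nat.le_succ _⟩
    · exact ⟨Nat.le_succ _, le_rfl⟩
  · intro k hk hk' i
    exact c k ⟨hk, by omega⟩ hk' i

private theorem locS_far (hm : 0 < m) (h : Lay m (fun j k => F0 (ix T m j k)) 0) :
    ∀ᶠ F in 𝓝 F0, LocSF m fun j k => F (ix T m j k) := by
  have rf : ∀ s : ℕ, Ly 0 s → ∀ᶠ F in 𝓝 F0, ∀ k : ℤ, ∀ d ∈ Set.Icc (2 : ℤ) (m - 2),
      Ds (F (ix T m s k)) (F (ix T m 0 (k + 1))) (F (ix T m 1 (k + 1)))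
        (F (ix T m 0 (k + d))) (F (ix T m 0 (k + d + 1))) := by
    intro s hs
    refine locS_all1 hm (fun F k q h d hd => ?_) fun k => ?_
    · have := h d hd
      rw [show k + m * q + d + 1 = k + m * q + (d + 1) by ring]
      rw [show k + d + 1 = k + (d + 1) by ring] at this
      simpa only [locS_per, locS_ix] using this
    · refine (eventually_all_finite (Set.finite_Icc (2 : ℤ) (m - 2))).2 fun d hd => ?_
      refine ds_ev F0 _ _ _ _ _ (h.rf s 0 0 hs (Or.inl rfl) (Or.inl rfl) k (k + d) ?_ ?_)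
      · linarith [hd.1]
      · linarith [hd.2]
  have lf : ∀ s : ℕ, Ly 0 s → ∀ᶠ F in 𝓝 F0, ∀ k : ℤ, ∀ d ∈ Set.Icc (2 : ℤ) (m - 2),
      Ds (F (ix T m s (k + 1))) (F (ix T m 0 k)) (F (ix T m 1 k))
        (F (ix T m 0 (k + d))) (F (ix T m 0 (k + d + 1))) := by
    intro s hs
    refine locS_all1 hm (fun F k q h d hd => ?_) fun k => ?_
    · have := h d hd
      rw [show k + m * q + d + 1 = k + m * q + (d + 1) by ring]
      rw [show k + d + 1 = k + (d + 1) by ring] at this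
      simpa only [locS_per, locS_ix] using this
    · refine (eventually_all_finite (Set.finite_Icc (2 : ℤ) (m - 2))).2 fun d hd => ?_
      refine ds_ev F0 _ _ _ _ _ (h.lf s 0 0 hs (Or.inl rfl) (Or.inl rfl) k (k + d) ?_ ?_)
      · linarith [hd.1]
      · linarith [hd.2]
  filter_upwards [rf 0 (Or.inl rfl), rf 1 (Or.inr rfl), lf 0 (Or.inl rfl), lf 1 (Or.inr rfl)]
    with F a0 a1 b0 b1
  refine ⟨?_, ?_⟩
  · rintro s (rfl | rfl) k d hd hd'
    · exact a0 k d ⟨hd, by linarith⟩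
    · exact a1 k d ⟨hd, by linarith⟩
  · rintro s (rfl | rfl) k d hd hd'
    · exact b0 k d ⟨hd, by linarith⟩
    · exact b1 k d ⟨hd, by linarith⟩

end

/-- The conditions at `F0` give the shift condition for all `F` near `F0`. An edge `i` of the row `0`
is, up to a multiple of `m`, one of `k - 1, k, k + 1` or in `[k + 2, k + m - 2]` (`Lay.rf`, `Lay.lf` for
`j = 0`, `r = r' = 0`). Use `scn_ev, sh_ev, ds_ev`, then `scn_shf, sh_shf, ds_shf`. -/
theorem shf_ev (T m : ℕ) (hm : 5 ≤ m) (hT : 1 ≤ T) (F0 : Fin (T + 1) × ZMod m → E)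
    (h : Loc T m fun j k => F0 (ix T m j k)) (h1 : LayS fun j k => F0 (ix T m j k))
    (h2 : Dp T m fun j k => F0 (ix T m j k)) :
    ∀ᶠ F in 𝓝 F0, Shf T m fun j k => F (ix T m j k) := by
  have hm0 : 0 < m := by omega
  filter_upwards [locS_layS hm0 h1, locS_dp hm0 h2, locS_far hm0 (h.ly 0 hT)] with F a b c
  exact locS_shf hm (fun j k q => by rw [locS_ix]) a b c

end Pool.Agent.Lib.MP_ca0971_gt.OT.Sm
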