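import Pool.Agent.Lib.MP_ca0971_gt.OT.Sm.LocD
import Pool.Agent.Lib.MP_ca0971_gt.OT.Sm.OpenA
import Pool.Agent.Lib.MP_ca0971_gt.OT.Sm.OpenB

set_option autoImplicit false

namespace Pool.Agent.Lib.MP_ca0971_gt.OT.Sm

open Set Metric Filter Topology

/-- All conditions `Cn` at once. -/
theorem cn_all_ev {W : Type} [Finite W] (F0 : W → E) :
    ∀ᶠ F in 𝓝 F0, ∀ v P Q D : W, Cn (F0 v) (F0 P) (F0 Q) (F0 D) →
      Cn (F v) (F P) (F Q) (F D) := by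
  simp only [eventually_all]
  intro v P Q D h
  exact cn_ev F0 v P Q D h

/-- All conditions `Ds` at once. -/
theorem ds_all_ev {W : Type} [Finite W] (F0 : W → E) :
    ∀ᶠ F in 𝓝 F0, ∀ P Q R D D' : W, Ds (F0 P) (F0 Q) (F0 R) (F0 D) (F0 D') →
      Ds (F P) (F Q) (F R) (F D) (F D') := by
  simp only [eventually_all]
  intro P Q R D D' h
  exact ds_ev F0 P Q R D D' h

/-- `Loc` is open: finitely many conditions (periodicity of `ix` in `k`; use `ZMod m` finite, or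
`k ∈ Finset.range m`), each of them open by `cn_ev`, `ds_ev`. -/
theorem loc_ev (T m : ℕ) (hm : 5 ≤ m) (F0 : Fin (T + 1) × ZMod m → E)
    (h : Loc T m fun j k => F0 (ix T m j k)) :
    ∀ᶠ F in 𝓝 F0, Loc T m fun j k => F (ix T m j k) := by
  have : NeZero m := ⟨by omega⟩
  filter_upwards [cn_all_ev F0, ds_all_ev F0] with F hc hd
  refine ⟨fun j hj => ?_, ?_⟩
  · have hl := h.ly j hj
    exact ⟨fun r q s r' h1 h2 h3 h4 h5 k => hc _ _ _ _ (hl.r1 r q s r' h1 h2 h3 h4 h5 k),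
      fun s r' h1 h2 k => hc _ _ _ _ (hl.r2 s r' h1 h2 k),
      fun s r r' h1 h2 h3 i k h4 h5 => hd _ _ _ _ _ (hl.rf s r r' h1 h2 h3 i k h4 h5),
      fun r q s r' h1 h2 h3 h4 h5 k => hc _ _ _ _ (hl.l1 r q s r' h1 h2 h3 h4 h5 k),
      fun s r' h1 h2 k => hc _ _ _ _ (hl.l2 s r' h1 h2 k),
      fun s r r' h1 h2 h3 i k h4 h5 => hd _ _ _ _ _ (hl.lf s r r' h1 h2 h3 i k h4 h5)⟩
  · exact ⟨fun k h1 h2 => hc _ _ _ _ (h.fan.fa k h1 h2),
      fun k h1 h2 => hc _ _ _ _ (h.fan.fb k h1 h2),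
      fun k h1 h2 i h3 h4 => hd _ _ _ _ _ (h.fan.fd k h1 h2 i h3 h4)⟩

end Pool.Agent.Lib.MP_ca0971_gt.OT.Sm
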