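import Pool.Agent.Lib.MP_ca0971_gt.OT.Sm.Def

set_option autoImplicit false

namespace Pool.Agent.Lib.MP_ca0971_gt.OT.Sm

open Set Metric Filter Topology

/-- Quasi-uniform partition through a given separated periodic set. `I_k = Ioc ((2k - 1) π / m)
((2k + 1) π / m)` contains at most one point `x` of `S`; `θ k = x` if there is one, else `2 π k / m`.
If both `θ k`, `θ (k + 1)` are in `S` their distance is `≤ 4 π / m < η`: impossible. -/
theorem exists_prt (S : Set ℝ) (hS : ∀ x ∈ S, x + 2 * Real.pi ∈ S)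
    (hS' : ∀ x ∈ S, x - 2 * Real.pi ∈ S) (η : ℝ) (hη : 0 < η)
    (sep : ∀ x ∈ S, ∀ y ∈ S, x ≠ y → η ≤ |x - y|) :
    ∃ m0 : ℕ, ∀ m ≥ m0, ∃ θ : ℤ → ℝ, Prt m θ ∧ ∀ x ∈ S, ∃ k, θ k = x := by
  classical
  have hpi := Real.pi_pos
  obtain ⟨m0, hm0⟩ := exists_nat_gt (4 * Real.pi / η)
  refine ⟨m0 + 1, fun m hm => ?_⟩
  have hm1 : (m0 : ℝ) + 1 ≤ m := by exact_mod_cast hm
  have h0 : 0 ≤ 4 * Real.pi / η := by positivity
  have hmpos : (0 : ℝ) < m := by linarith
  have hmη : 4 * (Real.pi / m) < η := by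
    have h1 : 4 * Real.pi / η < m := by linarith
    rw [div_lt_iff₀ hη] at h1
    rw [← mul_div_assoc, div_lt_iff₀ hmpos]
    linarith
  obtain ⟨d, hd⟩ : ∃ d : ℝ, d = Real.pi / m := ⟨_, rfl⟩
  have hdpos : 0 < d := by rw [hd]; positivity
  have hmd : (m : ℝ) * d = Real.pi := by
    rw [hd]; field_simp
  have hdη : 4 * d < η := by rw [hd]; exact hmη
  -- uniqueness in a cell
  have huniq : ∀ x ∈ S, ∀ y ∈ S, |x - y| < η → x = y := by
    intro x hx y hy h
    by_contra hne
    exact absurd (sep x hx y hy hne) (not_le.2 h)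
  let P : ℤ → ℝ → Prop := fun k x => x ∈ S ∧ (2 * (k : ℝ) - 1) * d < x ∧ x ≤ (2 * (k : ℝ) + 1) * d
  let θ : ℤ → ℝ := fun k => if h : ∃ x, P k x then h.choose else 2 * (k : ℝ) * d
  have hθ1 : ∀ k x, P k x → θ k = x := by
    intro k x hx
    have hex : ∃ x, P k x := ⟨x, hx⟩
    have h1 : θ k = hex.choose := dif_pos hex
    have h2 : P k hex.choose := hex.choose_spec
    rw [h1]
    refine huniq _ h2.1 _ hx.1 ?_
    rw [abs_lt]
    obtain ⟨_, a1, a2⟩ := h2
    obtain ⟨_, b1, b2⟩ := hx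
    constructor <;> nlinarith
  have hθ2 : ∀ k, (∃ x, P k x) → P k (θ k) := by
    intro k ⟨x, hx⟩
    rw [hθ1 k x hx]
    exact hx
  have hθ3 : ∀ k, (¬ ∃ x, P k x) → θ k = 2 * (k : ℝ) * d := by
    intro k h
    exact dif_neg h
  have hstep : ∀ k, d ≤ θ (k + 1) - θ k ∧ θ (k + 1) - θ k ≤ 3 * d := by
    intro k
    by_cases h1 : ∃ x, P k x
    · have a := hθ2 k h1
      by_cases h2 : ∃ x, P (k + 1) x
      · exfalso
        have b := hθ2 (k + 1) h2
        obtain ⟨aS, a1, a2⟩ := a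
        obtain ⟨bS, b1, b2⟩ := b
        push_cast at b1 b2
        have hlt : θ k < θ (k + 1) := by nlinarith
        have : θ k = θ (k + 1) := by
          refine huniq _ aS _ bS ?_
          rw [abs_lt]
          constructor <;> nlinarith
        exact absurd this hlt.ne
      · have b := hθ3 (k + 1) h2
        obtain ⟨aS, a1, a2⟩ := a
        rw [b]
        push_cast
        constructor <;> nlinarith
    · have a := hθ3 k h1
      by_cases h2 : ∃ x, P (k + 1) x
      · have b := hθ2 (k + 1) h2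
        obtain ⟨bS, b1, b2⟩ := b
        rw [a]
        push_cast at b1 b2
        constructor <;> nlinarith
      · have b := hθ3 (k + 1) h2
        rw [a, b]
        push_cast
        constructor <;> nlinarith
  refine ⟨θ, ⟨?_, ?_, ?_⟩, ?_⟩
  · intro k
    by_cases h1 : ∃ x, P k x
    · obtain ⟨xS, a1, a2⟩ := hθ2 k h1
      refine hθ1 (k + m) _ ⟨hS _ xS, ?_, ?_⟩
      · push_cast
        nlinarith
      · push_cast
        nlinarith
    · have h2 : ¬ ∃ x, P (k + m) x := by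
        rintro ⟨x, xS, a1, a2⟩
        apply h1
        push_cast at a1 a2
        refine ⟨x - 2 * Real.pi, hS' _ xS, ?_, ?_⟩
        · nlinarith
        · nlinarith
      rw [hθ3 k h1, hθ3 _ h2]
      push_cast
      nlinarith
  · intro k
    rw [← hd]
    exact (hstep k).1
  · intro k
    rw [← hd]
    exact (hstep k).2
  · intro x hx
    obtain ⟨k, hk⟩ : ∃ k : ℤ, k = ⌈(x / d - 1) / 2⌉ := ⟨_, rfl⟩
    refine ⟨k, hθ1 k x ⟨hx, ?_, ?_⟩⟩
    · have h1 : (k : ℝ) < (x / d - 1) / 2 + 1 := by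
        rw [hk]
        exact Int.ceil_lt_add_one _
      have h2 : 2 * (k : ℝ) - 1 < x / d := by linarith
      rwa [lt_div_iff₀ hdpos] at h2
    · have h1 : (x / d - 1) / 2 ≤ (k : ℝ) := by
        rw [hk]
        exact Int.le_ceil _
      have h2 : x / d ≤ 2 * (k : ℝ) + 1 := by linarith
      rwa [div_le_iff₀ hdpos] at h2

end Pool.Agent.Lib.MP_ca0971_gt.OT.Sm
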