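import Pool.Agent.Lib.MP_ca0971_gt.OT.Sm.CoorB
import Pool.Agent.Lib.MP_ca0971_gt.OT.Sm.AdmE
import Pool.Agent.Lib.MP_ca0971_gt.OT.Sm.ChC
import Pool.Agent.Lib.MP_ca0971_gt.OT.Sm.LocT
import Pool.Agent.Lib.MP_ca0971_gt.OT.Sm.LocS
import Pool.Agent.Lib.MP_ca0971_gt.OT.Sm.FanB
import Pool.Agent.Lib.MP_ca0971_gt.OT.Sm.DpB
import Pool.Agent.Lib.MP_ca0971_gt.OT.Sm.PartE
import Pool.Agent.Lib.MP_ca0971_gt.OT.Sm.FrD

set_option autoImplicit false

namespace Pool.Agent.Lib.MP_ca0971_gt.OT.Sm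

open Set Metric Filter Topology

/-- The curve `bX` is periodic, so is its derivative. -/
theorem bX_deriv_per (g : ℂ → E) (t : ℝ) :
    deriv (bX g) (t + 2 * Real.pi) = deriv (bX g) t := by
  have h : (fun s : ℝ => bX g (s + 2 * Real.pi)) = bX g := by
    funext s
    simp only [bX]
    rw [bdc_per]
  calc deriv (bX g) (t + 2 * Real.pi) = deriv (fun s : ℝ => bX g (s + 2 * Real.pi)) t := by
        rw [deriv_comp_add_const]
    _ = deriv (bX g) t := by rw [h]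

theorem exp_zt0 (m : ℕ) (θ : ℤ → ℝ) (k : ℤ) :
    Complex.exp (zt m θ 0 k) = Complex.exp ((θ k : ℂ) * Complex.I) := by
  congr 1
  apply Complex.ext <;> simp [zt]

theorem row0_map (T m : ℕ) (F : Fin (T + 1) × ZMod m → E) :
    (row0 T m).map F = List.ofFn fun i : Fin m => F (ix T m 0 ((i.val : ℕ) : ℤ)) := by
  apply List.ext_getElem
  · simp [row0]
  · intro n h1 h2
    simp [row0]

/-- The smooth part for a good map. -/
theorem sm_gd (g : ℂ → E) (hg : Gd g) :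
    ∃ (W : Type) (_ : Fintype W) (_ : DecidableEq W) (F0 : W → E) (l : List W), 3 ≤ l.length ∧
      ∀ᶠ F in 𝓝 F0, FrtL (l.map F) ∧
        ∃ τ0 : ℝ, 0 < τ0 ∧ ∀ τ, 0 < τ → τ < τ0 → Chain F (shf τ (polyL (l.map F))) l := by
  obtain ⟨c, M, hc, hM, hA, hS⟩ := exists_adm g hg
  obtain ⟨m1, hm1⟩ := lay_F0 c M hc hM g _ hA
  obtain ⟨m2, hm2⟩ := layS_F0 c M hc hM g _ hA hS
  obtain ⟨m3, hm3⟩ := dp_F0 c M hc hM g _ hA
  obtain ⟨m4, hm4⟩ := front_ev g hg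
  obtain ⟨ρ, hρ, hsep, -⟩ := cusp_loc g hg
  obtain ⟨m5, hm5⟩ := exists_prt {t | deriv (bX g) t = 0}
    (fun x hx => by
      have hx' : deriv (bX g) x = 0 := hx
      show deriv (bX g) (x + 2 * Real.pi) = 0
      rw [bX_deriv_per]
      exact hx')
    (fun x hx => by
      have hx' : deriv (bX g) x = 0 := hx
      show deriv (bX g) (x - 2 * Real.pi) = 0
      rw [← bX_deriv_per]
      simpa using hx')
    (2 * ρ) (by positivity) (fun x hx y hy hxy => (hsep x y hx hy hxy).le)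
  obtain ⟨m, h1, h2, h3, h4, h5, h6⟩ : ∃ m : ℕ, m1 ≤ m ∧ m2 ≤ m ∧ m3 ≤ m ∧ m4 ≤ m ∧ m5 ≤ m ∧
      5 ≤ m := ⟨m1 + m2 + m3 + m4 + m5 + 5, by omega, by omega, by omega, by omega, by omega,
        by omega⟩
  obtain ⟨θ, hθ, hz⟩ := hm5 m h5
  have hCz : Cz g θ := fun t ht => hz t ht
  obtain ⟨T1, hT1⟩ := hm3 m h3 θ hθ
  obtain ⟨T2, hT2⟩ := fan_F0 c M hc hM g _ hA m h6 θ hθ
  obtain ⟨T, ht1, ht2, ht3⟩ : ∃ T : ℕ, T1 ≤ T ∧ T2 ≤ T ∧ 1 ≤ T :=
    ⟨T1 + T2 + 1, by omega, by omega, by omega⟩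
  have : NeZero m := ⟨by omega⟩
  have hloc : Loc T m (fun j k => F0 g T m θ (ix T m j k)) :=
    ⟨fun j hj => hm1 m h1 θ hθ T j hj, hT2 T ht2⟩
  have hls : LayS (fun j k => F0 g T m θ (ix T m j k)) := hm2 m h2 θ hθ T ht3
  have hdp : Dp T m (fun j k => F0 g T m θ (ix T m j k)) := hT1 T ht1
  refine ⟨Fin (T + 1) × ZMod m, inferInstance, inferInstance, F0 g T m θ, row0 T m, ?_, ?_⟩
  · simp only [row0, List.length_map, List.length_range]
    omega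
  have hcont : Tendsto (fun F : Fin (T + 1) × ZMod m → E =>
      fun i : Fin m => F (ix T m 0 ((i.val : ℕ) : ℤ))) (𝓝 (F0 g T m θ))
      (𝓝 (fun i : Fin m => bdc g (θ (i.val : ℤ)))) := by
    have h7 : (fun i : Fin m => bdc g (θ (i.val : ℤ))) =
        fun i : Fin m => F0 g T m θ (ix T m 0 ((i.val : ℕ) : ℤ)) := by
      funext i
      rw [F0_ix g T m (by omega) θ hθ 0 (by omega), exp_zt0]
      rfl
    rw [h7]
    have h8 : Continuous (fun F : Fin (T + 1) × ZMod m → E =>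
      fun i : Fin m => F (ix T m 0 ((i.val : ℕ) : ℤ))) := by fun_prop
    exact h8.tendsto _
  have hfr := hcont.eventually (hm4 m h4 θ hθ hCz)
  filter_upwards [hfr, loc_ev T m h6 _ hloc, shf_ev T m h6 ht3 _ hloc hls hdp] with F hF1 hF2 hF3
  refine ⟨?_, chain_of_loc T m h6 F hF2 hF3⟩
  rw [row0_map]
  exact frtL_ofFn m _ hF1

end Pool.Agent.Lib.MP_ca0971_gt.OT.Sm
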