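import Pool.Agent.Lib.MP_ca0971_gt.OT.TopDefs
import Pool.Agent.Lib.MP_ca0971_gt.OT.Sm.Asm

set_option autoImplicit false

namespace Pool.Agent.Lib.MP_ca0971_gt.OT

open Filter Topology

/-- Smooth part: an overtwisted disc gives a polygon with a front and a chain of triangle moves; all
conditions are open. -/
theorem sm_main (f : ℂ → ℂ × ℝ) (hf : OTd f) :
    ∃ (W : Type) (_ : Fintype W) (_ : DecidableEq W) (F0 : W → E) (l : List W), 3 ≤ l.length ∧
      ∀ᶠ F in 𝓝 F0, FrtL (l.map F) ∧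
        ∃ τ0 : ℝ, 0 < τ0 ∧ ∀ τ, 0 < τ → τ < τ0 → Chain F (shf τ (polyL (l.map F))) l := by
  obtain ⟨g, hg⟩ := Sm.exists_gd f hf
  exact Sm.sm_gd g hg

end Pool.Agent.Lib.MP_ca0971_gt.OT
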