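import Pool.Agent.Lib.MP_ca0971_gt.OT.Sm.LocD
import Pool.Agent.Lib.MP_ca0971_gt.OT.Sm.OpenB

set_option autoImplicit false

namespace Pool.Agent.Lib.MP_ca0971_gt.OT.Sm

open Set Metric Filter Topology

/-- Moving one vertex of a closed polygon `R ++ [X]` to `X'`: insert `X'`, delete `X`.
`Chain (R ++ [X'])` → (`del`) `Chain ((R ++ [X']) ++ [X])` → (`rot` by `length - 1`)
`Chain ((X :: R) ++ [X'])` → (`add`) `Chain (X :: R)` → (`rot`) `Chain (R ++ [X])`. -/
theorem chain_step {W : Type} (F : W → E) (Q : Set E) (R : List W) (X X' : W) (hR : 2 ≤ R.length)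
    (h : Chain F Q (R ++ [X'])) (hX : X ∉ R ++ [X'])
    (t2 : TriOK ((R ++ [X']).map F) (F X)) (t1 : TriOK ((X :: R).map F) (F X'))
    (q2 : ∀ C : W, R.head? = some C → Disjoint (convexHull ℝ {F X', F X, F C}) Q)
    (q1 : ∀ A : W, R.getLast? = some A → Disjoint (convexHull ℝ {F A, F X', F X}) Q) :
    Chain F Q (R ++ [X]) := by
  have hRn : R ≠ [] := by
    rintro rfl
    simp at hR
  have h1 : Chain F Q ((R ++ [X']) ++ [X]) := by
    refine Chain.del (R ++ [X']) X h hX t2 ?_
    intro A C hA hC
    have hA' : A = X' := by
      rw [List.getLast?_concat] at hA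
      exact (Option.some.inj hA).symm
    have hC' : R.head? = some C := by
      rw [List.head?_append_of_ne_nil _ hRn] at hC
      exact hC
    rw [hA']
    exact q2 C hC'
  have h2 : Chain F Q ((X :: R) ++ [X']) := by
    have h3 := Chain.rot _ (R ++ [X']).length h1
    rw [List.rotate_append_length_eq] at h3
    exact h3
  have h3 : Chain F Q (X :: R) := by
    refine Chain.add (X :: R) X' ?_ h2 t1 ?_
    · simp only [List.length_cons]
      omega
    · intro A C hA hC
      have hC' : C = X := by
        rw [List.head?_cons] at hC
        exact (Option.some.inj hC).symm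
      have hA' : R.getLast? = some A := by
        rw [List.getLast?_cons_of_ne_nil hRn] at hA
        exact hA
      rw [hC']
      exact q1 A hA'
  have h4 := Chain.rot _ 1 h3
  rw [List.rotate_cons_succ, List.rotate_zero] at h4
  exact h4

/-- The closed polygon with the rows `S`, list starting at the column `c`. -/
def pl (T m : ℕ) (S : ℤ → ℕ) (c : ℤ) : List (Fin (T + 1) × ZMod m) :=
  (List.range m).map fun i : ℕ => ix T m (S (c + i)) (c + i)

/-- Rotation of the list. -/
theorem pl_rot (T m : ℕ) (S : ℤ → ℕ) (hS : ∀ k, S (k + m) = S k) (c : ℤ) :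
    (pl T m S c).rotate 1 = pl T m S (c + 1) := by
  have hlen : ∀ c : ℤ, (pl T m S c).length = m := by
    intro c
    simp [pl]
  refine List.ext_getElem ?_ ?_
  · rw [List.length_rotate, hlen, hlen]
  · intro i h1 h2
    have him : i < m := by
      rw [hlen] at h2
      exact h2
    rw [List.getElem_rotate]
    simp only [hlen]
    have e1 : ∀ (d : ℤ) (i : ℕ) (h : i < (pl T m S d).length), (pl T m S d)[i] = ix T m (S (d + i)) (d + i) := by
      intro d i h
      simp [pl]
    rw [e1, e1]
    rcases Nat.lt_or_ge (i + 1) m with h3 | h3
    · rw [Nat.mod_eq_of_lt h3]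
      have e2 : c + ((i + 1 : ℕ) : ℤ) = c + 1 + (i : ℤ) := by
        push_cast
        ring
      rw [e2]
    · have h4 : i + 1 = m := by omega
      have e2 : c + 1 + (i : ℤ) = c + (m : ℤ) := by
        rw [← h4]
        push_cast
        ring
      rw [h4, Nat.mod_self, e2, hS]
      simp [ix]

private theorem chA_ne (T m : ℕ) (i k : ℕ) (hi : i < m) (hk : k < m) (hik : i ≠ k) :
    ix T m T (i : ℤ) ≠ ix T m T (k : ℤ) := by
  intro h
  have h1 : ((i : ℤ) : ZMod m) = ((k : ℤ) : ZMod m) := congrArg Prod.snd h
  rw [ZMod.intCast_eq_intCast_iff] at h1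
  have h2 : i % m = k % m := by
    have h3 := Int.natCast_modEq_iff.1 h1
    exact h3
  rw [Nat.mod_eq_of_lt hi, Nat.mod_eq_of_lt hk] at h2
  exact hik h2

/-- The final fan: from the triangle `0 1 2` of the row `T` to the whole row. -/
theorem chain_fan (T m : ℕ) (hm : 5 ≤ m) (F : Fin (T + 1) × ZMod m → E) (Q : Set E)
    (hL : Loc T m fun j k => F (ix T m j k))
    (hQ : ∀ k : ℤ, 2 ≤ k → k + 1 ≤ m →
      Disjoint (convexHull ℝ {F (ix T m T (k - 1)), F (ix T m T k), F (ix T m T 0)}) Q) :
    Chain F Q (pl T m (fun _ => T) 0) := by
  have key : ∀ k : ℕ, 3 ≤ k → k ≤ m →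
      Chain F Q ((List.range k).map fun i : ℕ => ix T m T (i : ℤ)) := by
    intro k hk3
    induction k, hk3 using Nat.le_induction with
    | base =>
      intro _
      have e : ((List.range 3).map fun i : ℕ => ix T m T (i : ℤ)) =
          [ix T m T ((0 : ℕ) : ℤ), ix T m T ((1 : ℕ) : ℤ), ix T m T ((2 : ℕ) : ℤ)] := rfl
      rw [e]
      refine Chain.base _ _ _ ?_ ?_
      · have n1 := chA_ne T m 0 1 (by omega) (by omega) (by omega)
        have n2 := chA_ne T m 0 2 (by omega) (by omega) (by omega)
        have n3 := chA_ne T m 1 2 (by omega) (by omega) (by omega)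
        simp only [List.nodup_cons, List.mem_cons, List.not_mem_nil, or_false, not_or,
          not_false_eq_true, List.nodup_nil, and_true]
        exact ⟨⟨n1, n2⟩, n3⟩
      · have h := hQ 2 (by omega) (by omega)
        have e2 : ({F (ix T m T ((0 : ℕ) : ℤ)), F (ix T m T ((1 : ℕ) : ℤ)),
            F (ix T m T ((2 : ℕ) : ℤ))} : Set E) =
            {F (ix T m T (2 - 1)), F (ix T m T 2), F (ix T m T 0)} := by
          have e3 : (2 - 1 : ℤ) = ((1 : ℕ) : ℤ) := by norm_num
          have e4 : (2 : ℤ) = ((2 : ℕ) : ℤ) := by norm_num
          have e5 : (0 : ℤ) = ((0 : ℕ) : ℤ) := by norm_num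
          rw [e3, e4, e5]
          ext x
          simp only [Set.mem_insert_iff, Set.mem_singleton_iff]
          tauto
        rw [e2]
        exact h
    | succ k hk ih =>
      intro hkm
      have h0 := ih (by omega)
      rw [List.range_succ, List.map_append]
      have hlast : ((List.range k).map fun i : ℕ => ix T m T (i : ℤ)).getLast? =
          some (ix T m T ((k : ℤ) - 1)) := by
        obtain ⟨k', rfl⟩ : ∃ k', k = k' + 1 := ⟨k - 1, by omega⟩
        rw [List.range_succ, List.map_append]
        simp
      have hhead : ((List.range k).map fun i : ℕ => ix T m T (i : ℤ)).head? =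
          some (ix T m T 0) := by
        obtain ⟨k', rfl⟩ : ∃ k', k = k' + 1 := ⟨k - 1, by omega⟩
        rw [List.range_succ_eq_map]
        simp
      refine Chain.del _ _ h0 ?_ ?_ ?_
      · intro hmem
        rw [List.mem_map] at hmem
        obtain ⟨i, hi, he⟩ := hmem
        rw [List.mem_range] at hi
        exact chA_ne T m i k (by omega) (by omega) (by omega) he
      · intro A C hA hC e he
        rw [List.getLast?_map, hlast] at hA
        rw [List.head?_map, hhead] at hC
        have hA' : A = F (ix T m T ((k : ℤ) - 1)) := (Option.some.inj hA).symm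
        have hC' : C = F (ix T m T 0) := (Option.some.inj hC).symm
        rw [List.map_map] at he
        obtain ⟨i, hi, he⟩ := List.mem_iff_getElem.1 he
        have hik : i + 1 < k := by
          rw [List.length_zip, List.length_tail, List.length_map, List.length_range] at hi
          omega
        rw [List.getElem_zip, List.getElem_tail, List.getElem_map, List.getElem_map,
          List.getElem_range, List.getElem_range] at he
        rw [← he, hA', hC']
        have h3k : (3 : ℤ) ≤ (k : ℤ) := by exact_mod_cast hk
        have hkm' : (k : ℤ) + 1 ≤ m := by exact_mod_cast hkm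
        rcases Nat.eq_zero_or_pos i with hi0 | hi0
        · subst hi0
          have h1 := cn_sub _ _ _ _ (hL.fan.fa (k : ℤ) h3k hkm')
          intro x hx
          have hx2 : x ∈ ({F (ix T m T 0)} : Set E) := by
            apply h1
            refine ⟨?_, ?_⟩
            · rw [segment_symm]
              simpa using hx.1
            · have e2 : ({F (ix T m T 0), F (ix T m T ((k : ℤ) - 1)), F (ix T m T (k : ℤ))} : Set E) =
                  {F (ix T m T ((k : ℤ) - 1)), F (ix T m T (k : ℤ)), F (ix T m T 0)} := by
                ext y
                simp only [Set.mem_insert_iff, Set.mem_singleton_iff]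
                tauto
              rw [e2]
              exact hx.2
          right
          exact hx2
        · rcases Nat.lt_or_ge (i + 2) k with h4 | h4
          · have h1 := hL.fan.fd (k : ℤ) h3k hkm' (i : ℤ) (by omega) (by omega)
            intro x hx
            exfalso
            refine Set.disjoint_left.1 h1 ?_ hx.2
            simpa using hx.1
          · have h5 : k = i + 2 := by omega
            have h1 := cn_sub _ _ _ _ (hL.fan.fb (k : ℤ) h3k hkm')
            intro x hx
            have hx2 : x ∈ ({F (ix T m T ((k : ℤ) - 1))} : Set E) := by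
              apply h1
              refine ⟨?_, hx.2⟩
              have e1 : (k : ℤ) - 2 = (i : ℤ) := by
                rw [h5]
                push_cast
                ring
              have e2 : (k : ℤ) - 1 = ((i + 1 : ℕ) : ℤ) := by
                rw [h5]
                push_cast
                ring
              simp only [e1, e2]
              exact hx.1
            left
            exact hx2
      · intro A C hA hC
        rw [hlast] at hA
        rw [hhead] at hC
        rw [← Option.some.inj hA, ← Option.some.inj hC]
        exact hQ (k : ℤ) (by omega) (by omega)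
  have h1 := key m (by omega) le_rfl
  have e : pl T m (fun _ => T) 0 = (List.range m).map fun i : ℕ => ix T m T (i : ℤ) := by
    unfold pl
    refine List.map_congr_left ?_
    intro i _
    rw [zero_add]
  rw [e]
  exact h1

end Pool.Agent.Lib.MP_ca0971_gt.OT.Sm
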