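import Pool.Agent.Lib.MP_ca0971_gt.OT.Sm.ChT

set_option autoImplicit false

namespace Pool.Agent.Lib.MP_ca0971_gt.OT.Sm

open Set Metric Filter Topology

private theorem chb_ix_per (T m : ℕ) (j : ℕ) (k : ℤ) : ix T m j (k + m) = ix T m j k := by
  unfold ix
  simp

private theorem chb_pl_per (T m : ℕ) (S : ℤ → ℕ) (hS : ∀ k, S (k + m) = S k) (c : ℤ) :
    pl T m S (c + m) = pl T m S c := by
  unfold pl
  refine List.map_congr_left fun i _ => ?_
  have e : c + (m : ℤ) + (i : ℤ) = c + i + m := by ring
  rw [e, hS, chb_ix_per]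

private theorem chb_pl_perN (T m : ℕ) (S : ℤ → ℕ) (hS : ∀ k, S (k + m) = S k) (c : ℤ) (t : ℕ) :
    pl T m S (c + t * m) = pl T m S c := by
  induction t with
  | zero => simp
  | succ t ih =>
    have e : c + ((t + 1 : ℕ) : ℤ) * (m : ℤ) = c + t * m + m := by
      push_cast
      ring
    rw [e, chb_pl_per T m S hS, ih]

private theorem chb_pl_perZ (T m : ℕ) (S : ℤ → ℕ) (hS : ∀ k, S (k + m) = S k) (c z : ℤ) :
    pl T m S (c + z * m) = pl T m S c := by
  obtain ⟨t, rfl | rfl⟩ := z.eq_nat_or_neg
  · exact chb_pl_perN T m S hS c t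
  · have h := chb_pl_perN T m S hS (c + (-(t : ℤ)) * m) t
    have e : c + (-(t : ℤ)) * (m : ℤ) + (t : ℤ) * (m : ℤ) = c := by ring
    rw [e] at h
    exact h.symm

private theorem chb_rot (T m : ℕ) (F : Fin (T + 1) × ZMod m → E) (Q : Set E) (S : ℤ → ℕ)
    (hS : ∀ k, S (k + m) = S k) (c : ℤ) (t : ℕ) (h : Chain F Q (pl T m S c)) :
    Chain F Q (pl T m S (c + t)) := by
  induction t with
  | zero => simpa using h
  | succ t ih =>
    have e : c + ((t + 1 : ℕ) : ℤ) = c + t + 1 := by
      push_cast
      ring
    rw [e, ← pl_rot T m S hS]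
    exact Chain.rot _ 1 ih

/-- the starting column of the list does not matter -/
private theorem chb_any (T m : ℕ) (hm : 0 < m) (F : Fin (T + 1) × ZMod m → E) (Q : Set E)
    (S : ℤ → ℕ) (hS : ∀ k, S (k + m) = S k) (c d : ℤ) (h : Chain F Q (pl T m S c)) :
    Chain F Q (pl T m S d) := by
  have hm0 : (m : ℤ) ≠ 0 := by exact_mod_cast hm.ne'
  have h1 := Int.emod_nonneg (d - c) hm0
  obtain ⟨t, ht⟩ := Int.eq_ofNat_of_zero_le h1
  have h2 := Int.emod_add_mul_ediv (d - c) m
  have h3 := chb_rot T m F Q S hS c t h
  rw [← chb_pl_perZ T m S hS (c + t) ((d - c) / m)] at h3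
  have e : c + (t : ℤ) + (d - c) / (m : ℤ) * (m : ℤ) = d := by
    rw [ht] at h2
    linarith
  rw [e] at h3
  exact h3

/-- One step: the vertex in the column `k` goes from the row `j` to the row `j + 1`. Let `S'` be `S`
with the value `j + 1` at the columns `≡ k`. `pl S' (k + 1) = R ++ [X']`, `pl S k = X :: R`. -/
theorem chain_mv (T m : ℕ) (hm : 5 ≤ m) (F : Fin (T + 1) × ZMod m → E) (Q : Set E)
    (hL : Loc T m fun j k => F (ix T m j k)) (j : ℕ) (hj : j < T)
    (hQ1 : ∀ s : ℕ, Ly j s → ∀ k : ℤ, Disjoint (convexHull ℝ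
      {F (ix T m s k), F (ix T m j (k + 1)), F (ix T m (j + 1) (k + 1))}) Q)
    (hQ2 : ∀ s : ℕ, Ly j s → ∀ k : ℤ, Disjoint (convexHull ℝ
      {F (ix T m s (k + 1)), F (ix T m j k), F (ix T m (j + 1) k)}) Q)
    (S S' : ℤ → ℕ) (hS : ∀ k, S (k + m) = S k) (hS' : ∀ k, S' (k + m) = S' k)
    (hSj : ∀ k, Ly j (S k)) (hSj' : ∀ k, Ly j (S' k)) (k : ℤ) (hk : S k = j) (hk' : S' k = j + 1)
    (hne : ∀ i : ℤ, k < i → i < k + m → S i = S' i)
    (h : Chain F Q (pl T m S' 0)) : Chain F Q (pl T m S 0) := by
  obtain ⟨n, rfl⟩ : ∃ n, m = n + 1 := ⟨m - 1, by omega⟩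
  set R : List (Fin (T + 1) × ZMod (n + 1)) :=
    (List.range n).map fun i : ℕ => ix T (n + 1) (S (k + 1 + i)) (k + 1 + i) with hR
  have e1 : pl T (n + 1) S (k + 1) = R ++ [ix T (n + 1) j k] := by
    unfold pl
    rw [List.range_succ, List.map_append, List.map_singleton, hR]
    have e : k + 1 + (n : ℤ) = k + ((n + 1 : ℕ) : ℤ) := by
      push_cast
      ring
    rw [e, hS, chb_ix_per, hk]
  have e2 : pl T (n + 1) S' (k + 1) = R ++ [ix T (n + 1) (j + 1) k] := by
    unfold pl
    rw [List.range_succ, List.map_append, List.map_singleton, hR]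
    have e : k + 1 + (n : ℤ) = k + ((n + 1 : ℕ) : ℤ) := by
      push_cast
      ring
    rw [e, hS', chb_ix_per, hk']
    congr 1
    refine List.map_congr_left fun i hi => ?_
    rw [List.mem_range] at hi
    rw [hne (k + 1 + i) (by omega) (by push_cast; omega)]
  have e3 : pl T (n + 1) S k = ix T (n + 1) j k :: R := by
    unfold pl
    rw [List.range_succ_eq_map, List.map_cons, List.map_map, hR]
    have e : k + ((0 : ℕ) : ℤ) = k := by simp
    rw [e, hk]
    congr 1
    refine List.map_congr_left fun i _ => ?_
    have e4 : k + ((i.succ : ℕ) : ℤ) = k + 1 + i := by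
      push_cast
      ring
    show ix T (n + 1) (S (k + ((i.succ : ℕ) : ℤ))) (k + ((i.succ : ℕ) : ℤ)) = _
    rw [e4]
  have h1 : Chain F Q (R ++ [ix T (n + 1) (j + 1) k]) := by
    rw [← e2]
    exact chb_any T (n + 1) (by omega) F Q S' hS' 0 (k + 1) h
  have h2 : Chain F Q (R ++ [ix T (n + 1) j k]) := by
    refine chain_step F Q R (ix T (n + 1) j k) (ix T (n + 1) (j + 1) k) ?_ h1 ?_ ?_ ?_ ?_ ?_
    · rw [hR, List.length_map, List.length_range]
      omega
    · intro hmem
      rw [List.mem_append] at hmem
      rcases hmem with hmem | hmem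
      · rw [hR, List.mem_map] at hmem
        obtain ⟨i, hi, he⟩ := hmem
        rw [List.mem_range] at hi
        have h3 : ((k + 1 + (i : ℤ) : ℤ) : ZMod (n + 1)) = ((k : ℤ) : ZMod (n + 1)) :=
          congrArg Prod.snd he
        rw [ZMod.intCast_eq_intCast_iff] at h3
        have h4 := (Int.emod_emod_of_dvd (k + 1 + i - k) (dvd_refl ((n + 1 : ℕ) : ℤ)))
        have h5 : (((n + 1 : ℕ) : ℤ)) ∣ (k + 1 + i - k) := (Int.modEq_iff_dvd.1 h3.symm)
        obtain ⟨z, hz⟩ := h5
        have h6 : (k + 1 + (i : ℤ) - k) = i + 1 := by ring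
        rw [h6] at hz
        have h7 : (0 : ℤ) < ((n + 1 : ℕ) : ℤ) := by positivity
        have h8 : 0 < z := by
          by_contra hz0
          have : ((n + 1 : ℕ) : ℤ) * z ≤ 0 := mul_nonpos_of_nonneg_of_nonpos h7.le (by omega)
          omega
        have h9 : ((n + 1 : ℕ) : ℤ) ≤ ((n + 1 : ℕ) : ℤ) * z := le_mul_of_one_le_right h7.le (by omega)
        push_cast at h9 hz
        omega
      · rw [List.mem_singleton] at hmem
        have h3 : min j T = min (j + 1) T := congrArg (fun x => (Prod.fst x).val) hmem
        omega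
    · rw [← e2]
      have h3 := triOK_L T (n + 1) hm F hL S' hS' j hj hSj' (k + 1) j (Or.inl rfl) (by
        rw [show k + 1 - 1 = k by ring, hk']
        omega)
      rw [show k + 1 - 1 = k by ring] at h3
      exact h3
    · rw [← e3]
      exact triOK_R T (n + 1) hm F hL S hS j hj hSj k (j + 1) (Or.inr rfl) (by
        rw [hk]
        omega)
    · intro C hC
      have hC' : C = ix T (n + 1) (S (k + 1)) (k + 1) := by
        obtain ⟨n', rfl⟩ : ∃ n', n = n' + 1 := ⟨n - 1, by omega⟩
        rw [hR, List.range_succ_eq_map, List.map_cons, List.head?_cons] at hC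
        rw [← Option.some.inj hC]
        simp
      have h3 := hQ2 (S (k + 1)) (hSj _) k
      rw [hC']
      have e : ({F (ix T (n + 1) (j + 1) k), F (ix T (n + 1) j k),
          F (ix T (n + 1) (S (k + 1)) (k + 1))} : Set E) =
          {F (ix T (n + 1) (S (k + 1)) (k + 1)), F (ix T (n + 1) j k),
            F (ix T (n + 1) (j + 1) k)} := by
        ext x
        simp only [Set.mem_insert_iff, Set.mem_singleton_iff]
        tauto
      rw [e]
      exact h3
    · intro A hA
      have hA' : A = ix T (n + 1) (S (k - 1)) (k - 1) := by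
        obtain ⟨n', rfl⟩ : ∃ n', n = n' + 1 := ⟨n - 1, by omega⟩
        rw [hR, List.range_succ, List.map_append, List.map_singleton, List.getLast?_concat] at hA
        rw [← Option.some.inj hA]
        have e : k + 1 + (n' : ℤ) = k - 1 + ((n' + 1 + 1 : ℕ) : ℤ) := by
          push_cast
          ring
        rw [e, hS, chb_ix_per]
      have h3 := hQ1 (S (k - 1)) (hSj _) (k - 1)
      rw [show k - 1 + 1 = k by ring] at h3
      rw [hA']
      have e : ({F (ix T (n + 1) (S (k - 1)) (k - 1)), F (ix T (n + 1) (j + 1) k),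
          F (ix T (n + 1) j k)} : Set E) =
          {F (ix T (n + 1) (S (k - 1)) (k - 1)), F (ix T (n + 1) j k),
            F (ix T (n + 1) (j + 1) k)} := by
        ext x
        simp only [Set.mem_insert_iff, Set.mem_singleton_iff]
        tauto
      rw [e]
      exact h3
  rw [← e1] at h2
  exact chb_any T (n + 1) (by omega) F Q S hS (k + 1) 0 h2

/-- The whole chain: rows `j = T - 1, .., 0`, columns `k = m - 1, .., 0`; stage `(j, k)` has
`S i = if i % m < k then j + 1 else j`. -/
theorem chain_all (T m : ℕ) (hm : 5 ≤ m) (F : Fin (T + 1) × ZMod m → E) (Q : Set E)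
    (hL : Loc T m fun j k => F (ix T m j k))
    (hQ1 : ∀ j < T, ∀ s : ℕ, Ly j s → ∀ k : ℤ, Disjoint (convexHull ℝ
      {F (ix T m s k), F (ix T m j (k + 1)), F (ix T m (j + 1) (k + 1))}) Q)
    (hQ2 : ∀ j < T, ∀ s : ℕ, Ly j s → ∀ k : ℤ, Disjoint (convexHull ℝ
      {F (ix T m s (k + 1)), F (ix T m j k), F (ix T m (j + 1) k)}) Q)
    (hQ3 : ∀ k : ℤ, 2 ≤ k → k + 1 ≤ m →
      Disjoint (convexHull ℝ {F (ix T m T (k - 1)), F (ix T m T k), F (ix T m T 0)}) Q) :
    Chain F Q (row0 T m) := by
  have hm0 : (m : ℤ) ≠ 0 := by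
    have : m ≠ 0 := by omega
    exact_mod_cast this
  have hmpos : (0 : ℤ) < m := by
    have : 0 < m := by omega
    exact_mod_cast this
  have hrow : ∀ t : ℕ, t ≤ T → Chain F Q (pl T m (fun _ => T - t) 0) := by
    intro t
    induction t with
    | zero => exact fun _ => chain_fan T m hm F Q hL hQ3
    | succ t ih =>
      intro ht
      have h0 := ih (by omega)
      set j : ℕ := T - (t + 1) with hjdef
      have hj : j < T := by omega
      have hj1 : T - t = j + 1 := by omega
      rw [hj1] at h0
      have hcol : ∀ r : ℕ, r ≤ m →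
          Chain F Q (pl T m (fun i : ℤ => if i % m < ((m - r : ℕ) : ℤ) then j + 1 else j) 0) := by
        intro r
        induction r with
        | zero =>
          intro _
          have e : (fun i : ℤ => if i % m < ((m - 0 : ℕ) : ℤ) then j + 1 else j) =
              fun _ => j + 1 := by
            funext i
            rw [if_pos]
            rw [Nat.sub_zero]
            exact Int.emod_lt_of_pos i hmpos
          rw [e]
          exact h0
        | succ r ihr =>
          intro hr
          have h1 := ihr (by omega)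
          set k : ℕ := m - (r + 1) with hkdef
          have hk1 : m - r = k + 1 := by omega
          rw [hk1] at h1
          have hkm : (k : ℤ) % m = k := by
            refine Int.emod_eq_of_lt (by positivity) ?_
            have : k < m := by omega
            exact_mod_cast this
          refine chain_mv T m hm F Q hL j hj (hQ1 j hj) (hQ2 j hj) _ _ ?_ ?_ ?_ ?_ (k : ℤ) ?_ ?_ ?_ h1
          · intro i
            simp only [Int.add_emod_right]
          · intro i
            simp only [Int.add_emod_right]
          · intro i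
            show Ly j (if i % m < (k : ℤ) then j + 1 else j)
            split_ifs
            · exact Or.inr rfl
            · exact Or.inl rfl
          · intro i
            show Ly j (if i % m < ((k + 1 : ℕ) : ℤ) then j + 1 else j)
            split_ifs
            · exact Or.inr rfl
            · exact Or.inl rfl
          · show (if (k : ℤ) % m < (k : ℤ) then j + 1 else j) = j
            rw [hkm, if_neg (lt_irrefl _)]
          · show (if (k : ℤ) % m < ((k + 1 : ℕ) : ℤ) then j + 1 else j) = j + 1
            rw [hkm, if_pos]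
            push_cast
            omega
          · intro i hi1 hi2
            show (if i % m < (k : ℤ) then j + 1 else j) =
              if i % m < ((k + 1 : ℕ) : ℤ) then j + 1 else j
            have h3 : i % (m : ℤ) ≠ k := by
              intro h4
              have h5 := Int.emod_add_mul_ediv i m
              rw [h4] at h5
              have h6 : (m : ℤ) * (i / m) = i - k := by linarith
              have h7 : 0 < (m : ℤ) * (i / m) := by linarith
              have h8 : 0 < i / (m : ℤ) := by
                by_contra h9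
                have : (m : ℤ) * (i / m) ≤ 0 :=
                  mul_nonpos_of_nonneg_of_nonpos hmpos.le (by omega)
                omega
              have h10 : (m : ℤ) ≤ (m : ℤ) * (i / m) := le_mul_of_one_le_right hmpos.le (by omega)
              linarith
            by_cases h4 : i % (m : ℤ) < k
            · rw [if_pos h4, if_pos]
              push_cast
              omega
            · rw [if_neg h4, if_neg]
              push_cast
              omega
      have h2 := hcol m le_rfl
      have e : (fun i : ℤ => if i % m < ((m - m : ℕ) : ℤ) then j + 1 else j) = fun _ => j := by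
        funext i
        rw [if_neg]
        rw [Nat.sub_self]
        have := Int.emod_nonneg i hm0
        push_cast
        omega
      rw [e] at h2
      exact h2
  have h1 := hrow T le_rfl
  rw [Nat.sub_self] at h1
  have e : pl T m (fun _ => 0) 0 = row0 T m := by
    unfold pl row0
    refine List.map_congr_left fun i _ => ?_
    rw [zero_add]
  rw [← e]
  exact h1

end Pool.Agent.Lib.MP_ca0971_gt.OT.Sm
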