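import Pool.Agent.Lib.MP_ca0971_gt.OT.Sm.ChA

set_option autoImplicit false

namespace Pool.Agent.Lib.MP_ca0971_gt.OT.Sm

open Set Metric Filter Topology

/-- `Cn`: the segment meets the triangle only in the vertex. -/
private theorem cht_cn {v P Q D x : E} (h : Cn v P Q D) (h1 : x ∈ segment ℝ v D)
    (h2 : x ∈ convexHull ℝ {v, P, Q}) : x = v := by
  rw [convexHull_insert (by simp), convexHull_pair] at h2
  obtain ⟨y, hy, hx⟩ := (mem_convexJoin.1 h2)
  obtain rfl : y = v := by simpa using hy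
  obtain ⟨z, hz, hxz⟩ := hx
  rw [segment_eq_image'] at h1 hz hxz
  obtain ⟨t, ht, rfl⟩ := h1
  obtain ⟨w, hw, rfl⟩ := hz
  obtain ⟨u, hu, hxu⟩ := hxz
  have h3 := h (u * (1 - w)) (u * w) t (mul_nonneg hu.1 (by linarith [hw.2]))
    (mul_nonneg hu.1 hw.1) ht.1 (by
      have h4 : t • (D - y) = u • (P + w • (Q - P) - y) := by
        have h5 : y + u • (P + w • (Q - P) - y) = y + t • (D - y) := hxu
        exact (add_left_cancel h5).symm
      rw [h4]
      module)
  rw [h3.2.2]
  simp

private theorem cht_core (P : ℕ → E) (m : ℕ) (hm : 2 ≤ m) (B : E)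
    (h0 : ∀ x ∈ segment ℝ (P 0) (P 1), x ∈ convexHull ℝ {P (m - 1), B, P 0} → x = P 0)
    (h1 : ∀ x ∈ segment ℝ (P (m - 2)) (P (m - 1)), x ∈ convexHull ℝ {P (m - 1), B, P 0} →
      x = P (m - 1))
    (h2 : ∀ i, 1 ≤ i → i + 3 ≤ m →
      Disjoint (segment ℝ (P i) (P (i + 1))) (convexHull ℝ {P (m - 1), B, P 0})) :
    TriOK ((List.range m).map P) B := by
  intro A C hA hC e he x hx
  have eA : A = P (m - 1) := by
    rw [List.getLast?_map, List.getLast?_range, if_neg (by omega)] at hA
    simpa using hA.symm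
  have eC : C = P 0 := by
    rw [List.head?_map, List.head?_range, if_neg (by omega)] at hC
    simpa using hC.symm
  subst eA eC
  obtain ⟨i, hi, rfl⟩ := List.mem_iff_getElem.1 he
  have hi' : i + 1 < m := by
    simp only [List.length_zip, List.length_map, List.length_range, List.length_tail] at hi
    omega
  simp only [List.getElem_zip, List.getElem_tail, List.getElem_map, List.getElem_range] at hx
  obtain ⟨hx1, hx2⟩ := hx
  rcases Nat.eq_zero_or_pos i with h3 | h3
  · subst h3
    right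
    exact h0 x hx1 hx2
  · rcases Nat.lt_or_ge (i + 2) m with h4 | h4
    · exact absurd hx2 (Set.disjoint_left.1 (h2 i h3 (by omega)) hx1)
    · have h5 : i = m - 2 := by omega
      left
      have h6 : i + 1 = m - 1 := by omega
      rw [h6, h5] at hx1
      exact h1 x hx1 hx2

/-- periodicity of the points -/
private theorem cht_per (T m : ℕ) (F : Fin (T + 1) × ZMod m → E) (j : ℕ) (k : ℤ) :
    F (ix T m j (k + m)) = F (ix T m j k) := by
  unfold ix
  simp

/-- `TriOK` for an open path with one edge in each of `m - 1` consecutive columns and the triangle in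
the remaining column with a vertical side at the head (type R, column `[c - 1, c]`). The edge number
`i` (from the column line `c + i` to `c + i + 1`, `i ≤ m - 2`): `i = 0` by `Lay.r1` (common vertex = head),
`i = m - 2` by `Lay.r2` (common vertex = last, periodicity), the others by `Lay.rf`. -/
theorem triOK_R (T m : ℕ) (hm : 5 ≤ m) (F : Fin (T + 1) × ZMod m → E)
    (hL : Loc T m fun j k => F (ix T m j k)) (S : ℤ → ℕ) (hS : ∀ k, S (k + m) = S k) (j : ℕ)
    (hj : j < T) (hSj : ∀ k, Ly j (S k)) (c : ℤ) (q : ℕ) (hq : Ly j q) (hqc : q ≠ S c) :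
    TriOK ((pl T m S c).map F) (F (ix T m q c)) := by
  have hly := hL.ly j hj
  set V : ℕ → ℤ → E := fun j k => F (ix T m j k) with hV
  have e0 : (pl T m S c).map F = (List.range m).map fun i : ℕ => V (S (c + i)) (c + i) := by
    unfold pl
    rw [List.map_map]
    rfl
  have per : ∀ (r : ℕ) (k : ℤ), V r (k + m) = V r k := fun r k => cht_per T m F r k
  have elast : V (S (c + ((m - 1 : ℕ) : ℤ))) (c + ((m - 1 : ℕ) : ℤ)) = V (S (c - 1)) (c - 1) := by
    have h1 : c + ((m - 1 : ℕ) : ℤ) = c - 1 + m := by omega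
    rw [h1, hS, per]
  have elast2 : V (S (c + ((m - 2 : ℕ) : ℤ))) (c + ((m - 2 : ℕ) : ℤ)) = V (S (c - 2)) (c - 2) := by
    have h1 : c + ((m - 2 : ℕ) : ℤ) = c - 2 + m := by omega
    rw [h1, hS, per]
  have ehead : V (S (c + ((0 : ℕ) : ℤ))) (c + ((0 : ℕ) : ℤ)) = V (S c) c := by simp
  have etri : ({V (S (c - 1)) (c - 1), V q c, V (S c) c} : Set E) =
      {V (S (c - 1)) (c - 1), V j c, V (j + 1) c} := by
    rcases hq with h1 | h1 <;> rcases hSj c with h2 | h2
    · exact absurd (h1.trans h2.symm) hqc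
    · rw [h1, h2]
    · rw [h1, h2, Set.pair_comm (V (j + 1) c) (V j c)]
    · exact absurd (h1.trans h2.symm) hqc
  rw [e0]
  refine cht_core _ m (by omega) _ ?_ ?_ ?_
  · intro x hx1 hx2
    simp only [elast, ehead] at hx1 hx2 ⊢
    have h3 := hly.r1 (S c) q (S (c - 1)) (S (c + 1)) (hSj _) hq (Ne.symm hqc) (hSj _) (hSj _)
      (c - 1)
    rw [show c - 1 + 1 = c by ring, show c - 1 + 2 = c + 1 by ring] at h3
    refine cht_cn h3 (by simpa using hx1) ?_
    have h4 : ({V (S c) c, V q c, V (S (c - 1)) (c - 1)} : Set E) =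
        {V (S (c - 1)) (c - 1), V q c, V (S c) c} := by
      ext z
      simp only [Set.mem_insert_iff, Set.mem_singleton_iff]
      tauto
    rw [h4]
    exact hx2
  · intro x hx1 hx2
    simp only [elast, elast2, ehead] at hx1 hx2 ⊢
    rw [etri] at hx2
    have h3 := hly.r2 (S (c - 1)) (S (c - 2)) (hSj _) (hSj _) (c - 1)
    rw [show c - 1 + 1 = c by ring, show c - 1 - 1 = c - 2 by ring] at h3
    rw [segment_symm] at hx1
    exact cht_cn h3 hx1 hx2
  · intro i hi1 hi2
    simp only [elast, ehead]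
    rw [etri]
    have h3 := hly.rf (S (c - 1)) (S (c + i)) (S (c + (i + 1 : ℕ))) (hSj _) (hSj _) (hSj _)
      (c - 1) (c + i) (by omega) (by omega)
    rw [show c - 1 + 1 = c by ring, show c + (i : ℤ) + 1 = c + ((i + 1 : ℕ) : ℤ) by push_cast; ring]
      at h3
    exact h3

/-- The same with the vertical side at the last vertex (type L, column `[c - 1, c]`, the new vertex is
on the column line `c - 1`): `Lay.l2` for `i = 0`, `Lay.l1` for `i = m - 2`, `Lay.lf`. -/
theorem triOK_L (T m : ℕ) (hm : 5 ≤ m) (F : Fin (T + 1) × ZMod m → E)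
    (hL : Loc T m fun j k => F (ix T m j k)) (S : ℤ → ℕ) (hS : ∀ k, S (k + m) = S k) (j : ℕ)
    (hj : j < T) (hSj : ∀ k, Ly j (S k)) (c : ℤ) (q : ℕ) (hq : Ly j q) (hqc : q ≠ S (c - 1)) :
    TriOK ((pl T m S c).map F) (F (ix T m q (c - 1))) := by
  have hly := hL.ly j hj
  set V : ℕ → ℤ → E := fun j k => F (ix T m j k) with hV
  have e0 : (pl T m S c).map F = (List.range m).map fun i : ℕ => V (S (c + i)) (c + i) := by
    unfold pl
    rw [List.map_map]
    rfl
  have per : ∀ (r : ℕ) (k : ℤ), V r (k + m) = V r k := fun r k => cht_per T m F r k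
  have elast : V (S (c + ((m - 1 : ℕ) : ℤ))) (c + ((m - 1 : ℕ) : ℤ)) = V (S (c - 1)) (c - 1) := by
    have h1 : c + ((m - 1 : ℕ) : ℤ) = c - 1 + m := by omega
    rw [h1, hS, per]
  have elast2 : V (S (c + ((m - 2 : ℕ) : ℤ))) (c + ((m - 2 : ℕ) : ℤ)) = V (S (c - 2)) (c - 2) := by
    have h1 : c + ((m - 2 : ℕ) : ℤ) = c - 2 + m := by omega
    rw [h1, hS, per]
  have ehead : V (S (c + ((0 : ℕ) : ℤ))) (c + ((0 : ℕ) : ℤ)) = V (S c) c := by simp
  have etri : ({V (S (c - 1)) (c - 1), V q (c - 1), V (S c) c} : Set E) =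
      {V (S c) c, V j (c - 1), V (j + 1) (c - 1)} := by
    rcases hq with h1 | h1 <;> rcases hSj (c - 1) with h2 | h2
    · exact absurd (h1.trans h2.symm) hqc
    · rw [h1, h2]
      ext z
      simp only [Set.mem_insert_iff, Set.mem_singleton_iff]
      tauto
    · rw [h1, h2]
      ext z
      simp only [Set.mem_insert_iff, Set.mem_singleton_iff]
      tauto
    · exact absurd (h1.trans h2.symm) hqc
  rw [e0]
  refine cht_core _ m (by omega) _ ?_ ?_ ?_
  · intro x hx1 hx2
    simp only [elast, ehead] at hx1 hx2 ⊢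
    rw [etri] at hx2
    have h3 := hly.l2 (S c) (S (c + 1)) (hSj _) (hSj _) (c - 1)
    rw [show c - 1 + 1 = c by ring, show c - 1 + 2 = c + 1 by ring] at h3
    exact cht_cn h3 (by simpa using hx1) hx2
  · intro x hx1 hx2
    simp only [elast, elast2, ehead] at hx1 hx2 ⊢
    have h3 := hly.l1 (S (c - 1)) q (S c) (S (c - 2)) (hSj _) hq (Ne.symm hqc) (hSj _) (hSj _)
      (c - 1)
    rw [show c - 1 + 1 = c by ring, show c - 1 - 1 = c - 2 by ring] at h3
    rw [segment_symm] at hx1
    exact cht_cn h3 hx1 hx2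
  · intro i hi1 hi2
    simp only [elast, ehead]
    rw [etri]
    have h3 := hly.lf (S c) (S (c + i)) (S (c + (i + 1 : ℕ))) (hSj _) (hSj _) (hSj _)
      (c - 1) (c + i) (by omega) (by omega)
    rw [show c - 1 + 1 = c by ring, show c + (i : ℤ) + 1 = c + ((i + 1 : ℕ) : ℤ) by push_cast; ring]
      at h3
    exact h3

end Pool.Agent.Lib.MP_ca0971_gt.OT.Sm
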