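import Pool.Agent.Lib.MP_ca0971_gt.OT.Sm.Def

set_option autoImplicit false

namespace Pool.Agent.Lib.MP_ca0971_gt.OT.Sm

open Set Metric Filter Topology

/-- Rotation by `φ` in the plane, then `(X + i Y, w) ↦ (X + i (w + X Y), - 2 Y)`. -/
noncomputable def cor (φ : ℝ) (p : ℂ × ℝ) : E :=
  (⟨(Complex.exp ((φ : ℂ) * Complex.I) * p.1).re,
    p.2 + (Complex.exp ((φ : ℂ) * Complex.I) * p.1).re *
      (Complex.exp ((φ : ℂ) * Complex.I) * p.1).im⟩,
    -2 * (Complex.exp ((φ : ℂ) * Complex.I) * p.1).im)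

/-- the two coordinates as linear maps -/
noncomputable def coA (φ : ℝ) : (ℂ × ℝ) →L[ℝ] ℝ :=
  Complex.reCLM.comp ((ContinuousLinearMap.mul ℝ ℂ (Complex.exp ((φ : ℂ) * Complex.I))).comp
    (ContinuousLinearMap.fst ℝ ℂ ℝ))

noncomputable def coB (φ : ℝ) : (ℂ × ℝ) →L[ℝ] ℝ :=
  Complex.imCLM.comp ((ContinuousLinearMap.mul ℝ ℂ (Complex.exp ((φ : ℂ) * Complex.I))).comp
    (ContinuousLinearMap.fst ℝ ℂ ℝ))

theorem coA_apply (φ : ℝ) (p : ℂ × ℝ) :
    coA φ p = (Complex.exp ((φ : ℂ) * Complex.I) * p.1).re := rfl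

theorem coB_apply (φ : ℝ) (p : ℂ × ℝ) :
    coB φ p = (Complex.exp ((φ : ℂ) * Complex.I) * p.1).im := rfl

theorem cor_eq (φ : ℝ) : cor φ = fun p => ((Complex.equivRealProdCLM.symm
    (coA φ p, p.2 + coA φ p * coB φ p), -2 * coB φ p) : E) := by
  funext p
  refine Prod.ext ?_ rfl
  apply Complex.ext
  · rw [Complex.equivRealProdCLM_symm_apply]
    simp only [cor, coA_apply, Complex.add_re, Complex.ofReal_re, Complex.mul_re, Complex.I_re,
      Complex.ofReal_im, Complex.I_im]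
    ring
  · rw [Complex.equivRealProdCLM_symm_apply]
    simp only [cor, coA_apply, coB_apply, Complex.add_im, Complex.ofReal_re, Complex.mul_im,
      Complex.I_re, Complex.ofReal_im, Complex.I_im]
    ring

theorem cor_smooth (φ : ℝ) : ContDiff ℝ ((⊤ : ℕ∞) : WithTop ℕ∞) (cor φ) := by
  rw [cor_eq]
  refine ContDiff.prodMk ?_ ?_
  · refine Complex.equivRealProdCLM.symm.contDiff.comp ?_
    exact (coA φ).contDiff.prodMk (contDiff_snd.add ((coA φ).contDiff.mul (coB φ).contDiff))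
  · exact contDiff_const.mul (coB φ).contDiff

/-- the derivative as a continuous linear map -/
theorem cor_has (φ : ℝ) (p : ℂ × ℝ) : HasFDerivAt (cor φ)
    (((Complex.equivRealProdCLM.symm : (ℝ × ℝ) →L[ℝ] ℂ).comp ((coA φ).prod
      (ContinuousLinearMap.snd ℝ ℂ ℝ + (coA φ p • coB φ + coB φ p • coA φ)))).prod
        ((-2 : ℝ) • coB φ)) p := by
  rw [cor_eq]
  refine HasFDerivAt.prodMk ?_ ?_
  · refine (Complex.equivRealProdCLM.symm : (ℝ × ℝ) →L[ℝ] ℂ).hasFDerivAt.comp p ?_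
    refine (coA φ).hasFDerivAt.prodMk ?_
    exact hasFDerivAt_snd.add ((coA φ).hasFDerivAt.mul (coB φ).hasFDerivAt)
  · exact (coB φ).hasFDerivAt.const_mul (-2)

theorem exp_ne (φ : ℝ) : Complex.exp ((φ : ℂ) * Complex.I) ≠ 0 := Complex.exp_ne_zero _

theorem cor_inj (φ : ℝ) : Function.Injective (cor φ) := by
  intro p q h
  have h1 : (cor φ p).1.re = (cor φ q).1.re := by rw [h]
  have h2 : (cor φ p).1.im = (cor φ q).1.im := by rw [h]
  have h3 : (cor φ p).2 = (cor φ q).2 := by rw [h]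
  simp only [cor] at h1 h2 h3
  have h4 : (Complex.exp ((φ : ℂ) * Complex.I) * p.1).im =
      (Complex.exp ((φ : ℂ) * Complex.I) * q.1).im := by linarith
  rw [h1, h4] at h2
  exact Prod.ext (mul_left_cancel₀ (exp_ne φ) (Complex.ext h1 h4)) (by linarith)

/-- The derivative. -/
theorem cor_deriv (φ : ℝ) (p u : ℂ × ℝ) : fderiv ℝ (cor φ) p u =
    (⟨(Complex.exp ((φ : ℂ) * Complex.I) * u.1).re,
      u.2 + (Complex.exp ((φ : ℂ) * Complex.I) * u.1).re *
        (Complex.exp ((φ : ℂ) * Complex.I) * p.1).im +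
      (Complex.exp ((φ : ℂ) * Complex.I) * p.1).re *
        (Complex.exp ((φ : ℂ) * Complex.I) * u.1).im⟩,
      -2 * (Complex.exp ((φ : ℂ) * Complex.I) * u.1).im) := by
  rw [(cor_has φ p).fderiv]
  refine Prod.ext ?_ ?_
  · apply Complex.ext
    · simp [coA_apply]
    · simp only [ContinuousLinearMap.prod_apply, ContinuousLinearMap.comp_apply,
        ContinuousLinearEquiv.coe_coe, Complex.equivRealProdCLM_symm_apply,
        add_apply, smul_apply,
        ContinuousLinearMap.coe_snd', coA_apply, coB_apply, smul_eq_mul, Complex.add_im,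
        Complex.ofReal_im, Complex.mul_im, Complex.ofReal_re, Complex.I_re, Complex.I_im]
      ring
  · simp [coB_apply]

theorem cor_imm (φ : ℝ) (p : ℂ × ℝ) : Function.Injective (fderiv ℝ (cor φ) p) := by
  intro u u' h
  rw [cor_deriv, cor_deriv] at h
  have h1 := congrArg (fun x : E => x.1.re) h
  have h2 := congrArg (fun x : E => x.1.im) h
  have h3 := congrArg (fun x : E => x.2) h
  simp only at h1 h2 h3
  have h4 : (Complex.exp ((φ : ℂ) * Complex.I) * u.1).im =
      (Complex.exp ((φ : ℂ) * Complex.I) * u'.1).im := by linarith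
  rw [h1, h4] at h2
  exact Prod.ext (mul_left_cancel₀ (exp_ne φ) (Complex.ext h1 h4)) (by linarith)

/-- `cor φ` pulls `dZ + h dX` back to `dw + X dY - Y dX`. -/
theorem cor_cE (φ : ℝ) (p u : ℂ × ℝ) : cE (cor φ p) (fderiv ℝ (cor φ) p u) = stdB p u := by
  rw [cor_deriv]
  have h := Real.sin_sq_add_cos_sq φ
  simp only [cE, cor, stdB, dt, Complex.mul_re, Complex.mul_im, Complex.exp_ofReal_mul_I_re,
    Complex.exp_ofReal_mul_I_im]
  linear_combination (p.1.re * u.1.im - p.1.im * u.1.re) * h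

/-- The mirror `(X + i Y, w) ↦ (X - i Y, - w)`. -/
def mir (p : ℂ × ℝ) : ℂ × ℝ := (starRingEnd ℂ p.1, -p.2)

theorem mir_stdB (p u : ℂ × ℝ) : stdB (mir p) (mir u) = -stdB p u := by
  simp only [stdB, mir, dt, Complex.conj_re, Complex.conj_im]
  ring

/-- the mirror as a continuous linear map -/
noncomputable def mirL : (ℂ × ℝ) →L[ℝ] ℂ × ℝ :=
  ((Complex.conjCLE : ℂ →L[ℝ] ℂ).comp (ContinuousLinearMap.fst ℝ ℂ ℝ)).prod
    (-ContinuousLinearMap.snd ℝ ℂ ℝ)

theorem mirL_apply (p : ℂ × ℝ) : mirL p = mir p := by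
  refine Prod.ext ?_ ?_
  · simp [mirL, mir]
  · simp [mirL, mir]

theorem mir_mir (p : ℂ × ℝ) : mir (mir p) = p := by
  simp [mir]

theorem mir_injective : Function.Injective mir := fun p q h => by
  rw [← mir_mir p, h, mir_mir]

theorem mir_has (f : ℂ → ℂ × ℝ) (p : ℂ) (hf : DifferentiableAt ℝ f p) :
    HasFDerivAt (fun z => mir (f z)) (mirL.comp (fderiv ℝ f p)) p := by
  have h1 : (fun z => mir (f z)) = fun z => mirL (f z) := by
    funext z
    rw [mirL_apply]
  rw [h1]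
  exact mirL.hasFDerivAt.comp p hf.hasFDerivAt

theorem OTd.diff {f : ℂ → ℂ × ℝ} (hf : OTd f) {p : ℂ} (hp : p ∈ closedBall (0 : ℂ) 1) :
    DifferentiableAt ℝ f p := by
  obtain ⟨U, hU, hs, hd⟩ := hf.smooth
  exact (hd.contDiffAt (hU.mem_nhds (hs hp))).differentiableAt (by simp)

theorem mir_OTd (f : ℂ → ℂ × ℝ) (hf : OTd f) : OTd (fun z => mir (f z)) := by
  have hd : ∀ p ∈ closedBall (0 : ℂ) 1, ∀ u,
      fderiv ℝ (fun z => mir (f z)) p u = mir (fderiv ℝ f p u) := by
    intro p hp u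
    rw [(mir_has f p (OTd.diff hf hp)).fderiv]
    exact mirL_apply _
  refine ⟨?_, ?_, ?_, ?_⟩
  · obtain ⟨U, hU, hs, hd⟩ := hf.smooth
    refine ⟨U, hU, hs, ?_⟩
    have h1 : (fun z => mir (f z)) = fun z => mirL (f z) := by
      funext z
      rw [mirL_apply]
    rw [h1]
    exact mirL.contDiff.comp_contDiffOn hd
  · intro x hx y hy h
    exact hf.inj hx hy (mir_injective h)
  · intro p hp u u' h
    rw [hd p hp, hd p hp] at h
    exact hf.imm p hp (mir_injective h)
  · rcases hf.bd with h | h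
    · left
      intro p hp u
      rw [hd p (sphere_subset_closedBall hp), mir_stdB, h p hp u, neg_zero]
    · right
      intro p hp
      obtain ⟨h1, u, h2⟩ := h p hp
      refine ⟨?_, u, ?_⟩
      · rw [hd p (sphere_subset_closedBall hp), mir_stdB, h1, neg_zero]
      · rw [hd p (sphere_subset_closedBall hp), mir_stdB]
        exact neg_ne_zero.2 h2

/-- Derivative of the mirrored map. -/
theorem mir_deriv (f : ℂ → ℂ × ℝ) (p : ℂ) (hf : DifferentiableAt ℝ f p) (u : ℂ) :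
    fderiv ℝ (fun z => mir (f z)) p u = mir (fderiv ℝ f p u) := by
  rw [(mir_has f p hf).fderiv]
  exact mirL_apply _

end Pool.Agent.Lib.MP_ca0971_gt.OT.Sm
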