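import Mathlib

set_option autoImplicit false

namespace Pool.Agent.Lib.MP_ca0971_gt.OT.Sm

open Set Filter Topology MeasureTheory

/-- Sard in dimension one. Let `A = {t | (ζ t).re ≠ 0 ∧ (deriv ζ t * conj (ζ t)).im = 0}`. The slope
`u t = (ζ t).im / (ζ t).re` has derivative `(deriv ζ t * conj (ζ t)).im / (ζ t).re ^ 2` where
`(ζ t).re ≠ 0`, so `u '' A` has measure zero (`addHaar_image_eq_zero_of_det_fderiv_eq_zero`); take
`m ∉ u '' A` and `φ` with `exp (φ I) * (1 + m I)` purely imaginary (e.g. `φ = π / 2 - arg (1 + m I)`).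
If `(exp (φ I) * ζ t).re = 0` then `ζ t` is a real multiple `x (1 + m I)`, `x ≠ 0`, so `u t = m`,
`t ∉ A`, and `(exp (φ I) * deriv ζ t).re = ± |ζ t|⁻¹ (deriv ζ t * conj (ζ t)).im ≠ 0`. -/
theorem morse_dir (ζ : ℝ → ℂ) (hζ : ContDiff ℝ 1 ζ) (h0 : ∀ t, ζ t ≠ 0) :
    ∃ φ : ℝ, ∀ t : ℝ, (Complex.exp ((φ : ℂ) * Complex.I) * ζ t).re = 0 →
      (Complex.exp ((φ : ℂ) * Complex.I) * deriv ζ t).re ≠ 0 := by
  have hd : ∀ t, HasDerivAt ζ (deriv ζ t) t := fun t =>
    ((hζ.differentiable one_ne_zero) t).hasDerivAt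
  have hre : ∀ t, HasDerivAt (fun s => (ζ s).re) (deriv ζ t).re t := fun t =>
    Complex.reCLM.hasFDerivAt.comp_hasDerivAt t (hd t)
  have him : ∀ t, HasDerivAt (fun s => (ζ s).im) (deriv ζ t).im t := fun t =>
    Complex.imCLM.hasFDerivAt.comp_hasDerivAt t (hd t)
  set A : Set ℝ := {t | (ζ t).re ≠ 0 ∧
    (deriv ζ t).im * (ζ t).re - (ζ t).im * (deriv ζ t).re = 0} with hA
  set u : ℝ → ℝ := fun t => (ζ t).im / (ζ t).re with hu
  have hz : volume (u '' A) = 0 := by
    refine addHaar_image_eq_zero_of_det_fderivWithin_eq_zero volume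
      (f' := fun _ => (0 : ℝ →L[ℝ] ℝ)) (fun t ht => ?_) (fun t ht => ?_)
    · have h1 := (him t).div (hre t) ht.1
      rw [ht.2, zero_div] at h1
      have h2 := h1.hasFDerivAt
      have e : ContinuousLinearMap.toSpanSingleton ℝ (0 : ℝ) = 0 := by
        ext
        simp
      rw [e] at h2
      exact h2.hasFDerivWithinAt
    · simp [ContinuousLinearMap.det]
  obtain ⟨m, hm⟩ : ∃ m, m ∉ u '' A := by
    by_contra hc
    push Not at hc
    have : u '' A = univ := eq_univ_of_forall hc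
    rw [this] at hz
    simp at hz
  refine ⟨Complex.arg ((m : ℂ) + Complex.I), fun t ht h => ?_⟩
  have hw0 : (m : ℂ) + Complex.I ≠ 0 := by
    intro h
    have := congrArg Complex.im h
    simp at this
  have hr : 0 < ‖(m : ℂ) + Complex.I‖ := norm_pos_iff.2 hw0
  have hw : ∀ z : ℂ, (Complex.exp ((Complex.arg ((m : ℂ) + Complex.I) : ℂ) * Complex.I) * z).re *
      ‖(m : ℂ) + Complex.I‖ = m * z.re - z.im := by
    intro z
    have e := Complex.norm_mul_exp_arg_mul_I ((m : ℂ) + Complex.I)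
    have e2 : (((m : ℂ) + Complex.I) * z).re = m * z.re - z.im := by
      simp
    rw [← e2]
    conv_rhs => rw [← e]
    rw [mul_assoc, Complex.re_ofReal_mul]
    ring
  have h1 := hw (ζ t)
  have h2 := hw (deriv ζ t)
  rw [ht, zero_mul] at h1
  rw [h, zero_mul] at h2
  have hne : (ζ t).re ≠ 0 := by
    intro h3
    apply h0 t
    apply Complex.ext
    · simpa using h3
    · rw [h3] at h1
      simp only [mul_zero, zero_sub, zero_eq_neg] at h1
      simpa using h1
  apply hm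
  refine ⟨t, ⟨hne, ?_⟩, ?_⟩
  · have e1 : (ζ t).im = m * (ζ t).re := by linarith
    have e2 : (deriv ζ t).im = m * (deriv ζ t).re := by linarith
    rw [e1, e2]
    ring
  · simp only [hu]
    rw [div_eq_iff hne]
    linarith

end Pool.Agent.Lib.MP_ca0971_gt.OT.Sm
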