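import Pool.Agent.Lib.MP_ca0971_gt.OT.Sm.CoorA
import Pool.Agent.Lib.MP_ca0971_gt.OT.Sm.Morse

set_option autoImplicit false

namespace Pool.Agent.Lib.MP_ca0971_gt.OT.Sm

open Set Metric Filter Topology

/-- the parametrisation of the circle -/
theorem cb_circ (t : ℝ) :
    HasDerivAt (fun s : ℝ => Complex.exp ((s : ℂ) * Complex.I))
      (Complex.I * Complex.exp ((t : ℂ) * Complex.I)) t := by
  have h1 : HasDerivAt (fun s : ℝ => (s : ℂ) * Complex.I) (1 * Complex.I) t :=
    (Complex.ofRealCLM.hasDerivAt (x := t)).mul_const Complex.I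
  have h2 := h1.cexp
  rw [one_mul, mul_comm] at h2
  exact h2

theorem cb_smooth : ContDiff ℝ ((⊤ : ℕ∞) : WithTop ℕ∞)
    (fun s : ℝ => Complex.exp ((s : ℂ) * Complex.I)) :=
  (Complex.ofRealCLM.contDiff.mul contDiff_const).cexp

theorem cb_mem (t : ℝ) : Complex.exp ((t : ℂ) * Complex.I) ∈ sphere (0 : ℂ) 1 := by
  rw [mem_sphere_zero_iff_norm, Complex.norm_exp_ofReal_mul_I]

theorem cb_memc (t : ℝ) : Complex.exp ((t : ℂ) * Complex.I) ∈ closedBall (0 : ℂ) 1 :=
  sphere_subset_closedBall (cb_mem t)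

/-- every point of the circle is `exp (t I)` -/
theorem cb_arg {p : ℂ} (hp : p ∈ sphere (0 : ℂ) 1) :
    ∃ t : ℝ, Complex.exp ((t : ℂ) * Complex.I) = p := by
  refine ⟨Complex.arg p, ?_⟩
  have h := Complex.norm_mul_exp_arg_mul_I p
  rw [mem_sphere_zero_iff_norm] at hp
  rwa [hp, Complex.ofReal_one, one_mul] at h

theorem cb_leg {f : ℂ → ℂ × ℝ} (hf : OTd f) {p : ℂ} (hp : p ∈ sphere (0 : ℂ) 1) :
    stdB (f p) (fderiv ℝ f p (Complex.I * p)) = 0 := by
  rcases hf.bd with h | h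
  · exact h p hp _
  · exact (h p hp).1

/-- derivative of the boundary curve -/
theorem cb_has {f : ℂ → ℂ × ℝ} (hf : OTd f) (t : ℝ) :
    HasDerivAt (fun s : ℝ => f (Complex.exp ((s : ℂ) * Complex.I)))
      (fderiv ℝ f (Complex.exp ((t : ℂ) * Complex.I))
        (Complex.I * Complex.exp ((t : ℂ) * Complex.I))) t :=
  (OTd.diff hf (cb_memc t)).hasFDerivAt.comp_hasDerivAt t (cb_circ t)

theorem cb_has1 {f : ℂ → ℂ × ℝ} (hf : OTd f) (t : ℝ) :
    HasDerivAt (fun s : ℝ => (f (Complex.exp ((s : ℂ) * Complex.I))).1)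
      (fderiv ℝ f (Complex.exp ((t : ℂ) * Complex.I))
        (Complex.I * Complex.exp ((t : ℂ) * Complex.I))).1 t :=
  (ContinuousLinearMap.fst ℝ ℂ ℝ).hasFDerivAt.comp_hasDerivAt t (cb_has hf t)

theorem cb_stdB_lin (p : ℂ × ℝ) (a b : ℝ) (u v : ℂ × ℝ) :
    stdB p (a • u + b • v) = a * stdB p u + b * stdB p v := by
  simp only [stdB, dt, Prod.snd_add, Prod.smul_snd, Prod.fst_add, Prod.smul_fst, Complex.add_re,
    Complex.add_im, Complex.real_smul, Complex.mul_re, Complex.mul_im, Complex.ofReal_re,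
    Complex.ofReal_im, smul_eq_mul]
  ring

/-- The projected boundary curve is immersed: if the derivative of `(f (exp (t I))).1` is zero then
`stdB = 0` gives that the whole derivative is zero, against `imm`. -/
theorem bd_ne (f : ℂ → ℂ × ℝ) (hf : OTd f) (t : ℝ) :
    deriv (fun s : ℝ => (f (Complex.exp ((s : ℂ) * Complex.I))).1) t ≠ 0 := by
  rw [(cb_has1 hf t).deriv]
  intro h0
  have h1 := cb_leg hf (cb_mem t)
  have h2 : (fderiv ℝ f (Complex.exp ((t : ℂ) * Complex.I))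
      (Complex.I * Complex.exp ((t : ℂ) * Complex.I))).2 = 0 := by
    simp only [stdB, dt, h0, Complex.zero_re, Complex.zero_im, mul_zero, sub_zero,
      add_zero] at h1
    exact h1
  have h3 : fderiv ℝ f (Complex.exp ((t : ℂ) * Complex.I))
      (Complex.I * Complex.exp ((t : ℂ) * Complex.I)) =
      fderiv ℝ f (Complex.exp ((t : ℂ) * Complex.I)) 0 := by
    rw [map_zero]
    exact Prod.ext h0 h2
  have h4 := hf.imm _ (cb_memc t) h3
  exact mul_ne_zero Complex.I_ne_zero (Complex.exp_ne_zero _) h4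

theorem cb_bdsm {F : Type*} [NormedAddCommGroup F] [NormedSpace ℝ F] {f : ℂ → F}
    (hf : ∃ U : Set ℂ, IsOpen U ∧ closedBall (0 : ℂ) 1 ⊆ U ∧
      ContDiffOn ℝ ((⊤ : ℕ∞) : WithTop ℕ∞) f U) :
    ContDiff ℝ ((⊤ : ℕ∞) : WithTop ℕ∞)
      (fun s : ℝ => f (Complex.exp ((s : ℂ) * Complex.I))) := by
  obtain ⟨U, hU, hs, hd⟩ := hf
  rw [contDiff_iff_contDiffAt]
  intro t
  exact (hd.contDiffAt (hU.mem_nhds (hs (cb_memc t)))).comp t cb_smooth.contDiffAt

/-- The projected boundary curve is smooth. -/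
theorem bd_smooth (f : ℂ → ℂ × ℝ) (hf : OTd f) :
    ContDiff ℝ ((⊤ : ℕ∞) : WithTop ℕ∞)
      (fun s : ℝ => (f (Complex.exp ((s : ℂ) * Complex.I))).1) :=
  contDiff_fst.comp (cb_bdsm hf.smooth)

/-- If all inner vectors are not on the positive side: `g = cor φ ∘ f` with `φ` from `morse_dir` for
`ζ = deriv (fun s => (f (exp (s I))).1)`. (`bX g = Re (exp (φ I) * f.1)`, `bH g = - 2 Im`.) -/
theorem gd_of (f : ℂ → ℂ × ℝ) (hf : OTd f)
    (hin : ∀ p ∈ sphere (0 : ℂ) 1, ∀ u : ℂ, (starRingEnd ℂ p * u).re ≤ 0 →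
      stdB (f p) (fderiv ℝ f p u) ≤ 0) : ∃ g, Gd g := by
  have hs := bd_smooth f hf
  have hζ : ContDiff ℝ ((⊤ : ℕ∞) : WithTop ℕ∞)
      (deriv (fun s : ℝ => (f (Complex.exp ((s : ℂ) * Complex.I))).1)) :=
    (contDiff_infty_iff_deriv.1 hs).2
  obtain ⟨φ, hφ⟩ := morse_dir _ (hζ.of_le (by exact_mod_cast le_top)) (bd_ne f hf)
  have hd : ∀ p ∈ closedBall (0 : ℂ) 1, ∀ u, fderiv ℝ (fun z => cor φ (f z)) p u =
      fderiv ℝ (cor φ) (f p) (fderiv ℝ f p u) := by
    intro p hp u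
    have h1 := ((cor_has φ (f p)).differentiableAt.hasFDerivAt.comp p
      (OTd.diff hf hp).hasFDerivAt).fderiv
    have h2 : (fun z => cor φ (f z)) = cor φ ∘ f := rfl
    rw [h2, h1]
    rfl
  have hX : deriv (bX fun z => cor φ (f z)) = fun t =>
      (Complex.exp ((φ : ℂ) * Complex.I) *
        deriv (fun s : ℝ => (f (Complex.exp ((s : ℂ) * Complex.I))).1) t).re := by
    funext t
    have h1 := (coA φ).hasFDerivAt.comp_hasDerivAt t (cb_has hf t)
    rw [(cb_has1 hf t).deriv]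
    exact h1.deriv
  have hH : deriv (bH fun z => cor φ (f z)) = fun t =>
      -2 * (Complex.exp ((φ : ℂ) * Complex.I) *
        deriv (fun s : ℝ => (f (Complex.exp ((s : ℂ) * Complex.I))).1) t).im := by
    funext t
    have h1 := ((coB φ).hasFDerivAt.comp_hasDerivAt t (cb_has hf t)).const_mul (-2)
    rw [(cb_has1 hf t).deriv]
    exact h1.deriv
  refine ⟨fun z => cor φ (f z), ?_, ?_, ?_, ?_, ?_, ?_⟩
  · obtain ⟨U, hU, hsU, hdU⟩ := hf.smooth
    exact ⟨U, hU, hsU, (cor_smooth φ).comp_contDiffOn hdU⟩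
  · exact fun x hx y hy h => hf.inj hx hy (cor_inj φ h)
  · intro p hp u u' h
    rw [hd p hp, hd p hp] at h
    exact hf.imm p hp (cor_imm φ _ h)
  · intro p hp
    rw [hd p (sphere_subset_closedBall hp), cor_cE]
    exact cb_leg hf hp
  · intro p hp u hu
    rw [hd p (sphere_subset_closedBall hp), cor_cE]
    exact hin p hp u hu
  · intro t ht
    rw [hX] at ht ⊢
    rw [hH]
    refine ⟨?_, ?_⟩
    · have h1 : HasDerivAt (fun t => (Complex.exp ((φ : ℂ) * Complex.I) *
          deriv (fun s : ℝ => (f (Complex.exp ((s : ℂ) * Complex.I))).1) t).re)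
          (Complex.exp ((φ : ℂ) * Complex.I) *
            deriv (deriv (fun s : ℝ => (f (Complex.exp ((s : ℂ) * Complex.I))).1)) t).re t := by
        have h2 := ((hζ.differentiable (by simp)) t).hasDerivAt
        exact Complex.reCLM.hasFDerivAt.comp_hasDerivAt t
          (h2.const_mul (Complex.exp ((φ : ℂ) * Complex.I)))
      rw [h1.deriv]
      exact hφ t ht
    · intro h0
      have h3 : (Complex.exp ((φ : ℂ) * Complex.I) *
          deriv (fun s : ℝ => (f (Complex.exp ((s : ℂ) * Complex.I))).1) t) = 0 := by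
        apply Complex.ext
        · exact ht
        · simpa using h0
      exact (mul_ne_zero (Complex.exp_ne_zero _) (bd_ne f hf t)) h3

/-- decomposition of a vector at a point of the circle -/
theorem cb_dec {p : ℂ} (hp : p ∈ sphere (0 : ℂ) 1) (u : ℂ) :
    u = (starRingEnd ℂ p * u).re • p + (starRingEnd ℂ p * u).im • (Complex.I * p) := by
  rw [mem_sphere_zero_iff_norm] at hp
  have h1 : p * starRingEnd ℂ p = 1 := by
    rw [Complex.mul_conj, Complex.normSq_eq_norm_sq, hp]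
    norm_num
  have h2 := Complex.re_add_im (starRingEnd ℂ p * u)
  rw [Complex.real_smul, Complex.real_smul]
  calc u = p * starRingEnd ℂ p * u := by rw [h1, one_mul]
    _ = p * (starRingEnd ℂ p * u) := by ring
    _ = _ := by
      conv_lhs => rw [← h2]
      ring

theorem cb_val {f : ℂ → ℂ × ℝ} (hf : OTd f) {p : ℂ} (hp : p ∈ sphere (0 : ℂ) 1) (u : ℂ) :
    stdB (f p) (fderiv ℝ f p u) =
      (starRingEnd ℂ p * u).re * stdB (f p) (fderiv ℝ f p p) := by
  conv_lhs => rw [cb_dec hp u]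
  rw [map_add, map_smul, map_smul, cb_stdB_lin, cb_leg hf hp, mul_zero, add_zero]

/-- In the transverse case `stdB (f p) (fderiv ℝ f p p)` has constant sign on the circle (it is
continuous and not zero, because `stdB (f p) (fderiv ℝ f p (I * p)) = 0`; the circle is connected). -/
theorem sgn_const (f : ℂ → ℂ × ℝ) (hf : OTd f)
    (h : ∀ p ∈ sphere (0 : ℂ) 1, stdB (f p) (fderiv ℝ f p (Complex.I * p)) = 0 ∧
      ∃ u, stdB (f p) (fderiv ℝ f p u) ≠ 0) :
    (∀ p ∈ sphere (0 : ℂ) 1, 0 < stdB (f p) (fderiv ℝ f p p)) ∨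
      (∀ p ∈ sphere (0 : ℂ) 1, stdB (f p) (fderiv ℝ f p p) < 0) := by
  have hne : ∀ p ∈ sphere (0 : ℂ) 1, stdB (f p) (fderiv ℝ f p p) ≠ 0 := by
    intro p hp h0
    obtain ⟨u, hu⟩ := (h p hp).2
    exact hu (by rw [cb_val hf hp, h0, mul_zero])
  have hc1 : Continuous (fun t : ℝ => f (Complex.exp ((t : ℂ) * Complex.I))) :=
    (cb_bdsm hf.smooth).continuous
  have hc2 : Continuous (fun t : ℝ => fderiv ℝ f (Complex.exp ((t : ℂ) * Complex.I))) := by
    obtain ⟨U, hU, hs, hd⟩ := hf.smooth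
    rw [continuous_iff_continuousAt]
    intro t
    have h1 : ContinuousAt (fderiv ℝ f) (Complex.exp ((t : ℂ) * Complex.I)) :=
      (hd.continuousOn_fderiv_of_isOpen hU (by simp)).continuousAt (hU.mem_nhds (hs (cb_memc t)))
    exact ContinuousAt.comp (f := fun t : ℝ => Complex.exp ((t : ℂ) * Complex.I)) h1
      cb_smooth.continuous.continuousAt
  have hc3 : Continuous (fun t : ℝ => fderiv ℝ f (Complex.exp ((t : ℂ) * Complex.I))
      (Complex.exp ((t : ℂ) * Complex.I))) := hc2.clm_apply cb_smooth.continuous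
  have hc : Continuous (fun t : ℝ => stdB (f (Complex.exp ((t : ℂ) * Complex.I)))
      (fderiv ℝ f (Complex.exp ((t : ℂ) * Complex.I)) (Complex.exp ((t : ℂ) * Complex.I)))) := by
    have e : (fun t : ℝ => stdB (f (Complex.exp ((t : ℂ) * Complex.I)))
      (fderiv ℝ f (Complex.exp ((t : ℂ) * Complex.I)) (Complex.exp ((t : ℂ) * Complex.I)))) =
      fun t : ℝ => (fderiv ℝ f (Complex.exp ((t : ℂ) * Complex.I))
        (Complex.exp ((t : ℂ) * Complex.I))).2 +
        ((f (Complex.exp ((t : ℂ) * Complex.I))).1.re *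
          (fderiv ℝ f (Complex.exp ((t : ℂ) * Complex.I))
            (Complex.exp ((t : ℂ) * Complex.I))).1.im -
          (f (Complex.exp ((t : ℂ) * Complex.I))).1.im *
          (fderiv ℝ f (Complex.exp ((t : ℂ) * Complex.I))
            (Complex.exp ((t : ℂ) * Complex.I))).1.re) := rfl
    rw [e]
    exact hc3.snd.add (((Complex.continuous_re.comp hc1.fst).mul
      (Complex.continuous_im.comp hc3.fst)).sub ((Complex.continuous_im.comp hc1.fst).mul
      (Complex.continuous_re.comp hc3.fst)))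
  by_contra hn
  push Not at hn
  obtain ⟨⟨p, hp, hp1⟩, q, hq, hq1⟩ := hn
  obtain ⟨a, rfl⟩ := cb_arg hp
  obtain ⟨b, rfl⟩ := cb_arg hq
  obtain ⟨t, ht⟩ := mem_range_of_exists_le_of_exists_ge hc ⟨a, hp1⟩ ⟨b, hq1⟩
  exact hne _ (cb_mem t) ht

/-- Every overtwisted disc gives a good map. (`u = a p + b (I p)`, `a = Re (conj p * u) ≤ 0`; if the
sign in `sgn_const` is negative, replace `f` by `mir ∘ f`.) -/
theorem exists_gd (f : ℂ → ℂ × ℝ) (hf : OTd f) : ∃ g, Gd g := by
  rcases hf.bd with h | h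
  · exact gd_of f hf fun p hp u _ => (h p hp u).le
  · rcases sgn_const f hf h with h1 | h1
    · refine gd_of f hf fun p hp u hu => ?_
      rw [cb_val hf hp]
      exact mul_nonpos_of_nonpos_of_nonneg hu (h1 p hp).le
    · refine gd_of (fun z => mir (f z)) (mir_OTd f hf) fun p hp u hu => ?_
      rw [mir_deriv f p (OTd.diff hf (sphere_subset_closedBall hp)), mir_stdB, cb_val hf hp]
      have := mul_nonneg_of_nonpos_of_nonpos hu (h1 p hp).le
      linarith

end Pool.Agent.Lib.MP_ca0971_gt.OT.Sm
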