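import Pool.Agent.Lib.MP_ca0971_gt.OT.TopDefs

/-!
# Project OT, smooth part: definitions (helper68)

* `Gd g` = a good map of the disc into `E` (contact form `dZ + h dX`), `bdc g` its boundary curve;
* `Cn`, `SCn`, `SH`, `Ds` = the robust (open) forms of the conditions of `Chain`;
* `Adm`, `Flat` = quantitative properties of `g` in the coordinate `z`, resp. `ζ` with `z = exp ζ`;
* `Prt m θ` = quasi-uniform partition of the circle with `m` points.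
-/

set_option autoImplicit false

namespace Pool.Agent.Lib.MP_ca0971_gt.OT.Sm

open Set Metric Filter Topology

/-- The contact form `dZ - Y dX = dZ + h dX` at the point `p`, on the vector `u`. -/
def cE (p u : E) : ℝ := u.1.im + p.2 * u.1.re

/-- The unit vector of the `Z`-axis. -/
def eZ : E := (Complex.I, 0)

/-- Boundary curve of `g`. -/
noncomputable def bdc (g : ℂ → E) (t : ℝ) : E := g (Complex.exp ((t : ℂ) * Complex.I))

/-- `X`-coordinate of the boundary curve. -/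
noncomputable def bX (g : ℂ → E) (t : ℝ) : ℝ := (bdc g t).1.re

/-- `Z`-coordinate of the boundary curve. -/
noncomputable def bZ (g : ℂ → E) (t : ℝ) : ℝ := (bdc g t).1.im

/-- Height of the boundary curve. -/
noncomputable def bH (g : ℂ → E) (t : ℝ) : ℝ := (bdc g t).2

/-- A good map of the closed unit disc: embedding with Legendrian boundary; at the boundary all
vectors which point inside (or are tangent) are not on the positive side of the contact planes; the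
`X`-coordinate of the boundary curve is a Morse function and the height moves at its critical points. -/
structure Gd (g : ℂ → E) : Prop where
  smooth : ∃ U : Set ℂ, IsOpen U ∧ closedBall (0 : ℂ) 1 ⊆ U ∧
    ContDiffOn ℝ ((⊤ : ℕ∞) : WithTop ℕ∞) g U
  inj : InjOn g (closedBall (0 : ℂ) 1)
  imm : ∀ p ∈ closedBall (0 : ℂ) 1, Function.Injective (fderiv ℝ g p)
  leg : ∀ p ∈ sphere (0 : ℂ) 1, cE (g p) (fderiv ℝ g p (Complex.I * p)) = 0
  inw : ∀ p ∈ sphere (0 : ℂ) 1, ∀ u : ℂ, (starRingEnd ℂ p * u).re ≤ 0 →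
    cE (g p) (fderiv ℝ g p u) ≤ 0
  mor : ∀ t : ℝ, deriv (bX g) t = 0 → deriv (deriv (bX g)) t ≠ 0 ∧ deriv (bH g) t ≠ 0

/-- Quasi-uniform partition of the circle. -/
structure Prt (m : ℕ) (θ : ℤ → ℝ) : Prop where
  per : ∀ k, θ (k + m) = θ k + 2 * Real.pi
  lo : ∀ k, Real.pi / m ≤ θ (k + 1) - θ k
  hi : ∀ k, θ (k + 1) - θ k ≤ 3 * (Real.pi / m)

/-! ### Robust conditions -/

/-- Robust form of: the segment `[D, v]` meets the triangle `v P Q` only in `v`. -/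
def Cn (v P Q D : E) : Prop := ∀ a b c : ℝ, 0 ≤ a → 0 ≤ b → 0 ≤ c →
  a • (P - v) + b • (Q - v) - c • (D - v) = 0 → a = 0 ∧ b = 0 ∧ c = 0

/-- The same for the segment shifted by a positive multiple of `eZ`. -/
def SCn (v P Q D : E) : Prop := ∀ a b c t : ℝ, 0 ≤ a → 0 ≤ b → 0 ≤ c → 0 ≤ t →
  a • (P - v) + b • (Q - v) - c • (D - v) - t • eZ = 0 → a = 0 ∧ b = 0 ∧ c = 0 ∧ t = 0

/-- The same for the shifted edge `[v, P]` of the triangle `v P Q`. -/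
def SH (v P Q : E) : Prop := ∀ a b t : ℝ, 0 ≤ b → 0 ≤ t →
  a • (P - v) + b • (Q - v) - t • eZ = 0 → a = 0 ∧ b = 0 ∧ t = 0

/-- The segment `[D, D']` is disjoint from the triangle `P Q R`. -/
def Ds (P Q R D D' : E) : Prop := Disjoint (segment ℝ D D') (convexHull ℝ {P, Q, R})

/-! ### Quantitative properties -/

/-- Quantitative embedding in the coordinate `z`. -/
structure Adm (c M : ℝ) (g : ℂ → E) (g' : ℂ → (ℂ →L[ℝ] E)) : Prop where
  lo : ∀ z ∈ closedBall (0 : ℂ) 1, ∀ w ∈ closedBall (0 : ℂ) 1, c * ‖z - w‖ ≤ ‖g z - g w‖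
  ty : ∀ z ∈ closedBall (0 : ℂ) 1, ∀ w ∈ closedBall (0 : ℂ) 1,
    ‖g z - g w - g' w (z - w)‖ ≤ M * ‖z - w‖ ^ 2
  up : ∀ w ∈ closedBall (0 : ℂ) 1, ‖g' w‖ ≤ M

/-- Quantitative form of `Gd.inw`. -/
def AdmS (c : ℝ) (g' : ℂ → (ℂ →L[ℝ] E)) : Prop :=
  ∀ p ∈ sphere (0 : ℂ) 1, ∀ u : ℂ, (starRingEnd ℂ p * u).re ≤ 0 → ∀ t : ℝ, 0 ≤ t →
    c * (‖u‖ + t) ≤ ‖g' p u - t • eZ‖

/-- Quantitative embedding in the coordinate `ζ`, `z = exp ζ`, on `-1 ≤ Re ζ ≤ 0`. -/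
structure Flat (c M : ℝ) (G : ℂ → E) (G' : ℂ → (ℂ →L[ℝ] E)) : Prop where
  lo : ∀ z w : ℂ, z.re ∈ Icc (-1 : ℝ) 0 → w.re ∈ Icc (-1 : ℝ) 0 → |z.im - w.im| ≤ Real.pi →
    c * ‖z - w‖ ≤ ‖G z - G w‖
  ty : ∀ z w : ℂ, z.re ∈ Icc (-1 : ℝ) 0 → w.re ∈ Icc (-1 : ℝ) 0 → ‖z - w‖ ≤ 1 →
    ‖G z - G w - G' w (z - w)‖ ≤ M * ‖z - w‖ ^ 2
  dlo : ∀ w : ℂ, w.re ∈ Icc (-1 : ℝ) 0 → ∀ u : ℂ, c * ‖u‖ ≤ ‖G' w u‖
  per : ∀ z, G (z + 2 * Real.pi * Complex.I) = G z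

/-- Quantitative form of `Gd.inw` in the coordinate `ζ`. -/
def FlatS (c : ℝ) (G' : ℂ → (ℂ →L[ℝ] E)) : Prop :=
  ∀ w : ℂ, w.re = 0 → ∀ u : ℂ, u.re ≤ 0 → ∀ t : ℝ, 0 ≤ t → c * (‖u‖ + t) ≤ ‖G' w u - t • eZ‖

end Pool.Agent.Lib.MP_ca0971_gt.OT.Sm
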