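import Pool.Agent.Lib.MP_ca0971_gt.OT.Sm.Def

set_option autoImplicit false

namespace Pool.Agent.Lib.MP_ca0971_gt.OT.Sm

open Set Metric Filter Topology

/-- A point of a triangle. -/
theorem dpa_mem_tri {P Q R v : E} (h : v ∈ convexHull ℝ ({P, Q, R} : Set E)) :
    ∃ a b c : ℝ, 0 ≤ a ∧ 0 ≤ b ∧ 0 ≤ c ∧ a + b + c = 1 ∧ v = a • P + b • Q + c • R := by
  rw [convexHull_insert (by simp), mem_convexJoin] at h
  obtain ⟨x, hx, y, hy, hv⟩ := h
  rw [mem_singleton_iff] at hx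
  subst hx
  rw [convexHull_pair] at hy
  obtain ⟨c, d, hc, hd, hcd, rfl⟩ := hy
  obtain ⟨a, b, ha, hb, hab, rfl⟩ := hv
  refine ⟨a, b * c, b * d, ha, mul_nonneg hb hc, mul_nonneg hb hd, ?_, ?_⟩
  · have : a + b * c + b * d = a + b * (c + d) := by ring
    rw [this, hcd, mul_one, hab]
  · rw [smul_add, smul_smul, smul_smul, add_assoc]

/-- Taylor estimate for a convex combination of three points. -/
theorem dpa_tri {c M : ℝ} {g : ℂ → E} {g' : ℂ → (ℂ →L[ℝ] E)} (hA : Adm c M g g') (hM : 0 < M)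
    {r : ℝ} {z1 z2 z3 x : ℂ} (h1 : z1 ∈ closedBall (0 : ℂ) 1) (h2 : z2 ∈ closedBall (0 : ℂ) 1)
    (h3 : z3 ∈ closedBall (0 : ℂ) 1) (hx : x ∈ closedBall (0 : ℂ) 1) {a b d : ℝ} (ha : 0 ≤ a)
    (hb : 0 ≤ b) (hd : 0 ≤ d) (hs : a + b + d = 1) (hxe : x = a • z1 + b • z2 + d • z3)
    (r1 : ‖z1 - x‖ ≤ r) (r2 : ‖z2 - x‖ ≤ r) (r3 : ‖z3 - x‖ ≤ r) :
    ‖(a • g z1 + b • g z2 + d • g z3) - g x‖ ≤ M * r ^ 2 := by
  have e1 : a • (z1 - x) + b • (z2 - x) + d • (z3 - x) = 0 := by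
    have : a • (z1 - x) + b • (z2 - x) + d • (z3 - x)
        = (a • z1 + b • z2 + d • z3) - (a + b + d) • x := by
      rw [add_smul, add_smul, smul_sub, smul_sub, smul_sub]
      abel
    rw [this, hs, one_smul, ← hxe, sub_self]
  have e2 : a • (g' x (z1 - x)) + b • (g' x (z2 - x)) + d • (g' x (z3 - x)) = 0 := by
    rw [← map_smul, ← map_smul, ← map_smul, ← map_add, ← map_add, e1, map_zero]
  have e3 : (a • g z1 + b • g z2 + d • g z3) - g x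
      = a • (g z1 - g x - g' x (z1 - x)) + b • (g z2 - g x - g' x (z2 - x))
        + d • (g z3 - g x - g' x (z3 - x)) := by
    have h4 : a • (g z1 - g x - g' x (z1 - x)) + b • (g z2 - g x - g' x (z2 - x))
        + d • (g z3 - g x - g' x (z3 - x))
        = (a • g z1 + b • g z2 + d • g z3) - (a + b + d) • g x
          - (a • (g' x (z1 - x)) + b • (g' x (z2 - x)) + d • (g' x (z3 - x))) := by
      rw [add_smul, add_smul]
      simp only [smul_sub]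
      abel
    rw [h4, hs, one_smul, e2, sub_zero]
  have hb1 : ∀ z ∈ closedBall (0 : ℂ) 1, ‖z - x‖ ≤ r → ‖g z - g x - g' x (z - x)‖ ≤ M * r ^ 2 := by
    intro z hz hzr
    refine (hA.ty z hz x hx).trans ?_
    exact mul_le_mul_of_nonneg_left (pow_le_pow_left₀ (norm_nonneg _) hzr 2) hM.le
  rw [e3]
  calc ‖a • (g z1 - g x - g' x (z1 - x)) + b • (g z2 - g x - g' x (z2 - x))
        + d • (g z3 - g x - g' x (z3 - x))‖
      ≤ a * (M * r ^ 2) + b * (M * r ^ 2) + d * (M * r ^ 2) := by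
        refine (norm_add₃_le).trans ?_
        rw [norm_smul, norm_smul, norm_smul, Real.norm_of_nonneg ha, Real.norm_of_nonneg hb,
          Real.norm_of_nonneg hd]
        exact add_le_add (add_le_add (mul_le_mul_of_nonneg_left (hb1 z1 h1 r1) ha)
          (mul_le_mul_of_nonneg_left (hb1 z2 h2 r2) hb))
          (mul_le_mul_of_nonneg_left (hb1 z3 h3 r3) hd)
    _ = (a + b + d) * (M * r ^ 2) := by ring
    _ = M * r ^ 2 := by rw [hs, one_mul]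

/-- distance to a convex combination -/
theorem dpa_dist {z1 z2 z3 w : ℂ} {a b d r : ℝ} (ha : 0 ≤ a) (hb : 0 ≤ b) (hd : 0 ≤ d)
    (hs : a + b + d = 1) (r1 : ‖w - z1‖ ≤ r) (r2 : ‖w - z2‖ ≤ r) (r3 : ‖w - z3‖ ≤ r) :
    ‖w - (a • z1 + b • z2 + d • z3)‖ ≤ r := by
  have h : w - (a • z1 + b • z2 + d • z3) = a • (w - z1) + b • (w - z2) + d • (w - z3) := by
    have h1 : a • (w - z1) + b • (w - z2) + d • (w - z3)
        = (a + b + d) • w - (a • z1 + b • z2 + d • z3) := by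
      rw [add_smul, add_smul, smul_sub, smul_sub, smul_sub]
      abel
    rw [h1, hs, one_smul]
  rw [h]
  refine (norm_add₃_le).trans ?_
  rw [norm_smul, norm_smul, norm_smul, Real.norm_of_nonneg ha, Real.norm_of_nonneg hb,
    Real.norm_of_nonneg hd]
  calc a * ‖w - z1‖ + b * ‖w - z2‖ + d * ‖w - z3‖ ≤ a * r + b * r + d * r :=
        add_le_add (add_le_add (mul_le_mul_of_nonneg_left r1 ha)
          (mul_le_mul_of_nonneg_left r2 hb)) (mul_le_mul_of_nonneg_left r3 hd)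
    _ = (a + b + d) * r := by ring
    _ = r := by rw [hs, one_mul]

/-- the chord is close to the circle -/
theorem dpa_chord {p p' : ℂ} (hp : ‖p‖ = 1) (hp' : ‖p'‖ = 1) {a b r : ℝ} (ha : 0 ≤ a)
    (hb : 0 ≤ b) (hab : a + b = 1) (hr : ‖p - p'‖ ≤ r) :
    ‖a • p + b • p'‖ ≤ 1 ∧ 1 - r ^ 2 / 4 ≤ ‖a • p + b • p'‖ := by
  have h1 : ‖a • p + b • p'‖ ≤ 1 := by
    refine (norm_add_le _ _).trans ?_
    rw [norm_smul, norm_smul, hp, hp', Real.norm_of_nonneg ha, Real.norm_of_nonneg hb]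
    linarith
  refine ⟨h1, ?_⟩
  have h2 : ‖a • p + b • p'‖ ^ 2 = 1 - a * b * ‖p - p'‖ ^ 2 := by
    have e1 : ‖p‖ ^ 2 = 1 := by rw [hp, one_pow]
    have e2 : ‖p'‖ ^ 2 = 1 := by rw [hp', one_pow]
    have hb' : b = 1 - a := by linarith
    rw [Complex.sq_norm, Complex.normSq_apply] at e1 e2 ⊢
    rw [Complex.sq_norm, Complex.normSq_apply]
    simp only [Complex.add_re, Complex.add_im, Complex.real_smul, Complex.re_ofReal_mul,
      Complex.im_ofReal_mul, Complex.sub_re, Complex.sub_im]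
    subst hb'
    linear_combination a * e1 + (1 - a) * e2
  have h3 : a * b ≤ 1 / 4 := by nlinarith [sq_nonneg (a - b)]
  have h4 : a * b * ‖p - p'‖ ^ 2 ≤ r ^ 2 / 4 := by
    have h5 : ‖p - p'‖ ^ 2 ≤ r ^ 2 := pow_le_pow_left₀ (norm_nonneg _) hr 2
    have h6 : 0 ≤ ‖p - p'‖ ^ 2 := sq_nonneg _
    nlinarith [mul_nonneg ha hb]
  have h7 : 0 ≤ ‖a • p + b • p'‖ := norm_nonneg _
  nlinarith

/-- Triangles with vertices `|z| ≤ exp (- δ)` and diameter `≤ 4 δ` are disjoint from the chords with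
end points on the circle at distance `≤ 3 δ`. (Points `x = Σ λ_i z_i`, `y = (1 - t) p + t p'`:
`|x| ≤ exp (-δ) ≤ 1 - δ / 2`, `|y| ≥ 1 - 9 δ² / 4`, so `|x - y| ≥ δ / 4`; the images are
`M (4 δ)²`-close to `g x`, `g y` by Taylor; `c δ / 4 > 32 M δ²`.) -/
theorem deep (c M : ℝ) (hc : 0 < c) (hM : 0 < M) : ∃ δ0 : ℝ, 0 < δ0 ∧ ∀ (g : ℂ → E)
    (g' : ℂ → (ℂ →L[ℝ] E)), Adm c M g g' → ∀ δ : ℝ, 0 < δ → δ ≤ δ0 → ∀ z1 z2 z3 p p' : ℂ,
      ‖z1‖ ≤ Real.exp (-δ) → ‖z2‖ ≤ Real.exp (-δ) → ‖z3‖ ≤ Real.exp (-δ) →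
      ‖z1 - z2‖ ≤ 4 * δ → ‖z1 - z3‖ ≤ 4 * δ → ‖z2 - z3‖ ≤ 4 * δ →
      ‖p‖ = 1 → ‖p'‖ = 1 → ‖p - p'‖ ≤ 3 * δ → Ds (g z1) (g z2) (g z3) (g p) (g p') := by
  refine ⟨min (1 / 9) (c / (256 * M)), lt_min (by norm_num) (by positivity), ?_⟩
  intro g g' hA δ hδ hδ0 z1 z2 z3 p p' n1 n2 n3 d12 d13 d23 hp hp' hpp
  have hδ9 : δ ≤ 1 / 9 := hδ0.trans (min_le_left _ _)
  have hδc : δ ≤ c / (256 * M) := hδ0.trans (min_le_right _ _)
  have hexp : Real.exp (-δ) ≤ 1 - δ / 2 := by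
    have h1 : Real.exp (-δ) * Real.exp δ = 1 := by
      rw [← Real.exp_add, neg_add_cancel, Real.exp_zero]
    have h2 : 1 + δ ≤ Real.exp δ := by
      have := Real.add_one_le_exp δ
      linarith
    have h3 : 0 < Real.exp (-δ) := Real.exp_pos _
    have h4 : Real.exp (-δ) * (1 + δ) ≤ 1 := by
      calc Real.exp (-δ) * (1 + δ) ≤ Real.exp (-δ) * Real.exp δ :=
            mul_le_mul_of_nonneg_left h2 h3.le
        _ = 1 := h1
    nlinarith
  have hexp1 : Real.exp (-δ) ≤ 1 := by linarith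
  unfold Ds
  rw [Set.disjoint_left]
  rintro v ⟨a, b, ha, hb, hab, rfl⟩ hv
  obtain ⟨l1, l2, l3, hl1, hl2, hl3, hl, hv⟩ := dpa_mem_tri hv
  set x : ℂ := l1 • z1 + l2 • z2 + l3 • z3 with hx
  set y : ℂ := a • p + b • p' with hy
  have hxn : ‖x‖ ≤ Real.exp (-δ) := by
    have := dpa_dist (w := 0) (r := Real.exp (-δ)) hl1 hl2 hl3 hl
      (by rw [zero_sub, norm_neg]; exact n1) (by rw [zero_sub, norm_neg]; exact n2)
      (by rw [zero_sub, norm_neg]; exact n3)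
    rwa [zero_sub, norm_neg] at this
  have hB : ∀ z : ℂ, ‖z‖ ≤ Real.exp (-δ) → z ∈ closedBall (0 : ℂ) 1 := fun z hz => by
    rw [mem_closedBall_zero_iff]
    exact hz.trans hexp1
  have hpB : p ∈ closedBall (0 : ℂ) 1 := by rw [mem_closedBall_zero_iff, hp]
  have hpB' : p' ∈ closedBall (0 : ℂ) 1 := by rw [mem_closedBall_zero_iff, hp']
  obtain ⟨hy1, hy2⟩ := dpa_chord hp hp' ha hb hab hpp
  have hyB : y ∈ closedBall (0 : ℂ) 1 := by
    rw [mem_closedBall_zero_iff]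
    exact hy1
  have z0 : ∀ z : ℂ, ‖z - z‖ ≤ 4 * δ := fun z => by
    rw [sub_self, norm_zero]
    positivity
  have t1 := dpa_tri hA hM (hB z1 n1) (hB z2 n2) (hB z3 n3) (hB x hxn) hl1 hl2 hl3 hl hx
    (r := 4 * δ) (dpa_dist hl1 hl2 hl3 hl (z0 z1) d12 d13)
    (dpa_dist hl1 hl2 hl3 hl (by rw [norm_sub_rev]; exact d12) (z0 z2) d23)
    (dpa_dist hl1 hl2 hl3 hl (by rw [norm_sub_rev]; exact d13)
      (by rw [norm_sub_rev]; exact d23) (z0 z3))
  have hab0 : a + b + 0 = 1 := by rw [add_zero]; exact hab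
  have hy0 : y = a • p + b • p' + (0 : ℝ) • p' := by rw [hy, zero_smul, add_zero]
  have w0 : ∀ z : ℂ, ‖z - z‖ ≤ 3 * δ := fun z => by
    rw [sub_self, norm_zero]
    positivity
  have hpp' : ‖p' - p‖ ≤ 3 * δ := by rw [norm_sub_rev]; exact hpp
  have t2 := dpa_tri hA hM hpB hpB' hpB' hyB ha hb le_rfl hab0 hy0 (r := 3 * δ)
    (by rw [hy0]; exact dpa_dist ha hb le_rfl hab0 (w0 p) hpp hpp)
    (by rw [hy0]; exact dpa_dist ha hb le_rfl hab0 hpp' (w0 p') (w0 p'))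
    (by rw [hy0]; exact dpa_dist ha hb le_rfl hab0 hpp' (w0 p') (w0 p'))
  rw [zero_smul, add_zero] at t2
  have t3 : ‖g x - g y‖ ≤ 25 * M * δ ^ 2 := by
    have h1 : g x - g y = ((a • g p + b • g p') - g y)
        - ((l1 • g z1 + l2 • g z2 + l3 • g z3) - g x) := by
      rw [← hv]
      abel
    rw [h1]
    refine (norm_sub_le _ _).trans ?_
    nlinarith
  have t4 := hA.lo x (hB x hxn) y hyB
  have t5 : δ / 4 ≤ ‖x - y‖ := by
    have h1 : ‖y‖ - ‖x‖ ≤ ‖x - y‖ := by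
      rw [norm_sub_rev]
      exact norm_sub_norm_le y x
    nlinarith
  have t6 : c * (δ / 4) ≤ 25 * M * δ ^ 2 :=
    (mul_le_mul_of_nonneg_left t5 hc.le).trans (t4.trans t3)
  have t7 : δ * (256 * M) ≤ c := by
    rwa [le_div_iff₀ (by positivity)] at hδc
  nlinarith [mul_pos hδ hM, mul_pos hδ hδ, mul_pos (mul_pos hδ hδ) hM]

/-- `|exp z - exp w| ≤ |z - w|` for `Re ≤ 0`. -/
theorem exp_hi (z w : ℂ) (hz : z.re ≤ 0) (hw : w.re ≤ 0) :
    ‖Complex.exp z - Complex.exp w‖ ≤ ‖z - w‖ := by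
  have h := Convex.norm_image_sub_le_of_norm_deriv_le (𝕜 := ℂ) (f := Complex.exp) (C := 1)
    (s := {z : ℂ | z.re ≤ 0}) (x := w) (y := z)
    (fun x _ => Complex.differentiable_exp x)
    (fun x hx => by
      rw [Complex.deriv_exp, Complex.norm_exp]
      exact Real.exp_le_one_iff.2 hx) (convex_halfSpace_re_le 0) hw hz
  rwa [one_mul] at h

end Pool.Agent.Lib.MP_ca0971_gt.OT.Sm
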