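import Pool.Agent.Lib.MP_ca0971_gt.OT.Sm.Fz
import Pool.Agent.Lib.MP_ca0971_gt.OT.Sm.OpenA

set_option autoImplicit false

namespace Pool.Agent.Lib.MP_ca0971_gt.OT.Sm

open Set Metric Filter Topology

/-- Orientation of three points of the unit circle:
`det (e^{iβ} - e^{iα}, e^{iγ} - e^{iα}) = 4 sin ((β - α)/2) sin ((γ - α)/2) sin ((γ - β)/2)`. -/
theorem circ_det (α β γ : ℝ) :
    dt (Complex.exp (β * Complex.I) - Complex.exp (α * Complex.I))
      (Complex.exp (γ * Complex.I) - Complex.exp (α * Complex.I)) =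
      4 * Real.sin ((β - α) / 2) * Real.sin ((γ - α) / 2) * Real.sin ((γ - β) / 2) := by
  simp only [dt, Complex.sub_re, Complex.sub_im, Complex.exp_ofReal_mul_I_re,
    Complex.exp_ofReal_mul_I_im]
  have e : Real.sin ((γ - β) / 2) = Real.sin ((γ + α) / 2) * Real.cos ((β + α) / 2) -
      Real.cos ((γ + α) / 2) * Real.sin ((β + α) / 2) := by
    rw [← Real.sin_sub]
    congr 1
    ring
  rw [Real.cos_sub_cos, Real.cos_sub_cos, Real.sin_sub_sin, Real.sin_sub_sin, e]
  ring

/-- Positive orientation of three consecutive points of the circle. -/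
theorem fanA_pos {α β γ : ℝ} (h1 : α < β) (h2 : β < γ) (h3 : γ < α + 2 * Real.pi) :
    0 < dt (Complex.exp (β * Complex.I) - Complex.exp (α * Complex.I))
      (Complex.exp (γ * Complex.I) - Complex.exp (α * Complex.I)) := by
  rw [circ_det]
  have s1 : 0 < Real.sin ((β - α) / 2) := Real.sin_pos_of_pos_of_lt_pi (by linarith) (by linarith)
  have s2 : 0 < Real.sin ((γ - α) / 2) := Real.sin_pos_of_pos_of_lt_pi (by linarith) (by linarith)
  have s3 : 0 < Real.sin ((γ - β) / 2) := Real.sin_pos_of_pos_of_lt_pi (by linarith) (by linarith)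
  positivity

theorem fanA_dt_add (x a b : ℂ) : dt x (a + b) = dt x a + dt x b := by
  simp only [dt, Complex.add_re, Complex.add_im]
  ring

theorem fanA_dt_sub (x a b : ℂ) : dt x (a - b) = dt x a - dt x b := by
  simp only [dt, Complex.sub_re, Complex.sub_im]
  ring

theorem fanA_dt_smul (x a : ℂ) (r : ℝ) : dt x (r • a) = r * dt x a := by
  simp only [dt, Complex.real_smul, Complex.re_ofReal_mul, Complex.im_ofReal_mul]
  ring

theorem fanA_dt_self (x : ℂ) : dt x x = 0 := by
  simp only [dt]
  ring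

/-- A cone condition in the plane gives the cone condition in space. -/
theorem fanA_cn (A : ℂ →L[ℝ] E) (hA : Function.Injective A) (v P Q D : ℂ)
    (h : (0 < dt (D - v) (P - v) ∧ 0 < dt (D - v) (Q - v)) ∨
      (dt (D - v) (P - v) < 0 ∧ dt (D - v) (Q - v) < 0)) : Cn (A v) (A P) (A Q) (A D) := by
  intro a b c ha hb hc h0
  have h1 : A (a • (P - v) + b • (Q - v) - c • (D - v)) = A 0 := by
    rw [map_zero, ← h0]
    simp only [map_sub, map_add, map_smul]
  have h2 : a • (P - v) + b • (Q - v) - c • (D - v) = 0 := hA h1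
  have h3 := congrArg (dt (D - v)) h2
  rw [fanA_dt_sub, fanA_dt_add, fanA_dt_smul, fanA_dt_smul, fanA_dt_smul, fanA_dt_self] at h3
  have h4 : dt (D - v) 0 = 0 := by simp [dt]
  rw [h4, mul_zero, sub_zero] at h3
  have hab : a = 0 ∧ b = 0 := by
    rcases h with ⟨p, q⟩ | ⟨p, q⟩
    · have h5 := mul_nonneg ha p.le
      have h6 := mul_nonneg hb q.le
      constructor
      · by_contra hne
        have := mul_pos (lt_of_le_of_ne ha (Ne.symm hne)) p
        linarith
      · by_contra hne
        have := mul_pos (lt_of_le_of_ne hb (Ne.symm hne)) q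
        linarith
    · have h5 := mul_nonneg ha (neg_pos.2 p).le
      have h6 := mul_nonneg hb (neg_pos.2 q).le
      constructor
      · by_contra hne
        have := mul_pos (lt_of_le_of_ne ha (Ne.symm hne)) (neg_pos.2 p)
        linarith
      · by_contra hne
        have := mul_pos (lt_of_le_of_ne hb (Ne.symm hne)) (neg_pos.2 q)
        linarith
  refine ⟨hab.1, hab.2, ?_⟩
  rw [hab.1, hab.2, zero_smul, zero_smul, add_zero, zero_sub, neg_eq_zero, smul_eq_zero] at h2
  rcases h2 with h2 | h2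
  · exact h2
  · rw [h2] at h
    simp [dt] at h

/-- A separating line through `P` and `R` in the plane. -/
theorem fanA_ds (A : ℂ →L[ℝ] E) (hA : Function.Injective A) (P Q R D D' : ℂ)
    (hQ : 0 ≤ dt (P - R) (Q - R)) (hD : dt (P - R) (D - R) < 0) (hD' : dt (P - R) (D' - R) < 0) :
    Ds (A P) (A Q) (A R) (A D) (A D') := by
  have hseg : segment ℝ (A D) (A D') = A '' segment ℝ D D' :=
    (image_segment ℝ (A : ℂ →ₗ[ℝ] E).toAffineMap D D').symm
  have htri : convexHull ℝ ({A P, A Q, A R} : Set E) = A '' convexHull ℝ ({P, Q, R} : Set ℂ) := by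
    have h1 := (A : ℂ →ₗ[ℝ] E).image_convexHull ({P, Q, R} : Set ℂ)
    rw [image_insert_eq, image_pair] at h1
    exact h1.symm
  unfold Ds
  rw [hseg, htri, Set.disjoint_image_iff hA]
  have hlin : IsLinearMap ℝ (fun x : ℂ => dt (P - R) x) :=
    ⟨fanA_dt_add _, fun r x => fanA_dt_smul _ _ _⟩
  have c1 : segment ℝ D D' ⊆ {x | dt (P - R) x < dt (P - R) R} := by
    refine (convex_halfSpace_lt hlin _).segment_subset ?_ ?_
    · rw [fanA_dt_sub] at hD
      exact sub_neg.1 hD
    · rw [fanA_dt_sub] at hD'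
      exact sub_neg.1 hD'
  have c2 : convexHull ℝ ({P, Q, R} : Set ℂ) ⊆ {x | dt (P - R) R ≤ dt (P - R) x} := by
    refine convexHull_min ?_ (convex_halfSpace_ge hlin _)
    rintro x (rfl | rfl | rfl)
    · have h1 := fanA_dt_self (x - R)
      rw [fanA_dt_sub] at h1
      exact (sub_eq_zero.1 h1).symm.le
    · rw [fanA_dt_sub] at hQ
      exact sub_nonneg.1 hQ
    · exact le_refl (dt (P - x) x)
  rw [Set.disjoint_left]
  intro x hx hx'
  have h1 : dt (P - R) x < dt (P - R) R := c1 hx
  have h2 : dt (P - R) R ≤ dt (P - R) x := c2 hx'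
  exact absurd (lt_of_le_of_lt h2 h1) (lt_irrefl _)

/-- The fan conditions for the points `e^{iθ_k}` of the plane: the line through `v 0` and `v (k - 1)`
has `v k` on one side and all `v i`, `0 < i < k - 1`, on the other side. -/
theorem fan_plane (m : ℕ) (hm : 5 ≤ m) (θ : ℤ → ℝ) (h : Prt m θ) (A : ℂ →L[ℝ] E)
    (hA : Function.Injective A) (T : ℕ) :
    Fan T m (fun _ k => A (Complex.exp ((θ k : ℂ) * Complex.I))) := by
  have hmono : StrictMono θ := by
    refine strictMono_int_of_lt_succ fun k => ?_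
    have h1 := h.lo k
    have h2 : 0 < Real.pi / m := div_pos Real.pi_pos (by exact_mod_cast (by omega : 0 < m))
    linarith
  have hlt : ∀ i j : ℤ, j < i + m → θ j < θ i + 2 * Real.pi := fun i j hij => by
    rw [← h.per i]
    exact hmono hij
  have anti : ∀ x y z : ℂ, dt (y - x) (z - x) = - dt (x - y) (z - y) := fun x y z => by
    simp only [dt, Complex.sub_re, Complex.sub_im]
    ring
  have cyc : ∀ x y z : ℂ, dt (y - x) (z - x) = dt (z - y) (x - y) := fun x y z => by
    simp only [dt, Complex.sub_re, Complex.sub_im]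
    ring
  constructor
  · intro k hk hkm
    refine fanA_cn A hA _ _ _ _ (Or.inl ⟨?_, ?_⟩)
    · exact fanA_pos (hmono (by omega)) (hmono (by omega)) (hlt _ _ (by omega))
    · exact fanA_pos (hmono (by omega)) (hmono (by omega)) (hlt _ _ (by omega))
  · intro k hk hkm
    refine fanA_cn A hA _ _ _ _ (Or.inr ⟨?_, ?_⟩)
    · rw [anti, neg_lt_zero]
      exact fanA_pos (hmono (by omega)) (hmono (by omega)) (hlt _ _ (by omega))
    · rw [anti, neg_lt_zero, cyc, cyc]
      exact fanA_pos (hmono (by omega)) (hmono (by omega)) (hlt _ _ (by omega))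
  · intro k hk hkm i hi hik
    refine fanA_ds A hA _ _ _ _ _ ?_ ?_ ?_
    · exact (fanA_pos (hmono (by omega)) (hmono (by omega)) (hlt _ _ (by omega))).le
    · rw [cyc, cyc, anti, neg_lt_zero]
      exact fanA_pos (hmono (by omega)) (hmono (by omega)) (hlt _ _ (by omega))
    · rw [cyc, cyc, anti, neg_lt_zero]
      exact fanA_pos (hmono (by omega)) (hmono (by omega)) (hlt _ _ (by omega))

end Pool.Agent.Lib.MP_ca0971_gt.OT.Sm
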