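import Pool.Agent.Lib.MP_ca0971_gt.OT.Sm.Def

set_option autoImplicit false

namespace Pool.Agent.Lib.MP_ca0971_gt.OT.Sm

open Set Metric Filter Topology

private theorem fra_mem (t : ℝ) : Complex.exp ((t : ℂ) * Complex.I) ∈ sphere (0 : ℂ) 1 := by
  rw [mem_sphere_zero_iff_norm]
  exact Complex.norm_exp_ofReal_mul_I t

private theorem fra_mem' (t : ℝ) : Complex.exp ((t : ℂ) * Complex.I) ∈ closedBall (0 : ℂ) 1 :=
  sphere_subset_closedBall (fra_mem t)

theorem bdc_smooth (g : ℂ → E) (hg : Gd g) :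
    ContDiff ℝ ((⊤ : ℕ∞) : WithTop ℕ∞) (bdc g) := by
  obtain ⟨U, -, hU, hs⟩ := hg.smooth
  have h1 : ContDiff ℝ ((⊤ : ℕ∞) : WithTop ℕ∞)
      (fun t : ℝ => Complex.exp ((t : ℂ) * Complex.I)) := by
    have h2 : ContDiff ℝ ((⊤ : ℕ∞) : WithTop ℕ∞) (fun t : ℝ => (t : ℂ)) :=
      Complex.ofRealCLM.contDiff
    exact (h2.mul contDiff_const).cexp
  exact hs.comp_contDiff h1 fun t => hU (fra_mem' t)

theorem bX_smooth (g : ℂ → E) (hg : Gd g) : ContDiff ℝ ((⊤ : ℕ∞) : WithTop ℕ∞) (bX g) :=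
  Complex.reCLM.contDiff.comp (contDiff_fst.comp (bdc_smooth g hg))

theorem bZ_smooth (g : ℂ → E) (hg : Gd g) : ContDiff ℝ ((⊤ : ℕ∞) : WithTop ℕ∞) (bZ g) :=
  Complex.imCLM.contDiff.comp (contDiff_fst.comp (bdc_smooth g hg))

theorem bH_smooth (g : ℂ → E) (hg : Gd g) : ContDiff ℝ ((⊤ : ℕ∞) : WithTop ℕ∞) (bH g) :=
  contDiff_snd.comp (bdc_smooth g hg)

theorem bdc_per (g : ℂ → E) (t : ℝ) : bdc g (t + 2 * Real.pi) = bdc g t := by
  unfold bdc
  congr 1
  rw [show (((t + 2 * Real.pi : ℝ) : ℂ) * Complex.I) =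
    (t : ℂ) * Complex.I + 2 * Real.pi * Complex.I by push_cast; ring]
  exact Complex.exp_periodic _

private theorem fra_der (g : ℂ → E) (hg : Gd g) (t : ℝ) :
    HasDerivAt (bdc g) (fderiv ℝ g (Complex.exp ((t : ℂ) * Complex.I))
      (Complex.I * Complex.exp ((t : ℂ) * Complex.I))) t := by
  obtain ⟨U, hUo, hU, hs⟩ := hg.smooth
  have hd : DifferentiableAt ℝ g (Complex.exp ((t : ℂ) * Complex.I)) :=
    (hs.contDiffAt (hUo.mem_nhds (hU (fra_mem' t)))).differentiableAt (by simp)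
  have h1 : HasDerivAt (fun s : ℝ => (s : ℂ) * Complex.I) Complex.I t := by
    simpa using (Complex.ofRealCLM.hasDerivAt (x := t)).mul_const Complex.I
  have h2 : HasDerivAt (fun s : ℝ => Complex.exp ((s : ℂ) * Complex.I))
      (Complex.I * Complex.exp ((t : ℂ) * Complex.I)) t := by
    have := h1.cexp
    rwa [mul_comm] at this
  exact hd.hasFDerivAt.comp_hasDerivAt t h2

/-- Legendrian: `Z' = - h X'`. -/
theorem bdc_leg (g : ℂ → E) (hg : Gd g) (t : ℝ) :
    deriv (bZ g) t = -(bH g t * deriv (bX g) t) := by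
  have h1 := fra_der g hg t
  have h2 : HasDerivAt (fun s => (bdc g s).1) (fderiv ℝ g (Complex.exp ((t : ℂ) * Complex.I))
      (Complex.I * Complex.exp ((t : ℂ) * Complex.I))).1 t := h1.fst
  have h3 : HasDerivAt (bX g) (fderiv ℝ g (Complex.exp ((t : ℂ) * Complex.I))
      (Complex.I * Complex.exp ((t : ℂ) * Complex.I))).1.re t :=
    Complex.reCLM.hasFDerivAt.comp_hasDerivAt t h2
  have h4 : HasDerivAt (bZ g) (fderiv ℝ g (Complex.exp ((t : ℂ) * Complex.I))
      (Complex.I * Complex.exp ((t : ℂ) * Complex.I))).1.im t :=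
    Complex.imCLM.hasFDerivAt.comp_hasDerivAt t h2
  rw [h3.deriv, h4.deriv]
  have h5 := hg.leg _ (fra_mem t)
  unfold cE at h5
  unfold bH bdc
  linarith

theorem bdc_inj (g : ℂ → E) (hg : Gd g) (t u : ℝ) (h : bdc g t = bdc g u) :
    ∃ k : ℤ, t - u = 2 * Real.pi * k := by
  have h1 := hg.inj (fra_mem' t) (fra_mem' u) h
  rw [Complex.exp_eq_exp_iff_exists_int] at h1
  obtain ⟨n, hn⟩ := h1
  refine ⟨n, ?_⟩
  have h2 := congrArg Complex.im hn
  simp only [Complex.mul_im, Complex.add_im, Complex.ofReal_re, Complex.ofReal_im, Complex.I_re,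
    Complex.I_im, mul_one, mul_zero, zero_mul, add_zero, Complex.intCast_re, Complex.intCast_im,
    Complex.mul_re, Complex.re_ofNat, Complex.im_ofNat, sub_zero] at h2
  linarith

/-- Cauchy mean value theorem: the slope of a chord is a value of `- h`, if `X' ≠ 0` inside. -/
theorem chord (g : ℂ → E) (hg : Gd g) (a b : ℝ) (hab : a < b)
    (h : ∀ t ∈ Ioo a b, deriv (bX g) t ≠ 0) : bX g b - bX g a ≠ 0 ∧
      ∃ ξ ∈ Ioo a b, (bZ g b - bZ g a) / (bX g b - bX g a) = -bH g ξ := by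
  have dX : Differentiable ℝ (bX g) := (bX_smooth g hg).differentiable (by simp)
  have dZ : Differentiable ℝ (bZ g) := (bZ_smooth g hg).differentiable (by simp)
  have h0 : bX g b - bX g a ≠ 0 := by
    intro h1
    obtain ⟨c, hc, hc0⟩ := exists_deriv_eq_zero hab dX.continuous.continuousOn
      (by linarith : bX g a = bX g b)
    exact h c hc hc0
  refine ⟨h0, ?_⟩
  obtain ⟨c, hc, hcc⟩ := exists_ratio_deriv_eq_ratio_slope (bZ g) hab dZ.continuous.continuousOn
    dZ.differentiableOn (bX g) dX.continuous.continuousOn dX.differentiableOn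
  refine ⟨c, hc, ?_⟩
  rw [bdc_leg g hg c] at hcc
  rw [div_eq_iff h0]
  have h2 := h c hc
  apply mul_right_cancel₀ h2
  linarith

end Pool.Agent.Lib.MP_ca0971_gt.OT.Sm
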