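import Pool.Agent.Lib.MP_ca0971_gt.OT.Sm.FrA

set_option autoImplicit false

namespace Pool.Agent.Lib.MP_ca0971_gt.OT.Sm

open Set Metric Filter Topology

/-- A shift by a multiple of `2 π` into `[0, 2 π]`. -/
theorem fra2_shift (x : ℝ) : ∃ k : ℤ, x + 2 * Real.pi * k ∈ Icc (0 : ℝ) (2 * Real.pi) := by
  have hp : 0 < 2 * Real.pi := by positivity
  obtain ⟨m, hm, -⟩ := existsUnique_add_zsmul_mem_Ico hp x 0
  refine ⟨m, ?_⟩
  have e : x + m • (2 * Real.pi) = x + 2 * Real.pi * m := by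
    rw [zsmul_eq_mul]
    ring
  rw [e, zero_add] at hm
  exact ⟨hm.1, hm.2.le⟩

theorem fra2_perz {α : Type} {f : ℝ → α} (hf : ∀ t, f (t + 2 * Real.pi) = f t) (k : ℤ) (t : ℝ) :
    f (t + 2 * Real.pi * k) = f t := by
  have h : Function.Periodic f (2 * Real.pi) := hf
  have := h.int_mul k t
  rw [← this]
  congr 1
  ring

theorem fra2_per_deriv {f : ℝ → ℝ} (hf : ∀ t, f (t + 2 * Real.pi) = f t) (t : ℝ) :
    deriv f (t + 2 * Real.pi) = deriv f t := by
  rw [← deriv_comp_add_const]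
  congr 1
  funext s
  exact hf s

/-- Uniform continuity of a periodic function at the scale `ρ`. -/
theorem fra2_unif {f : ℝ → ℝ} (hf : ∀ t, f (t + 2 * Real.pi) = f t) (hc : Continuous f)
    (μ : ℝ) (hμ : 0 < μ) : ∃ ρ : ℝ, 0 < ρ ∧ ∀ x t : ℝ, |t - x| ≤ ρ → |f t - f x| < μ := by
  have hK : IsCompact (Icc (-1 : ℝ) (2 * Real.pi + 1)) := isCompact_Icc
  have hu := hK.uniformContinuousOn_of_continuous hc.continuousOn
  rw [Metric.uniformContinuousOn_iff] at hu
  obtain ⟨δ, hδ, h⟩ := hu μ hμ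
  refine ⟨min (δ / 2) 1, lt_min (by linarith) one_pos, fun x t ht => ?_⟩
  have h1 := ht.trans (min_le_left _ _)
  have h2 := abs_le.1 (ht.trans (min_le_right _ _))
  obtain ⟨k, hk⟩ := fra2_shift x
  have h3 := h (t + 2 * Real.pi * k) ⟨by linarith [hk.1, h2.1], by linarith [hk.2, h2.2]⟩
    (x + 2 * Real.pi * k) ⟨by linarith [hk.1], by linarith [hk.2]⟩ (by
      rw [Real.dist_eq, add_sub_add_right_eq_sub]
      linarith)
  rw [Real.dist_eq, fra2_perz hf, fra2_perz hf] at h3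
  exact h3

/-- A periodic continuous function without zeros on the zero set of another one is bounded below
there. -/
theorem fra2_low {a f : ℝ → ℝ} (ha : ∀ t, a (t + 2 * Real.pi) = a t)
    (hf : ∀ t, f (t + 2 * Real.pi) = f t) (ca : Continuous a) (cf : Continuous f)
    (h : ∀ t, a t = 0 → f t ≠ 0) : ∃ μ : ℝ, 0 < μ ∧ ∀ x, a x = 0 → μ ≤ |f x| := by
  have hK : IsCompact (Icc (0 : ℝ) (2 * Real.pi) ∩ {x | a x = 0}) :=
    isCompact_Icc.inter_right (isClosed_eq ca continuous_const)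
  rcases (Icc (0 : ℝ) (2 * Real.pi) ∩ {x | a x = 0}).eq_empty_or_nonempty with h0 | h0
  · refine ⟨1, one_pos, fun x hx => ?_⟩
    exfalso
    obtain ⟨k, hk⟩ := fra2_shift x
    have : x + 2 * Real.pi * k ∈ (Icc (0 : ℝ) (2 * Real.pi) ∩ {x | a x = 0}) :=
      ⟨hk, by
        change a (x + 2 * Real.pi * k) = 0
        rw [fra2_perz ha, hx]⟩
    rw [h0] at this
    exact this
  · obtain ⟨y, hy, hy2⟩ := hK.exists_isMinOn h0 cf.abs.continuousOn
    refine ⟨|f y|, abs_pos.2 (h y hy.2), fun x hx => ?_⟩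
    obtain ⟨k, hk⟩ := fra2_shift x
    have h3 : |f y| ≤ |f (x + 2 * Real.pi * k)| := hy2 ⟨hk, by
      change a (x + 2 * Real.pi * k) = 0
      rw [fra2_perz ha, hx]⟩
    rwa [fra2_perz hf] at h3

theorem fra2_pos {p q μ : ℝ} (h1 : μ ≤ |q|) (h2 : |p - q| < μ) : 0 < p * q := by
  rcases abs_cases q with ⟨e, -⟩ | ⟨e, -⟩
  · have := abs_lt.1 h2
    nlinarith [this.1, this.2, abs_nonneg (p - q)]
  · have := abs_lt.1 h2
    nlinarith [this.1, this.2, abs_nonneg (p - q)]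

theorem fra2_bX_per (g : ℂ → E) (t : ℝ) : bX g (t + 2 * Real.pi) = bX g t := by
  unfold bX
  rw [bdc_per]

theorem fra2_bH_per (g : ℂ → E) (t : ℝ) : bH g (t + 2 * Real.pi) = bH g t := by
  unfold bH
  rw [bdc_per]

/-- The critical points of `X` are separated, and near them `h'` and `X''` keep their sign. -/
theorem cusp_loc (g : ℂ → E) (hg : Gd g) : ∃ ρ : ℝ, 0 < ρ ∧
    (∀ x y : ℝ, deriv (bX g) x = 0 → deriv (bX g) y = 0 → x ≠ y → 2 * ρ < |x - y|) ∧
    ∀ x t : ℝ, deriv (bX g) x = 0 → |t - x| ≤ ρ → 0 < deriv (bH g) t * deriv (bH g) x ∧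
      0 < deriv (deriv (bX g)) t * deriv (deriv (bX g)) x := by
  have sX := bX_smooth g hg
  have sH := bH_smooth g hg
  have sa : ContDiff ℝ ((⊤ : ℕ∞) : WithTop ℕ∞) (deriv (bX g)) := (contDiff_infty_iff_deriv.1 sX).2
  have sb : ContDiff ℝ ((⊤ : ℕ∞) : WithTop ℕ∞) (deriv (deriv (bX g))) :=
    (contDiff_infty_iff_deriv.1 sa).2
  have sc : ContDiff ℝ ((⊤ : ℕ∞) : WithTop ℕ∞) (deriv (bH g)) := (contDiff_infty_iff_deriv.1 sH).2
  have pa := fra2_per_deriv (fra2_bX_per g)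
  have pb := fra2_per_deriv pa
  have pc := fra2_per_deriv (fra2_bH_per g)
  obtain ⟨μ1, m1, l1⟩ := fra2_low pa pb sa.continuous sb.continuous fun t ht => (hg.mor t ht).1
  obtain ⟨μ2, m2, l2⟩ := fra2_low pa pc sa.continuous sc.continuous fun t ht => (hg.mor t ht).2
  obtain ⟨ρ1, r1, u1⟩ := fra2_unif pb sb.continuous μ1 m1
  obtain ⟨ρ2, r2, u2⟩ := fra2_unif pc sc.continuous μ2 m2
  have hm : 0 < min ρ1 ρ2 := lt_min r1 r2
  refine ⟨min ρ1 ρ2 / 2, by linarith, ?_, ?_⟩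
  · have key : ∀ x y : ℝ, deriv (bX g) x = 0 → deriv (bX g) y = 0 → x < y →
        2 * (min ρ1 ρ2 / 2) < y - x := by
      intro x y hx hy hxy
      by_contra hc
      rw [not_lt] at hc
      obtain ⟨ξ, h1, h2⟩ := exists_deriv_eq_zero hxy sa.continuous.continuousOn (hx.trans hy.symm)
      have h3 := u1 x ξ (by
        rw [abs_of_nonneg (by linarith [h1.1])]
        have := min_le_left ρ1 ρ2
        linarith [h1.2])
      have h4 := fra2_pos (l1 x hx) h3
      rw [h2, zero_mul] at h4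
      exact lt_irrefl _ h4
    intro x y hx hy hne
    rcases lt_or_gt_of_ne hne with h | h
    · rw [abs_sub_comm, abs_of_pos (by linarith)]
      exact key x y hx hy h
    · rw [abs_of_pos (by linarith)]
      exact key y x hy hx h
  · intro x t hx ht
    have e1 := min_le_left ρ1 ρ2
    have e2 := min_le_right ρ1 ρ2
    exact ⟨fra2_pos (l2 x hx) (u2 x t (by linarith)), fra2_pos (l1 x hx) (u1 x t (by linarith))⟩

/-- Points of the boundary curve which are far in the parameter are far in space. -/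
theorem bdc_far (g : ℂ → E) (hg : Gd g) (ρ : ℝ) (hρ : 0 < ρ) : ∃ η : ℝ, 0 < η ∧
    ∀ t u : ℝ, (∀ k : ℤ, ρ ≤ |t - u + 2 * Real.pi * k|) → η ≤ ‖bdc g t - bdc g u‖ := by
  have cb : Continuous (bdc g) := (bdc_smooth g hg).continuous
  set S : Set (ℝ × ℝ) := (Icc (0 : ℝ) (2 * Real.pi) ×ˢ Icc (0 : ℝ) (2 * Real.pi)) ∩
    {p | ∀ k : ℤ, ρ ≤ |p.1 - p.2 + 2 * Real.pi * k|} with hS
  have hK : IsCompact S := by
    refine (isCompact_Icc.prod isCompact_Icc).inter_right ?_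
    have e : {p : ℝ × ℝ | ∀ k : ℤ, ρ ≤ |p.1 - p.2 + 2 * Real.pi * k|} =
        ⋂ k : ℤ, {p : ℝ × ℝ | ρ ≤ |p.1 - p.2 + 2 * Real.pi * k|} := by
      ext p
      simp
    rw [e]
    exact isClosed_iInter fun k => isClosed_le continuous_const (by fun_prop)
  have red : ∀ t u : ℝ, (∀ k : ℤ, ρ ≤ |t - u + 2 * Real.pi * k|) → ∃ p ∈ S,
      ‖bdc g p.1 - bdc g p.2‖ = ‖bdc g t - bdc g u‖ := by
    intro t u h
    obtain ⟨k, hk⟩ := fra2_shift t
    obtain ⟨l, hl⟩ := fra2_shift u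
    refine ⟨(t + 2 * Real.pi * k, u + 2 * Real.pi * l), ⟨⟨hk, hl⟩, fun n => ?_⟩, ?_⟩
    · have := h (k - l + n)
      have e : t - u + 2 * Real.pi * ((k - l + n : ℤ) : ℝ) =
          t + 2 * Real.pi * k - (u + 2 * Real.pi * l) + 2 * Real.pi * n := by
        push_cast
        ring
      rwa [e] at this
    · simp only
      rw [fra2_perz (bdc_per g), fra2_perz (bdc_per g)]
  rcases S.eq_empty_or_nonempty with h0 | h0
  · refine ⟨1, one_pos, fun t u h => ?_⟩
    obtain ⟨p, hp, -⟩ := red t u h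
    rw [h0] at hp
    exact absurd hp (notMem_empty p)
  · obtain ⟨q, hq, hq2⟩ := hK.exists_isMinOn h0
      (f := fun p : ℝ × ℝ => ‖bdc g p.1 - bdc g p.2‖) (by fun_prop)
    refine ⟨‖bdc g q.1 - bdc g q.2‖, ?_, fun t u h => ?_⟩
    · rw [norm_pos_iff, sub_ne_zero]
      intro he
      obtain ⟨k, hk⟩ := bdc_inj g hg _ _ he
      have := hq.2 (-k)
      rw [hk] at this
      push_cast at this
      rw [mul_neg, add_neg_cancel, abs_zero] at this
      linarith
    · obtain ⟨p, hp, e⟩ := red t u h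
      rw [← e]
      exact hq2 hp

/-- Lipschitz. -/
theorem bdc_lip (g : ℂ → E) (hg : Gd g) : ∃ L : ℝ, 0 < L ∧
    ∀ t u : ℝ, ‖bdc g t - bdc g u‖ ≤ L * |t - u| := by
  have sb := bdc_smooth g hg
  have sd : ContDiff ℝ ((⊤ : ℕ∞) : WithTop ℕ∞) (deriv (bdc g)) := (contDiff_infty_iff_deriv.1 sb).2
  have pd : ∀ t, deriv (bdc g) (t + 2 * Real.pi) = deriv (bdc g) t := fun t => by
    rw [← deriv_comp_add_const]
    congr 1
    funext s
    exact bdc_per g s
  obtain ⟨L, hL⟩ := (isCompact_Icc (a := (0 : ℝ)) (b := 2 * Real.pi)).exists_bound_of_continuousOn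
    sd.continuous.continuousOn
  have hb : ∀ x, ‖deriv (bdc g) x‖ ≤ max L 1 := fun x => by
    obtain ⟨k, hk⟩ := fra2_shift x
    have := hL _ hk
    rw [fra2_perz pd] at this
    exact this.trans (le_max_left _ _)
  refine ⟨max L 1, lt_of_lt_of_le one_pos (le_max_right _ _), fun t u => ?_⟩
  have := Convex.norm_image_sub_le_of_norm_deriv_le (𝕜 := ℝ) (f := bdc g) (s := univ)
    (fun x _ => (sb.differentiable (by simp)).differentiableAt) (fun x _ => hb x) convex_univ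
    (mem_univ u) (mem_univ t)
  rwa [Real.norm_eq_abs] at this

end Pool.Agent.Lib.MP_ca0971_gt.OT.Sm
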