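import Pool.Agent.Lib.MP_ca0971_gt.OT.Sm.FrA2

set_option autoImplicit false

namespace Pool.Agent.Lib.MP_ca0971_gt.OT.Sm

open Set Metric Filter Topology

/-- The partition contains the critical points of `X`. -/
def Cz (g : ℂ → E) (θ : ℤ → ℝ) : Prop := ∀ t, deriv (bX g) t = 0 → ∃ k, θ k = t

/-- Projected chord. -/
def ch (g : ℂ → E) (θ : ℤ → ℝ) (i : ℤ) : Set ℂ :=
  segment ℝ (bdc g (θ i)).1 (bdc g (θ (i + 1))).1

/-- Slope of a chord. -/
noncomputable def sl (g : ℂ → E) (θ : ℤ → ℝ) (i : ℤ) : ℝ :=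
  (bZ g (θ (i + 1)) - bZ g (θ i)) / (bX g (θ (i + 1)) - bX g (θ i))

/-- Chord `i` is strictly higher than the chord `j` and has the smaller slope. -/
def Hi (g : ℂ → E) (θ : ℤ → ℝ) (i j : ℤ) : Prop :=
  bH g (θ j) < bH g (θ i) ∧ bH g (θ j) < bH g (θ (i + 1)) ∧ bH g (θ (j + 1)) < bH g (θ i) ∧
    bH g (θ (j + 1)) < bH g (θ (i + 1)) ∧ sl g θ i < sl g θ j

theorem fb_mv (f : ℝ → ℝ) (hf : Differentiable ℝ f) (x y : ℝ) (hxy : x ≠ y) :
    ∃ c, ((x < c ∧ c < y) ∨ (y < c ∧ c < x)) ∧ f y - f x = deriv f c * (y - x) := by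
  rcases lt_or_gt_of_ne hxy with h | h
  · obtain ⟨c, hc, hc'⟩ := exists_deriv_eq_slope f h hf.continuous.continuousOn
      hf.differentiableOn
    refine ⟨c, Or.inl ⟨hc.1, hc.2⟩, ?_⟩
    rw [hc', div_mul_cancel₀]
    exact sub_ne_zero.mpr h.ne'
  · obtain ⟨c, hc, hc'⟩ := exists_deriv_eq_slope f h hf.continuous.continuousOn
      hf.differentiableOn
    refine ⟨c, Or.inr ⟨hc.1, hc.2⟩, ?_⟩
    have h1 : f x - f y = deriv f c * (x - y) := by
      rw [hc', div_mul_cancel₀]
      exact sub_ne_zero.mpr h.ne'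
    linarith

theorem fb_seg {A B P : ℂ} (h : P ∈ segment ℝ A B) : ∃ u v : ℝ, 0 ≤ u ∧ 0 ≤ v ∧ u + v = 1 ∧
    P.re = u * A.re + v * B.re ∧ P.im = u * A.im + v * B.im := by
  obtain ⟨u, v, hu, hv, huv, rfl⟩ := h
  exact ⟨u, v, hu, hv, huv, by simp, by simp⟩

/-- the sign of the line function next to a cusp -/
theorem fb_sign (g : ℂ → E) (hg : Gd g) (ρ t0 : ℝ) (h0 : deriv (bX g) t0 = 0)
    (hloc : ∀ t : ℝ, |t - t0| ≤ ρ → 0 < deriv (bH g) t * deriv (bH g) t0 ∧
      0 < deriv (deriv (bX g)) t * deriv (deriv (bX g)) t0)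
    (hne : ∀ t : ℝ, |t - t0| ≤ ρ → t ≠ t0 → deriv (bX g) t ≠ 0)
    (t : ℝ) (ht : |t - t0| ≤ ρ) (htt : t ≠ t0) :
    0 < (t0 - t) * (((bZ g t - bZ g t0) + bH g t0 * (bX g t - bX g t0))
      * (deriv (bH g) t0 * deriv (deriv (bX g)) t0)) := by
  have hX := bX_smooth g hg
  have hX1 : Differentiable ℝ (bX g) := hX.differentiable (by simp)
  have hX2 : Differentiable ℝ (deriv (bX g)) :=
    ((contDiff_infty_iff_deriv.mp hX).2).differentiable (by simp)
  have hH1 : Differentiable ℝ (bH g) := (bH_smooth g hg).differentiable (by simp)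
  -- the line function by the chord lemma
  obtain ⟨ξ, hξ, hline⟩ : ∃ ξ, ((t0 < ξ ∧ ξ < t) ∨ (t < ξ ∧ ξ < t0)) ∧
      (bZ g t - bZ g t0) = - bH g ξ * (bX g t - bX g t0) := by
    rcases lt_or_gt_of_ne htt with h | h
    · obtain ⟨h1, ξ, hξ, h2⟩ := chord g hg t t0 h (by
        intro u hu
        refine hne u ?_ hu.2.ne
        rw [abs_le] at ht ⊢
        constructor <;> linarith [hu.1, hu.2])
      refine ⟨ξ, Or.inr ⟨hξ.1, hξ.2⟩, ?_⟩
      rw [div_eq_iff h1] at h2
      linarith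
    · obtain ⟨h1, ξ, hξ, h2⟩ := chord g hg t0 t h (by
        intro u hu
        refine hne u ?_ hu.1.ne'
        rw [abs_le] at ht ⊢
        constructor <;> linarith [hu.1, hu.2])
      refine ⟨ξ, Or.inl ⟨hξ.1, hξ.2⟩, ?_⟩
      rw [div_eq_iff h1] at h2
      exact h2
  -- the sign of H ξ - H t0
  have hξt : ξ ≠ t0 := by rcases hξ with h | h <;> [exact h.1.ne'; exact h.2.ne]
  have hξρ : |ξ - t0| ≤ ρ := by
    rw [abs_le] at ht ⊢
    rcases hξ with h | h <;> constructor <;> linarith [h.1, h.2]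
  obtain ⟨c, hc, hc'⟩ := fb_mv (bH g) hH1 t0 ξ hξt.symm
  have hcρ : |c - t0| ≤ ρ := by
    rw [abs_le] at hξρ ⊢
    rcases hc with h | h <;> constructor <;> linarith [h.1, h.2]
  have hH3 := (hloc c hcρ).1
  -- the sign of X t - X t0
  obtain ⟨η, hη, hη'⟩ := fb_mv (bX g) hX1 t0 t htt.symm
  have hηt : η ≠ t0 := by rcases hη with h | h <;> [exact h.1.ne'; exact h.2.ne]
  obtain ⟨ζ, hζ, hζ'⟩ := fb_mv (deriv (bX g)) hX2 t0 η hηt.symm
  rw [h0, sub_zero] at hζ'
  have hζρ : |ζ - t0| ≤ ρ := by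
    rw [abs_le] at ht ⊢
    rcases hη with h | h <;> rcases hζ with h' | h' <;> constructor <;>
      linarith [h.1, h.2, h'.1, h'.2]
  have hX3 := (hloc ζ hζρ).2
  have key : (t0 - t) * (((bZ g t - bZ g t0) + bH g t0 * (bX g t - bX g t0))
      * (deriv (bH g) t0 * deriv (deriv (bX g)) t0))
      = (deriv (bH g) c * deriv (bH g) t0) * (deriv (deriv (bX g)) ζ * deriv (deriv (bX g)) t0)
        * ((ξ - t0) * (t - t0)) * ((η - t0) * (t - t0)) := by
    have e1 : bH g ξ - bH g t0 = deriv (bH g) c * (ξ - t0) := hc'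
    have e2 : bX g t - bX g t0 = deriv (deriv (bX g)) ζ * (η - t0) * (t - t0) := by
      rw [hη', hζ']
    rw [hline, e2]
    have e3 : bH g t0 = bH g ξ - deriv (bH g) c * (ξ - t0) := by linarith
    rw [e3]; ring
  rw [key]
  have p1 : 0 < (ξ - t0) * (t - t0) := by
    rcases hξ with h | h
    · exact mul_pos (by linarith [h.1]) (by linarith [h.1, h.2])
    · exact mul_pos_of_neg_of_neg (by linarith [h.2]) (by linarith [h.1, h.2])
  have p2 : 0 < (η - t0) * (t - t0) := by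
    rcases hη with h | h
    · exact mul_pos (by linarith [h.1]) (by linarith [h.1, h.2])
    · exact mul_pos_of_neg_of_neg (by linarith [h.2]) (by linarith [h.1, h.2])
  positivity

/-- Two chords in a short arc. Let `a = θ i < b = θ (i + 1) < c = θ j < d = θ (j + 1)`, `d - a < ρ`.
If `X'` has no zero in `(a, d)`: `X` is strictly monotone, the `X`-ranges are disjoint. Otherwise it
has exactly one zero `t0`, `t0 ∈ [b, c]` (it is a point of the partition). Let
`ℓ t = Z t - Z t0 + h t0 (X t - X t0)`. By Cauchy `ℓ t = (h t0 - h ξ) (X t - X t0)` with `ξ` between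
`t` and `t0`, so `ℓ` has opposite strict signs for `t < t0` and `t > t0`: the line separates the chords;
not both of them contain the point of `t0` because `b < c`. -/
theorem chords_near (g : ℂ → E) (hg : Gd g) : ∃ ρ : ℝ, 0 < ρ ∧ ∀ (m : ℕ) (θ : ℤ → ℝ), 0 < m →
    Prt m θ → Cz g θ → ∀ i j : ℤ, i + 2 ≤ j → θ (j + 1) - θ i < ρ →
      Disjoint (ch g θ i) (ch g θ j) := by
  obtain ⟨ρ, hρ, hsep, hloc⟩ := cusp_loc g hg
  refine ⟨ρ, hρ, ?_⟩
  intro m θ hm hP hCz i j hij hd
  have hstep : ∀ k, θ k < θ (k + 1) := by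
    intro k
    have h1 := hP.lo k
    have h2 : 0 < Real.pi / (m : ℝ) := div_pos Real.pi_pos (by exact_mod_cast hm)
    linarith
  have hmono : StrictMono θ := strictMono_int_of_lt_succ hstep
  have hab : θ i < θ (i + 1) := hstep i
  have hbc : θ (i + 1) < θ j := hmono (by omega)
  have hcd : θ j < θ (j + 1) := hstep j
  have hX := bX_smooth g hg
  rw [Set.disjoint_left]
  intro P hPi hPj
  obtain ⟨u, v, hu, hv, huv, hre, him⟩ := fb_seg hPi
  obtain ⟨u', v', hu', hv', huv', hre', him'⟩ := fb_seg hPj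
  have cre : ∀ t, (bdc g t).1.re = bX g t := fun _ => rfl
  have cim : ∀ t, (bdc g t).1.im = bZ g t := fun _ => rfl
  rw [cre, cre] at hre hre'
  rw [cim, cim] at him him'
  by_cases hz : ∃ t0 ∈ Ioo (θ i) (θ (j + 1)), deriv (bX g) t0 = 0
  · obtain ⟨t0, ht0, hz0⟩ := hz
    obtain ⟨k, hk⟩ := hCz t0 hz0
    have hk1 : i < k := hmono.lt_iff_lt.mp (by rw [hk]; exact ht0.1)
    have hk2 : k < j + 1 := hmono.lt_iff_lt.mp (by rw [hk]; exact ht0.2)
    have hb0 : θ (i + 1) ≤ t0 := by rw [← hk]; exact hmono.monotone (by omega)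
    have h0c : t0 ≤ θ j := by rw [← hk]; exact hmono.monotone (by omega)
    have hne : ∀ t : ℝ, |t - t0| ≤ ρ → t ≠ t0 → deriv (bX g) t ≠ 0 := by
      intro t ht htt h
      have := hsep t t0 h hz0 htt
      linarith
    have sg := fb_sign g hg ρ t0 hz0 (fun t ht => hloc t0 t hz0 ht) hne
    set σ := deriv (bH g) t0 * deriv (deriv (bX g)) t0 with hσ
    set ℓ : ℝ → ℝ := fun t => ((bZ g t - bZ g t0) + bH g t0 * (bX g t - bX g t0)) * σ with hℓ
    have sl : ∀ t, |t - t0| ≤ ρ → t < t0 → 0 < ℓ t := by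
      intro t ht htt
      have h1 := sg t ht htt.ne
      exact (pos_iff_pos_of_mul_pos h1).mp (by linarith)
    have sr : ∀ t, |t - t0| ≤ ρ → t0 < t → ℓ t < 0 := by
      intro t ht htt
      have h1 := sg t ht htt.ne'
      exact (neg_iff_neg_of_mul_pos h1).mp (by linarith)
    have s0 : ℓ t0 = 0 := by simp [hℓ]
    have la : 0 < ℓ (θ i) := sl _ (by rw [abs_le]; constructor <;> linarith [ht0.1, ht0.2]) ht0.1
    have ld : ℓ (θ (j + 1)) < 0 :=
      sr _ (by rw [abs_le]; constructor <;> linarith [ht0.1, ht0.2]) ht0.2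
    have e1 : ((P.im - bZ g t0) + bH g t0 * (P.re - bX g t0)) * σ
        = u * ℓ (θ i) + v * ℓ (θ (i + 1)) := by
      rw [hre, him]
      simp only [hℓ]
      linear_combination (σ * (bZ g t0 + bH g t0 * bX g t0)) * huv
    have e2 : ((P.im - bZ g t0) + bH g t0 * (P.re - bX g t0)) * σ
        = u' * ℓ (θ j) + v' * ℓ (θ (j + 1)) := by
      rw [hre', him']
      simp only [hℓ]
      linear_combination (σ * (bZ g t0 + bH g t0 * bX g t0)) * huv'
    rcases hb0.lt_or_eq with hb | hb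
    · -- the first chord is strictly on the positive side
      have lb : 0 < ℓ (θ (i + 1)) := sl _ (by rw [abs_le]; constructor <;> linarith [ht0.1, ht0.2]) hb
      have lc : ℓ (θ j) ≤ 0 := by
        rcases h0c.lt_or_eq with hc | hc
        · exact (sr _ (by rw [abs_le]; constructor <;> linarith [ht0.1, ht0.2]) hc).le
        · rw [← hc, s0]
      have p1 : 0 < u * ℓ (θ i) + v * ℓ (θ (i + 1)) := by
        rcases hu.lt_or_eq with h | h
        · exact add_pos_of_pos_of_nonneg (mul_pos h la) (mul_nonneg hv lb.le)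
        · have : v = 1 := by linarith
          rw [← h, this]; linarith
      have p2 : u' * ℓ (θ j) + v' * ℓ (θ (j + 1)) ≤ 0 :=
        add_nonpos (mul_nonpos_of_nonneg_of_nonpos hu' lc) (mul_nonpos_of_nonneg_of_nonpos hv' ld.le)
      linarith
    · have hc : t0 < θ j := by rw [← hb]; exact hbc
      have lc : ℓ (θ j) < 0 := sr _ (by rw [abs_le]; constructor <;> linarith [ht0.1, ht0.2]) hc
      have lb : 0 ≤ ℓ (θ (i + 1)) := by rw [hb, s0]
      have p1 : 0 ≤ u * ℓ (θ i) + v * ℓ (θ (i + 1)) :=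
        add_nonneg (mul_nonneg hu la.le) (mul_nonneg hv lb)
      have p2 : u' * ℓ (θ j) + v' * ℓ (θ (j + 1)) < 0 := by
        rcases hv'.lt_or_eq with h | h
        · exact add_neg_of_nonpos_of_neg (mul_nonpos_of_nonneg_of_nonpos hu' lc.le)
            (mul_neg_of_pos_of_neg h ld)
        · have : u' = 1 := by linarith
          rw [← h, this]; linarith
      linarith
  · -- X is strictly monotone
    have hz : ∀ t0 ∈ Ioo (θ i) (θ (j + 1)), deriv (bX g) t0 ≠ 0 := fun t0 h1 h2 => hz ⟨t0, h1, h2⟩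
    have hinj : InjOn (bX g) (Icc (θ i) (θ (j + 1))) := by
      intro x hx y hy hxy
      by_contra hne
      rcases lt_or_gt_of_ne hne with h | h
      · exact (chord g hg x y h (fun t ht => hz t ⟨lt_of_le_of_lt hx.1 ht.1,
          lt_of_lt_of_le ht.2 hy.2⟩)).1 (by rw [hxy]; ring)
      · exact (chord g hg y x h (fun t ht => hz t ⟨lt_of_le_of_lt hy.1 ht.1,
          lt_of_lt_of_le ht.2 hx.2⟩)).1 (by rw [hxy]; ring)
    have had : θ i ≤ θ (j + 1) := by linarith
    have ma : θ i ∈ Icc (θ i) (θ (j + 1)) := ⟨le_rfl, had⟩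
    have mb : θ (i + 1) ∈ Icc (θ i) (θ (j + 1)) := ⟨hab.le, by linarith⟩
    have mc : θ j ∈ Icc (θ i) (θ (j + 1)) := ⟨by linarith, hcd.le⟩
    have md : θ (j + 1) ∈ Icc (θ i) (θ (j + 1)) := ⟨had, le_rfl⟩
    rcases (hX.continuous.continuousOn (s := Icc (θ i) (θ (j + 1)))).strictMonoOn_of_injOn_Icc'
      had hinj with hs | hs
    · have h1 := hs ma mb hab
      have h2 := hs mb mc hbc
      have h3 := hs mc md hcd
      have q1 : u * bX g (θ (i + 1)) + v * bX g (θ (i + 1)) = bX g (θ (i + 1)) := by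
        rw [← add_mul, huv, one_mul]
      have q2 : u' * bX g (θ j) + v' * bX g (θ j) = bX g (θ j) := by
        rw [← add_mul, huv', one_mul]
      have p1 : P.re ≤ bX g (θ (i + 1)) := by
        rw [hre]; have := mul_le_mul_of_nonneg_left h1.le hu; linarith
      have p2 : bX g (θ j) ≤ P.re := by
        rw [hre']; have := mul_le_mul_of_nonneg_left h3.le hv'; linarith
      linarith
    · have h1 := hs ma mb hab
      have h2 := hs mb mc hbc
      have h3 := hs mc md hcd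
      have q1 : u * bX g (θ (i + 1)) + v * bX g (θ (i + 1)) = bX g (θ (i + 1)) := by
        rw [← add_mul, huv, one_mul]
      have q2 : u' * bX g (θ j) + v' * bX g (θ j) = bX g (θ j) := by
        rw [← add_mul, huv', one_mul]
      have p1 : bX g (θ (i + 1)) ≤ P.re := by
        rw [hre]; have := mul_le_mul_of_nonneg_left h1.le hu; linarith
      have p2 : P.re ≤ bX g (θ j) := by
        rw [hre']; have := mul_le_mul_of_nonneg_left h3.le hv'; linarith
      linarith

end Pool.Agent.Lib.MP_ca0971_gt.OT.Sm
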