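import Pool.Agent.Lib.MP_ca0971_gt.OT.Sm.FrB

set_option autoImplicit false

namespace Pool.Agent.Lib.MP_ca0971_gt.OT.Sm

open Set Metric Filter Topology

/-- Two chords which are far in the parameter: disjoint, or one of them is higher and has the smaller
slope (slope `= - h ξ` by `chord`, `bdc_far`, `bdc_lip`; the norm of `E` is the maximum). -/
theorem chords_far (g : ℂ → E) (hg : Gd g) (ρ : ℝ) (hρ : 0 < ρ) : ∃ m0 : ℕ, ∀ m ≥ m0,
    ∀ θ : ℤ → ℝ, Prt m θ → Cz g θ → ∀ i j : ℤ, i + 2 ≤ j → j + 2 ≤ i + m →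
      ρ ≤ θ (j + 1) - θ i → ρ ≤ θ (i + m + 1) - θ j →
        Disjoint (ch g θ i) (ch g θ j) ∨ Hi g θ i j ∨ Hi g θ j i := by
  obtain ⟨η, hη, hfar⟩ := bdc_far g hg (ρ / 2) (by linarith)
  obtain ⟨L, hL, hlip⟩ := bdc_lip g hg
  have hmin : 0 < min (ρ / 4) (η / (8 * L)) := lt_min (by linarith) (by positivity)
  obtain ⟨m1, hm1⟩ := exists_nat_gt (3 * Real.pi / min (ρ / 4) (η / (8 * L)))
  refine ⟨max m1 1, fun m hm θ hθ hz i j hij hji h1 h2 => ?_⟩
  have h0 : 0 < m := lt_of_lt_of_le Nat.one_pos (le_trans (le_max_right _ _) hm)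
  have h0' : (0 : ℝ) < m := by exact_mod_cast h0
  obtain ⟨δ, hδ⟩ : ∃ δ : ℝ, δ = 3 * (Real.pi / m) := ⟨_, rfl⟩
  have hδ0 : 0 < δ := by
    rw [hδ]
    have := Real.pi_pos
    positivity
  have hδm : δ < min (ρ / 4) (η / (8 * L)) := by
    have k1 : (m1 : ℝ) ≤ m := by exact_mod_cast le_trans (le_max_left _ _) hm
    have k2 := lt_of_lt_of_le hm1 k1
    rw [div_lt_iff₀ hmin] at k2
    rw [hδ, ← mul_div_assoc, div_lt_iff₀ h0']
    linarith
  have hδ1 : δ < ρ / 4 := hδm.trans_le (min_le_left _ _)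
  have hδ2 : L * δ < η / 8 := by
    have k1 := (lt_div_iff₀ (by positivity)).1 (hδm.trans_le (min_le_right _ _))
    linarith
  have hsm : StrictMono θ := by
    refine strictMono_int_of_lt_succ fun k => ?_
    have k1 := hθ.lo k
    have k2 : 0 < Real.pi / m := div_pos Real.pi_pos h0'
    linarith
  have hst : ∀ k, θ (k + 1) ≤ θ k + δ := by
    intro k
    have := hθ.hi k
    rw [← hδ] at this
    linarith
  -- points of a short arc
  have near : ∀ (k : ℤ) (t : ℝ), θ k ≤ t → t ≤ θ (k + 1) → ‖bdc g t - bdc g (θ k)‖ ≤ L * δ := by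
    intro k t ht1 ht2
    refine (hlip t (θ k)).trans ?_
    have h3 := hst k
    rw [abs_of_nonneg (by linarith)]
    exact mul_le_mul_of_nonneg_left (by linarith) hL.le
  have nearH : ∀ (k : ℤ) (t : ℝ), θ k ≤ t → t ≤ θ (k + 1) → |bH g t - bH g (θ k)| ≤ L * δ := by
    intro k t ht1 ht2
    have h3 : ‖(bdc g t - bdc g (θ k)).2‖ ≤ L * δ := (norm_snd_le _).trans (near k t ht1 ht2)
    exact h3
  have noc : ∀ k : ℤ, ∀ t ∈ Ioo (θ k) (θ (k + 1)), deriv (bX g) t ≠ 0 := by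
    intro k t ht hd
    obtain ⟨l, hl⟩ := hz t hd
    rw [← hl] at ht
    have k1 := hsm.lt_iff_lt.1 ht.1
    have k2 := hsm.lt_iff_lt.1 ht.2
    omega
  have hstr : ∀ k : ℤ, θ k < θ (k + 1) := fun k => hsm (by omega)
  have key : ∀ a b : ℤ, η ≤ bH g (θ a) - bH g (θ b) → Hi g θ a b := by
    intro a b hab
    have hgt : ∀ t u : ℝ, θ a ≤ t → t ≤ θ (a + 1) → θ b ≤ u → u ≤ θ (b + 1) →
        bH g u < bH g t := by
      intro t u p1 p2 p3 p4
      have q1 := abs_le.1 (nearH a t p1 p2)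
      have q2 := abs_le.1 (nearH b u p3 p4)
      linarith [q1.1, q2.2]
    have ha := (hstr a).le
    have hb := (hstr b).le
    obtain ⟨-, ξ, hξ, e1⟩ := chord g hg _ _ (hstr a) (noc a)
    obtain ⟨-, ξ', hξ', e2⟩ := chord g hg _ _ (hstr b) (noc b)
    refine ⟨hgt _ _ le_rfl ha le_rfl hb, hgt _ _ ha le_rfl le_rfl hb, hgt _ _ le_rfl ha hb le_rfl,
      hgt _ _ ha le_rfl hb le_rfl, ?_⟩
    have e1' : sl g θ a = -bH g ξ := e1
    have e2' : sl g θ b = -bH g ξ' := e2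
    rw [e1', e2']
    have := hgt ξ ξ' hξ.1.le hξ.2.le hξ'.1.le hξ'.2.le
    linarith
  by_cases hd : Disjoint (ch g θ i) (ch g θ j)
  · exact Or.inl hd
  right
  rw [Set.not_disjoint_iff] at hd
  obtain ⟨P, hPi, hPj⟩ := hd
  -- the planar distance
  have pl : ∀ k : ℤ, P ∈ ch g θ k → ‖P - (bdc g (θ k)).1‖ ≤ L * δ := by
    intro k hk
    have h3 : ‖P - (bdc g (θ k)).1‖ ≤ ‖(bdc g (θ (k + 1))).1 - (bdc g (θ k)).1‖ :=
      norm_sub_le_of_mem_segment hk
    have h4 : ‖(bdc g (θ (k + 1)) - bdc g (θ k)).1‖ ≤ L * δ :=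
      (norm_fst_le _).trans (near k _ (hstr k).le le_rfl)
    exact h3.trans h4
  have hper := hθ.per i
  have k1 := hst i
  have k2 := hst j
  have k3 := hst (i + m)
  have far : η ≤ ‖bdc g (θ i) - bdc g (θ j)‖ := by
    refine hfar _ _ fun k => ?_
    rw [le_abs]
    have hpi := Real.pi_pos
    rcases le_or_gt k 0 with hk | hk
    · right
      have hk' : (k : ℝ) ≤ 0 := by exact_mod_cast hk
      have h5 : 2 * Real.pi * k ≤ 0 := mul_nonpos_of_nonneg_of_nonpos (by linarith) hk'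
      linarith
    · left
      have hk' : (1 : ℝ) ≤ k := by exact_mod_cast hk
      have h5 : 2 * Real.pi * 1 ≤ 2 * Real.pi * k := mul_le_mul_of_nonneg_left hk' (by linarith)
      linarith
  have hfst : ‖(bdc g (θ i)).1 - (bdc g (θ j)).1‖ < η := by
    have e : (bdc g (θ i)).1 - (bdc g (θ j)).1 =
        (P - (bdc g (θ j)).1) - (P - (bdc g (θ i)).1) := by ring
    rw [e]
    refine lt_of_le_of_lt (norm_sub_le _ _) ?_
    have := pl i hPi
    have := pl j hPj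
    linarith
  have hsnd : η ≤ |bH g (θ i) - bH g (θ j)| := by
    rw [Prod.norm_def] at far
    rcases le_max_iff.1 far with h3 | h3
    · exact absurd h3 (not_le.2 hfst)
    · exact h3
  rcases le_abs.1 hsnd with h3 | h3
  · exact Or.inl (key i j h3)
  · exact Or.inr (key j i (by linarith))

end Pool.Agent.Lib.MP_ca0971_gt.OT.Sm
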