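import Pool.Agent.Lib.MP_ca0971_gt.OT.Sm.FrB

set_option autoImplicit false

namespace Pool.Agent.Lib.MP_ca0971_gt.OT.Sm

open Set Metric Filter Topology

/-- A valley contains a critical point. -/
private theorem valley {f : ℝ → ℝ} (hf : Continuous f) {a t c : ℝ} (h1 : a < t) (h2 : t < c)
    (h3 : f t < f a) (h4 : f t < f c) : ∃ p ∈ Ioo a c, deriv f p = 0 := by
  obtain ⟨p, hp, hm⟩ := (isCompact_Icc (a := a) (b := c)).exists_isMinOn
    ⟨a, left_mem_Icc.2 (h1.trans h2).le⟩ hf.continuousOn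
  have h5 : f p ≤ f t := hm ⟨h1.le, h2.le⟩
  have h6 : a < p := lt_of_le_of_ne hp.1 (by
    rintro rfl
    linarith)
  have h7 : p < c := lt_of_le_of_ne hp.2 (by
    rintro rfl
    linarith)
  exact ⟨p, ⟨h6, h7⟩, (hm.isLocalMin (Icc_mem_nhds h6 h7)).deriv_eq_zero⟩

/-- A hill contains a critical point. -/
private theorem hill {f : ℝ → ℝ} (hf : Continuous f) {a t c : ℝ} (h1 : a < t) (h2 : t < c)
    (h3 : f a < f t) (h4 : f c < f t) : ∃ p ∈ Ioo a c, deriv f p = 0 := by
  obtain ⟨p, hp, hm⟩ := (isCompact_Icc (a := a) (b := c)).exists_isMaxOn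
    ⟨a, left_mem_Icc.2 (h1.trans h2).le⟩ hf.continuousOn
  have h5 : f t ≤ f p := hm ⟨h1.le, h2.le⟩
  have h6 : a < p := lt_of_le_of_ne hp.1 (by
    rintro rfl
    linarith)
  have h7 : p < c := lt_of_le_of_ne hp.2 (by
    rintro rfl
    linarith)
  exact ⟨p, ⟨h6, h7⟩, (hm.isLocalMax (Icc_mem_nhds h6 h7)).deriv_eq_zero⟩

/-- Signs at a cusp: `s` = sign of `h'`. -/
private theorem cusp_alg {s u v p q x y : ℝ} (h1 : 0 < (v - u) * s) (h2 : 0 < p * s)
    (h3 : 0 < q * s) :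
    (x < 0 → 0 < y → (-u - -v) * (p / x - q / y) < 0) ∧
      (0 < x → y < 0 → 0 < (-u - -v) * (p / x - q / y)) := by
  have hs : s ≠ 0 := by
    rintro rfl
    simp at h1
  have hss : 0 < s * s := mul_self_pos.2 hs
  have e : (-u - -v) * (p / x - q / y) * (s * s) = ((v - u) * s) * (p * s / x - q * s / y) := by
    ring
  constructor
  · intro hx hy
    have k1 : p * s / x < 0 := div_neg_of_pos_of_neg h2 hx
    have k2 : 0 < q * s / y := div_pos h3 hy
    have k3 : (-u - -v) * (p / x - q / y) * (s * s) < 0 := by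
      rw [e]
      exact mul_neg_of_pos_of_neg h1 (by linarith)
    by_contra hc
    have := mul_nonneg (not_lt.1 hc) hss.le
    linarith
  · intro hx hy
    have k1 : 0 < p * s / x := div_pos h2 hx
    have k2 : q * s / y < 0 := div_neg_of_pos_of_neg h3 hy
    have k3 : 0 < (-u - -v) * (p / x - q / y) * (s * s) := by
      rw [e]
      exact mul_pos h1 (by linarith)
    exact (pos_iff_pos_of_mul_pos k3).2 hss

/-- The cusp conditions. If `X (θ (i + 1)) < X (θ i)`, `X (θ (i + 1)) < X (θ (i + 2))` then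
`θ (i + 1) = t0` is a critical point of `X` (`X` is monotone on both sides), the slopes are
`- h ξ`, `- h ξ'` with `ξ < t0 < ξ'`, and `h` is strictly monotone near `t0`. -/
theorem cusps (g : ℂ → E) (hg : Gd g) : ∃ m0 : ℕ, ∀ m ≥ m0, ∀ θ : ℤ → ℝ, Prt m θ → Cz g θ →
    ∀ i : ℤ,
      (bX g (θ (i + 1)) - bX g (θ i) < 0 → 0 < bX g (θ (i + 2)) - bX g (θ (i + 1)) →
        (sl g θ i - sl g θ (i + 1)) *
          ((bH g (θ (i + 1)) - bH g (θ i)) / (bX g (θ (i + 1)) - bX g (θ i)) -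
            (bH g (θ (i + 2)) - bH g (θ (i + 1))) / (bX g (θ (i + 2)) - bX g (θ (i + 1)))) < 0) ∧
      (0 < bX g (θ (i + 1)) - bX g (θ i) → bX g (θ (i + 2)) - bX g (θ (i + 1)) < 0 →
        0 < (sl g θ i - sl g θ (i + 1)) *
          ((bH g (θ (i + 1)) - bH g (θ i)) / (bX g (θ (i + 1)) - bX g (θ i)) -
            (bH g (θ (i + 2)) - bH g (θ (i + 1))) / (bX g (θ (i + 2)) - bX g (θ (i + 1))))) := by
  obtain ⟨ρ, hρ, -, hloc⟩ := cusp_loc g hg
  obtain ⟨m1, hm1⟩ := exists_nat_gt (3 * Real.pi / ρ)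
  refine ⟨max m1 1, fun m hm θ hθ hz i => ?_⟩
  have h0 : 0 < m := lt_of_lt_of_le Nat.one_pos (le_trans (le_max_right _ _) hm)
  have h0' : (0 : ℝ) < m := by exact_mod_cast h0
  have hm2 : 3 * (Real.pi / m) < ρ := by
    have k1 : (m1 : ℝ) ≤ m := by exact_mod_cast le_trans (le_max_left _ _) hm
    have k2 := lt_of_lt_of_le hm1 k1
    rw [div_lt_iff₀ hρ] at k2
    rw [← mul_div_assoc, div_lt_iff₀ h0']
    linarith
  have hsm : StrictMono θ := by
    refine strictMono_int_of_lt_succ fun k => ?_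
    have k1 := hθ.lo k
    have k2 : 0 < Real.pi / m := div_pos Real.pi_pos h0'
    linarith
  have e2 : i + 1 + 1 = i + 2 := by ring
  have a1 : θ i < θ (i + 1) := hsm (by omega)
  have a2 : θ (i + 1) < θ (i + 2) := hsm (by omega)
  have a3 : θ (i + 1) - θ i < ρ := lt_of_le_of_lt (hθ.hi i) hm2
  have a4 : θ (i + 2) - θ (i + 1) < ρ := by
    have := hθ.hi (i + 1)
    rw [e2] at this
    exact lt_of_le_of_lt this hm2
  -- critical points between two partition points
  have noc1 : ∀ t ∈ Ioo (θ i) (θ (i + 1)), deriv (bX g) t ≠ 0 := by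
    intro t ht hd
    obtain ⟨k, hk⟩ := hz t hd
    rw [← hk] at ht
    have k1 := hsm.lt_iff_lt.1 ht.1
    have k2 := hsm.lt_iff_lt.1 ht.2
    omega
  have noc2 : ∀ t ∈ Ioo (θ (i + 1)) (θ (i + 2)), deriv (bX g) t ≠ 0 := by
    intro t ht hd
    obtain ⟨k, hk⟩ := hz t hd
    rw [← hk] at ht
    have k1 := hsm.lt_iff_lt.1 ht.1
    have k2 := hsm.lt_iff_lt.1 ht.2
    omega
  have crit : (∃ p ∈ Ioo (θ i) (θ (i + 2)), deriv (bX g) p = 0) → deriv (bX g) (θ (i + 1)) = 0 := by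
    rintro ⟨p, hp, hd⟩
    obtain ⟨k, hk⟩ := hz p hd
    rw [← hk] at hp hd
    have k1 := hsm.lt_iff_lt.1 hp.1
    have k2 := hsm.lt_iff_lt.1 hp.2
    have k3 : k = i + 1 := by omega
    rw [← k3]
    exact hd
  have hX : Continuous (bX g) := (bX_smooth g hg).continuous
  have hHd : Differentiable ℝ (bH g) :=
    (bH_smooth g hg).differentiable (by simp)
  have main : deriv (bX g) (θ (i + 1)) = 0 →
      (bX g (θ (i + 1)) - bX g (θ i) < 0 → 0 < bX g (θ (i + 2)) - bX g (θ (i + 1)) →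
        (sl g θ i - sl g θ (i + 1)) *
          ((bH g (θ (i + 1)) - bH g (θ i)) / (bX g (θ (i + 1)) - bX g (θ i)) -
            (bH g (θ (i + 2)) - bH g (θ (i + 1))) / (bX g (θ (i + 2)) - bX g (θ (i + 1)))) < 0) ∧
      (0 < bX g (θ (i + 1)) - bX g (θ i) → bX g (θ (i + 2)) - bX g (θ (i + 1)) < 0 →
        0 < (sl g θ i - sl g θ (i + 1)) *
          ((bH g (θ (i + 1)) - bH g (θ i)) / (bX g (θ (i + 1)) - bX g (θ i)) -
            (bH g (θ (i + 2)) - bH g (θ (i + 1))) / (bX g (θ (i + 2)) - bX g (θ (i + 1))))) := by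
    intro hc
    have hh : ∀ u v : ℝ, u < v → |u - θ (i + 1)| ≤ ρ → |v - θ (i + 1)| ≤ ρ →
        0 < (bH g v - bH g u) * deriv (bH g) (θ (i + 1)) := by
      intro u v huv hu hv
      obtain ⟨w, hw, he⟩ := exists_deriv_eq_slope (bH g) huv hHd.continuous.continuousOn
        hHd.differentiableOn
      have hw' : |w - θ (i + 1)| ≤ ρ := by
        rw [abs_le] at hu hv ⊢
        constructor
        · linarith [hu.1, hw.1]
        · linarith [hv.2, hw.2]
      have k1 := (hloc (θ (i + 1)) w hc hw').1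
      rw [eq_div_iff (sub_pos.2 huv).ne'] at he
      rw [← he]
      have k2 := mul_pos k1 (sub_pos.2 huv)
      have k3 : deriv (bH g) w * (v - u) * deriv (bH g) (θ (i + 1)) =
          deriv (bH g) w * deriv (bH g) (θ (i + 1)) * (v - u) := by ring
      rw [k3]
      exact k2
    obtain ⟨-, ξ, hξ, e1⟩ := chord g hg _ _ a1 noc1
    obtain ⟨-, ξ', hξ', e3⟩ := chord g hg _ _ a2 noc2
    have f1 : sl g θ i = -bH g ξ := e1
    have f2 : sl g θ (i + 1) = -bH g ξ' := by
      unfold sl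
      rw [e2]
      exact e3
    rw [f1, f2]
    refine cusp_alg (s := deriv (bH g) (θ (i + 1))) (hh ξ ξ' (hξ.2.trans hξ'.1) ?_ ?_)
      (hh _ _ a1 ?_ ?_) (hh _ _ a2 ?_ ?_)
    · rw [abs_le]
      constructor <;> linarith [hξ.1, hξ.2]
    · rw [abs_le]
      constructor <;> linarith [hξ'.1, hξ'.2]
    · rw [abs_le]
      constructor <;> linarith
    · rw [sub_self, abs_zero]
      exact hρ.le
    · rw [sub_self, abs_zero]
      exact hρ.le
    · rw [abs_le]
      constructor <;> linarith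
  constructor
  · intro k1 k2
    exact (main (crit (valley hX a1 a2 (by linarith) (by linarith)))).1 k1 k2
  · intro k1 k2
    exact (main (crit (hill hX a1 a2 (by linarith) (by linarith)))).2 k1 k2

end Pool.Agent.Lib.MP_ca0971_gt.OT.Sm
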