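import Mathlib

/-!
Planar facts. In all of them use `‖z‖ ≥ |z.im|`, `‖z‖ ≥ |z.re|`, so `‖z‖ ≥ (2 |z.im| + |z.re|) / 3` or
`‖z‖ ≥ (|z.im| + 2 |z.re|) / 3`.
-/

set_option autoImplicit false

namespace Pool.Agent.Lib.MP_ca0971_gt.OT.Sm

open Set

private theorem pl_eps {ε : ℝ} (hε : ε = 1 ∨ ε = -1) (x : ℝ) : ε * x ≤ |x| := by
  rcases hε with rfl | rfl
  · rw [one_mul]
    exact le_abs_self x
  · rw [neg_one_mul]
    exact neg_le_abs x

private theorem pl_re (a b c : ℝ) (v P Q D : ℂ) :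
    (a • (P - v) + b • (Q - v) - c • (D - v)).re =
      a * (P.re - v.re) + b * (Q.re - v.re) - c * (D.re - v.re) := by
  simp

private theorem pl_im (a b c : ℝ) (v P Q D : ℂ) :
    (a • (P - v) + b • (Q - v) - c • (D - v)).im =
      a * (P.im - v.im) + b * (Q.im - v.im) - c * (D.im - v.im) := by
  simp

/-- `P`, `Q` on one side of the line `im = v.im`, `D` on the other side (`ε = ± 1`). -/
theorem plA1 (δ ε : ℝ) (hδ : 0 < δ) (hε : ε = 1 ∨ ε = -1) (v P Q D : ℂ)
    (hP : δ ≤ ε * (P.im - v.im)) (hQ : δ ≤ ε * (Q.im - v.im)) (hD : δ ≤ ε * (v.im - D.im))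
    (a b c : ℝ) (ha : 0 ≤ a) (hb : 0 ≤ b) (hc : 0 ≤ c) :
    δ / 3 * (a + b + c) ≤ ‖a • (P - v) + b • (Q - v) - c • (D - v)‖ := by
  have h1 := Complex.abs_im_le_norm (a • (P - v) + b • (Q - v) - c • (D - v))
  have h2 := pl_eps hε (a • (P - v) + b • (Q - v) - c • (D - v)).im
  rw [pl_im] at h1 h2
  have k1 := mul_le_mul_of_nonneg_left hP ha
  have k2 := mul_le_mul_of_nonneg_left hQ hb
  have k3 := mul_le_mul_of_nonneg_left hD hc
  have k4 : 0 ≤ δ * (a + b + c) := by positivity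
  have e : ε * (a * (P.im - v.im) + b * (Q.im - v.im) - c * (D.im - v.im)) =
      a * (ε * (P.im - v.im)) + b * (ε * (Q.im - v.im)) + c * (ε * (v.im - D.im)) := by ring
  rw [e] at h2
  linarith

/-- `P` on the line `im = v.im`. -/
theorem plA2 (δ ε : ℝ) (hδ : 0 < δ) (hε : ε = 1 ∨ ε = -1) (v P Q D : ℂ)
    (hP : P.im = v.im) (hP' : |P.re - v.re| = δ) (hQ : δ ≤ ε * (Q.im - v.im))
    (hQ' : |Q.re - v.re| ≤ δ) (hD : δ ≤ ε * (v.im - D.im)) (hD' : |D.re - v.re| ≤ δ)
    (a b c : ℝ) (ha : 0 ≤ a) (hb : 0 ≤ b) (hc : 0 ≤ c) :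
    δ / 3 * (a + b + c) ≤ ‖a • (P - v) + b • (Q - v) - c • (D - v)‖ := by
  have h1 := Complex.abs_im_le_norm (a • (P - v) + b • (Q - v) - c • (D - v))
  have h2 := pl_eps hε (a • (P - v) + b • (Q - v) - c • (D - v)).im
  have h3 := Complex.abs_re_le_norm (a • (P - v) + b • (Q - v) - c • (D - v))
  rw [pl_im] at h1 h2
  rw [pl_re] at h3
  rw [hP, sub_self, mul_zero, zero_add] at h1 h2
  have k2 := mul_le_mul_of_nonneg_left hQ hb
  have k3 := mul_le_mul_of_nonneg_left hD hc
  have e : ε * (b * (Q.im - v.im) - c * (D.im - v.im)) =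
      b * (ε * (Q.im - v.im)) + c * (ε * (v.im - D.im)) := by ring
  rw [e] at h2
  have h4 : a * δ - b * δ - c * δ ≤
      |a * (P.re - v.re) + b * (Q.re - v.re) - c * (D.re - v.re)| := by
    have q1 : |a * (P.re - v.re)| = a * δ := by rw [abs_mul, abs_of_nonneg ha, hP']
    have q2 : |b * (Q.re - v.re)| ≤ b * δ := by
      rw [abs_mul, abs_of_nonneg hb]
      exact mul_le_mul_of_nonneg_left hQ' hb
    have q3 : |c * (D.re - v.re)| ≤ c * δ := by
      rw [abs_mul, abs_of_nonneg hc]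
      exact mul_le_mul_of_nonneg_left hD' hc
    have q4 : |a * (P.re - v.re)| ≤
        |a * (P.re - v.re) + b * (Q.re - v.re) - c * (D.re - v.re)| +
          |b * (Q.re - v.re)| + |c * (D.re - v.re)| := by
      have e2 : a * (P.re - v.re) =
          (a * (P.re - v.re) + b * (Q.re - v.re) - c * (D.re - v.re)) +
            -(b * (Q.re - v.re)) + c * (D.re - v.re) := by ring
      have := abs_add_three (a * (P.re - v.re) + b * (Q.re - v.re) - c * (D.re - v.re))
        (-(b * (Q.re - v.re))) (c * (D.re - v.re))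
      rw [← e2, abs_neg] at this
      exact this
    linarith
  linarith

/-- Corner `v` of the upper row, `D` the next vertex of the upper row, `P`, `Q` below `v`, `D`. -/
theorem plB (δ : ℝ) (hδ : 0 < δ) (v P Q D : ℂ)
    (hP : P.im = v.im) (hP' : P.re - v.re = -δ) (hQ : Q.im = D.im) (hQ' : Q.re - v.re = -δ)
    (hD : δ ≤ |D.im - v.im|) (hD' : D.re = v.re)
    (a b c : ℝ) (ha : 0 ≤ a) (hb : 0 ≤ b) (hc : 0 ≤ c) :
    δ / 3 * (a + b + c) ≤ ‖a • (P - v) + b • (Q - v) - c • (D - v)‖ := by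
  have h1 := Complex.abs_im_le_norm (a • (P - v) + b • (Q - v) - c • (D - v))
  have h3 := Complex.abs_re_le_norm (a • (P - v) + b • (Q - v) - c • (D - v))
  rw [pl_im] at h1
  rw [pl_re] at h3
  have e1 : a * (P.im - v.im) + b * (Q.im - v.im) - c * (D.im - v.im) =
      (b - c) * (D.im - v.im) := by
    rw [hP, hQ]
    ring
  have e2 : a * (P.re - v.re) + b * (Q.re - v.re) - c * (D.re - v.re) = -(δ * (a + b)) := by
    rw [hP', hQ', hD']
    ring
  rw [e1, abs_mul] at h1
  rw [e2, abs_neg, abs_of_nonneg (by positivity)] at h3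
  have k1 := mul_le_mul_of_nonneg_left hD (abs_nonneg (b - c))
  have k2 := mul_le_mul_of_nonneg_right (neg_abs_le (b - c)) hδ.le
  have k3 := mul_nonneg hδ.le ha
  nlinarith

/-- Common edge `v P` in the upper row, `Q` below `v` or below `P`. -/
theorem plC (δ : ℝ) (hδ : 0 < δ) (v P Q : ℂ) (hP : P.re = v.re) (hP' : δ ≤ |P.im - v.im|)
    (hQ : Q.re - v.re = -δ) (hQ' : Q.im = v.im ∨ Q.im = P.im)
    (a b : ℝ) (hb : 0 ≤ b) :
    δ / 3 * (|a| + b) ≤ ‖a • (P - v) + b • (Q - v)‖ := by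
  have h1 := Complex.abs_im_le_norm (a • (P - v) + b • (Q - v))
  have h3 := Complex.abs_re_le_norm (a • (P - v) + b • (Q - v))
  have e1 : (a • (P - v) + b • (Q - v)).im = a * (P.im - v.im) + b * (Q.im - v.im) := by simp
  have e2 : (a • (P - v) + b • (Q - v)).re = -(δ * b) := by
    have : (a • (P - v) + b • (Q - v)).re = a * (P.re - v.re) + b * (Q.re - v.re) := by simp
    rw [this, hP, hQ]
    ring
  rw [e1] at h1
  rw [e2, abs_neg, abs_of_nonneg (by positivity)] at h3
  rcases hQ' with h | h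
  · rw [h, sub_self, mul_zero, add_zero, abs_mul] at h1
    have k1 := mul_le_mul_of_nonneg_left hP' (abs_nonneg a)
    nlinarith
  · rw [h, ← add_mul, abs_mul] at h1
    have k1 := mul_le_mul_of_nonneg_left hP' (abs_nonneg (a + b))
    have k2 : |a| ≤ |a + b| + b := by
      have := abs_add_le (a + b) (-b)
      rw [add_neg_cancel_right, abs_neg, abs_of_nonneg hb] at this
      exact this
    have k3 := mul_le_mul_of_nonneg_left k2 hδ.le
    nlinarith

/-- Triangle `u P Q` with the vertical side `P Q`, edge `w w'` of the upper row which starts above `u`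
and goes to the other side: distance at least `δ / 2`. (`x = λ u + ..`: `|Im|` gives `(1 - λ) δ`, `Re`
gives `λ δ`.) -/
theorem plE (δ ε : ℝ) (hδ : 0 < δ) (hε : ε = 1 ∨ ε = -1) (u P Q w w' : ℂ)
    (hu : u.re = -δ) (hw : w.re = 0) (hw' : w'.re = 0) (huw : w.im = u.im)
    (hP : δ ≤ ε * (P.im - u.im)) (hQ : δ ≤ ε * (Q.im - u.im)) (hw2 : 0 ≤ ε * (u.im - w'.im))
    (hP2 : P.re ≤ 0) (hQ2 : Q.re ≤ 0)
    (x : ℂ) (hx : x ∈ convexHull ℝ {u, P, Q}) (y : ℂ) (hy : y ∈ segment ℝ w w') :
    δ / 2 ≤ ‖x - y‖ := by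
  have hc : Convex ℝ {z : ℂ | δ ≤ ε * (z.im - u.im) - z.re} := by
    intro z hz z' hz' a b ha hb hab
    simp only [mem_setOf_eq] at hz hz' ⊢
    have k1 := mul_le_mul_of_nonneg_left hz ha
    have k2 := mul_le_mul_of_nonneg_left hz' hb
    have e : ε * ((a • z + b • z').im - u.im) - (a • z + b • z').re =
        a * (ε * (z.im - u.im) - z.re) + b * (ε * (z'.im - u.im) - z'.re) := by
      have e1 : (a • z + b • z').im = a * z.im + b * z'.im := by simp
      have e2 : (a • z + b • z').re = a * z.re + b * z'.re := by simp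
      rw [e1, e2]
      linear_combination (ε * u.im) * hab
    rw [e]
    have e3 : a * δ + b * δ = δ := by rw [← add_mul, hab, one_mul]
    linarith
  have h1 : δ ≤ ε * (x.im - u.im) - x.re := by
    refine convexHull_min ?_ hc hx
    rintro z (rfl | rfl | rfl)
    · simp only [mem_setOf_eq]
      rw [sub_self, mul_zero, hu]
      linarith
    · simp only [mem_setOf_eq]
      linarith
    · simp only [mem_setOf_eq]
      linarith
  obtain ⟨a, b, ha, hb, hab, rfl⟩ := hy
  have e1 : (a • w + b • w').im = u.im - b * (u.im - w'.im) := by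
    have : (a • w + b • w').im = a * w.im + b * w'.im := by simp
    rw [this, huw]
    linear_combination u.im * hab
  have e2 : (a • w + b • w').re = 0 := by
    have : (a • w + b • w').re = a * w.re + b * w'.re := by simp
    rw [this, hw, hw', mul_zero, mul_zero, add_zero]
  have h2 := Complex.abs_im_le_norm (x - (a • w + b • w'))
  have h3 := Complex.abs_re_le_norm (x - (a • w + b • w'))
  have h4 := pl_eps hε (x - (a • w + b • w')).im
  have h5 := neg_le_abs (x - (a • w + b • w')).re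
  rw [Complex.sub_im, e1] at h4 h2
  rw [Complex.sub_re, e2, sub_zero] at h5 h3
  have h6 := mul_nonneg hb hw2
  have e3 : ε * (x.im - (u.im - b * (u.im - w'.im))) =
      ε * (x.im - u.im) + b * (ε * (u.im - w'.im)) := by ring
  rw [e3] at h4
  linarith

end Pool.Agent.Lib.MP_ca0971_gt.OT.Sm
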