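import Pool.Agent.Lib.MP_ca0971_gt.OT.Sm.Def

/-!
Transfer of quantitative conditions from the plane of `ζ` to `E`.
-/

set_option autoImplicit false

namespace Pool.Agent.Lib.MP_ca0971_gt.OT.Sm

open Set Metric Filter Topology

/-- Taylor estimate for one point. -/
theorem tay1 {c1 M : ℝ} (hM : 0 < M) {G : ℂ → E} {G' : ℂ → (ℂ →L[ℝ] E)}
    (hG : Flat c1 M G G') {h : ℝ} (hh : h ≤ 1) {v P : ℂ}
    (rv : v.re ∈ Icc (-1 : ℝ) 0) (rP : P.re ∈ Icc (-1 : ℝ) 0) (hP : ‖P - v‖ ≤ h) :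
    ‖G P - G v - G' v (P - v)‖ ≤ M * h ^ 2 :=
  (hG.ty P v rP rv (hP.trans hh)).trans
    (mul_le_mul_of_nonneg_left (pow_le_pow_left₀ (norm_nonneg _) hP 2) hM.le)

/-- Taylor estimate for a combination. -/
theorem tay2 {c1 M : ℝ} (hM : 0 < M) {G : ℂ → E} {G' : ℂ → (ℂ →L[ℝ] E)}
    (hG : Flat c1 M G G') {h : ℝ} (hh : h ≤ 1) {v P Q D : ℂ}
    (rv : v.re ∈ Icc (-1 : ℝ) 0) (rP : P.re ∈ Icc (-1 : ℝ) 0) (rQ : Q.re ∈ Icc (-1 : ℝ) 0)
    (rD : D.re ∈ Icc (-1 : ℝ) 0) (hP : ‖P - v‖ ≤ h) (hQ : ‖Q - v‖ ≤ h) (hD : ‖D - v‖ ≤ h)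
    (a b c : ℝ) :
    ‖(a • (G P - G v) + b • (G Q - G v) - c • (G D - G v)) -
      G' v (a • (P - v) + b • (Q - v) - c • (D - v))‖ ≤ M * h ^ 2 * (|a| + |b| + |c|) := by
  have e1 := tay1 hM hG hh rv rP hP
  have e2 := tay1 hM hG hh rv rQ hQ
  have e3 := tay1 hM hG hh rv rD hD
  have h1 : (a • (G P - G v) + b • (G Q - G v) - c • (G D - G v)) -
      G' v (a • (P - v) + b • (Q - v) - c • (D - v)) =
      a • (G P - G v - G' v (P - v)) + b • (G Q - G v - G' v (Q - v)) -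
        c • (G D - G v - G' v (D - v)) := by
    rw [map_sub, map_add, map_smul, map_smul, map_smul]
    simp only [smul_sub]
    abel
  rw [h1]
  calc ‖a • (G P - G v - G' v (P - v)) + b • (G Q - G v - G' v (Q - v)) -
        c • (G D - G v - G' v (D - v))‖
      ≤ ‖a • (G P - G v - G' v (P - v))‖ + ‖b • (G Q - G v - G' v (Q - v))‖ +
        ‖c • (G D - G v - G' v (D - v))‖ :=
        (norm_sub_le _ _).trans (add_le_add (norm_add_le _ _) le_rfl)
    _ ≤ |a| * (M * h ^ 2) + |b| * (M * h ^ 2) + |c| * (M * h ^ 2) := by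
        rw [norm_smul, norm_smul, norm_smul, Real.norm_eq_abs, Real.norm_eq_abs, Real.norm_eq_abs]
        gcongr
    _ = M * h ^ 2 * (|a| + |b| + |c|) := by ring

/-- `a (G P - G v) + b (G Q - G v) - c (G D - G v) = G' v ξ + error`, `‖G' v ξ‖ ≥ c1 ‖ξ‖ ≥ c1 κ (a + b + c)`,
`‖error‖ ≤ M h² (a + b + c)`. -/
theorem cn_of (c1 M : ℝ) (hc1 : 0 < c1) (hM : 0 < M) (G : ℂ → E) (G' : ℂ → (ℂ →L[ℝ] E))
    (hG : Flat c1 M G G') (κ h : ℝ) (hh : h ≤ 1) (hk : M * h ^ 2 < c1 * κ) (v P Q D : ℂ)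
    (rv : v.re ∈ Icc (-1 : ℝ) 0) (rP : P.re ∈ Icc (-1 : ℝ) 0) (rQ : Q.re ∈ Icc (-1 : ℝ) 0)
    (rD : D.re ∈ Icc (-1 : ℝ) 0) (hP : ‖P - v‖ ≤ h) (hQ : ‖Q - v‖ ≤ h) (hD : ‖D - v‖ ≤ h)
    (hpl : ∀ a b c : ℝ, 0 ≤ a → 0 ≤ b → 0 ≤ c →
      κ * (a + b + c) ≤ ‖a • (P - v) + b • (Q - v) - c • (D - v)‖) :
    Cn (G v) (G P) (G Q) (G D) := by
  intro a b c ha hb hc h0
  have h1 := tay2 hM hG hh rv rP rQ rD hP hQ hD a b c
  rw [h0, zero_sub, norm_neg, abs_of_nonneg ha, abs_of_nonneg hb, abs_of_nonneg hc] at h1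
  have h2 := hG.dlo v rv (a • (P - v) + b • (Q - v) - c • (D - v))
  have h3 := mul_le_mul_of_nonneg_left (hpl a b c ha hb hc) hc1.le
  have h4 : (c1 * κ - M * h ^ 2) * (a + b + c) ≤ 0 := by nlinarith
  have h5 : a + b + c ≤ 0 := by
    by_contra h6
    push Not at h6
    have := mul_pos (sub_pos.2 hk) h6
    linarith
  exact ⟨by linarith, by linarith, by linarith⟩

/-- The same with `- t eZ`: `v.re = D.re = 0`, so `ξ.re ≤ 0` and `‖G' v ξ - t eZ‖ ≥ c1 (‖ξ‖ + t)`. -/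
theorem scn_of (c1 M : ℝ) (hc1 : 0 < c1) (hM : 0 < M) (G : ℂ → E) (G' : ℂ → (ℂ →L[ℝ] E))
    (hG : Flat c1 M G G') (hS : FlatS c1 G') (κ h : ℝ) (hh : h ≤ 1) (hk : M * h ^ 2 < c1 * κ)
    (v P Q D : ℂ) (rv : v.re = 0) (rP : P.re ∈ Icc (-1 : ℝ) 0) (rQ : Q.re ∈ Icc (-1 : ℝ) 0)
    (rD : D.re = 0) (hP : ‖P - v‖ ≤ h) (hQ : ‖Q - v‖ ≤ h) (hD : ‖D - v‖ ≤ h)
    (hpl : ∀ a b c : ℝ, 0 ≤ a → 0 ≤ b → 0 ≤ c →
      κ * (a + b + c) ≤ ‖a • (P - v) + b • (Q - v) - c • (D - v)‖) :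
    SCn (G v) (G P) (G Q) (G D) := by
  intro a b c t ha hb hc ht h0
  have rv' : v.re ∈ Icc (-1 : ℝ) 0 := by rw [rv]; exact ⟨by norm_num, le_rfl⟩
  have rD' : D.re ∈ Icc (-1 : ℝ) 0 := by rw [rD]; exact ⟨by norm_num, le_rfl⟩
  have h1 := tay2 hM hG hh rv' rP rQ rD' hP hQ hD a b c
  rw [abs_of_nonneg ha, abs_of_nonneg hb, abs_of_nonneg hc, sub_eq_zero.1 h0, ← norm_neg,
    neg_sub] at h1
  have hre : (a • (P - v) + b • (Q - v) - c • (D - v)).re ≤ 0 := by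
    simp only [Complex.sub_re, Complex.add_re, Complex.real_smul, Complex.mul_re,
      Complex.ofReal_re, Complex.ofReal_im, rv, rD]
    have := mul_nonpos_of_nonneg_of_nonpos ha rP.2
    have := mul_nonpos_of_nonneg_of_nonpos hb rQ.2
    linarith
  have h2 := hS v rv (a • (P - v) + b • (Q - v) - c • (D - v)) hre t ht
  have h3 := mul_le_mul_of_nonneg_left (hpl a b c ha hb hc) hc1.le
  have h4 : (c1 * κ - M * h ^ 2) * (a + b + c) + c1 * t ≤ 0 := by nlinarith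
  have h7 : 0 ≤ (c1 * κ - M * h ^ 2) * (a + b + c) :=
    mul_nonneg (sub_pos.2 hk).le (by linarith)
  have h8 : 0 ≤ c1 * t := mul_nonneg hc1.le ht
  have h5 : a + b + c ≤ 0 := by
    by_contra h6
    push Not at h6
    have := mul_pos (sub_pos.2 hk) h6
    linarith
  have h9 : t ≤ 0 := by
    by_contra h6
    push Not at h6
    have := mul_pos hc1 h6
    linarith
  exact ⟨by linarith, by linarith, by linarith, by linarith⟩

theorem sh_of (c1 M : ℝ) (hc1 : 0 < c1) (hM : 0 < M) (G : ℂ → E) (G' : ℂ → (ℂ →L[ℝ] E))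
    (hG : Flat c1 M G G') (hS : FlatS c1 G') (κ h : ℝ) (hh : h ≤ 1) (hk : M * h ^ 2 < c1 * κ)
    (v P Q : ℂ) (rv : v.re = 0) (rP : P.re = 0) (rQ : Q.re ∈ Icc (-1 : ℝ) 0)
    (hP : ‖P - v‖ ≤ h) (hQ : ‖Q - v‖ ≤ h)
    (hpl : ∀ a b : ℝ, 0 ≤ b → κ * (|a| + b) ≤ ‖a • (P - v) + b • (Q - v)‖) :
    SH (G v) (G P) (G Q) := by
  intro a b t hb ht h0
  have rv' : v.re ∈ Icc (-1 : ℝ) 0 := by rw [rv]; exact ⟨by norm_num, le_rfl⟩
  have rP' : P.re ∈ Icc (-1 : ℝ) 0 := by rw [rP]; exact ⟨by norm_num, le_rfl⟩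
  have hv : ‖v - v‖ ≤ h := by
    rw [sub_self, norm_zero]
    exact (norm_nonneg _).trans hP
  have h1 := tay2 hM hG hh rv' rP' rQ rv' hP hQ hv a b 0
  simp only [zero_smul, sub_zero, abs_zero, add_zero] at h1
  rw [abs_of_nonneg hb, sub_eq_zero.1 h0, ← norm_neg, neg_sub] at h1
  have hre : (a • (P - v) + b • (Q - v)).re ≤ 0 := by
    simp only [Complex.sub_re, Complex.add_re, Complex.real_smul, Complex.mul_re,
      Complex.ofReal_re, Complex.ofReal_im, rv, rP]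
    have := mul_nonpos_of_nonneg_of_nonpos hb rQ.2
    linarith
  have h2 := hS v rv (a • (P - v) + b • (Q - v)) hre t ht
  have h3 := mul_le_mul_of_nonneg_left (hpl a b hb) hc1.le
  have ha := abs_nonneg a
  have h4 : (c1 * κ - M * h ^ 2) * (|a| + b) + c1 * t ≤ 0 := by nlinarith
  have h7 : 0 ≤ (c1 * κ - M * h ^ 2) * (|a| + b) :=
    mul_nonneg (sub_pos.2 hk).le (by linarith)
  have h8 : 0 ≤ c1 * t := mul_nonneg hc1.le ht
  have h5 : |a| + b ≤ 0 := by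
    by_contra h6
    push Not at h6
    have := mul_pos (sub_pos.2 hk) h6
    linarith
  have h9 : t ≤ 0 := by
    by_contra h6
    push Not at h6
    have := mul_pos hc1 h6
    linarith
  exact ⟨abs_eq_zero.1 (by linarith), by linarith, by linarith⟩

/-- a convex combination of three values of `G` is close to the value at the combination -/
theorem tay3 {c1 M : ℝ} (hM : 0 < M) {G : ℂ → E} {G' : ℂ → (ℂ →L[ℝ] E)}
    (hG : Flat c1 M G G') {h : ℝ} (hh : h ≤ 1) {P Q R : ℂ}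
    (rP : P.re ∈ Icc (-1 : ℝ) 0) (rQ : Q.re ∈ Icc (-1 : ℝ) 0) (rR : R.re ∈ Icc (-1 : ℝ) 0)
    (h1 : ‖P - Q‖ ≤ h) (h2 : ‖P - R‖ ≤ h) (h3 : ‖Q - R‖ ≤ h) {a b c : ℝ} (ha : 0 ≤ a)
    (hb : 0 ≤ b) (hc : 0 ≤ c) (hs : a + b + c = 1) :
    ‖(a • G P + b • G Q + c • G R) - G (a • P + b • Q + c • R)‖ ≤ M * h ^ 2 := by
  have h0 : 0 ≤ h := (norm_nonneg _).trans h1
  set x : ℂ := a • P + b • Q + c • R with hx
  have hxe : x = a • P + b • Q + c • R := hx
  have rx : x.re ∈ Icc (-1 : ℝ) 0 := by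
    rw [hxe]
    simp only [Complex.add_re, Complex.real_smul, Complex.mul_re, Complex.ofReal_re,
      Complex.ofReal_im, zero_mul, sub_zero]
    obtain ⟨p1, p2⟩ := rP
    obtain ⟨q1, q2⟩ := rQ
    obtain ⟨r1, r2⟩ := rR
    constructor
    · nlinarith [mul_le_mul_of_nonneg_left p1 ha, mul_le_mul_of_nonneg_left q1 hb,
        mul_le_mul_of_nonneg_left r1 hc]
    · nlinarith [mul_le_mul_of_nonneg_left p2 ha, mul_le_mul_of_nonneg_left q2 hb,
        mul_le_mul_of_nonneg_left r2 hc]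
  have comb : ∀ z d e : ℂ, ∀ s t : ℝ, 0 ≤ s → 0 ≤ t → s + t ≤ 1 → ‖d‖ ≤ h → ‖e‖ ≤ h →
      z = s • d + t • e → ‖z‖ ≤ h := by
    intro z d e s t hs ht hst hd he hz
    rw [hz]
    calc ‖s • d + t • e‖ ≤ ‖s • d‖ + ‖t • e‖ := norm_add_le _ _
      _ = s * ‖d‖ + t * ‖e‖ := by
          rw [norm_smul, norm_smul, Real.norm_of_nonneg hs, Real.norm_of_nonneg ht]
      _ ≤ s * h + t * h := by gcongr
      _ ≤ h := by nlinarith
  have hca : a = 1 - b - c := by linarith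
  have e1 : ‖P - x‖ ≤ h := by
    refine comb _ (P - Q) (P - R) b c hb hc (by linarith) h1 h2 ?_
    rw [hxe, hca]
    module
  have e2 : ‖Q - x‖ ≤ h := by
    refine comb _ (Q - P) (Q - R) a c ha hc (by linarith) (by rw [norm_sub_rev]; exact h1) h3 ?_
    rw [hxe, show b = 1 - a - c by linarith]
    module
  have e3 : ‖R - x‖ ≤ h := by
    refine comb _ (R - P) (R - Q) a b ha hb (by linarith) (by rw [norm_sub_rev]; exact h2)
      (by rw [norm_sub_rev]; exact h3) ?_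
    rw [hxe, show c = 1 - a - b by linarith]
    module
  have t1 := tay1 hM hG hh rx rP e1
  have t2 := tay1 hM hG hh rx rQ e2
  have t3 := tay1 hM hG hh rx rR e3
  have hz : a • (P - x) + b • (Q - x) + c • (R - x) = 0 := by
    rw [hxe, hca]
    module
  have hL : a • G' x (P - x) + b • G' x (Q - x) + c • G' x (R - x) = 0 := by
    rw [← map_smul, ← map_smul, ← map_smul, ← map_add, ← map_add, hz, map_zero]
  have key : (a • G P + b • G Q + c • G R) - G x = a • (G P - G x - G' x (P - x)) +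
      b • (G Q - G x - G' x (Q - x)) + c • (G R - G x - G' x (R - x)) := by
    have h5 : a • (G P - G x - G' x (P - x)) + b • (G Q - G x - G' x (Q - x)) +
        c • (G R - G x - G' x (R - x)) = (a • G P + b • G Q + c • G R) - (a + b + c) • G x -
          (a • G' x (P - x) + b • G' x (Q - x) + c • G' x (R - x)) := by
      module
    rw [h5, hs, one_smul, hL, sub_zero]
  rw [key]
  calc ‖a • (G P - G x - G' x (P - x)) + b • (G Q - G x - G' x (Q - x)) +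
        c • (G R - G x - G' x (R - x))‖
      ≤ ‖a • (G P - G x - G' x (P - x))‖ + ‖b • (G Q - G x - G' x (Q - x))‖ +
        ‖c • (G R - G x - G' x (R - x))‖ :=
        (norm_add_le _ _).trans (add_le_add (norm_add_le _ _) le_rfl)
    _ ≤ a * (M * h ^ 2) + b * (M * h ^ 2) + c * (M * h ^ 2) := by
        rw [norm_smul, norm_smul, norm_smul, Real.norm_of_nonneg ha, Real.norm_of_nonneg hb,
          Real.norm_of_nonneg hc]
        gcongr
    _ = M * h ^ 2 := by rw [← add_mul, ← add_mul, hs, one_mul]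

/-- convex combinations of three points -/
theorem mem_hull3 {V : Type} [AddCommGroup V] [Module ℝ V] {P Q R A : V} :
    A ∈ convexHull ℝ {P, Q, R} ↔ ∃ a b c : ℝ, 0 ≤ a ∧ 0 ≤ b ∧ 0 ≤ c ∧ a + b + c = 1 ∧
      a • P + b • Q + c • R = A := by
  constructor
  · intro h
    rw [convexHull_insert (by simp), convexHull_pair] at h
    rw [mem_convexJoin] at h
    obtain ⟨x, hx, y, ⟨s, t, hs, ht, hst, rfl⟩, ⟨u, w, hu, hw, huw, rfl⟩⟩ := h
    rw [mem_singleton_iff] at hx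
    subst hx
    refine ⟨u, w * s, w * t, hu, mul_nonneg hw hs, mul_nonneg hw ht, ?_, ?_⟩
    · rw [add_assoc, ← mul_add, hst, mul_one, huw]
    · module
  · rintro ⟨a, b, c, ha, hb, hc, hs, rfl⟩
    have h1 : P ∈ convexHull ℝ {P, Q, R} := subset_convexHull ℝ _ (by simp)
    have h2 : Q ∈ convexHull ℝ {P, Q, R} := subset_convexHull ℝ _ (by simp)
    have h3 : R ∈ convexHull ℝ {P, Q, R} := subset_convexHull ℝ _ (by simp)
    by_cases hbc : b + c = 0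
    · have hb0 : b = 0 := by linarith
      have hc0 : c = 0 := by linarith
      have ha1 : a = 1 := by linarith
      rw [hb0, hc0, ha1]
      simpa using h1
    · have h4 : (b / (b + c)) • Q + (c / (b + c)) • R ∈ convexHull ℝ {P, Q, R} :=
        (convex_convexHull ℝ _) h2 h3 (div_nonneg hb (by linarith)) (div_nonneg hc (by linarith))
          (by rw [← add_div, div_self hbc])
      have h5 := (convex_convexHull ℝ {P, Q, R}) h1 h4 ha (by linarith : 0 ≤ b + c)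
        (by linarith)
      convert h5 using 1
      rw [smul_add, smul_smul, smul_smul, mul_div_cancel₀ _ hbc, mul_div_cancel₀ _ hbc, add_assoc]

/-- A point `A = Σ λ_i G z_i` of the image triangle is `M h²`-close to `G x`, `x = Σ λ_i z_i`
(Taylor at `x`, `Σ λ_i (z_i - x) = 0`, `‖z_i - x‖ ≤ h`). -/
theorem ds_of (c1 M : ℝ) (hM : 0 < M) (G : ℂ → E) (G' : ℂ → (ℂ →L[ℝ] E))
    (hG : Flat c1 M G G') (h e : ℝ) (hh : h ≤ 1) (he : 2 * M * h ^ 2 < e) (P Q R D D' : ℂ)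
    (rP : P.re ∈ Icc (-1 : ℝ) 0) (rQ : Q.re ∈ Icc (-1 : ℝ) 0) (rR : R.re ∈ Icc (-1 : ℝ) 0)
    (rD : D.re ∈ Icc (-1 : ℝ) 0) (rD' : D'.re ∈ Icc (-1 : ℝ) 0)
    (h1 : ‖P - Q‖ ≤ h) (h2 : ‖P - R‖ ≤ h) (h3 : ‖Q - R‖ ≤ h) (h4 : ‖D - D'‖ ≤ h)
    (hsep : ∀ x ∈ convexHull ℝ {P, Q, R}, ∀ y ∈ segment ℝ D D', e ≤ ‖G x - G y‖) :
    Ds (G P) (G Q) (G R) (G D) (G D') := by
  refine Set.disjoint_left.2 fun A hA hA' => ?_
  obtain ⟨a, b, c, ha, hb, hc, hs, hA1⟩ := mem_hull3.1 hA'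
  obtain ⟨s, t, hs0, ht0, hst, hA2⟩ := hA
  have e1 := tay3 hM hG hh rP rQ rR h1 h2 h3 ha hb hc hs
  have hn : ‖D - D‖ ≤ h := by
    rw [sub_self, norm_zero]
    exact (norm_nonneg _).trans h1
  have e2 := tay3 hM hG hh rD rD rD' hn h4 h4 (le_refl (0 : ℝ)) hs0 ht0 (by linarith)
  rw [zero_smul, zero_add, zero_smul, zero_add, hA2] at e2
  rw [hA1] at e1
  have h5 := hsep (a • P + b • Q + c • R) (mem_hull3.2 ⟨a, b, c, ha, hb, hc, hs, rfl⟩)
    (s • D + t • D') ⟨s, t, hs0, ht0, hst, rfl⟩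
  have h6 : ‖G (a • P + b • Q + c • R) - G (s • D + t • D')‖ ≤ M * h ^ 2 + M * h ^ 2 := by
    have h7 : G (a • P + b • Q + c • R) - G (s • D + t • D') =
        (A - G (s • D + t • D')) - (A - G (a • P + b • Q + c • R)) := by abel
    rw [h7]
    exact (norm_sub_le _ _).trans (add_le_add e2 e1)
  linarith

/-- Separation by a column: `x.im` and `y.im` differ by at least `δ` and at most `2 π - δ`. (If the
difference is more than `π` use `per`.) -/
theorem far_of (c1 M : ℝ) (hc1 : 0 < c1) (G : ℂ → E) (G' : ℂ → (ℂ →L[ℝ] E)) (hG : Flat c1 M G G')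
    (δ : ℝ) (hδ : 0 < δ) (x y : ℂ) (rx : x.re ∈ Icc (-1 : ℝ) 0) (ry : y.re ∈ Icc (-1 : ℝ) 0)
    (h1 : δ ≤ y.im - x.im) (h2 : y.im - x.im ≤ 2 * Real.pi - δ) :
    c1 * δ ≤ ‖G x - G y‖ := by
  by_cases h : y.im - x.im ≤ Real.pi
  · have e1 := hG.lo x y rx ry (by rw [abs_le]; constructor <;> linarith)
    have e2 : δ ≤ ‖x - y‖ := by
      have h3 := Complex.abs_im_le_norm (x - y)
      rw [Complex.sub_im, abs_sub_comm] at h3
      exact h1.trans ((le_abs_self _).trans h3)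
    exact (mul_le_mul_of_nonneg_left e2 hc1.le).trans e1
  · push Not at h
    have him : (x + 2 * Real.pi * Complex.I).im = x.im + 2 * Real.pi := by
      simp
    have hre : (x + 2 * Real.pi * Complex.I).re = x.re := by
      simp
    have e1 := hG.lo (x + 2 * Real.pi * Complex.I) y (by rw [hre]; exact rx) ry (by
      rw [him, abs_le]
      constructor <;> linarith)
    rw [hG.per] at e1
    have e2 : δ ≤ ‖(x + 2 * Real.pi * Complex.I) - y‖ := by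
      have h3 := Complex.abs_im_le_norm ((x + 2 * Real.pi * Complex.I) - y)
      rw [Complex.sub_im, him] at h3
      have h4 := le_abs_self (x.im + 2 * Real.pi - y.im)
      linarith
    exact (mul_le_mul_of_nonneg_left e2 hc1.le).trans e1

end Pool.Agent.Lib.MP_ca0971_gt.OT.Sm
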