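import Pool.Agent.Lib.MP_ca0971_gt.OT.Sm.LocD
import Pool.Agent.Lib.MP_ca0971_gt.OT.Sm.Tr
import Pool.Agent.Lib.MP_ca0971_gt.OT.Sm.Plan
import Pool.Agent.Lib.MP_ca0971_gt.OT.Sm.OpenB

set_option autoImplicit false

namespace Pool.Agent.Lib.MP_ca0971_gt.OT.Sm

open Set Metric Filter Topology

/-- The point of the row `r` and the column line `k` in the plane of `ζ`. -/
noncomputable def zt (m : ℕ) (θ : ℤ → ℝ) (r : ℕ) (k : ℤ) : ℂ := ⟨-((r : ℝ) * (Real.pi / m)), θ k⟩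

/-- Differences of the angles: `δ (b - a) ≤ θ b - θ a ≤ 3 δ (b - a)` for `a ≤ b`, `δ = π / m`. -/
theorem th_diff (m : ℕ) (θ : ℤ → ℝ) (h : Prt m θ) (a b : ℤ) (hab : a ≤ b) :
    Real.pi / m * (b - a) ≤ θ b - θ a ∧ θ b - θ a ≤ 3 * (Real.pi / m) * (b - a) := by
  obtain ⟨k, rfl⟩ := Int.le.dest hab
  clear hab
  induction k with
  | zero => simp
  | succ k ih =>
    have h1 := h.lo (a + k)
    have h2 := h.hi (a + k)
    have e : a + ((k + 1 : ℕ) : ℤ) = a + (k : ℤ) + 1 := by push_cast; ring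
    rw [e]
    push_cast at ih ⊢
    constructor
    · linarith [ih.1]
    · linarith [ih.2]

/-- real parts of the rows 0 and 1 -/
theorem layA_re (m : ℕ) (θ : ℤ → ℝ) {r : ℕ} (hr : Ly 0 r) (k : ℤ) :
    (zt m θ r k).re = 0 ∨ (zt m θ r k).re = -(Real.pi / m) := by
  rcases hr with rfl | rfl
  · left
    simp [zt]
  · right
    simp [zt]

theorem layA_icc (m : ℕ) (θ : ℤ → ℝ) (h0 : 0 ≤ Real.pi / m) (h1 : Real.pi / m ≤ 1) {r : ℕ}
    (hr : Ly 0 r) (k : ℤ) : (zt m θ r k).re ∈ Icc (-1 : ℝ) 0 := by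
  rcases layA_re m θ hr k with h | h
  · rw [h]
    exact ⟨by norm_num, le_rfl⟩
  · rw [h]
    exact ⟨by linarith, by linarith⟩

theorem layA_sub (m : ℕ) (θ : ℤ → ℝ) (h0 : 0 ≤ Real.pi / m) {r q : ℕ}
    (hr : Ly 0 r) (hq : Ly 0 q) (k l : ℤ) :
    |(zt m θ q l).re - (zt m θ r k).re| ≤ Real.pi / m := by
  rcases layA_re m θ hr k with h | h <;> rcases layA_re m θ hq l with h' | h' <;>
    rw [h, h', abs_le] <;> constructor <;> linarith

theorem layA_ne (m : ℕ) (θ : ℤ → ℝ) (h0 : 0 ≤ Real.pi / m) {r q : ℕ}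
    (hr : Ly 0 r) (hq : Ly 0 q) (hrq : r ≠ q) (k : ℤ) :
    |(zt m θ q k).re - (zt m θ r k).re| = Real.pi / m := by
  rcases hr with rfl | rfl <;> rcases hq with rfl | rfl
  · exact absurd rfl hrq
  · have e : (zt m θ (0 + 1) k).re - (zt m θ 0 k).re = -(Real.pi / m) := by
      simp [zt]
    rw [e, abs_neg, abs_of_nonneg h0]
  · have e : (zt m θ 0 k).re - (zt m θ (0 + 1) k).re = Real.pi / m := by
      simp [zt]
    rw [e, abs_of_nonneg h0]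
  · exact absurd rfl hrq

/-- distance of two points in the same or in neighbouring columns -/
theorem layA_norm (m : ℕ) (θ : ℤ → ℝ) (h0 : 0 ≤ Real.pi / m) {r q : ℕ}
    (hr : Ly 0 r) (hq : Ly 0 q) (k l : ℤ) (hkl : |θ l - θ k| ≤ 3 * (Real.pi / m)) :
    ‖zt m θ q l - zt m θ r k‖ ≤ 4 * (Real.pi / m) := by
  have h1 := Complex.norm_le_abs_re_add_abs_im (zt m θ q l - zt m θ r k)
  have h2 := layA_sub m θ h0 hr hq k l
  rw [Complex.sub_re, Complex.sub_im] at h1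
  have h3 : |(zt m θ q l).im - (zt m θ r k).im| ≤ 3 * (Real.pi / m) := hkl
  linarith

/-- separation of two far columns -/
theorem layA_far (c1 M : ℝ) (hc1 : 0 < c1) (G : ℂ → E) (G' : ℂ → (ℂ →L[ℝ] E)) (hG : Flat c1 M G G')
    (δ : ℝ) (hδ : 0 < δ) {A B C D D' : ℂ} {lo hi lo' hi' : ℝ}
    (rA : A.re ∈ Icc (-1 : ℝ) 0) (rB : B.re ∈ Icc (-1 : ℝ) 0) (rC : C.re ∈ Icc (-1 : ℝ) 0)
    (rD : D.re ∈ Icc (-1 : ℝ) 0) (rD' : D'.re ∈ Icc (-1 : ℝ) 0)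
    (iA : A.im ∈ Icc lo hi) (iB : B.im ∈ Icc lo hi) (iC : C.im ∈ Icc lo hi)
    (iD : D.im ∈ Icc lo' hi') (iD' : D'.im ∈ Icc lo' hi')
    (g1 : δ ≤ lo' - hi) (g2 : hi' - lo ≤ 2 * Real.pi - δ) :
    ∀ x ∈ convexHull ℝ {A, B, C}, ∀ y ∈ segment ℝ D D', c1 * δ ≤ ‖G x - G y‖ := by
  intro x hx y hy
  have hcv : ∀ a b : ℝ, Convex ℝ {z : ℂ | z.re ∈ Icc (-1 : ℝ) 0 ∧ z.im ∈ Icc a b} := by
    intro a b
    have e1 : Convex ℝ (Complex.reCLM ⁻¹' Icc (-1 : ℝ) 0) :=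
      (convex_Icc (-1 : ℝ) 0).linear_preimage Complex.reCLM.toLinearMap
    have e2 : Convex ℝ (Complex.imCLM ⁻¹' Icc a b) :=
      (convex_Icc a b).linear_preimage Complex.imCLM.toLinearMap
    exact e1.inter e2
  have hx' : x ∈ {z : ℂ | z.re ∈ Icc (-1 : ℝ) 0 ∧ z.im ∈ Icc lo hi} := by
    refine convexHull_min ?_ (hcv lo hi) hx
    rintro z (rfl | rfl | rfl)
    · exact ⟨rA, iA⟩
    · exact ⟨rB, iB⟩
    · exact ⟨rC, iC⟩
  have hy' : y ∈ {z : ℂ | z.re ∈ Icc (-1 : ℝ) 0 ∧ z.im ∈ Icc lo' hi'} :=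
    (hcv lo' hi').segment_subset ⟨rD, iD⟩ ⟨rD', iD'⟩ hy
  refine far_of c1 M hc1 G G' hG δ hδ x y hx'.1 hy'.1 ?_ ?_
  · linarith [hx'.2.2, hy'.2.1]
  · linarith [hx'.2.1, hy'.2.2]

/-- The robust conditions in the layer `0` for a quantitative embedding in the coordinate `ζ`.
`δ = π / m`, `h = 4 δ ≤ 1`, `κ = δ / 3`, `M h² < c1 κ`. `r1`, `l1` by `plA2` + `cn_of` (`P` = the other
vertex on the common column line), `r2`, `l2` by `plA1` + `cn_of`, `rf`, `lf` by `far_of` + `ds_of`. -/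
theorem lay_of_flat (c1 M : ℝ) (hc1 : 0 < c1) (hM : 0 < M) : ∃ m0 : ℕ, ∀ m ≥ m0, ∀ θ : ℤ → ℝ,
    Prt m θ → ∀ (G : ℂ → E) (G' : ℂ → (ℂ →L[ℝ] E)), Flat c1 M G G' →
      Lay m (fun r k => G (zt m θ r k)) 0 := by
  refine ⟨⌈Real.pi * (4 + 48 * M / c1)⌉₊ + 1, fun m hm θ hθ G G' hG => ?_⟩
  have hm1 : Real.pi * (4 + 48 * M / c1) < m := by
    have h1 := Nat.le_ceil (Real.pi * (4 + 48 * M / c1))
    have h2 : ((⌈Real.pi * (4 + 48 * M / c1)⌉₊ + 1 : ℕ) : ℝ) ≤ m := by exact_mod_cast hm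
    push_cast at h2
    linarith
  have hpi := Real.pi_pos
  have hq : 0 < 48 * M / c1 := by positivity
  have hm0 : (0 : ℝ) < m := lt_trans (by positivity) hm1
  obtain ⟨δ, hδe⟩ : ∃ δ : ℝ, δ = Real.pi / m := ⟨_, rfl⟩
  have hδ : 0 < δ := by rw [hδe]; positivity
  have hδm : δ * m = Real.pi := by rw [hδe]; field_simp
  have h4 : 4 * δ ≤ 1 := by
    have h1 : 4 * Real.pi < m := by nlinarith
    have h2 : 4 * δ * m ≤ 1 * m := by nlinarith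
    exact le_of_mul_le_mul_right h2 hm0
  have h48 : 48 * M * δ < c1 := by
    have h1 : Real.pi * (48 * M / c1) < m := by nlinarith
    have h2 : Real.pi * (48 * M) < m * c1 := by
      have h3 := mul_lt_mul_of_pos_right h1 hc1
      have h5 : Real.pi * (48 * M / c1) * c1 = Real.pi * (48 * M) := by field_simp
      linarith
    have h3 : 48 * M * δ * m < c1 * m := by
      have h5 : 48 * M * δ * m = Real.pi * (48 * M) := by
        rw [← hδm]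
        ring
      linarith
    exact lt_of_mul_lt_mul_right h3 hm0.le
  have h1m : Real.pi / m ≤ 1 := by rw [← hδe]; linarith
  have h0m : 0 ≤ Real.pi / m := by rw [← hδe]; exact hδ.le
  have hk1 : M * (4 * δ) ^ 2 < c1 * (δ / 3) := by
    have h5 : 48 * M * δ * δ < c1 * δ := mul_lt_mul_of_pos_right h48 hδ
    have h6 : M * (4 * δ) ^ 2 = 48 * M * δ * δ / 3 := by ring
    rw [h6]
    linarith
  have hk2 : 2 * M * (4 * δ) ^ 2 < c1 * δ := by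
    have h5 : 48 * M * δ * δ < c1 * δ := mul_lt_mul_of_pos_right h48 hδ
    have h6 : 2 * M * (4 * δ) ^ 2 = 48 * M * δ * δ * (2 / 3) := by ring
    have h7 : 0 < 48 * M * δ * δ := by positivity
    rw [h6]
    linarith
  have hd : ∀ k : ℤ, δ ≤ θ (k + 1) - θ k ∧ θ (k + 1) - θ k ≤ 3 * δ := by
    intro k
    rw [hδe]
    exact ⟨hθ.lo k, hθ.hi k⟩
  have hd1 : ∀ k : ℤ, |θ (k + 1) - θ k| ≤ 3 * (Real.pi / m) := by
    intro k
    rw [← hδe, abs_of_nonneg (by linarith [(hd k).1])]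
    exact (hd k).2
  have hd1' : ∀ k : ℤ, |θ k - θ (k + 1)| ≤ 3 * (Real.pi / m) := by
    intro k
    rw [abs_sub_comm]
    exact hd1 k
  have hd0 : ∀ k : ℤ, |θ k - θ k| ≤ 3 * (Real.pi / m) := by
    intro k
    rw [sub_self, abs_zero]
    linarith
  have e1 : ∀ k : ℤ, k + 2 = k + 1 + 1 := fun k => by ring
  have hI := fun {r : ℕ} (hr : Ly 0 r) (k : ℤ) => layA_icc m θ h0m h1m hr k
  have L0 : Ly 0 0 := Or.inl rfl
  have L1 : Ly 0 (0 + 1) := Or.inr rfl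
  have hN : ∀ {r q : ℕ}, Ly 0 r → Ly 0 q → ∀ k l : ℤ, |θ l - θ k| ≤ 3 * (Real.pi / m) →
      ‖zt m θ q l - zt m θ r k‖ ≤ 4 * δ := by
    intro r q hr hq k l hkl
    rw [hδe]
    exact layA_norm m θ h0m hr hq k l hkl
  have hS : ∀ {r q : ℕ}, Ly 0 r → Ly 0 q → ∀ k l : ℤ,
      |(zt m θ q l).re - (zt m θ r k).re| ≤ δ := by
    intro r q hr hq k l
    rw [hδe]
    exact layA_sub m θ h0m hr hq k l
  have hE : ∀ {r q : ℕ}, Ly 0 r → Ly 0 q → r ≠ q → ∀ k : ℤ,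
      |(zt m θ q k).re - (zt m θ r k).re| = δ := by
    intro r q hr hq hrq k
    rw [hδe]
    exact layA_ne m θ h0m hr hq hrq k
  have hfar : ∀ {s s1 s2 r r' : ℕ}, Ly 0 s → Ly 0 s1 → Ly 0 s2 → Ly 0 r → Ly 0 r' →
      ∀ {a b i k : ℤ}, (a = i ∧ b = i + 1) ∨ (a = i + 1 ∧ b = i) → i + 2 ≤ k → k + 2 ≤ i + m →
      Ds (G (zt m θ s a)) (G (zt m θ s1 b)) (G (zt m θ s2 b)) (G (zt m θ r k))
        (G (zt m θ r' (k + 1))) := by
    intro s s1 s2 r r' hs hs1 hs2 hr hr' a b i k hab h1 h2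
    have ha : θ a ∈ Icc (θ i) (θ (i + 1)) := by
      rcases hab with ⟨rfl, rfl⟩ | ⟨rfl, rfl⟩
      · exact ⟨le_rfl, by linarith [(hd a).1]⟩
      · exact ⟨by linarith [(hd b).1], le_rfl⟩
    have hb : θ b ∈ Icc (θ i) (θ (i + 1)) := by
      rcases hab with ⟨rfl, rfl⟩ | ⟨rfl, rfl⟩
      · exact ⟨by linarith [(hd a).1], le_rfl⟩
      · exact ⟨le_rfl, by linarith [(hd b).1]⟩
    have hab1 : |θ a - θ b| ≤ 3 * (Real.pi / m) := by
      rcases hab with ⟨rfl, rfl⟩ | ⟨rfl, rfl⟩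
      · exact hd1' a
      · exact hd1 b
    have g1 : δ ≤ θ k - θ (i + 1) := by
      have h3 := (th_diff m θ hθ (i + 1) k (by linarith)).1
      rw [← hδe] at h3
      have h5 : (1 : ℝ) ≤ (k : ℝ) - ((i + 1 : ℤ) : ℝ) := by
        have : ((i + 2 : ℤ) : ℝ) ≤ (k : ℝ) := by exact_mod_cast h1
        push_cast at this ⊢
        linarith
      nlinarith
    have g2 : θ (k + 1) - θ i ≤ 2 * Real.pi - δ := by
      have h3 := (th_diff m θ hθ (k + 1) (i + m) (by linarith)).1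
      rw [← hδe, hθ.per i] at h3
      have h5 : (1 : ℝ) ≤ ((i + m : ℤ) : ℝ) - ((k + 1 : ℤ) : ℝ) := by
        have : ((k + 2 : ℤ) : ℝ) ≤ ((i + m : ℤ) : ℝ) := by exact_mod_cast h2
        push_cast at this ⊢
        linarith
      nlinarith
    have hkk : θ k ≤ θ (k + 1) := by linarith [(hd k).1]
    refine ds_of c1 M hM G G' hG (4 * δ) (c1 * δ) h4 hk2 _ _ _ _ _ (hI hs a) (hI hs1 b) (hI hs2 b)
      (hI hr k) (hI hr' (k + 1)) (hN hs1 hs b a hab1) (hN hs2 hs b a hab1) (hN hs2 hs1 b b (hd0 b))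
      (hN hr' hr (k + 1) k (hd1' k)) ?_
    exact layA_far c1 M hc1 G G' hG δ hδ (hI hs a) (hI hs1 b) (hI hs2 b)
      (hI hr k) (hI hr' (k + 1)) (lo := θ i) (hi := θ (i + 1)) (lo' := θ k) (hi' := θ (k + 1))
      ha hb hb ⟨le_rfl, hkk⟩ ⟨hkk, le_rfl⟩ g1 g2
  refine ⟨?_, ?_, ?_, ?_, ?_, ?_⟩
  · intro r q s r' hr hq hrq hs hr' k
    refine cn_of c1 M hc1 hM G G' hG (δ / 3) (4 * δ) h4 hk1 _ _ _ _ (hI hr (k + 1)) (hI hq (k + 1))
      (hI hs k) (hI hr' (k + 2)) (hN hr hq _ _ (hd0 _)) (hN hr hs _ _ (hd1' k))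
      (by rw [e1]; exact hN hr hr' _ _ (hd1 (k + 1))) ?_
    exact plA2 δ (-1) hδ (Or.inr rfl) _ _ _ _ rfl (hE hr hq hrq _)
      (by show δ ≤ -1 * (θ k - θ (k + 1)); linarith [(hd k).1]) (hS hr hs _ _)
      (by rw [e1]; show δ ≤ -1 * (θ (k + 1) - θ (k + 1 + 1)); linarith [(hd (k + 1)).1])
      (hS hr hr' _ _)
  · intro s r' hs hr' k
    have e2 : k = k - 1 + 1 := by ring
    have h6 : |θ (k - 1) - θ k| ≤ 3 * (Real.pi / m) := by
      have := hd1' (k - 1)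
      rwa [← e2] at this
    have h7 : δ ≤ θ k - θ (k - 1) := by
      have := (hd (k - 1)).1
      rwa [← e2] at this
    refine cn_of c1 M hc1 hM G G' hG (δ / 3) (4 * δ) h4 hk1 _ _ _ _ (hI hs k) (hI L0 (k + 1))
      (hI L1 (k + 1)) (hI hr' (k - 1)) (hN hs L0 _ _ (hd1 k)) (hN hs L1 _ _ (hd1 k))
      (hN hs hr' _ _ h6) ?_
    exact plA1 δ 1 hδ (Or.inl rfl) _ _ _ _
      (by show δ ≤ 1 * (θ (k + 1) - θ k); linarith [(hd k).1])
      (by show δ ≤ 1 * (θ (k + 1) - θ k); linarith [(hd k).1])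
      (by show δ ≤ 1 * (θ k - θ (k - 1)); linarith)
  · intro s r r' hs hr hr' i k h1 h2
    exact hfar hs L0 L1 hr hr' (Or.inl ⟨rfl, rfl⟩) h1 h2
  · intro r q s r' hr hq hrq hs hr' k
    have e2 : k = k - 1 + 1 := by ring
    have h6 : |θ (k - 1) - θ k| ≤ 3 * (Real.pi / m) := by
      have := hd1' (k - 1)
      rwa [← e2] at this
    have h7 : δ ≤ θ k - θ (k - 1) := by
      have := (hd (k - 1)).1
      rwa [← e2] at this
    refine cn_of c1 M hc1 hM G G' hG (δ / 3) (4 * δ) h4 hk1 _ _ _ _ (hI hr k) (hI hq k)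
      (hI hs (k + 1)) (hI hr' (k - 1)) (hN hr hq _ _ (hd0 _)) (hN hr hs _ _ (hd1 k))
      (hN hr hr' _ _ h6) ?_
    exact plA2 δ 1 hδ (Or.inl rfl) _ _ _ _ rfl (hE hr hq hrq _)
      (by show δ ≤ 1 * (θ (k + 1) - θ k); linarith [(hd k).1]) (hS hr hs _ _)
      (by show δ ≤ 1 * (θ k - θ (k - 1)); linarith) (hS hr hr' _ _)
  · intro s r' hs hr' k
    refine cn_of c1 M hc1 hM G G' hG (δ / 3) (4 * δ) h4 hk1 _ _ _ _ (hI hs (k + 1)) (hI L0 k)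
      (hI L1 k) (hI hr' (k + 2)) (hN hs L0 _ _ (hd1' k)) (hN hs L1 _ _ (hd1' k))
      (by rw [e1]; exact hN hs hr' _ _ (hd1 (k + 1))) ?_
    exact plA1 δ (-1) hδ (Or.inr rfl) _ _ _ _
      (by show δ ≤ -1 * (θ k - θ (k + 1)); linarith [(hd k).1])
      (by show δ ≤ -1 * (θ k - θ (k + 1)); linarith [(hd k).1])
      (by rw [e1]; show δ ≤ -1 * (θ (k + 1) - θ (k + 1 + 1)); linarith [(hd (k + 1)).1])
  · intro s r r' hs hr hr' i k h1 h2
    exact hfar hs L0 L1 hr hr' (Or.inr ⟨rfl, rfl⟩) h1 h2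

end Pool.Agent.Lib.MP_ca0971_gt.OT.Sm
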