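import Pool.Agent.Lib.MP_ca0971_gt.OT.Sm.LayA

set_option autoImplicit false

namespace Pool.Agent.Lib.MP_ca0971_gt.OT.Sm

open Set Metric Filter Topology

private theorem lb_re0 (m : ℕ) (θ : ℤ → ℝ) (k : ℤ) : (zt m θ 0 k).re = 0 := by
  simp [zt]

private theorem lb_re1 (m : ℕ) (θ : ℤ → ℝ) (k : ℤ) : (zt m θ 1 k).re = -(Real.pi / m) := by
  simp [zt]

private theorem lb_im (m : ℕ) (θ : ℤ → ℝ) (r : ℕ) (k : ℤ) : (zt m θ r k).im = θ k := rfl

private theorem lb_norm {z w : ℂ} {δ : ℝ} (h1 : |z.re - w.re| ≤ δ) (h2 : |z.im - w.im| ≤ 3 * δ) :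
    ‖z - w‖ ≤ 4 * δ := by
  have h := Complex.norm_le_abs_re_add_abs_im (z - w)
  rw [Complex.sub_re, Complex.sub_im] at h
  linarith

/-- bounds for the imaginary part on a segment or a triangle -/
private theorem lb_hull {P Q R x : ℂ} {a b : ℝ} (hP : P.im ∈ Icc a b) (hQ : Q.im ∈ Icc a b)
    (hR : R.im ∈ Icc a b) (hP' : P.re ∈ Icc (-1 : ℝ) 0) (hQ' : Q.re ∈ Icc (-1 : ℝ) 0)
    (hR' : R.re ∈ Icc (-1 : ℝ) 0) (hx : x ∈ convexHull ℝ {P, Q, R}) :
    x.im ∈ Icc a b ∧ x.re ∈ Icc (-1 : ℝ) 0 := by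
  have hc : Convex ℝ {z : ℂ | z.im ∈ Icc a b ∧ z.re ∈ Icc (-1 : ℝ) 0} := by
    have c1 : Convex ℝ {z : ℂ | z.im ∈ Icc a b} := by
      have := (convex_Icc a b).linear_preimage Complex.imLm
      exact this
    have c2 : Convex ℝ {z : ℂ | z.re ∈ Icc (-1 : ℝ) 0} := by
      have := (convex_Icc (-1 : ℝ) 0).linear_preimage Complex.reLm
      exact this
    exact c1.inter c2
  refine convexHull_min ?_ hc hx
  rintro z (rfl | rfl | rfl)
  · exact ⟨hP, hP'⟩
  · exact ⟨hQ, hQ'⟩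
  · exact ⟨hR, hR'⟩

private theorem lb_seg {w w' y : ℂ} (hy : y ∈ segment ℝ w w') : y ∈ convexHull ℝ {w, w', w'} := by
  rw [← convexHull_pair] at hy
  refine convexHull_mono ?_ hy
  intro z hz
  rcases hz with rfl | rfl
  · exact Or.inl rfl
  · exact Or.inr (Or.inl rfl)

/-- The shift conditions in the layer `0`: `ra`, `rb0`, `la`, `lb0` by `plA2` (or `plA1`) + `scn_of`,
`rb1`, `lb1` by `plE` + `ds_of` (`e = c1 δ / 2`), `rc0`, `lc0` by `plC` + `sh_of`, `rc1`, `lc1` by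
`plB` + `scn_of`. -/
theorem layS_of_flat (c1 M : ℝ) (hc1 : 0 < c1) (hM : 0 < M) : ∃ m0 : ℕ, ∀ m ≥ m0, ∀ θ : ℤ → ℝ,
    Prt m θ → ∀ (G : ℂ → E) (G' : ℂ → (ℂ →L[ℝ] E)), Flat c1 M G G' → FlatS c1 G' →
      LayS (fun r k => G (zt m θ r k)) := by
  obtain ⟨m0, hm0⟩ := exists_nat_gt (Real.pi * (4 + 64 * M / c1))
  refine ⟨m0, fun m hm θ hθ G G' hG hS => ?_⟩
  have hpi := Real.pi_pos
  have hq : 0 < 64 * M / c1 := by positivity
  have hmR : Real.pi * (4 + 64 * M / c1) < (m : ℝ) := hm0.trans_le (by exact_mod_cast hm)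
  have hmp : (0 : ℝ) < m := lt_trans (by positivity) hmR
  set δ : ℝ := Real.pi / m with hδe
  have hδ : 0 < δ := div_pos hpi hmp
  have hδm : δ * m = Real.pi := by rw [hδe]; field_simp
  have h1 : δ * (4 + 64 * M / c1) < 1 := by
    rw [← hδm] at hmR
    have : m * (δ * (4 + 64 * M / c1)) < m * 1 := by linarith
    exact lt_of_mul_lt_mul_left this hmp.le
  have h4 : 4 * δ ≤ 1 := by
    have : 0 < δ * (64 * M / c1) := by positivity
    linarith
  have h64 : 64 * M * δ < c1 := by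
    have h5 : δ * (64 * M / c1) < 1 := by linarith
    have h6 : δ * (64 * M / c1) = 64 * M * δ / c1 := by ring
    rw [h6, div_lt_one hc1] at h5
    exact h5
  have hk : M * (4 * δ) ^ 2 < c1 * (δ / 3) := by
    have := mul_lt_mul_of_pos_right h64 hδ
    nlinarith [mul_pos hM (mul_pos hδ hδ)]
  have he : 2 * M * (4 * δ) ^ 2 < c1 * (δ / 2) := by
    have := mul_lt_mul_of_pos_right h64 hδ
    nlinarith
  have h3 : (3 : ℝ) < Real.pi := Real.pi_gt_three
  have lo : ∀ k, δ ≤ θ (k + 1) - θ k := hθ.lo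
  have hi : ∀ k, θ (k + 1) - θ k ≤ 3 * δ := hθ.hi
  have lo' : ∀ k, δ ≤ θ k - θ (k - 1) := fun k => by
    have := lo (k - 1)
    rwa [sub_add_cancel] at this
  have hi' : ∀ k, θ k - θ (k - 1) ≤ 3 * δ := fun k => by
    have := hi (k - 1)
    rwa [sub_add_cancel] at this
  have lo2 : ∀ k, δ ≤ θ (k + 2) - θ (k + 1) := fun k => by
    have := lo (k + 1)
    rwa [add_assoc] at this
  have hi2 : ∀ k, θ (k + 2) - θ (k + 1) ≤ 3 * δ := fun k => by
    have := hi (k + 1)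
    rwa [add_assoc] at this
  have re1 : ∀ k, (zt m θ 1 k).re = -δ := lb_re1 m θ
  have re0 : ∀ k, (zt m θ 0 k).re = 0 := lb_re0 m θ
  have im : ∀ r k, (zt m θ r k).im = θ k := lb_im m θ
  have ic0 : ∀ k, (zt m θ 0 k).re ∈ Icc (-1 : ℝ) 0 := fun k => by
    rw [re0]; exact ⟨by norm_num, le_rfl⟩
  have ic1 : ∀ k, (zt m θ 1 k).re ∈ Icc (-1 : ℝ) 0 := fun k => by
    rw [re1]; constructor <;> linarith
  have reb : ∀ r s : ℕ, Ly 0 r → Ly 0 s → ∀ a b, |(zt m θ r a).re - (zt m θ s b).re| ≤ δ := by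
    intro r s hr hs a b
    rcases hr with rfl | rfl <;> rcases hs with rfl | rfl
    · rw [re0, re0, sub_self, abs_zero]; exact hδ.le
    · rw [re0, zero_add, re1, zero_sub, neg_neg, abs_of_pos hδ]
    · rw [re0, zero_add, re1, sub_zero, abs_neg, abs_of_pos hδ]
    · rw [zero_add, re1, re1, sub_self, abs_zero]; exact hδ.le
  have L0 : Ly 0 0 := Or.inl rfl
  have L1 : Ly 0 1 := Or.inr rfl
  have nb : ∀ r s : ℕ, Ly 0 r → Ly 0 s → ∀ a b, θ a - θ b ≤ 3 * δ → θ b - θ a ≤ 3 * δ →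
      ‖zt m θ r a - zt m θ s b‖ ≤ 4 * δ := by
    intro r s hr hs a b h5 h6
    refine lb_norm (reb r s hr hs a b) ?_
    rw [im, im, abs_le]
    constructor <;> linarith
  have icL : ∀ s, Ly 0 s → ∀ k, (zt m θ s k).re ∈ Icc (-1 : ℝ) 0 := by
    intro s hs k
    rcases hs with rfl | rfl
    · exact ic0 k
    · exact ic1 k
  have z3 : (0 : ℝ) ≤ 3 * δ := by linarith
  constructor
  · -- ra
    intro s hs k
    have a1 := lo k
    have a2 := hi k
    have a3 := lo2 k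
    have a4 := hi2 k
    refine scn_of c1 M hc1 hM G G' hG hS (δ / 3) (4 * δ) h4 hk _ _ _ _ (re0 _) (ic1 _)
      (icL s hs _) (re0 _) (nb _ _ L1 L0 _ _ (by linarith) (by linarith))
      (nb _ _ hs L0 _ _ (by linarith) (by linarith))
      (nb _ _ L0 L0 _ _ (by linarith) (by linarith)) ?_
    refine plA2 δ (-1) hδ (Or.inr rfl) _ _ _ _ rfl ?_ ?_ (reb _ _ hs L0 _ _) ?_
      (reb _ _ L0 L0 _ _)
    · rw [re1, re0, sub_zero, abs_neg, abs_of_pos hδ]
    · rw [im, im]; linarith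
    · rw [im, im]; linarith
  · -- rb0
    intro k
    have a1 := lo k
    have a2 := hi k
    have a3 := lo' k
    have a4 := hi' k
    refine scn_of c1 M hc1 hM G G' hG hS (δ / 3) (4 * δ) h4 hk _ _ _ _ (re0 _) (ic0 _)
      (ic1 _) (re0 _) (nb _ _ L0 L0 _ _ (by linarith) (by linarith))
      (nb _ _ L1 L0 _ _ (by linarith) (by linarith))
      (nb _ _ L0 L0 _ _ (by linarith) (by linarith)) ?_
    refine plA1 δ 1 hδ (Or.inl rfl) _ _ _ _ ?_ ?_ ?_ <;> rw [im, im] <;> linarith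
  · -- rb1
    intro k
    have a1 := lo k
    have a2 := hi k
    have a3 := lo' k
    have a4 := hi' k
    refine ds_of c1 M hM G G' hG (4 * δ) (c1 * (δ / 2)) h4 he _ _ _ _ _ (ic1 _) (ic0 _) (ic1 _)
      (ic0 _) (ic0 _) (nb _ _ L1 L0 _ _ (by linarith) (by linarith))
      (nb _ _ L1 L1 _ _ (by linarith) (by linarith))
      (nb _ _ L0 L1 _ _ (by linarith) (by linarith))
      (nb _ _ L0 L0 _ _ (by linarith) (by linarith)) ?_
    intro x hx y hy
    have hx1 := lb_hull (a := θ k) (b := θ (k + 1)) (by rw [im]; constructor <;> linarith)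
      (by rw [im]; constructor <;> linarith) (by rw [im]; constructor <;> linarith)
      (ic1 _) (ic0 _) (ic1 _) hx
    have hy1 := lb_hull (a := θ (k - 1)) (b := θ k) (by rw [im]; constructor <;> linarith)
      (by rw [im]; constructor <;> linarith) (by rw [im]; constructor <;> linarith)
      (ic0 _) (ic0 _) (ic0 _) (lb_seg hy)
    have e1 := hG.lo x y hx1.2 hy1.2 (by
      obtain ⟨⟨b1, b2⟩, -⟩ := hx1
      obtain ⟨⟨b3, b4⟩, -⟩ := hy1
      rw [abs_le]
      constructor <;> linarith)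
    have e2 : δ / 2 ≤ ‖x - y‖ := by
      rw [segment_symm] at hy
      refine plE δ 1 hδ (Or.inl rfl) (zt m θ 1 k) _ _ (zt m θ 0 k) _ (re1 _) (re0 _) (re0 _) rfl
        ?_ ?_ ?_ ((ic0 _).2) ((ic1 _).2) x hx y hy <;> rw [im, im] <;> linarith
    exact (mul_le_mul_of_nonneg_left e2 hc1.le).trans e1
  · -- rc0
    intro k
    have a1 := lo k
    have a2 := hi k
    refine sh_of c1 M hc1 hM G G' hG hS (δ / 3) (4 * δ) h4 hk _ _ _ (re0 _) (re0 _) (ic1 _)
      (nb _ _ L0 L0 _ _ (by linarith) (by linarith))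
      (nb _ _ L1 L0 _ _ (by linarith) (by linarith)) ?_
    refine plC δ hδ _ _ _ ?_ ?_ ?_ (Or.inr rfl)
    · rw [re0, re0]
    · rw [im, im]; exact a1.trans (le_abs_self _)
    · rw [re1, re0, sub_zero]
  · -- rc1
    intro k
    have a1 := lo k
    have a2 := hi k
    refine scn_of c1 M hc1 hM G G' hG hS (δ / 3) (4 * δ) h4 hk _ _ _ _ (re0 _) (ic1 _)
      (ic1 _) (re0 _) (nb _ _ L1 L0 _ _ (by linarith) (by linarith))
      (nb _ _ L1 L0 _ _ (by linarith) (by linarith))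
      (nb _ _ L0 L0 _ _ (by linarith) (by linarith)) ?_
    refine plB δ hδ _ _ _ _ rfl ?_ rfl ?_ ?_ ?_
    · rw [re1, re0, sub_zero]
    · rw [re1, re0, sub_zero]
    · rw [im, im, abs_sub_comm]; exact a1.trans (le_abs_self _)
    · rw [re0, re0]
  · -- la
    intro s hs k
    have a1 := lo k
    have a2 := hi k
    have a3 := lo' k
    have a4 := hi' k
    refine scn_of c1 M hc1 hM G G' hG hS (δ / 3) (4 * δ) h4 hk _ _ _ _ (re0 _) (ic1 _)
      (icL s hs _) (re0 _) (nb _ _ L1 L0 _ _ (by linarith) (by linarith))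
      (nb _ _ hs L0 _ _ (by linarith) (by linarith))
      (nb _ _ L0 L0 _ _ (by linarith) (by linarith)) ?_
    refine plA2 δ 1 hδ (Or.inl rfl) _ _ _ _ rfl ?_ ?_ (reb _ _ hs L0 _ _) ?_
      (reb _ _ L0 L0 _ _)
    · rw [re1, re0, sub_zero, abs_neg, abs_of_pos hδ]
    · rw [im, im]; linarith
    · rw [im, im]; linarith
  · -- lb0
    intro k
    have a1 := lo k
    have a2 := hi k
    have a3 := lo2 k
    have a4 := hi2 k
    refine scn_of c1 M hc1 hM G G' hG hS (δ / 3) (4 * δ) h4 hk _ _ _ _ (re0 _) (ic0 _)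
      (ic1 _) (re0 _) (nb _ _ L0 L0 _ _ (by linarith) (by linarith))
      (nb _ _ L1 L0 _ _ (by linarith) (by linarith))
      (nb _ _ L0 L0 _ _ (by linarith) (by linarith)) ?_
    refine plA1 δ (-1) hδ (Or.inr rfl) _ _ _ _ ?_ ?_ ?_ <;> rw [im, im] <;> linarith
  · -- lb1
    intro k
    have a1 := lo k
    have a2 := hi k
    have a3 := lo2 k
    have a4 := hi2 k
    refine ds_of c1 M hM G G' hG (4 * δ) (c1 * (δ / 2)) h4 he _ _ _ _ _ (ic1 _) (ic0 _) (ic1 _)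
      (ic0 _) (ic0 _) (nb _ _ L1 L0 _ _ (by linarith) (by linarith))
      (nb _ _ L1 L1 _ _ (by linarith) (by linarith))
      (nb _ _ L0 L1 _ _ (by linarith) (by linarith))
      (nb _ _ L0 L0 _ _ (by linarith) (by linarith)) ?_
    intro x hx y hy
    have hx1 := lb_hull (a := θ k) (b := θ (k + 1)) (by rw [im]; constructor <;> linarith)
      (by rw [im]; constructor <;> linarith) (by rw [im]; constructor <;> linarith)
      (ic1 _) (ic0 _) (ic1 _) hx
    have hy1 := lb_hull (a := θ (k + 1)) (b := θ (k + 2)) (by rw [im]; constructor <;> linarith)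
      (by rw [im]; constructor <;> linarith) (by rw [im]; constructor <;> linarith)
      (ic0 _) (ic0 _) (ic0 _) (lb_seg hy)
    have e1 := hG.lo x y hx1.2 hy1.2 (by
      obtain ⟨⟨b1, b2⟩, -⟩ := hx1
      obtain ⟨⟨b3, b4⟩, -⟩ := hy1
      rw [abs_le]
      constructor <;> linarith)
    have e2 : δ / 2 ≤ ‖x - y‖ := by
      refine plE δ (-1) hδ (Or.inr rfl) (zt m θ 1 (k + 1)) _ _ (zt m θ 0 (k + 1)) _ (re1 _) (re0 _)
        (re0 _) rfl ?_ ?_ ?_ ((ic0 _).2) ((ic1 _).2) x hx y hy <;> rw [im, im] <;> linarith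
    exact (mul_le_mul_of_nonneg_left e2 hc1.le).trans e1
  · -- lc0
    intro k
    have a1 := lo k
    have a2 := hi k
    refine sh_of c1 M hc1 hM G G' hG hS (δ / 3) (4 * δ) h4 hk _ _ _ (re0 _) (re0 _) (ic1 _)
      (nb _ _ L0 L0 _ _ (by linarith) (by linarith))
      (nb _ _ L1 L0 _ _ (by linarith) (by linarith)) ?_
    refine plC δ hδ _ _ _ ?_ ?_ ?_ (Or.inl rfl)
    · rw [re0, re0]
    · rw [im, im]; exact a1.trans (le_abs_self _)
    · rw [re1, re0, sub_zero]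
  · -- lc1
    intro k
    have a1 := lo k
    have a2 := hi k
    refine scn_of c1 M hc1 hM G G' hG hS (δ / 3) (4 * δ) h4 hk _ _ _ _ (re0 _) (ic1 _)
      (ic1 _) (re0 _) (nb _ _ L1 L0 _ _ (by linarith) (by linarith))
      (nb _ _ L1 L0 _ _ (by linarith) (by linarith))
      (nb _ _ L0 L0 _ _ (by linarith) (by linarith)) ?_
    refine plB δ hδ _ _ _ _ rfl ?_ rfl ?_ ?_ ?_
    · rw [re1, re0, sub_zero]
    · rw [re1, re0, sub_zero]
    · rw [im, im]; exact a1.trans (le_abs_self _)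
    · rw [re0, re0]

end Pool.Agent.Lib.MP_ca0971_gt.OT.Sm
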