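import Pool.Agent.Lib.MP_ca0971_gt.OT.Sm.Def

set_option autoImplicit false

namespace Pool.Agent.Lib.MP_ca0971_gt.OT.Sm

open Set Metric Filter Topology

/-- Rows `0 .. T` (rings), columns modulo `m` (angles). -/
def ix (T m : ℕ) (j : ℕ) (k : ℤ) : Fin (T + 1) × ZMod m :=
  (⟨min j T, Nat.lt_succ_of_le (min_le_right _ _)⟩, (k : ZMod m))

/-- The rows of the layer `j`. -/
def Ly (j r : ℕ) : Prop := r = j ∨ r = j + 1

/-- The robust conditions for the triangle moves of the layer `j` (rows `j`, `j + 1`), `V j k` = point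
of the row `j` and column line `k`. Triangles in the column `[k, k + 1]`: type R has the vertical side
on the right (`V s k, V j (k + 1), V (j + 1) (k + 1)`), type L on the left. Path edges go from one
column line to the next one. -/
structure Lay (m : ℕ) (V : ℕ → ℤ → E) (j : ℕ) : Prop where
  r1 : ∀ r q s r' : ℕ, Ly j r → Ly j q → r ≠ q → Ly j s → Ly j r' → ∀ k : ℤ,
    Cn (V r (k + 1)) (V q (k + 1)) (V s k) (V r' (k + 2))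
  r2 : ∀ s r' : ℕ, Ly j s → Ly j r' → ∀ k : ℤ,
    Cn (V s k) (V j (k + 1)) (V (j + 1) (k + 1)) (V r' (k - 1))
  rf : ∀ s r r' : ℕ, Ly j s → Ly j r → Ly j r' → ∀ i k : ℤ, i + 2 ≤ k → k + 2 ≤ i + m →
    Ds (V s i) (V j (i + 1)) (V (j + 1) (i + 1)) (V r k) (V r' (k + 1))
  l1 : ∀ r q s r' : ℕ, Ly j r → Ly j q → r ≠ q → Ly j s → Ly j r' → ∀ k : ℤ,
    Cn (V r k) (V q k) (V s (k + 1)) (V r' (k - 1))
  l2 : ∀ s r' : ℕ, Ly j s → Ly j r' → ∀ k : ℤ,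
    Cn (V s (k + 1)) (V j k) (V (j + 1) k) (V r' (k + 2))
  lf : ∀ s r r' : ℕ, Ly j s → Ly j r → Ly j r' → ∀ i k : ℤ, i + 2 ≤ k → k + 2 ≤ i + m →
    Ds (V s (i + 1)) (V j i) (V (j + 1) i) (V r k) (V r' (k + 1))

/-- The robust conditions for the final fan in the row `T`. -/
structure Fan (T m : ℕ) (V : ℕ → ℤ → E) : Prop where
  fa : ∀ k : ℤ, 3 ≤ k → k + 1 ≤ m → Cn (V T 0) (V T (k - 1)) (V T k) (V T 1)
  fb : ∀ k : ℤ, 3 ≤ k → k + 1 ≤ m → Cn (V T (k - 1)) (V T k) (V T 0) (V T (k - 2))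
  fd : ∀ k : ℤ, 3 ≤ k → k + 1 ≤ m → ∀ i : ℤ, 1 ≤ i → i + 3 ≤ k →
    Ds (V T (k - 1)) (V T k) (V T 0) (V T i) (V T (i + 1))

/-- The robust conditions for all triangle moves. -/
structure Loc (T m : ℕ) (V : ℕ → ℤ → E) : Prop where
  ly : ∀ j < T, Lay m V j
  fan : Fan T m V

/-- The triangle is disjoint from small positive shifts of the segment. -/
def SD (P Q R D D' : E) : Prop :=
  ∀ᶠ t in 𝓝[>] (0 : ℝ), Disjoint (convexHull ℝ {P, Q, R}) (shf t (segment ℝ D D'))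

/-- All triangles of the chain are disjoint from small positive shifts of the row `0`. -/
structure Shf (T m : ℕ) (V : ℕ → ℤ → E) : Prop where
  sr : ∀ j < T, ∀ s : ℕ, Ly j s → ∀ k i : ℤ,
    SD (V s k) (V j (k + 1)) (V (j + 1) (k + 1)) (V 0 i) (V 0 (i + 1))
  sl : ∀ j < T, ∀ s : ℕ, Ly j s → ∀ k i : ℤ,
    SD (V s (k + 1)) (V j k) (V (j + 1) k) (V 0 i) (V 0 (i + 1))
  sf : ∀ k : ℤ, 2 ≤ k → k + 1 ≤ m → ∀ i : ℤ,
    SD (V T (k - 1)) (V T k) (V T 0) (V 0 i) (V 0 (i + 1))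

/-- Robust conditions for the triangles of the layer `0` and the adjacent edges of the shifted row `0`. -/
structure LayS (V : ℕ → ℤ → E) : Prop where
  ra : ∀ s : ℕ, Ly 0 s → ∀ k : ℤ, SCn (V 0 (k + 1)) (V 1 (k + 1)) (V s k) (V 0 (k + 2))
  rb0 : ∀ k : ℤ, SCn (V 0 k) (V 0 (k + 1)) (V 1 (k + 1)) (V 0 (k - 1))
  rb1 : ∀ k : ℤ, Ds (V 1 k) (V 0 (k + 1)) (V 1 (k + 1)) (V 0 (k - 1)) (V 0 k)
  rc0 : ∀ k : ℤ, SH (V 0 k) (V 0 (k + 1)) (V 1 (k + 1))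
  rc1 : ∀ k : ℤ, SCn (V 0 (k + 1)) (V 1 (k + 1)) (V 1 k) (V 0 k)
  la : ∀ s : ℕ, Ly 0 s → ∀ k : ℤ, SCn (V 0 k) (V 1 k) (V s (k + 1)) (V 0 (k - 1))
  lb0 : ∀ k : ℤ, SCn (V 0 (k + 1)) (V 0 k) (V 1 k) (V 0 (k + 2))
  lb1 : ∀ k : ℤ, Ds (V 1 (k + 1)) (V 0 k) (V 1 k) (V 0 (k + 1)) (V 0 (k + 2))
  lc0 : ∀ k : ℤ, SH (V 0 k) (V 0 (k + 1)) (V 1 k)
  lc1 : ∀ k : ℤ, SCn (V 0 k) (V 1 k) (V 1 (k + 1)) (V 0 (k + 1))

/-- Robust conditions: the deeper triangles are disjoint from the row `0`. -/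
structure Dp (T m : ℕ) (V : ℕ → ℤ → E) : Prop where
  dr : ∀ j, 0 < j → j < T → ∀ s : ℕ, Ly j s → ∀ k i : ℤ,
    Ds (V s k) (V j (k + 1)) (V (j + 1) (k + 1)) (V 0 i) (V 0 (i + 1))
  dl : ∀ j, 0 < j → j < T → ∀ s : ℕ, Ly j s → ∀ k i : ℤ,
    Ds (V s (k + 1)) (V j k) (V (j + 1) k) (V 0 i) (V 0 (i + 1))
  df : ∀ k : ℤ, 2 ≤ k → k + 1 ≤ m → ∀ i : ℤ,
    Ds (V T (k - 1)) (V T k) (V T 0) (V 0 i) (V 0 (i + 1))

/-- The list of indices of the row `0`. -/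
def row0 (T m : ℕ) : List (Fin (T + 1) × ZMod m) := (List.range m).map fun i : ℕ => ix T m 0 i

end Pool.Agent.Lib.MP_ca0971_gt.OT.Sm
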